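import Pool.Agent.USQ.Targets

/-!
# Block BRK: linear maps preserving the symplectic form preserve the bracket
-/

set_option autoImplicit false

namespace Pool.Agent.USQ
open Pool.Agent.MSup

namespace BRK_

variable {ι : Type} [Fintype ι] [DecidableEq ι]

/-- the Hamiltonian vector of a functional -/
noncomputable def X (f : (ι → ℝ) × (ι → ℝ) →L[ℝ] ℝ) : (ι → ℝ) × (ι → ℝ) :=
  (fun i => -f (0, Pi.single i 1), fun i => f (Pi.single i 1, 0))

theorem expand (f : (ι → ℝ) × (ι → ℝ) →L[ℝ] ℝ) (u : (ι → ℝ) × (ι → ℝ)) :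
    f u = ∑ i, (u.1 i * f (Pi.single i 1, 0) + u.2 i * f (0, Pi.single i 1)) := by
  have h1 : u = ∑ i, (u.1 i • ((Pi.single i 1, 0) : (ι → ℝ) × (ι → ℝ)) +
      u.2 i • ((0, Pi.single i 1) : (ι → ℝ) × (ι → ℝ))) := by
    rw [Finset.sum_add_distrib]
    ext j
    · simp [Prod.fst_sum, Finset.sum_apply, Pi.single_apply]
    · simp [Prod.snd_sum, Finset.sum_apply, Pi.single_apply]
  conv_lhs => rw [h1]
  rw [map_sum]
  refine Finset.sum_congr rfl fun i _ => ?_
  rw [map_add, map_smul, map_smul, smul_eq_mul, smul_eq_mul]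

theorem sy_X (f : (ι → ℝ) × (ι → ℝ) →L[ℝ] ℝ) (u : (ι → ℝ) × (ι → ℝ)) : sy u (X f) = f u := by
  rw [expand f u]
  simp only [sy, ip, X]
  rw [← Finset.sum_sub_distrib]
  refine Finset.sum_congr rfl fun i _ => ?_
  ring

theorem brk (f g : (ι → ℝ) × (ι → ℝ) →L[ℝ] ℝ) :
    g (X f) = ∑ i, (f (Pi.single i 1, 0) * g (0, Pi.single i 1) -
      f (0, Pi.single i 1) * g (Pi.single i 1, 0)) := by
  rw [expand g (X f)]
  refine Finset.sum_congr rfl fun i _ => ?_
  simp only [X]
  ring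

theorem nondeg_left {u : (ι → ℝ) × (ι → ℝ)} (h : ∀ v, sy u v = 0) : u = 0 := by
  ext i
  · have := h (0, Pi.single i 1)
    simpa [sy, ip, Pi.single_apply] using this
  · have := h (Pi.single i 1, 0)
    simpa [sy, ip, Pi.single_apply] using this

omit [DecidableEq ι] in
theorem sy_anti (u v : (ι → ℝ) × (ι → ℝ)) : sy v u = -sy u v := by
  simp only [sy, ip]
  rw [neg_sub]
  congr 1 <;> exact Finset.sum_congr rfl fun i _ => mul_comm _ _

omit [DecidableEq ι] in
theorem sy_sub (u v w : (ι → ℝ) × (ι → ℝ)) : sy u (v - w) = sy u v - sy u w := by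
  simp only [sy, ip, Prod.fst_sub, Prod.snd_sub, Pi.sub_apply, mul_sub, Finset.sum_sub_distrib]
  ring

end BRK_

open BRK_ in
theorem p_BRK : T_BRK := by
  intro ι _ _ M hM
  have hinj : Function.Injective M := by
    refine (injective_iff_map_eq_zero M).2 fun u hu => nondeg_left fun v => ?_
    rw [← hM u v, hu]
    simp [sy, ip]
  have hsurj : Function.Surjective M :=
    (LinearMap.injective_iff_surjective (f := (M : (ι → ℝ) × (ι → ℝ) →ₗ[ℝ] (ι → ℝ) × (ι → ℝ)))).1
      hinj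
  refine ⟨⟨hinj, hsurj⟩, fun f g => ?_⟩
  have h1 : M (X (f.comp M)) = X f := by
    rw [← sub_eq_zero]
    refine nondeg_left fun w => ?_
    rw [sy_anti, neg_eq_zero]
    obtain ⟨u, rfl⟩ := hsurj w
    rw [sy_sub, hM, sy_X, sy_X]
    simp
  have h2 := brk (f.comp M) (g.comp M)
  have h3 := brk f g
  rw [← h3, ← h1]
  simp only [ContinuousLinearMap.comp_apply] at h2
  exact h2.symm

end Pool.Agent.USQ
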