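import Pool.Agent.USQ.Targets

/-!
# Block BRT: an integral is constant along one branch of the orbit
-/

set_option autoImplicit false

open Set Filter Topology MeasureTheory
open scoped ContDiff

namespace Pool.Agent.USQ
open Pool.Agent.MSup
open Pool.Agent.USP (Fr JJ GG Win Pot)

theorem BRT_.pt_diff {ι : Type} [Fintype ι] {r : ℕ} {T : Tor ι r} {S : ℝ} (hT : T.Ok S) {s : ℝ}
    (hs : s ∈ Ioo 0 S) (θ : Fin r → ℝ) (p : ℝ) : DifferentiableAt ℝ T.pt (s, θ, p) := by
  have h0 : DifferentiableAt ℝ (fun v : ℝ × (Fin r → ℝ) × ℝ => (v.1, v.2.1)) (s, θ, p) := by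
    fun_prop
  have hX : DifferentiableAt ℝ (fun v : ℝ × (Fin r → ℝ) × ℝ => T.X (v.1, v.2.1)) (s, θ, p) :=
    DifferentiableAt.comp (s, θ, p) (hT.dX s hs θ) h0
  have hA : DifferentiableAt ℝ (fun v : ℝ × (Fin r → ℝ) × ℝ => T.A (v.1, v.2.1)) (s, θ, p) :=
    DifferentiableAt.comp (s, θ, p) (hT.dA s hs θ) h0
  have hB : DifferentiableAt ℝ (fun v : ℝ × (Fin r → ℝ) × ℝ => T.B (v.1, v.2.1)) (s, θ, p) :=
    DifferentiableAt.comp (s, θ, p) (hT.dB s hs θ) h0
  have hp : DifferentiableAt ℝ (fun v : ℝ × (Fin r → ℝ) × ℝ => v.2.2) (s, θ, p) := by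
    fun_prop
  exact hX.prodMk (hA.add (hp.smul hB))

/-- An integral is constant along one branch of the orbit. -/
theorem p_BRT : T_BRT := by
  intro ι _ _ r T S H D hT hR F hF hint X ε hε s1 s2 hs1 hs2 hV Θ hΘ
  have hεε : ε * ε = 1 := by
    rcases hε with h | h <;> rw [h] <;> norm_num
  have hε0 : ε ≠ 0 := by
    rcases hε with h | h <;> rw [h] <;> norm_num
  have hmem : ∀ s ∈ Ioo s1 s2, s ∈ Ioo 0 S := fun s hs =>
    ⟨lt_of_le_of_lt hs1 hs.1, lt_of_lt_of_le hs.2 hs2⟩
  set p : ℝ → ℝ := D.pp X ε with hp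
  have hsgpos : ∀ s ∈ Ioo s1 s2, 0 < D.sg X s := by
    intro s hs
    have h1 := hR.pw s (hmem s hs)
    have h2 := hV s hs
    exact Real.sqrt_pos.2 (mul_pos h1 (by linarith))
  have hsgsq : ∀ s ∈ Ioo s1 s2, D.sg X s ^ 2 = D.w s * (X - D.V s) := by
    intro s hs
    have h1 := hR.pw s (hmem s hs)
    have h2 := hV s hs
    exact Real.sq_sqrt (mul_pos h1 (by linarith)).le
  have hwp : ∀ s ∈ Ioo s1 s2, D.w s * p s + D.h s = ε * D.sg X s := by
    intro s hs
    have h1 := (hR.pw s (hmem s hs)).ne'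
    simp only [hp, Rdt.pp]
    rw [mul_div_cancel₀ _ h1]
    ring
  have hlev : ∀ s ∈ Ioo s1 s2, D.w s * p s ^ 2 + 2 * D.h s * p s + D.U s = X := by
    intro s hs
    have h1 := (hR.pw s (hmem s hs)).ne'
    have h2 := hwp s hs
    have h3 := hsgsq s hs
    have h4 : (D.w s * p s + D.h s) ^ 2 = D.w s * (X - D.V s) := by
      rw [h2, mul_pow, h3, pow_two ε, hεε, one_mul]
    have h5 : D.V s = D.U s - D.h s ^ 2 / D.w s := rfl
    have h6 : D.w s * (D.h s ^ 2 / D.w s) = D.h s ^ 2 := mul_div_cancel₀ _ h1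
    have h7 : D.w s * (D.w s * p s ^ 2 + 2 * D.h s * p s + D.U s) = D.w s * X := by
      rw [h5] at h4
      linear_combination h4 + h6
    exact mul_left_cancel₀ h1 h7
  -- the derivative vanishes
  have key : ∀ s ∈ Ioo s1 s2,
      HasDerivAt (fun t => lift F (T.pt (t, Θ t, p t))) 0 s := by
    intro s hs
    have hs' := hmem s hs
    have hw0 := (hR.pw s hs').ne'
    have hsg := hsgpos s hs
    have dw : DifferentiableAt ℝ D.w s := (hR.sw s hs').differentiableAt (by norm_num)
    have dU : DifferentiableAt ℝ D.U s := (hR.sU s hs').differentiableAt (by norm_num)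
    have dh : DifferentiableAt ℝ D.h s := (hR.sh s hs').differentiableAt (by norm_num)
    have dV : DifferentiableAt ℝ D.V s := by
      unfold Rdt.V
      exact dU.sub ((dh.pow 2).div dw hw0)
    have dsg : DifferentiableAt ℝ (D.sg X) s := by
      unfold Rdt.sg
      refine (dw.mul (dV.const_sub X)).sqrt ?_
      have h1 := hR.pw s hs'
      have h2 := hV s hs
      exact (mul_pos h1 (by linarith)).ne'
    have dp : DifferentiableAt ℝ p s := by
      rw [hp]
      unfold Rdt.pp
      exact (dh.neg.add (dsg.const_mul ε)).div dw hw0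
    have hp' : HasDerivAt p (deriv p s) s := dp.hasDerivAt
    have h1 : HasDerivAt (fun t => D.w t * p t ^ 2 + 2 * D.h t * p t + D.U t)
        (deriv D.w s * p s ^ 2 + D.w s * (2 * p s * deriv p s) +
        (2 * deriv D.h s * p s + 2 * D.h s * deriv p s) + deriv D.U s) s := by
      have e1 := dw.hasDerivAt.mul (hp'.pow 2)
      have e2 := (dh.hasDerivAt.const_mul 2).mul hp'
      have e5 := (e1.add e2).add dU.hasDerivAt
      refine e5.congr_deriv ?_
      simp only [Pi.pow_apply, Nat.cast_ofNat]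
      ring
    have h2 : HasDerivAt (fun t => D.w t * p t ^ 2 + 2 * D.h t * p t + D.U t) 0 s := by
      refine (hasDerivAt_const s X).congr_of_eventuallyEq ?_
      filter_upwards [Ioo_mem_nhds hs.1 hs.2] with t ht
      exact hlev t ht
    have h3 := h1.unique h2
    have h4 := hwp s hs
    have hεs : ε * D.sg X s ≠ 0 := mul_ne_zero hε0 hsg.ne'
    have h5 : ε * D.sg X s * deriv p s = -(deriv D.w s * p s ^ 2 +
        2 * deriv D.h s * p s + deriv D.U s) / 2 := by
      rw [← h4]
      linear_combination (1 / 2 : ℝ) * h3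
    have h7 : ∀ j, ε * D.sg X s * (ε * (D.gt j s / D.sg X s) + D.γ s j / D.w s) =
        D.g s j + p s * D.γ s j := by
      intro j
      have e1 : D.sg X s * (D.gt j s / D.sg X s) = D.gt j s :=
        mul_div_cancel₀ _ hsg.ne'
      have e2 : ε * D.sg X s * (D.γ s j / D.w s) =
          p s * D.γ s j + D.h s / D.w s * D.γ s j := by
        rw [← h4]
        field_simp
      have e3 : D.gt j s = D.g s j - D.h s / D.w s * D.γ s j := rfl
      calc ε * D.sg X s * (ε * (D.gt j s / D.sg X s) + D.γ s j / D.w s)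
          = (ε * ε) * (D.sg X s * (D.gt j s / D.sg X s)) +
            ε * D.sg X s * (D.γ s j / D.w s) := by ring
        _ = D.gt j s + (p s * D.γ s j + D.h s / D.w s * D.γ s j) := by
            rw [e1, e2, hεε, one_mul]
        _ = D.g s j + p s * D.γ s j := by
            rw [e3]
            ring
    -- the vector
    set vel : Fin r → ℝ := fun j => ε * (D.gt j s / D.sg X s) + D.γ s j / D.w s with hvel
    have hz : T.pt (s, Θ s, p s) ∈ TS ι := hT.mem s hs' (Θ s) (p s)
    have h8 : (ε * D.sg X s) • ((1 : ℝ), vel, deriv p s) =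
        (D.w s * p s + D.h s, D.g s + p s • D.γ s,
          -(deriv D.w s * p s ^ 2 + 2 * deriv D.h s * p s + deriv D.U s) / 2) := by
      refine Prod.ext ?_ (Prod.ext ?_ ?_)
      · simp only [Prod.smul_fst, smul_eq_mul, mul_one]
        exact h4.symm
      · funext j
        simp only [Prod.smul_snd, Prod.smul_fst, Pi.smul_apply, smul_eq_mul, Pi.add_apply]
        exact h7 j
      · simp only [Prod.smul_snd, smul_eq_mul]
        exact h5
    have hdp := BRT_.pt_diff hT hs' (Θ s) (p s)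
    have h9 : fderiv ℝ (lift F) (T.pt (s, Θ s, p s))
        (fderiv ℝ T.pt (s, Θ s, p s) ((1 : ℝ), vel, deriv p s)) = 0 := by
      have e1 := fderiv_XH hint hz
      rw [hR.eq s hs', ← h8, map_smul, map_smul, smul_eq_mul] at e1
      exact (mul_eq_zero.1 e1).resolve_left hεs
    have hcur : HasDerivAt (fun t => (t, Θ t, p t)) ((1 : ℝ), vel, deriv p s) s :=
      (hasDerivAt_id s).prodMk ((hasDerivAt_pi.2 fun j => hΘ s hs j).prodMk hp')
    have h10 : HasDerivAt (fun t => T.pt (t, Θ t, p t))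
        (fderiv ℝ T.pt (s, Θ s, p s) ((1 : ℝ), vel, deriv p s)) s := by
      have hf : HasFDerivAt T.pt (fderiv ℝ T.pt (s, Θ s, p s))
          ((fun t => (t, Θ t, p t)) s) := hdp.hasFDerivAt
      exact hf.comp_hasDerivAt s hcur
    have hpos : 0 < ip (T.pt (s, Θ s, p s)).1 (T.pt (s, Θ s, p s)).1 := by
      rw [hz.1]
      norm_num
    have hd : DifferentiableAt ℝ (lift F) (T.pt (s, Θ s, p s)) :=
      (contDiffAt_lift hF hpos).differentiableAt (by norm_num)
    have h11 := hd.hasFDerivAt.comp_hasDerivAt s h10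
    rw [h9] at h11
    exact h11
  intro s hs t ht
  have hconst := isOpen_Ioo.is_const_of_deriv_eq_zero (isPreconnected_Ioo (a := s1) (b := s2))
    (f := fun t => lift F (T.pt (t, Θ t, p t)))
    (fun r hr => (key r hr).differentiableAt.differentiableWithinAt)
    (fun r hr => (key r hr).deriv) hs ht
  have e1 := lift_eq (F := F) (hT.mem s (hmem s hs) (Θ s) (p s))
  have e2 := lift_eq (F := F) (hT.mem t (hmem t ht) (Θ t) (p t))
  simp only [e1, e2] at hconst
  exact hconst

end Pool.Agent.USQ
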