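import Pool.Agent.USQ.Targets

/-!
# USQ: the coefficients vanish
-/

set_option autoImplicit false

open Set Filter Topology MeasureTheory
open scoped ContDiff

namespace Pool.Agent.USQ
open Pool.Agent.MSup
open Pool.Agent.USP (Fr JJ GG Win Pot)

namespace CO2_

/-- the integrand -/
noncomputable def f (w U q : ℝ → ℝ) (X y s : ℝ) : ℝ :=
  q s * √(max (X - U s - y * q s) 0) / √(w s)

variable {β : ℝ} {w U q : ℝ → ℝ}

theorem f_cont (cw : ContinuousOn w (Icc 0 β)) (pw : ∀ s ∈ Icc 0 β, 0 < w s)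
    (cU : ContinuousOn U (Ioo 0 β)) (cq : ContinuousOn q (Ioo 0 β)) (X y : ℝ) :
    ContinuousOn (f w U q X y) (Ioo 0 β) := by
  have h3 : ContinuousOn w (Ioo 0 β) := cw.mono Ioo_subset_Icc_self
  unfold f
  refine ContinuousOn.div (cq.mul (ContinuousOn.sqrt ?_)) h3.sqrt ?_
  · exact ContinuousOn.sup ((continuousOn_const.sub cU).sub (continuousOn_const.mul cq))
      continuousOn_const
  · intro s hs
    exact (Real.sqrt_pos.2 (pw s ⟨hs.1.le, hs.2.le⟩)).ne'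

theorem f_bdd (hβ : 0 < β) (cw : ContinuousOn w (Icc 0 β)) (pw : ∀ s ∈ Icc 0 β, 0 < w s)
    (pU : ∀ s ∈ Ioo 0 β, 0 ≤ U s) {C : ℝ} (hC : ∀ s ∈ Ioo 0 β, |q s| ≤ C) (X y : ℝ) :
    ∃ M : ℝ, ∀ s ∈ Ioo 0 β, |f w U q X y s| ≤ M := by
  obtain ⟨s0, hs0, hmin⟩ := (isCompact_Icc (a := (0 : ℝ)) (b := β)).exists_isMinOn
    (nonempty_Icc.2 hβ.le) cw
  have hw0 : 0 < w s0 := pw s0 hs0
  have hC0 : 0 ≤ C := (abs_nonneg _).trans
    (hC (β / 2) ⟨by linarith, by linarith⟩)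
  refine ⟨C * √(|X| + |y| * C) / √(w s0), fun s hs => ?_⟩
  have h1 : |q s| ≤ C := hC s hs
  have h2 : w s0 ≤ w s := hmin ⟨hs.1.le, hs.2.le⟩
  have h3 : 0 ≤ U s := pU s hs
  have h4 : max (X - U s - y * q s) 0 ≤ |X| + |y| * C := by
    apply max_le
    · have h5 : |y * q s| ≤ |y| * C := by
        rw [abs_mul]
        exact mul_le_mul_of_nonneg_left h1 (abs_nonneg _)
      have h6 := neg_abs_le (y * q s)
      have h7 := le_abs_self X
      linarith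
    · positivity
  unfold f
  rw [abs_div, abs_mul, abs_of_nonneg (Real.sqrt_nonneg (w s)),
    abs_of_nonneg (Real.sqrt_nonneg (max (X - U s - y * q s) 0))]
  have h5 : 0 < √(w s0) := Real.sqrt_pos.2 hw0
  have h6 : √(w s0) ≤ √(w s) := Real.sqrt_le_sqrt h2
  have h7 := Real.sqrt_le_sqrt h4
  gcongr

theorem f_int (hβ : 0 < β) (cw : ContinuousOn w (Icc 0 β)) (pw : ∀ s ∈ Icc 0 β, 0 < w s)
    (cU : ContinuousOn U (Ioo 0 β)) (cq : ContinuousOn q (Ioo 0 β))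
    (pU : ∀ s ∈ Ioo 0 β, 0 ≤ U s) {C : ℝ} (hC : ∀ s ∈ Ioo 0 β, |q s| ≤ C) (X y : ℝ) :
    IntegrableOn (f w U q X y) (Ioo 0 β) := by
  obtain ⟨M, hM⟩ := f_bdd hβ cw pw pU hC X y
  refine Integrable.of_bound (C := M)
    ((f_cont cw pw cU cq X y).aestronglyMeasurable measurableSet_Ioo) ?_
  exact (ae_restrict_iff' measurableSet_Ioo).2 (Eventually.of_forall fun s hs => by
      rw [Real.norm_eq_abs]
      exact hM s hs)

/-- vanishing of `q` -/
theorem van (hβ : 0 < β) (cw : ContinuousOn w (Icc 0 β)) (pw : ∀ s ∈ Icc 0 β, 0 < w s)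
    (cU : ContinuousOn U (Ioo 0 β)) (cq : ContinuousOn q (Ioo 0 β))
    (pU : ∀ s ∈ Ioo 0 β, 0 ≤ U s) {C : ℝ} (hC : ∀ s ∈ Ioo 0 β, |q s| ≤ C)
    (h1 : ∀ X, ∫ s in Ioo 0 β, f w U q X 1 s = 0)
    (h2 : ∀ X, ∫ s in Ioo 0 β, f w U q X (1 / 4) s = 0) : ∀ s ∈ Ioo 0 β, q s = 0 := by
  intro s hs
  set X : ℝ := U s + 1 + |q s| with hX
  have i1 := f_int hβ cw pw cU cq pU hC X 1
  have i2 := f_int hβ cw pw cU cq pU hC X (1 / 4)
  have e1 : ∫ t in Ioo 0 β, (f w U q X (1 / 4) t - f w U q X 1 t) = 0 := by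
    rw [integral_sub i2 i1, h1, h2, sub_zero]
  have e2 : ∀ t : ℝ, 0 ≤ f w U q X (1 / 4) t - f w U q X 1 t := by
    intro t
    unfold f
    rw [← sub_div, ← mul_sub]
    apply div_nonneg _ (Real.sqrt_nonneg _)
    rcases le_total 0 (q t) with h | h
    · apply mul_nonneg h
      rw [sub_nonneg]
      apply Real.sqrt_le_sqrt
      apply max_le_max_right
      linarith
    · apply mul_nonneg_of_nonpos_of_nonpos h
      rw [sub_nonpos]
      apply Real.sqrt_le_sqrt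
      apply max_le_max_right
      linarith
  have e3 := (setIntegral_eq_zero_iff_of_nonneg_ae (Eventually.of_forall e2)
    (i2.sub i1)).1 e1
  have e4 := Measure.eqOn_open_of_ae_eq e3 isOpen_Ioo
    ((f_cont cw pw cU cq X (1 / 4)).sub (f_cont cw pw cU cq X 1)) continuousOn_const
  have e5 : f w U q X (1 / 4) s - f w U q X 1 s = 0 := e4 hs
  by_contra hc
  have hw : 0 < √(w s) := Real.sqrt_pos.2 (pw s ⟨hs.1.le, hs.2.le⟩)
  unfold f at e5
  rw [← sub_div, ← mul_sub] at e5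
  rcases div_eq_zero_iff.1 e5 with h | h
  · rcases mul_eq_zero.1 h with h | h
    · exact hc h
    · have h2 : 0 ≤ X - U s - 1 / 4 * q s := by
        rw [hX]
        have h4 := abs_nonneg (q s)
        have h5 := le_abs_self (q s)
        linarith
      have h3 : 0 ≤ X - U s - 1 * q s := by
        rw [hX]
        have h4 := abs_nonneg (q s)
        have h5 := le_abs_self (q s)
        linarith
      rw [max_eq_left h2, max_eq_left h3, sub_eq_zero, Real.sqrt_inj h2 h3] at h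
      apply hc
      linarith
  · exact hw.ne' h

theorem GG_eq {D : Fn} (m : Fin 4 → ℝ) (m' : Fin 4 → ℝ) (X y : ℝ) (h0 : m 0 = 1) (h1 : m 1 = 1)
    (hy : y ≠ 0) (hq : ∀ s, D.q m s = y * D.q m' s)
    (h : GG 0 (Real.pi / 2) (D.V m) D.w (D.q m) X = 0) :
    ∫ s in Ioo 0 (Real.pi / 2), f D.w (fun s => D.u1 s + D.u2 s) (D.q m') X y s = 0 := by
  unfold GG at h
  rw [intervalIntegral.integral_of_le (by positivity), integral_Ioc_eq_integral_Ioo] at h
  have h2 : ∫ s in Ioo 0 (Real.pi / 2),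
      y * f D.w (fun s => D.u1 s + D.u2 s) (D.q m') X y s = 0 := by
    refine Eq.trans ?_ h
    congr 1
    funext s
    unfold f
    have h3 : D.V m s = D.u1 s + D.u2 s + y * D.q m' s := by
      unfold Fn.V
      rw [h0, h1, hq]
      ring
    rw [h3, hq]
    have h4 : X - (D.u1 s + D.u2 s) - y * D.q m' s = X - (D.u1 s + D.u2 s + y * D.q m' s) := by
      ring
    rw [h4]
    ring
  rw [integral_const_mul] at h2
  exact (mul_eq_zero.1 h2).resolve_left hy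

theorem one {D : Fn} (hD : Sus2 D)
    (h : ∀ m : Fin 4 → ℝ, 0 < m 0 → 0 < m 1 → |m 2| < m 0 → |m 3| < m 1 → ∀ X : ℝ,
      GG 0 (Real.pi / 2) (D.V m) D.w (D.q m) X = 0) (K₁ K₂ : ℝ) (h1 : |K₁| < 1) (h2 : |K₂| < 1) :
    ∀ s ∈ Ioo 0 (Real.pi / 2), D.q ![1, 1, K₁, K₂] s = 0 := by
  have hpi : 0 < Real.pi / 2 := by positivity
  have c11 : ContinuousOn D.c11 (Ioo 0 (Real.pi / 2)) := fun s hs =>
    (hD.s11 s hs).continuousAt.continuousWithinAt
  have c12 : ContinuousOn D.c12 (Ioo 0 (Real.pi / 2)) := fun s hs =>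
    (hD.s12 s hs).continuousAt.continuousWithinAt
  have c22 : ContinuousOn D.c22 (Ioo 0 (Real.pi / 2)) := fun s hs =>
    (hD.s22 s hs).continuousAt.continuousWithinAt
  have cu1 : ContinuousOn D.u1 (Ioo 0 (Real.pi / 2)) := fun s hs =>
    (hD.su1 s hs).continuousAt.continuousWithinAt
  have cu2 : ContinuousOn D.u2 (Ioo 0 (Real.pi / 2)) := fun s hs =>
    (hD.su2 s hs).continuousAt.continuousWithinAt
  have cq : ContinuousOn (D.q ![1, 1, K₁, K₂]) (Ioo 0 (Real.pi / 2)) := by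
    unfold Fn.q
    exact ((c11.mul continuousOn_const).add
      (((continuousOn_const.mul c12).mul continuousOn_const).mul continuousOn_const)).add
      (c22.mul continuousOn_const)
  obtain ⟨u0, hu0, hu⟩ := hD.pu
  obtain ⟨C, hC⟩ := hD.bc
  have hbq : ∀ s ∈ Ioo 0 (Real.pi / 2), |D.q ![1, 1, K₁, K₂] s| ≤ 4 * C := by
    intro s hs
    obtain ⟨b1, _, b2, _, b3, _⟩ := hC s hs
    have hC0 : 0 ≤ C := (abs_nonneg _).trans b1
    have e1 : D.q ![1, 1, K₁, K₂] s = D.c11 s * K₁ ^ 2 + 2 * D.c12 s * K₁ * K₂ +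
        D.c22 s * K₂ ^ 2 := rfl
    rw [e1]
    have k1 : |K₁ ^ 2| ≤ 1 := by
      rw [abs_pow]
      exact pow_le_one₀ (abs_nonneg _) h1.le
    have k2 : |K₂ ^ 2| ≤ 1 := by
      rw [abs_pow]
      exact pow_le_one₀ (abs_nonneg _) h2.le
    have t1 : |D.c11 s * K₁ ^ 2| ≤ C * 1 := by
      rw [abs_mul]
      exact mul_le_mul b1 k1 (abs_nonneg _) hC0
    have t2 : |D.c22 s * K₂ ^ 2| ≤ C * 1 := by
      rw [abs_mul]
      exact mul_le_mul b3 k2 (abs_nonneg _) hC0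
    have t3 : |2 * D.c12 s * K₁ * K₂| ≤ 2 * C * 1 * 1 := by
      rw [abs_mul, abs_mul, abs_mul, abs_two]
      have := abs_nonneg K₁
      have := abs_nonneg K₂
      have := abs_nonneg (D.c12 s)
      gcongr
    calc |D.c11 s * K₁ ^ 2 + 2 * D.c12 s * K₁ * K₂ + D.c22 s * K₂ ^ 2|
        ≤ |D.c11 s * K₁ ^ 2 + 2 * D.c12 s * K₁ * K₂| + |D.c22 s * K₂ ^ 2| := abs_add_le _ _
      _ ≤ |D.c11 s * K₁ ^ 2| + |2 * D.c12 s * K₁ * K₂| + |D.c22 s * K₂ ^ 2| := by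
          have := abs_add_le (D.c11 s * K₁ ^ 2) (2 * D.c12 s * K₁ * K₂)
          linarith
      _ ≤ 4 * C := by linarith
  refine van hpi hD.cw hD.pw (U := fun s => D.u1 s + D.u2 s) (cu1.add cu2) cq ?_ hbq ?_ ?_
  · intro s hs
    have := hu s hs
    show 0 ≤ D.u1 s + D.u2 s
    linarith [this.1, this.2]
  · intro X
    exact GG_eq ![1, 1, K₁, K₂] ![1, 1, K₁, K₂] X 1 rfl rfl one_ne_zero
      (fun s => (one_mul _).symm) (h _ one_pos one_pos h1 h2 X)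
  · intro X
    refine GG_eq ![1, 1, K₁ / 2, K₂ / 2] ![1, 1, K₁, K₂] X (1 / 4) rfl rfl (by norm_num) ?_
      (h _ one_pos one_pos ?_ ?_ X)
    · intro s
      show D.c11 s * (K₁ / 2) ^ 2 + 2 * D.c12 s * (K₁ / 2) * (K₂ / 2) +
        D.c22 s * (K₂ / 2) ^ 2 = 1 / 4 * (D.c11 s * K₁ ^ 2 + 2 * D.c12 s * K₁ * K₂ +
        D.c22 s * K₂ ^ 2)
      ring
    · show |K₁ / 2| < 1
      rw [abs_div, abs_two]
      linarith
    · show |K₂ / 2| < 1
      rw [abs_div, abs_two]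
      linarith

end CO2_

/-- the coefficients vanish -/
theorem p_CO2 : T_CO2 := by
  intro D hD h s hs
  have hh : |(1 / 2 : ℝ)| < 1 := by rw [abs_of_pos (by norm_num)]; norm_num
  have h0 : |(0 : ℝ)| < 1 := by rw [abs_zero]; norm_num
  have e1 := CO2_.one hD h (1 / 2) 0 hh h0 s hs
  have e2 := CO2_.one hD h 0 (1 / 2) h0 hh s hs
  have e3 := CO2_.one hD h (1 / 2) (1 / 2) hh hh s hs
  have f1 : D.c11 s * (1 / 2) ^ 2 + 2 * D.c12 s * (1 / 2) * 0 + D.c22 s * 0 ^ 2 = 0 := e1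
  have f2 : D.c11 s * 0 ^ 2 + 2 * D.c12 s * 0 * (1 / 2) + D.c22 s * (1 / 2) ^ 2 = 0 := e2
  have f3 : D.c11 s * (1 / 2) ^ 2 + 2 * D.c12 s * (1 / 2) * (1 / 2) + D.c22 s * (1 / 2) ^ 2 = 0 :=
    e3
  refine ⟨by linarith, by linarith, by linarith⟩

end Pool.Agent.USQ
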