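import Pool.Agent.USQ.P_HOM

/-!
# USQ, CTS: the cotangent lift and its inverse
-/

set_option autoImplicit false

open Set Filter Topology MeasureTheory
open scoped ContDiff

namespace Pool.Agent.USQ
open Pool.Agent.MSup

theorem p_CTS : T_CTS := by
  intro tan ι _ _ G G' D
  have D' := HOM_.dif_symm D
  have hmem : ∀ z ∈ TS ι, cot G G' z ∈ TS ι := by
    intro z hz
    have hG1 := D.mG _ hz.1
    exact ⟨hG1, HOM_.ip_tproj_self hG1⟩
  refine ⟨D', hmem, ?_⟩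
  intro z hz
  obtain ⟨h1, h2⟩ := hz
  have hG1 := D.mG _ h1
  have e1 : (cot G G' z).1 = G z.1 := rfl
  rw [cot, e1, D.l _ h1]
  refine Prod.ext rfl ?_
  symm
  refine HOM_.eq_tproj h1 h2 ?_
  intro ξ hξ
  obtain ⟨t1, t2⟩ := tan ι G G' D z.1 ξ h1 hξ
  rw [HOM_.ip_transpose]
  show ip z.2 ξ = ip (fderiv ℝ G z.1 ξ) (cot G G' z).2
  rw [HOM_.ip_comm (fderiv ℝ G z.1 ξ)]
  show ip z.2 ξ = ip (tproj (G z.1) (fun i => ip (fderiv ℝ G' (G z.1) (Pi.single i 1)) z.2)) _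
  rw [HOM_.ip_tproj t1, HOM_.ip_transpose, t2, HOM_.ip_comm]

end Pool.Agent.USQ
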