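import Pool.Agent.USQ.Targets
import Pool.Agent.USP.P_FEX

set_option autoImplicit false

open Set Filter Topology MeasureTheory
open scoped ContDiff

namespace Pool.Agent.USQ
open Pool.Agent.MSup
open Pool.Agent.USP (Fr JJ GG Win Pot)

namespace DE2_

section
variable {a b : ℕ}

/-- `y·y` -/
def yy (z : Ph a b) : ℝ := ip (yc z.1) (yc z.1)

/-- `y·η` -/
def ye (z : Ph a b) : ℝ := ip (yc z.1) (yc z.2)

/-- Gram determinant of the first factor -/
def G1 (z : Ph a b) : ℝ :=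
  ip (yc z.1) (yc z.1) * ip (yc z.2) (yc z.2) - ip (yc z.1) (yc z.2) ^ 2

/-- Gram determinant of the second factor -/
def G2 (z : Ph a b) : ℝ :=
  ip (zc z.1) (zc z.1) * ip (zc z.2) (zc z.2) - ip (zc z.1) (zc z.2) ^ 2

theorem cont_y1 : Continuous (fun z : Ph a b => yc z.1) := by
  unfold yc
  fun_prop

theorem cont_y2 : Continuous (fun z : Ph a b => yc z.2) := by
  unfold yc
  fun_prop

theorem cont_z1 : Continuous (fun z : Ph a b => zc z.1) := by
  unfold zc
  fun_prop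

theorem cont_z2 : Continuous (fun z : Ph a b => zc z.2) := by
  unfold zc
  fun_prop

theorem cont_ip {X : Type} [TopologicalSpace X] {n : ℕ} {f g : X → Fin n → ℝ}
    (hf : Continuous f) (hg : Continuous g) : Continuous (fun x => ip (f x) (g x)) := by
  unfold ip
  apply continuous_finsetSum
  intro i _
  exact ((continuous_apply i).comp hf).mul ((continuous_apply i).comp hg)

theorem cont_yy : Continuous (yy (a := a) (b := b)) := cont_ip cont_y1 cont_y1

theorem cont_ye : Continuous (ye (a := a) (b := b)) := cont_ip cont_y1 cont_y2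

theorem cont_G1 : Continuous (G1 (a := a) (b := b)) := by
  unfold G1
  exact ((cont_ip cont_y1 cont_y1).mul (cont_ip cont_y2 cont_y2)).sub
    ((cont_ip cont_y1 cont_y2).pow 2)

theorem cont_G2 : Continuous (G2 (a := a) (b := b)) := by
  unfold G2
  exact ((cont_ip cont_z1 cont_z1).mul (cont_ip cont_z2 cont_z2)).sub
    ((cont_ip cont_z1 cont_z2).pow 2)

theorem cont_k1 (J : (Fin a → ℝ) →ₗ[ℝ] (Fin a → ℝ)) : Continuous (fun z : Ph a b => k1 J z) := by
  unfold k1
  exact cont_ip (J.continuous_of_finiteDimensional.comp cont_y1) cont_y2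

theorem cont_k2 (J : (Fin b → ℝ) →ₗ[ℝ] (Fin b → ℝ)) : Continuous (fun z : Ph a b => k2 J z) := by
  unfold k2
  exact cont_ip (J.continuous_of_finiteDimensional.comp cont_z1) cont_z2

/-- the coefficient `h` of `rd2` -/
noncomputable def hh (c : Co) (s K₁ K₂ : ℝ) : ℝ :=
  -(Real.sin s * Real.cos s * (c.D (Real.cos s ^ 2) * K₁ + c.E (Real.cos s ^ 2) * K₂))

theorem cont_W (c : Co) (hc : c.Smooth) : Continuous c.W := by
  have h1 := hc.P.continuous
  have h2 := hc.Q.continuous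
  have h3 := hc.R.continuous
  show Continuous fun t => (1 - t) * c.P t + t * c.Q t + t * (1 - t) * c.R t
  fun_prop

theorem cont_hh (c : Co) (hc : c.Smooth) {X : Type} [TopologicalSpace X] {s K₁ K₂ : X → ℝ}
    (hs : Continuous s) (h1 : Continuous K₁) (h2 : Continuous K₂) :
    Continuous (fun x => hh c (s x) (K₁ x) (K₂ x)) := by
  unfold hh
  have e0 : Continuous fun x => Real.cos (s x) ^ 2 := (Real.continuous_cos.comp hs).pow 2
  have e1 : Continuous fun x => c.D (Real.cos (s x) ^ 2) := hc.D.continuous.comp e0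
  have e2 : Continuous fun x => c.E (Real.cos (s x) ^ 2) := hc.E.continuous.comp e0
  have e3 : Continuous fun x => Real.sin (s x) := Real.continuous_sin.comp hs
  have e4 : Continuous fun x => Real.cos (s x) := Real.continuous_cos.comp hs
  exact ((e3.mul e4).mul ((e1.mul h1).add (e2.mul h2))).neg

end

theorem near {X : Type} [TopologicalSpace X] {f : X → ℝ} {x : X} {y ε : ℝ}
    (hf : ContinuousAt f x) (e : f x = y) (hε : 0 < ε) : ∀ᶠ z in 𝓝 x, |f z - y| < ε := by
  have h1 : Tendsto f (𝓝 x) (𝓝 y) := by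
    have := hf.tendsto
    rwa [e] at this
  filter_upwards [h1.eventually (Metric.ball_mem_nhds y hε)] with z hz
  rw [← Real.dist_eq]
  exact hz

end DE2_

open DE2_

/-- Density of the good points. -/
theorem p_DE2 : T_DE2 := by
  intro hFR hVA hOK a b J₁ J₂ hs1 hq1 hs2 hq2 ha hb c hc hW H hMS
  obtain ⟨F, hP, hI, U, hU, hcl, hLI⟩ := hMS
  refine ⟨F, hP, hI, ?_⟩
  intro s1 hs m1 hm0 hm1 hm2 hm3 ε hε
  obtain ⟨R₁', hR1J, hR1k⟩ := Pool.Agent.USP.p_FEX (Fin a) J₁ hs1 hq1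
    (by rw [Fintype.card_fin]; exact ha) (m1 2 / m1 0)
    (abs_lt.1 (by rw [abs_div, abs_of_pos hm0, div_lt_one hm0]; exact hm2))
  obtain ⟨R₂', hR2J, hR2k⟩ := Pool.Agent.USP.p_FEX (Fin b) J₂ hs2 hq2
    (by rw [Fintype.card_fin]; exact hb) (m1 3 / m1 1)
    (abs_lt.1 (by rw [abs_div, abs_of_pos hm1, div_lt_one hm1]; exact hm3))
  have hsin : 0 < Real.sin s1 := Real.sin_pos_of_pos_of_lt_pi hs.1 (by linarith [hs.2, Real.pi_pos])
  have hcos : 0 < Real.cos s1 := Real.cos_pos_of_mem_Ioo ⟨by linarith [hs.1, Real.pi_pos], hs.2⟩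
  have hsc := Real.sin_sq_add_cos_sq s1
  have hw : 0 < c.W (Real.cos s1 ^ 2) :=
    hW _ ⟨sq_nonneg _, by nlinarith [sq_nonneg (Real.sin s1)]⟩
  set p' : ℝ := (1 - hh c s1 (m1 2) (m1 3)) / c.W (Real.cos s1 ^ 2) with hp'
  have hp1 : c.W (Real.cos s1 ^ 2) * p' + hh c s1 (m1 2) (m1 3) = 1 := by
    rw [hp']
    field_simp
    ring
  set z' : Ph a b := (T2 R₁' R₂' (m1 0) (m1 1)).pt (s1, 0, p') with hz'
  have hzTS : z' ∈ TS (Fin a ⊕ Fin b) := (hOK a b R₁' R₂' (m1 0) (m1 1)).mem s1 hs 0 p'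
  obtain ⟨v1, v2, v3, v4, v5, v6, v7, v8⟩ :=
    hVA a b R₁' R₂' (m1 0) (m1 1) s1 0 p' hsin.ne' hcos.ne' z' hz'
  rw [hR1J, hR1k, div_mul_cancel₀ _ hm0.ne'] at v7
  rw [hR2J, hR2k, div_mul_cancel₀ _ hm1.ne'] at v8
  have g1 : G1 z' = m1 0 ^ 2 := by
    unfold G1
    rw [v1, v3, v5]
    field_simp
    ring
  have g2 : G2 z' = m1 1 ^ 2 := by
    unfold G2
    rw [v2, v4, v6]
    field_simp
    ring
  have gy : yy z' = Real.cos s1 ^ 2 := v1
  have ge : ye z' = -(p' * Real.sin s1 * Real.cos s1) := v3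
  -- the functions
  have es' : Real.arccos (√(yy z')) = s1 := by
    rw [gy, Real.sqrt_sq hcos.le, Real.arccos_cos hs.1.le (by linarith [hs.2, Real.pi_pos])]
  have cs : Continuous (fun z : Ph a b => Real.arccos (√(yy z))) :=
    Real.continuous_arccos.comp (Real.continuous_sqrt.comp cont_yy)
  have ep' : -ye z' / (Real.sin (Real.arccos (√(yy z'))) * Real.cos (Real.arccos (√(yy z')))) =
      p' := by
    rw [es', ge]
    field_simp
  have cp : ContinuousAt (fun z : Ph a b => -ye z /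
      (Real.sin (Real.arccos (√(yy z))) * Real.cos (Real.arccos (√(yy z))))) z' := by
    apply ContinuousAt.div
    · exact cont_ye.neg.continuousAt
    · exact ((Real.continuous_sin.comp cs).mul (Real.continuous_cos.comp cs)).continuousAt
    · rw [es']
      exact (mul_pos hsin hcos).ne'
  have cG : ContinuousAt (fun z : Ph a b => c.W (Real.cos (Real.arccos (√(yy z))) ^ 2) * (-ye z /
      (Real.sin (Real.arccos (√(yy z))) * Real.cos (Real.arccos (√(yy z))))) +
      hh c (Real.arccos (√(yy z))) (k1 J₁ z) (k2 J₂ z)) z' :=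
    ((((cont_W c hc).comp ((Real.continuous_cos.comp cs).pow 2)).continuousAt).mul cp).add
      (cont_hh c hc cs (cont_k1 J₁) (cont_k2 J₂)).continuousAt
  have hq1' : √(G1 z') = m1 0 := by rw [g1, Real.sqrt_sq hm0.le]
  have hq2' : √(G2 z') = m1 1 := by rw [g2, Real.sqrt_sq hm1.le]
  have c1 : Continuous (fun z : Ph a b => √(G1 z)) := Real.continuous_sqrt.comp cont_G1
  have c2 : Continuous (fun z : Ph a b => √(G2 z)) := Real.continuous_sqrt.comp cont_G2
  -- the open conditions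
  have e1 := near cs.continuousAt es' hε
  have e2 := near c1.continuousAt hq1' hε
  have e3 := near c2.continuousAt hq2' hε
  have e4 := near (cont_k1 J₁).continuousAt v7 hε
  have e5 := near (cont_k2 J₂).continuousAt v8 hε
  have e6 : ∀ᶠ z in 𝓝 z', |k1 J₁ z| < √(G1 z) :=
    ((cont_k1 J₁).abs.continuousAt).eventually_lt c1.continuousAt (by rw [v7, hq1']; exact hm2)
  have e7 : ∀ᶠ z in 𝓝 z', |k2 J₂ z| < √(G2 z) :=
    ((cont_k2 J₂).abs.continuousAt).eventually_lt c2.continuousAt (by rw [v8, hq2']; exact hm3)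
  have e8 := cG.eventually_ne (y := 0) (by
    rw [ep', es', v7, v8, hp1]
    exact one_ne_zero)
  have e9 : ∀ᶠ z in 𝓝 z', 0 < G1 z :=
    (continuousAt_const.eventually_lt cont_G1.continuousAt (by rw [g1]; positivity))
  have e10 : ∀ᶠ z in 𝓝 z', 0 < G2 z :=
    (continuousAt_const.eventually_lt cont_G2.continuousAt (by rw [g2]; positivity))
  have hfr : ∃ᶠ z in 𝓝 z', z ∈ U ∩ TS (Fin a ⊕ Fin b) := mem_closure_iff_frequently.mp (hcl hzTS)
  obtain ⟨z, ⟨hzU, hzT⟩, h1, h2, h3, h4, h5, h6, h7, h8, h9, h10⟩ :=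
    (hfr.and_eventually (e1.and (e2.and (e3.and (e4.and (e5.and (e6.and (e7.and (e8.and
      (e9.and e10)))))))))).exists
  obtain ⟨R₁, R₂, hJ1, hJ2, s, hs0, p, L₁, L₂, hL1, hL2, hzP, hcs, hG1, hG2, hK1, hK2, hps⟩ :=
    hFR a b J₁ J₂ hs1 hq1 hs2 hq2 z hzT h9 h10
  have hsin0 : 0 < Real.sin s :=
    Real.sin_pos_of_pos_of_lt_pi hs0.1 (by linarith [hs0.2, Real.pi_pos])
  have hcos0 : 0 < Real.cos s :=
    Real.cos_pos_of_mem_Ioo ⟨by linarith [hs0.1, Real.pi_pos], hs0.2⟩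
  have es : Real.arccos (√(yy z)) = s := by
    have : yy z = Real.cos s ^ 2 := hcs.symm
    rw [this, Real.sqrt_sq hcos0.le, Real.arccos_cos hs0.1.le (by linarith [hs0.2, Real.pi_pos])]
  have eL1 : √(G1 z) = L₁ := by
    have : G1 z = L₁ ^ 2 := hG1.symm
    rw [this, Real.sqrt_sq hL1.le]
  have eL2 : √(G2 z) = L₂ := by
    have : G2 z = L₂ ^ 2 := hG2.symm
    rw [this, Real.sqrt_sq hL2.le]
  have ep : -ye z / (Real.sin s * Real.cos s) = p := by
    have : -ye z = p * (Real.sin s * Real.cos s) := hps.symm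
    rw [this]
    field_simp
  rw [es] at h1 h8
  rw [eL1] at h2 h6
  rw [eL2] at h3 h7
  rw [ep] at h8
  rw [← hK1] at h4 h6 h8
  rw [← hK2] at h5 h7 h8
  refine ⟨R₁, R₂, hJ1, hJ2, s, hs0, p, L₁, L₂, hL1, hL2, h1, h2, h3, h4, h5, ?_, ?_, h8, ?_⟩
  · rw [abs_mul, abs_of_pos hL1] at h6
    exact lt_of_mul_lt_mul_right (by rw [one_mul]; exact h6) hL1.le
  · rw [abs_mul, abs_of_pos hL2] at h7
    exact lt_of_mul_lt_mul_right (by rw [one_mul]; exact h7) hL2.le
  · rw [← hzP]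
    exact hLI z ⟨hzU, hzT⟩

end Pool.Agent.USQ
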