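import Pool.Agent.USQ.Targets
import Pool.Agent.USP.P_DER

/-!
# USQ-DT2: the derivative of the torus family of two frames (MP_337148_gt)
-/

set_option autoImplicit false

open Set Filter Topology MeasureTheory

namespace Pool.Agent.USQ
open Pool.Agent.MSup
open Pool.Agent.USP (Fr)

namespace DT2_

variable {n : ℕ} (R : Fr (Fin n)) {E : Type} [NormedAddCommGroup E] [NormedSpace ℝ E]

lemma dif_om {f g : E → ℝ} {x : E} (hf : DifferentiableAt ℝ f x) (hg : DifferentiableAt ℝ g x)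
    (i : Fin n) : DifferentiableAt ℝ (fun y => R.om (f y) (g y) i) x := by
  have he : (fun y => R.om (f y) (g y) i) = fun y =>
      Real.cos (g y) * (Real.cos (f y) * R.w i + Real.sin (f y) * R.v i) +
      Real.sin (g y) * (Real.cos (f y) * R.J R.w i + Real.sin (f y) * R.J R.v i) := by
    funext y
    exact Pool.Agent.USP.DER_.om_app R _ _ i
  rw [he]
  fun_prop

lemma dif_om' {f g : E → ℝ} {x : E} (hf : DifferentiableAt ℝ f x) (hg : DifferentiableAt ℝ g x)
    (i : Fin n) : DifferentiableAt ℝ (fun y => R.om' (f y) (g y) i) x := by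
  have he : (fun y => R.om' (f y) (g y) i) = fun y =>
      Real.cos (g y) * (-Real.sin (f y) * R.w i + Real.cos (f y) * R.v i) +
      Real.sin (g y) * (-Real.sin (f y) * R.J R.w i + Real.cos (f y) * R.J R.v i) := by
    funext y
    exact Pool.Agent.USP.DER_.om'_app R _ _ i
  rw [he]
  fun_prop

lemma dif_th (j : Fin 4) (v : ℝ × (Fin 4 → ℝ) × ℝ) :
    DifferentiableAt ℝ (fun v : ℝ × (Fin 4 → ℝ) × ℝ => v.2.1 j) v := by
  fun_prop

end DT2_

open DT2_

theorem p_DT2 : T_DT2 := by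
  intro a b R₁ R₂ L₁ L₂ s hs θ p
  have hs0 : Real.sin s ≠ 0 :=
    (Real.sin_pos_of_pos_of_lt_pi hs.1 (by linarith [hs.2, Real.pi_pos])).ne'
  have hc0 : Real.cos s ≠ 0 :=
    (Real.cos_pos_of_mem_Ioo ⟨by linarith [hs.1, Real.pi_pos], hs.2⟩).ne'
  have hd : DifferentiableAt ℝ (T2 R₁ R₂ L₁ L₂).pt (s, θ, p) := by
    have e1 : DifferentiableAt ℝ (fun v : ℝ × (Fin 4 → ℝ) × ℝ => v.1) (s, θ, p) := by fun_prop
    have e2 : DifferentiableAt ℝ (fun v : ℝ × (Fin 4 → ℝ) × ℝ => v.2.2) (s, θ, p) := by fun_prop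
    have q1 : DifferentiableAt ℝ (fun v : ℝ × (Fin 4 → ℝ) × ℝ => L₁ / Real.cos v.1)
        (s, θ, p) := by
      simp only [div_eq_mul_inv]
      exact (differentiableAt_const L₁).fun_mul (e1.cos.fun_inv hc0)
    have q2 : DifferentiableAt ℝ (fun v : ℝ × (Fin 4 → ℝ) × ℝ => L₂ / Real.sin v.1)
        (s, θ, p) := by
      simp only [div_eq_mul_inv]
      exact (differentiableAt_const L₂).fun_mul (e1.sin.fun_inv hs0)
    have f0 := dif_th 0 (s, θ, p)
    have f1 := dif_th 1 (s, θ, p)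
    have f2 := dif_th 2 (s, θ, p)
    have f3 := dif_th 3 (s, θ, p)
    refine DifferentiableAt.prodMk ?_ ?_
    · rw [differentiableAt_pi]
      rintro (i | i)
      · exact e1.cos.fun_mul (dif_om R₁ f0 f1 i)
      · exact e1.sin.fun_mul (dif_om R₂ f2 f3 i)
    · rw [differentiableAt_pi]
      rintro (i | i)
      · exact (q1.fun_mul (dif_om' R₁ f0 f1 i)).fun_add
          (e2.fun_mul (e1.sin.fun_neg.fun_mul (dif_om R₁ f0 f1 i)))
      · exact (q2.fun_mul (dif_om' R₂ f2 f3 i)).fun_add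
          (e2.fun_mul (e1.cos.fun_mul (dif_om R₂ f2 f3 i)))
  refine ⟨hd, ?_⟩
  intro ds dθ dp
  have lin : ∀ c d : ℝ, HasDerivAt (fun t : ℝ => c + t * d) d 0 := by
    intro c d
    exact (((hasDerivAt_id (0 : ℝ)).mul_const d).const_add c).congr_deriv (by ring)
  have hl : HasDerivAt (fun t : ℝ =>
      ((s + t * ds, (fun j => θ j + t * dθ j), p + t * dp) : ℝ × (Fin 4 → ℝ) × ℝ))
      (ds, dθ, dp) 0 := by
    refine HasDerivAt.prodMk (lin _ _) (HasDerivAt.prodMk ?_ (lin _ _))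
    rw [hasDerivAt_pi]
    intro j
    exact lin _ _
  have h0 : ((s, θ, p) : ℝ × (Fin 4 → ℝ) × ℝ) =
      (s + 0 * ds, (fun j => θ j + 0 * dθ j), p + 0 * dp) := by
    simp
  have h1 := hd.hasFDerivAt.comp_hasDerivAt_of_eq (0 : ℝ) hl h0
  have hcs : Real.cos (s + 0 * ds) ≠ 0 := by simpa using hc0
  have hsn : Real.sin (s + 0 * ds) ≠ 0 := by simpa using hs0
  have h2 : HasDerivAt ((T2 R₁ R₂ L₁ L₂).pt ∘ fun t : ℝ =>
      ((s + t * ds, (fun j => θ j + t * dθ j), p + t * dp) : ℝ × (Fin 4 → ℝ) × ℝ))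
      (d2 R₁ R₂ L₁ L₂ s θ p ds dθ dp) 0 := by
    refine HasDerivAt.prodMk ?_ ?_
    · rw [hasDerivAt_pi]
      rintro (i | i)
      · refine ((lin s ds).cos.fun_mul (USP.DER_.d_om R₁ (lin (θ 0) (dθ 0))
          (lin (θ 1) (dθ 1)) i)).congr_deriv ?_
        simp only [zero_mul, add_zero, Sum.elim_inl, Pi.add_apply, Pi.smul_apply, smul_eq_mul]
        ring
      · refine ((lin s ds).sin.fun_mul (USP.DER_.d_om R₂ (lin (θ 2) (dθ 2))
          (lin (θ 3) (dθ 3)) i)).congr_deriv ?_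
        simp only [zero_mul, add_zero, Sum.elim_inr, Pi.add_apply, Pi.smul_apply, smul_eq_mul]
        ring
    · rw [hasDerivAt_pi]
      rintro (i | i)
      · refine ((((hasDerivAt_const (0 : ℝ) L₁).fun_div (lin s ds).cos hcs).fun_mul
          (USP.DER_.d_om' R₁ (lin (θ 0) (dθ 0)) (lin (θ 1) (dθ 1)) i)).fun_add
          ((lin p dp).fun_mul ((lin s ds).sin.fun_neg.fun_mul
          (USP.DER_.d_om R₁ (lin (θ 0) (dθ 0)) (lin (θ 1) (dθ 1)) i)))).congr_deriv ?_
        simp only [zero_mul, add_zero, Sum.elim_inl, Pi.add_apply, Pi.smul_apply, smul_eq_mul]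
        field_simp
        ring
      · refine ((((hasDerivAt_const (0 : ℝ) L₂).fun_div (lin s ds).sin hsn).fun_mul
          (USP.DER_.d_om' R₂ (lin (θ 2) (dθ 2)) (lin (θ 3) (dθ 3)) i)).fun_add
          ((lin p dp).fun_mul ((lin s ds).cos.fun_mul
          (USP.DER_.d_om R₂ (lin (θ 2) (dθ 2)) (lin (θ 3) (dθ 3)) i)))).congr_deriv ?_
        simp only [zero_mul, add_zero, Sum.elim_inr, Pi.add_apply, Pi.smul_apply, smul_eq_mul]
        field_simp
        ring
  exact h1.unique h2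

end Pool.Agent.USQ
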