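import Pool.Agent.USQ.Targets

/-!
# Smoothness and derivative of the Hamiltonian `uuHam`
-/

set_option autoImplicit false

open Set Filter Topology MeasureTheory
open scoped ContDiff

namespace Pool.Agent.USQ
open Pool.Agent.MSup

namespace DUU_

variable {a b : ℕ}

theorem cd_yc1 : ContDiff ℝ ∞ (fun z : Ph a b => yc z.1) := by
  rw [contDiff_pi]
  intro i
  exact (contDiff_apply ℝ ℝ (Sum.inl i)).comp contDiff_fst

theorem cd_yc2 : ContDiff ℝ ∞ (fun z : Ph a b => yc z.2) := by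
  rw [contDiff_pi]
  intro i
  exact (contDiff_apply ℝ ℝ (Sum.inl i)).comp contDiff_snd

theorem cd_zc1 : ContDiff ℝ ∞ (fun z : Ph a b => zc z.1) := by
  rw [contDiff_pi]
  intro i
  exact (contDiff_apply ℝ ℝ (Sum.inr i)).comp contDiff_fst

theorem cd_zc2 : ContDiff ℝ ∞ (fun z : Ph a b => zc z.2) := by
  rw [contDiff_pi]
  intro i
  exact (contDiff_apply ℝ ℝ (Sum.inr i)).comp contDiff_snd

theorem cd_ip {n : ℕ} (f g : Ph a b → Fin n → ℝ) (hf : ContDiff ℝ ∞ f) (hg : ContDiff ℝ ∞ g) :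
    ContDiff ℝ ∞ (fun z : Ph a b => ip (f z) (g z)) := by
  unfold ip
  exact ContDiff.sum fun i _ => ((contDiff_apply ℝ ℝ i).comp hf).mul
    ((contDiff_apply ℝ ℝ i).comp hg)

theorem cd_J {n : ℕ} (J : (Fin n → ℝ) →ₗ[ℝ] (Fin n → ℝ)) (f : Ph a b → Fin n → ℝ)
    (hf : ContDiff ℝ ∞ f) : ContDiff ℝ ∞ (fun z : Ph a b => J (f z)) := by
  have h1 : ContDiff ℝ ∞ (fun y : Fin n → ℝ => J y) :=
    (LinearMap.toContinuousLinearMap J).contDiff
  exact h1.comp hf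

theorem cd_uu (J₁ : (Fin a → ℝ) →ₗ[ℝ] (Fin a → ℝ)) (J₂ : (Fin b → ℝ) →ₗ[ℝ] (Fin b → ℝ))
    (c : Co) (hc : c.Smooth) : ContDiff ℝ ∞ (uuHam J₁ J₂ c : Ph a b → ℝ) := by
  have ht : ContDiff ℝ ∞ (fun z : Ph a b => ip (yc z.1) (yc z.1)) := cd_ip _ _ cd_yc1 cd_yc1
  have he : ContDiff ℝ ∞ (fun z : Ph a b => ip (yc z.1) (yc z.2)) := cd_ip _ _ cd_yc1 cd_yc2
  have h1 : ContDiff ℝ ∞ (fun z : Ph a b => ip (yc z.2) (yc z.2)) := cd_ip _ _ cd_yc2 cd_yc2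
  have h2 : ContDiff ℝ ∞ (fun z : Ph a b => ip (zc z.2) (zc z.2)) := cd_ip _ _ cd_zc2 cd_zc2
  have hk1 : ContDiff ℝ ∞ (fun z : Ph a b => k1 J₁ z) := cd_ip _ _ (cd_J J₁ _ cd_yc1) cd_yc2
  have hk2 : ContDiff ℝ ∞ (fun z : Ph a b => k2 J₂ z) := cd_ip _ _ (cd_J J₂ _ cd_zc1) cd_zc2
  have hP := hc.P.comp ht
  have hQ := hc.Q.comp ht
  have hR := hc.R.comp ht
  have hA := hc.A.comp ht
  have hB := hc.B.comp ht
  have hC := hc.C.comp ht
  have hD := hc.D.comp ht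
  have hE := hc.E.comp ht
  have h3 := ((((((hP.mul h1).add (hQ.mul h2)).add (hR.mul (he.pow 2))).add
    (hA.mul (hk1.pow 2))).add (((contDiff_const (c := (2 : ℝ)).mul hB).mul hk1).mul hk2)).add
    (hC.mul (hk2.pow 2))).div_const 2
  exact h3.add (he.mul ((hD.mul hk1).add (hE.mul hk2)))

theorem bil {n : ℕ} (x y x' y' : Fin n → ℝ) :
    HasDerivAt (fun τ : ℝ => ip (x + τ • x') (y + τ • y')) (ip x' y + ip x y') 0 := by
  have h : (fun τ : ℝ => ip (x + τ • x') (y + τ • y')) =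
      fun τ : ℝ => ip x y + τ * (ip x' y + ip x y') + τ ^ 2 * ip x' y' := by
    funext τ
    rw [ip_add_left, ip_add_right, ip_add_right, ip_smul_left, ip_smul_left, ip_smul_right,
      ip_smul_right]
    ring
  rw [h]
  have h2 := (((hasDerivAt_id (0 : ℝ)).mul_const (ip x' y + ip x y')).const_add (ip x y)).add
    (((hasDerivAt_id (0 : ℝ)).pow 2).mul_const (ip x' y'))
  exact h2.congr_deriv (by simp)

theorem comb (c : Co) (hc : c.Smooth) (f n m e k l : ℝ → ℝ) (f' n' m' e' k' l' : ℝ)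
    (hf : HasDerivAt f f' 0) (hn : HasDerivAt n n' 0) (hm : HasDerivAt m m' 0)
    (he : HasDerivAt e e' 0) (hk : HasDerivAt k k' 0) (hl : HasDerivAt l l' 0) :
    HasDerivAt (fun τ : ℝ => (c.P (f τ) * n τ + c.Q (f τ) * m τ + c.R (f τ) * e τ ^ 2 +
        c.A (f τ) * k τ ^ 2 + 2 * c.B (f τ) * k τ * l τ + c.C (f τ) * l τ ^ 2) / 2 +
        e τ * (c.D (f τ) * k τ + c.E (f τ) * l τ))
      (f' * (deriv c.P (f 0) * n 0 + deriv c.Q (f 0) * m 0 + deriv c.R (f 0) * e 0 ^ 2 +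
        deriv c.A (f 0) * k 0 ^ 2 + 2 * deriv c.B (f 0) * k 0 * l 0 +
        deriv c.C (f 0) * l 0 ^ 2) / 2 +
        f' * e 0 * (deriv c.D (f 0) * k 0 + deriv c.E (f 0) * l 0) +
        c.P (f 0) * (n' / 2) + c.Q (f 0) * (m' / 2) + c.R (f 0) * e 0 * e' +
        (c.A (f 0) * k 0 + c.B (f 0) * l 0) * k' + (c.B (f 0) * k 0 + c.C (f 0) * l 0) * l' +
        e' * (c.D (f 0) * k 0 + c.E (f 0) * l 0) + e 0 * (c.D (f 0) * k' + c.E (f 0) * l')) 0 := by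
  have hG : ∀ G : ℝ → ℝ, ContDiff ℝ ∞ G →
      HasDerivAt (fun τ : ℝ => G (f τ)) (deriv G (f 0) * f') 0 := fun G hG =>
    ((hG.contDiffAt.differentiableAt (by simp)).hasDerivAt).comp (0 : ℝ) hf
  have h3 := ((((((hG _ hc.P).mul hn).add ((hG _ hc.Q).mul hm)).add
    ((hG _ hc.R).mul (he.pow 2))).add ((hG _ hc.A).mul (hk.pow 2))).add
    ((((hG _ hc.B).const_mul 2).mul hk).mul hl)).add ((hG _ hc.C).mul (hl.pow 2))
  have h4 := (h3.div_const 2).add (he.mul (((hG _ hc.D).mul hk).add ((hG _ hc.E).mul hl)))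
  refine h4.congr_deriv ?_
  simp only [Pi.mul_apply, Pi.pow_apply, Pi.add_apply]
  push_cast
  ring

end DUU_

open DUU_ in
theorem p_DUU : T_DUU := by
  intro a b J₁ J₂ c hc
  have hsm := cd_uu J₁ J₂ c hc
  refine ⟨hsm, ?_⟩
  intro z v t dt e de κ₁ κ₂ dκ₁ dκ₂ ht hdt he hde hκ₁ hκ₂ hdκ₁ hdκ₂
  have hd : DifferentiableAt ℝ (uuHam J₁ J₂ c) z := hsm.contDiffAt.differentiableAt (by simp)
  have hl : HasDerivAt (fun t : ℝ => z + t • v) v 0 := by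
    have := ((hasDerivAt_id (0 : ℝ)).smul_const v).const_add z
    simpa using this
  have h1 : HasDerivAt (fun t : ℝ => uuHam J₁ J₂ c (z + t • v))
      (fderiv ℝ (uuHam J₁ J₂ c) z v) 0 := by
    have hz : z + (0 : ℝ) • v = z := by simp
    have hf : HasFDerivAt (uuHam J₁ J₂ c) (fderiv ℝ (uuHam J₁ J₂ c) z)
        ((fun t : ℝ => z + t • v) 0) := by
      change HasFDerivAt _ _ (z + (0 : ℝ) • v)
      rw [hz]
      exact hd.hasFDerivAt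
    exact hf.comp_hasDerivAt (0 : ℝ) hl
  have hJ₁ : ∀ τ : ℝ, J₁ (yc z.1) + τ • J₁ (yc v.1) = J₁ (yc (z + τ • v).1) := by
    intro τ
    rw [← map_smul, ← map_add]
    rfl
  have hJ₂ : ∀ τ : ℝ, J₂ (zc z.1) + τ • J₂ (zc v.1) = J₂ (zc (z + τ • v).1) := by
    intro τ
    rw [← map_smul, ← map_add]
    rfl
  have h2 := comb c hc _ _ _ _ _ _ _ _ _ _ _ _ (bil (yc z.1) (yc z.1) (yc v.1) (yc v.1))
    (bil (yc z.2) (yc z.2) (yc v.2) (yc v.2)) (bil (zc z.2) (zc z.2) (zc v.2) (zc v.2))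
    (bil (yc z.1) (yc z.2) (yc v.1) (yc v.2)) (bil (J₁ (yc z.1)) (yc z.2) (J₁ (yc v.1)) (yc v.2))
    (bil (J₂ (zc z.1)) (zc z.2) (J₂ (zc v.1)) (zc v.2))
  simp only [hJ₁, hJ₂] at h2
  have h3 := h1.unique h2
  have hc2 : ∀ {n : ℕ} (x y : Fin n → ℝ), ip x y = ip y x := by
    intro n x y
    unfold ip
    exact Finset.sum_congr rfl fun i _ => mul_comm _ _
  rw [h3, ht, hdt, he, hde, hκ₁, hκ₂, hdκ₁, hdκ₂]
  unfold k1 k2
  simp only [zero_smul, add_zero]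
  rw [hc2 (yc v.1) (yc z.1), hc2 (yc v.2) (yc z.2), hc2 (zc v.2) (zc z.2)]
  ring

end Pool.Agent.USQ
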