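import Pool.Agent.USQ.Targets2

/-!
# USQ: dependence on the restriction to the cotangent bundle of the sphere
-/

set_option autoImplicit false

open Set Filter Topology MeasureTheory
open scoped ContDiff

namespace Pool.Agent.USQ
open Pool.Agent.MSup

namespace EQT_

theorem tproj_mem {ι : Type} [Fintype ι] {x : ι → ℝ} (hx : ip x x = 1) (q : ι → ℝ) :
    (x, tproj x q) ∈ TS ι := by
  refine ⟨hx, ?_⟩
  simp only [tproj, ip_sub_right, ip_smul_right, hx]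
  ring

theorem fderiv_eq {ι : Type} [Fintype ι] {H₁ H₂ : (ι → ℝ) × (ι → ℝ) → ℝ}
    (h : ∀ z ∈ TS ι, H₁ z = H₂ z) {z : (ι → ℝ) × (ι → ℝ)} (hz : z ∈ TS ι) :
    fderiv ℝ (lift H₁) z = fderiv ℝ (lift H₂) z := by
  refine Filter.EventuallyEq.fderiv_eq ?_
  filter_upwards [eventually_ip_pos (TS_pos hz)] with y hy
  exact h _ (toTS_mem hy)

end EQT_

theorem p_EQT : T_EQT := by
  intro ι _ _ H₁ H₂ h
  refine ⟨?_, ?_⟩
  · rintro ⟨F, hF, hI, hU⟩
    refine ⟨F, hF, fun i z hz => ?_, hU⟩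
    have h1 := hI i z hz
    unfold bracket at h1 ⊢
    rw [← EQT_.fderiv_eq h hz]
    exact h1
  · rintro ⟨C, hC, Φ, hb, hΦ⟩
    refine ⟨C, hC, Φ, hb, fun x hx => ?_⟩
    obtain ⟨h1, h2⟩ := hΦ x hx
    refine ⟨h1, fun π hπ => ?_⟩
    rw [← h _ (EQT_.tproj_mem hx _)]
    exact h2 π hπ

end Pool.Agent.USQ
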