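import Pool.Agent.USQ.P_PS2
import Pool.Agent.USP.P_ORT

/-!
# USQ: every generic covector is in a family
-/

set_option autoImplicit false

open Set Filter Topology MeasureTheory
open scoped ContDiff

namespace Pool.Agent.USQ
open Pool.Agent.MSup
open Pool.Agent.USP (Fr JJ GG Win Pot)

namespace FR2_

variable {n : ℕ}

theorem sub_r (x y z : Fin n → ℝ) : ip x (y - z) = ip x y - ip x z := by
  simp only [ip, Pi.sub_apply, mul_sub, Finset.sum_sub_distrib]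

theorem comm (x y : Fin n → ℝ) : ip x y = ip y x := Pool.Agent.USP.PSD_.comm x y

theorem smul_l (c : ℝ) (x y : Fin n → ℝ) : ip (c • x) y = c * ip x y :=
  Pool.Agent.USP.PSD_.smul_l c x y

theorem smul_r (c : ℝ) (x y : Fin n → ℝ) : ip x (c • y) = c * ip x y :=
  Pool.Agent.USP.PSD_.smul_r c x y

theorem sub_l (x y z : Fin n → ℝ) : ip (x - y) z = ip x z - ip y z := by
  rw [comm, sub_r, comm z x, comm z y]

/-- one factor -/
theorem fac (J : (Fin n → ℝ) →ₗ[ℝ] (Fin n → ℝ)) (hJ : ∀ x y, ip (J x) y = -ip x (J y))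
    (hJ2 : ∀ x, J (J x) = -x) (Z ζ : Fin n → ℝ) (ρ : ℝ) (hρ : 0 < ρ) (hρ2 : ρ ^ 2 = ip Z Z)
    (L : ℝ) (hL0 : 0 < L) (hL2 : L ^ 2 = ip Z Z * ip ζ ζ - ip Z ζ ^ 2) :
    ∃ R : Fr (Fin n), R.J = J ∧ ρ • R.om 0 0 = Z ∧
      (ip Z ζ / ρ) • R.om 0 0 + (L / ρ) • R.om' 0 0 = ζ ∧ R.k * L = ip (J Z) ζ := by
  set w : Fin n → ℝ := ρ⁻¹ • Z with hw
  set q : ℝ := ip Z ζ / ρ with hq
  set ζ' : Fin n → ℝ := ζ - q • w with hζ'
  set v : Fin n → ℝ := (ρ / L) • ζ' with hv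
  have hww : ip w w = 1 := by
    rw [hw, smul_l, smul_r, ← hρ2]
    field_simp
  have hwζ : ip w ζ = q := by
    rw [hw, smul_l, hq]
    field_simp
  have hwζ' : ip w ζ' = 0 := by
    rw [hζ', sub_r, smul_r, hww, hwζ]
    ring
  have hζw : ip ζ w = q := by rw [comm, hwζ]
  have hζζ : ρ ^ 2 * ip ζ' ζ' = L ^ 2 := by
    have h0 : ip ζ' ζ' = ip ζ ζ - q ^ 2 := by
      rw [hζ', sub_r, sub_l, sub_l, smul_l q, smul_r q, smul_r q, smul_l q,
        hζw, hwζ, hww]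
      ring
    rw [h0]
    have h1 : ρ * q = ip Z ζ := by
      rw [hq]
      field_simp
    rw [hL2, ← h1, ← hρ2]
    ring
  have hvv : ip v v = 1 := by
    rw [hv, smul_l, smul_r]
    have h1 : ρ / L * (ρ / L * ip ζ' ζ') = ρ ^ 2 * ip ζ' ζ' / L ^ 2 := by
      field_simp
    rw [h1, hζζ]
    exact div_self (pow_pos hL0 2).ne'
  have hwv : ip w v = 0 := by
    rw [hv, smul_r, hwζ', mul_zero]
  have hsv : (L / ρ) • v = ζ' := by
    rw [hv, smul_smul]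
    have : L / ρ * (ρ / L) = 1 := by field_simp
    rw [this, one_smul]
  have hsw : ρ • w = Z := by
    rw [hw, smul_smul, mul_inv_cancel₀ hρ.ne', one_smul]
  let R : Fr (Fin n) := ⟨J, hJ, hJ2, w, v, hww, hvv, hwv⟩
  have hom : R.om 0 0 = w := by
    show Real.cos 0 • (Real.cos 0 • w + Real.sin 0 • v) +
      Real.sin 0 • J (Real.cos 0 • w + Real.sin 0 • v) = w
    simp
  have hom' : R.om' 0 0 = v := by
    show Real.cos 0 • (-Real.sin 0 • w + Real.cos 0 • v) +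
      Real.sin 0 • J (-Real.sin 0 • w + Real.cos 0 • v) = v
    simp
  refine ⟨R, rfl, ?_, ?_, ?_⟩
  · rw [hom, hsw]
  · rw [hom, hom', hsv, hζ']
    abel
  · show ip (J w) v * L = ip (J Z) ζ
    have h1 : ip (J w) v * L = ρ * ip (J w) ζ' := by
      rw [hv, smul_r]
      field_simp
    have h2 : J Z = ρ • J w := by rw [← hsw, map_smul]
    rw [h1, h2, smul_l, hζ', sub_r, smul_r, PS2_.J_self hJ]
    ring

theorem pos_of {Z ζ : Fin n → ℝ} (h : 0 < ip Z Z * ip ζ ζ - ip Z ζ ^ 2) : 0 < ip Z Z := by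
  have h0 : 0 ≤ ip Z Z := by
    unfold ip
    exact Finset.sum_nonneg fun i _ => mul_self_nonneg _
  rcases h0.lt_or_eq with h1 | h1
  · exact h1
  · rw [← h1] at h
    nlinarith [sq_nonneg (ip Z ζ)]

end FR2_

open FR2_ in
/-- every generic covector is in a family -/
theorem p_FR2 : T_FR2 := by
  intro a b J₁ J₂ hJ₁ hJ₁2 hJ₂ hJ₂2 z hz hD₁ hD₂
  obtain ⟨hz1, hz2⟩ := hz
  rw [PS2_.sumip] at hz1 hz2
  have hy0 := pos_of hD₁
  have hzz0 := pos_of hD₂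
  set ρ : ℝ := √(ip (yc z.1) (yc z.1)) with hρ
  have hρ0 : 0 < ρ := Real.sqrt_pos.2 hy0
  have hρ2 : ρ ^ 2 = ip (yc z.1) (yc z.1) := Real.sq_sqrt hy0.le
  have hρ1 : ρ < 1 := by
    by_contra h
    push Not at h
    nlinarith
  set s : ℝ := Real.arccos ρ with hs
  have hcos : Real.cos s = ρ := Real.cos_arccos (by linarith) hρ1.le
  have hs0 : 0 < s := Real.arccos_pos.2 hρ1
  have hs1 : s < Real.pi / 2 := Real.arccos_lt_pi_div_two.2 hρ0
  have hsin : 0 < Real.sin s := Real.sin_pos_of_pos_of_lt_pi hs0 (by linarith [Real.pi_pos])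
  have hss : Real.sin s ^ 2 = ip (zc z.1) (zc z.1) := by
    have := Real.sin_sq_add_cos_sq s
    rw [hcos] at this
    linarith
  have hc0 : 0 < Real.cos s := by rw [hcos]; exact hρ0
  have hcs : Real.cos s ^ 2 = ip (yc z.1) (yc z.1) := by rw [hcos, hρ2]
  set L₁ : ℝ := √(ip (yc z.1) (yc z.1) * ip (yc z.2) (yc z.2) - ip (yc z.1) (yc z.2) ^ 2) with hL₁
  set L₂ : ℝ := √(ip (zc z.1) (zc z.1) * ip (zc z.2) (zc z.2) - ip (zc z.1) (zc z.2) ^ 2) with hL₂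
  have hL₁0 : 0 < L₁ := Real.sqrt_pos.2 hD₁
  have hL₂0 : 0 < L₂ := Real.sqrt_pos.2 hD₂
  have hL₁2 := Real.sq_sqrt hD₁.le
  have hL₂2 := Real.sq_sqrt hD₂.le
  obtain ⟨R₁, hR₁, e1, e2, e3⟩ := fac J₁ hJ₁ hJ₁2 (yc z.1) (yc z.2) (Real.cos s) hc0 hcs L₁ hL₁0
    hL₁2
  obtain ⟨R₂, hR₂, f1, f2, f3⟩ := fac J₂ hJ₂ hJ₂2 (zc z.1) (zc z.2) (Real.sin s) hsin hss L₂ hL₂0
    hL₂2
  refine ⟨R₁, R₂, hR₁, hR₂, s, ⟨hs0, hs1⟩,
    -ip (yc z.1) (yc z.2) / (Real.sin s * Real.cos s), L₁, L₂, hL₁0, hL₂0, ?_, hcs, hL₁2, hL₂2,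
    e3, f3, ?_⟩
  · refine Prod.ext ?_ ?_
    · funext o
      rcases o with i | i
      · exact (congrFun e1 i).symm
      · exact (congrFun f1 i).symm
    · funext o
      rcases o with i | i
      · show z.2 (Sum.inl i) = L₁ / Real.cos s * R₁.om' 0 0 i +
          -ip (yc z.1) (yc z.2) / (Real.sin s * Real.cos s) * (-Real.sin s * R₁.om 0 0 i)
        have h1 : ip (yc z.1) (yc z.2) / Real.cos s * R₁.om 0 0 i +
          L₁ / Real.cos s * R₁.om' 0 0 i = z.2 (Sum.inl i) := congrFun e2 i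
        rw [← h1]
        field_simp
        ring
      · show z.2 (Sum.inr i) = L₂ / Real.sin s * R₂.om' 0 0 i +
          -ip (yc z.1) (yc z.2) / (Real.sin s * Real.cos s) * (Real.cos s * R₂.om 0 0 i)
        have h1 : ip (zc z.1) (zc z.2) / Real.sin s * R₂.om 0 0 i +
          L₂ / Real.sin s * R₂.om' 0 0 i = z.2 (Sum.inr i) := congrFun f2 i
        have h2 : ip (zc z.1) (zc z.2) = -ip (yc z.1) (yc z.2) := by linarith
        rw [← h1, h2]
        field_simp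
        ring
  · rw [div_mul_cancel₀ _ (mul_pos hsin hc0).ne']

end Pool.Agent.USQ
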