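import Pool.Agent.USQ.Targets
import Pool.Agent.MSup.Lift

/-!
# USQ, block GEX (MP_337148_gt): explicit cotangent lift of the gauge map
-/

set_option autoImplicit false

open Set Filter Topology MeasureTheory
open scoped ContDiff

namespace Pool.Agent.USQ
open Pool.Agent.MSup

namespace GEX_

section
variable {ι : Type} [Fintype ι]

theorem ip_comm (x y : ι → ℝ) : ip x y = ip y x :=
  Finset.sum_congr rfl fun _ _ => mul_comm _ _

theorem ip_sub_left (x y z : ι → ℝ) : ip (x - y) z = ip x z - ip y z := by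
  rw [ip_comm, ip_sub_right, ip_comm z x, ip_comm z y]

theorem ip_single [DecidableEq ι] (i : ι) (x : ι → ℝ) : ip (Pi.single i 1) x = x i := by
  unfold ip
  rw [Finset.sum_eq_single i]
  · simp
  · intro j _ hj
    simp [Pi.single_eq_of_ne hj]
  · intro h
    exact absurd (Finset.mem_univ i) h

theorem hasDeriv_ip {u : ℝ → ι → ℝ} {u' : ι → ℝ} {s : ℝ} (p : ι → ℝ) (h : HasDerivAt u u' s) :
    HasDerivAt (fun s => ip (u s) p) (ip u' p) s := by
  unfold ip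
  refine HasDerivAt.fun_sum fun i _ => ?_
  exact ((hasDerivAt_pi.1 h) i).mul_const (p i)

theorem line (x e p : ι → ℝ) (s : ℝ) :
    HasDerivAt (fun s : ℝ => ip (x + s • e) p) (ip e p) s := by
  have h : HasDerivAt (fun s : ℝ => ip x p + s * ip e p) (0 + 1 * ip e p) s :=
    (hasDerivAt_const s _).add ((hasDerivAt_id s).mul_const _)
  simp only [zero_add, one_mul] at h
  refine h.congr_of_eventuallyEq (Filter.Eventually.of_forall fun r => ?_)
  show ip (x + r • e) p = ip x p + r * ip e p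
  rw [ip_add_left, ip_smul_left]

theorem lineJ (J : (ι → ℝ) →ₗ[ℝ] (ι → ℝ)) (x e p : ι → ℝ) (s : ℝ) :
    HasDerivAt (fun s : ℝ => ip (J (x + s • e)) p) (ip (J e) p) s := by
  have h := line (J x) (J e) p s
  refine h.congr_of_eventuallyEq (Filter.Eventually.of_forall fun r => ?_)
  show ip (J (x + r • e)) p = ip (J x + r • J e) p
  rw [map_add, map_smul]

theorem lineT (x e : ι → ℝ) :
    HasDerivAt (fun s : ℝ => ip (x + s • e) (x + s • e)) (2 * ip x e) 0 := by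
  have h : HasDerivAt (fun s : ℝ => ip x x + (2 * ip x e) * s + ip e e * s ^ 2)
      (0 + (2 * ip x e) * 1 + ip e e * ((2 : ℕ) * (0 : ℝ) ^ (2 - 1) * 1)) 0 :=
    ((hasDerivAt_const (0 : ℝ) (ip x x)).add ((hasDerivAt_id (0 : ℝ)).const_mul _)).add
      (((hasDerivAt_id (0 : ℝ)).pow 2).const_mul _)
  have e0 : (0 + (2 * ip x e) * 1 + ip e e * ((2 : ℕ) * (0 : ℝ) ^ (2 - 1) * 1)) = 2 * ip x e := by
    simp
  rw [e0] at h
  refine h.congr_of_eventuallyEq (Filter.Eventually.of_forall fun r => ?_)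
  show ip (x + r • e) (x + r • e) = ip x x + (2 * ip x e) * r + ip e e * r ^ 2
  rw [ip_add_left, ip_add_right, ip_add_right, ip_smul_left, ip_smul_left, ip_smul_right,
    ip_smul_right, ip_comm e x]
  ring

end

section
variable {n : ℕ}

theorem rt_add (J : (Fin n → ℝ) →ₗ[ℝ] (Fin n → ℝ)) (β : ℝ) (x y : Fin n → ℝ) :
    rt J β (x + y) = rt J β x + rt J β y := by
  unfold rt
  rw [map_add]
  module

theorem rt_smul (J : (Fin n → ℝ) →ₗ[ℝ] (Fin n → ℝ)) (β c : ℝ) (x : Fin n → ℝ) :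
    rt J β (c • x) = c • rt J β x := by
  unfold rt
  rw [map_smul]
  module

theorem rt_sub (J : (Fin n → ℝ) →ₗ[ℝ] (Fin n → ℝ)) (β : ℝ) (x y : Fin n → ℝ) :
    rt J β (x - y) = rt J β x - rt J β y := by
  unfold rt
  rw [map_sub]
  module

theorem ip_rt (J : (Fin n → ℝ) →ₗ[ℝ] (Fin n → ℝ)) (β : ℝ) (x p : Fin n → ℝ) :
    ip (rt J β x) p = Real.cos β * ip x p + Real.sin β * ip (J x) p := by
  unfold rt
  rw [ip_add_left, ip_smul_left, ip_smul_left]

theorem ip_rt_rt (J : (Fin n → ℝ) →ₗ[ℝ] (Fin n → ℝ)) (hJ : ∀ x y, ip (J x) y = -ip x (J y))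
    (hJJ : ∀ x, J (J x) = -x) (β : ℝ) (x y : Fin n → ℝ) : ip (rt J β x) (rt J β y) = ip x y := by
  have h1 : ip (J x) (J y) = ip x y := by
    rw [hJ, hJJ, ip_comm, ← neg_one_smul ℝ y, ip_smul_left, ip_comm]
    ring
  rw [ip_rt, ip_comm x, ip_comm (J x), ip_rt, ip_rt, ip_comm y x, ip_comm (J y) (J x), h1]
  have h2 : ip (J y) x = -ip y (J x) := hJ y x
  have h3 := Real.sin_sq_add_cos_sq β
  rw [h2]
  linear_combination (ip x y) * h3

/-- the derivative of `s ↦ ip (rt J (b (T s)) (x + s e)) p` -/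
theorem dr (J : (Fin n → ℝ) →ₗ[ℝ] (Fin n → ℝ)) (b : ℝ → ℝ) (b' : ℝ) (T : ℝ → ℝ) (T' : ℝ)
    (hT : HasDerivAt T T' 0) (hb : HasDerivAt b b' (T 0)) (x e p : Fin n → ℝ) :
    HasDerivAt (fun s : ℝ => ip (rt J (b (T s)) (x + s • e)) p)
      (Real.cos (b (T 0)) * ip e p + Real.sin (b (T 0)) * ip (J e) p +
        T' * b' * (Real.cos (b (T 0)) * ip (J x) p - Real.sin (b (T 0)) * ip x p)) 0 := by
  have hbT : HasDerivAt (fun s => b (T s)) (b' * T') 0 := hb.comp (0 : ℝ) hT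
  have h1 := (hbT.cos).mul (line x e p 0)
  have h2 := (hbT.sin).mul (lineJ J x e p 0)
  have h3 := h1.add h2
  simp only [zero_smul, add_zero] at h3
  refine (h3.congr_of_eventuallyEq (Filter.Eventually.of_forall fun s => ?_)).congr_deriv ?_
  · show ip (rt J (b (T s)) (x + s • e)) p = Real.cos (b (T s)) * ip (x + s • e) p +
      Real.sin (b (T s)) * ip (J (x + s • e)) p
    exact ip_rt J _ _ _
  · ring

end

section
variable {a b : ℕ}

theorem ip_sum (x y : (Fin a ⊕ Fin b) → ℝ) : ip x y = ip (yc x) (yc y) + ip (zc x) (zc y) := by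
  unfold ip yc zc
  exact Fintype.sum_sum_type _

/-- the transpose of the derivative of `ga` -/
theorem main (J₁ : (Fin a → ℝ) →ₗ[ℝ] (Fin a → ℝ)) (J₂ : (Fin b → ℝ) →ₗ[ℝ] (Fin b → ℝ))
    (b₁ b₂ : ℝ → ℝ) (b₁' b₂' : ℝ) (X e p : (Fin a ⊕ Fin b) → ℝ)
    (hd : DifferentiableAt ℝ (ga J₁ J₂ b₁ b₂) X)
    (h₁ : HasDerivAt b₁ b₁' (ip (yc X) (yc X))) (h₂ : HasDerivAt b₂ b₂' (ip (yc X) (yc X))) :
    ip (fderiv ℝ (ga J₁ J₂ b₁ b₂) X e) p =
      (Real.cos (b₁ (ip (yc X) (yc X))) * ip (yc e) (yc p) +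
        Real.sin (b₁ (ip (yc X) (yc X))) * ip (J₁ (yc e)) (yc p) +
        2 * ip (yc X) (yc e) * b₁' * (Real.cos (b₁ (ip (yc X) (yc X))) * ip (J₁ (yc X)) (yc p) -
          Real.sin (b₁ (ip (yc X) (yc X))) * ip (yc X) (yc p))) +
      (Real.cos (b₂ (ip (yc X) (yc X))) * ip (zc e) (zc p) +
        Real.sin (b₂ (ip (yc X) (yc X))) * ip (J₂ (zc e)) (zc p) +
        2 * ip (yc X) (yc e) * b₂' * (Real.cos (b₂ (ip (yc X) (yc X))) * ip (J₂ (zc X)) (zc p) -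
          Real.sin (b₂ (ip (yc X) (yc X))) * ip (zc X) (zc p))) := by
  have hl : HasDerivAt (fun s : ℝ => X + s • e) e 0 := by
    have := ((hasDerivAt_id (0 : ℝ)).smul_const e).const_add X
    simpa using this
  have hd' : HasFDerivAt (ga J₁ J₂ b₁ b₂) (fderiv ℝ (ga J₁ J₂ b₁ b₂) X) (X + (0 : ℝ) • e) := by
    rw [zero_smul, add_zero]
    exact hd.hasFDerivAt
  have k1 := hasDeriv_ip p (hd'.comp_hasDerivAt (0 : ℝ) hl)
  set T : ℝ → ℝ := fun s => ip (yc X + s • yc e) (yc X + s • yc e) with hTdef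
  have hT : HasDerivAt T (2 * ip (yc X) (yc e)) 0 := lineT (yc X) (yc e)
  have hT0 : T 0 = ip (yc X) (yc X) := by
    simp only [hTdef, zero_smul, add_zero]
  have d1 := dr J₁ b₁ b₁' T _ hT (hT0 ▸ h₁) (yc X) (yc e) (yc p)
  have d2 := dr J₂ b₂ b₂' T _ hT (hT0 ▸ h₂) (zc X) (zc e) (zc p)
  have d3 := d1.add d2
  rw [hT0] at d3
  have k2 := k1.congr_of_eventuallyEq (f₁ := fun s : ℝ =>
    ip (rt J₁ (b₁ (T s)) (yc X + s • yc e)) (yc p) +
      ip (rt J₂ (b₂ (T s)) (zc X + s • zc e)) (zc p))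
    (Filter.Eventually.of_forall fun s => by
      show _ = ip (ga J₁ J₂ b₁ b₂ (X + s • e)) p
      rw [ip_sum]
      rfl)
  exact k2.unique d3

end

end GEX_

open GEX_ in
/-- block USQ-GEX -/
theorem p_GEX : T_GEX := by
  intro hGTR _ _ a b J₁ J₂ hJ₁ hJJ₁ hJ₂ hJJ₂ β₁ β₂ hβ₁ hβ₂ z hz t m ht hm
  have hDif := hGTR a b J₁ J₂ hJ₁ hJJ₁ hJ₂ hJJ₂ β₁ β₂ hβ₁ hβ₂
  obtain ⟨hz1, hz2⟩ := hz
  set X := ga J₁ J₂ β₁ β₂ z.1 with hX
  have hyX : yc X = rt J₁ (β₁ t) (yc z.1) := by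
    rw [ht]
    rfl
  have hzX : zc X = rt J₂ (β₂ t) (zc z.1) := by
    rw [ht]
    rfl
  have hT : ip (yc X) (yc X) = t := by
    rw [hyX, ip_rt_rt J₁ hJ₁ hJJ₁, ht]
  have hX1 : ip X X = 1 := hDif.mG z.1 hz1
  have hd : DifferentiableAt ℝ (ga J₁ J₂ (fun t => -β₁ t) (fun t => -β₂ t)) X :=
    (hDif.sG'.differentiable (by simp)).differentiableAt
  have hb1 : HasDerivAt (fun t => -β₁ t) (-deriv β₁ t) (ip (yc X) (yc X)) := by
    rw [hT]
    exact ((hβ₁.differentiable (by simp)).differentiableAt.hasDerivAt).neg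
  have hb2 : HasDerivAt (fun t => -β₂ t) (-deriv β₂ t) (ip (yc X) (yc X)) := by
    rw [hT]
    exact ((hβ₂.differentiable (by simp)).differentiableAt.hasDerivAt).neg
  -- the gradient vector
  set V : (Fin a ⊕ Fin b) → ℝ := Sum.elim (rt J₁ (β₁ t) (yc z.2) - (2 * m) • yc X)
    (rt J₂ (β₂ t) (zc z.2)) with hV
  have hVy : yc V = rt J₁ (β₁ t) (yc z.2) - (2 * m) • yc X := rfl
  have hVz : zc V = rt J₂ (β₂ t) (zc z.2) := rfl
  -- the values of kappa
  have hκ1 : Real.cos (-β₁ t) * ip (J₁ (yc X)) (yc z.2) - Real.sin (-β₁ t) * ip (yc X) (yc z.2) =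
      k1 J₁ z := by
    have hJX : J₁ (yc X) = Real.cos (β₁ t) • J₁ (yc z.1) - Real.sin (β₁ t) • yc z.1 := by
      rw [hyX]
      unfold rt
      rw [map_add, map_smul, map_smul, hJJ₁]
      module
    rw [hJX, ip_sub_left, ip_smul_left, ip_smul_left, hyX, ip_rt, Real.cos_neg, Real.sin_neg]
    unfold k1
    linear_combination (ip (J₁ (yc z.1)) (yc z.2)) * Real.sin_sq_add_cos_sq (β₁ t)
  have hκ2 : Real.cos (-β₂ t) * ip (J₂ (zc X)) (zc z.2) - Real.sin (-β₂ t) * ip (zc X) (zc z.2) =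
      k2 J₂ z := by
    have hJX : J₂ (zc X) = Real.cos (β₂ t) • J₂ (zc z.1) - Real.sin (β₂ t) • zc z.1 := by
      rw [hzX]
      unfold rt
      rw [map_add, map_smul, map_smul, hJJ₂]
      module
    rw [hJX, ip_sub_left, ip_smul_left, ip_smul_left, hzX, ip_rt, Real.cos_neg, Real.sin_neg]
    unfold k2
    linear_combination (ip (J₂ (zc z.1)) (zc z.2)) * Real.sin_sq_add_cos_sq (β₂ t)
  have key : ∀ e, ip (fderiv ℝ (ga J₁ J₂ (fun t => -β₁ t) (fun t => -β₂ t)) X e) z.2 = ip e V := by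
    intro e
    rw [main J₁ J₂ _ _ _ _ X e z.2 hd hb1 hb2, hT, hκ1, hκ2, ip_sum e V, hVy, hVz,
      ip_sub_right, ip_smul_right, ip_comm (yc e) (rt J₁ (β₁ t) (yc z.2)),
      ip_comm (zc e) (rt J₂ (β₂ t) (zc z.2)), ip_rt, ip_rt, Real.cos_neg, Real.sin_neg,
      Real.cos_neg, Real.sin_neg, hJ₁ (yc e), hJ₂ (zc e), ip_comm (J₁ (yc z.2)),
      ip_comm (J₂ (zc z.2)), ip_comm (yc z.2), ip_comm (zc z.2), ip_comm (yc X) (yc e), hm]
    ring
  have hvec : (fun i => ip (fderiv ℝ (ga J₁ J₂ (fun t => -β₁ t) (fun t => -β₂ t)) X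
      (Pi.single i 1)) z.2) = V := by
    funext i
    rw [key, ip_single]
  have hXV : ip X V = -(2 * m * t) := by
    have h0 := hz2
    rw [ip_sum] at h0
    rw [ip_sum, hVy, hVz, ip_sub_right, ip_smul_right, hT, hyX, hzX, ip_rt_rt J₁ hJ₁ hJJ₁,
      ip_rt_rt J₂ hJ₂ hJJ₂]
    linear_combination h0
  unfold cot
  rw [← hX, hvec]
  refine Prod.ext rfl ?_
  show tproj X V = _
  unfold tproj
  rw [hX1, hXV, div_one]
  have hXs : X = Sum.elim (yc X) (zc X) := by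
    funext i
    rcases i with i | i <;> rfl
  funext i
  rcases i with i | i
  · show V (Sum.inl i) - (-(2 * m * t) • X) (Sum.inl i) = rt J₁ (β₁ t) (yc z.2 -
      (2 * m * (1 - t)) • yc z.1) i
    rw [rt_sub, rt_smul, ← hyX]
    simp only [hV, Sum.elim_inl, Pi.sub_apply, Pi.smul_apply, smul_eq_mul, yc]
    ring
  · show V (Sum.inr i) - (-(2 * m * t) • X) (Sum.inr i) = rt J₂ (β₂ t) (zc z.2 +
      (2 * m * t) • zc z.1) i
    rw [rt_add, rt_smul, ← hzX]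
    simp only [hV, Sum.elim_inr, Pi.add_apply, Pi.smul_apply, smul_eq_mul, zc]
    ring

end Pool.Agent.USQ
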