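import Pool.Agent.USQ.Targets
/-!
# USQ-GHA: the Hamiltonian after the gauge map
-/

set_option autoImplicit false

open Set Filter Topology MeasureTheory
open scoped ContDiff

namespace Pool.Agent.USQ
open Pool.Agent.MSup

namespace GHA_

theorem ip_comm {ι : Type} [Fintype ι] (x y : ι → ℝ) : ip x y = ip y x := by
  unfold ip
  exact Finset.sum_congr rfl fun i _ => mul_comm _ _

theorem ip_sub_left {ι : Type} [Fintype ι] (x y z : ι → ℝ) : ip (x - y) z = ip x z - ip y z := by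
  rw [ip_comm, ip_sub_right, ip_comm z x, ip_comm z y]

theorem ip_neg_right {ι : Type} [Fintype ι] (x y : ι → ℝ) : ip x (-y) = -ip x y := by
  simp [ip]

theorem ip_neg_left {ι : Type} [Fintype ι] (x y : ι → ℝ) : ip (-x) y = -ip x y := by
  simp [ip]

section
variable {n : ℕ} (J : (Fin n → ℝ) →ₗ[ℝ] (Fin n → ℝ))

/-- rotations preserve the inner product -/
theorem rt_rt (h : ∀ x y, ip (J x) y = -ip x (J y)) (hJ : ∀ x, J (J x) = -x) (β : ℝ)
    (x y : Fin n → ℝ) : ip (rt J β x) (rt J β y) = ip x y := by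
  unfold rt
  simp only [ip_add_left, ip_add_right, ip_smul_left, ip_smul_right]
  rw [h x y, h x (J y), hJ, ip_neg_right]
  have h1 := Real.sin_sq_add_cos_sq β
  linear_combination ip x y * h1

/-- rotations preserve the momentum -/
theorem J_rt (h : ∀ x y, ip (J x) y = -ip x (J y)) (hJ : ∀ x, J (J x) = -x) (β : ℝ)
    (x y : Fin n → ℝ) : ip (J (rt J β x)) (rt J β y) = ip (J x) y := by
  unfold rt
  simp only [map_add, map_smul, hJ, ip_add_left, ip_add_right, ip_smul_left, ip_smul_right,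
    ip_neg_left]
  rw [h x (J y), hJ, ip_neg_right, h x y]
  have h1 := Real.sin_sq_add_cos_sq β
  linear_combination -ip x (J y) * h1

theorem J_self (h : ∀ x y, ip (J x) y = -ip x (J y)) (x : Fin n → ℝ) : ip (J x) x = 0 := by
  have h1 := h x x
  rw [ip_comm x (J x)] at h1
  linarith

end

/-- the final algebra -/
theorem alg (P Q R A B C D E W t e k l m Δ N M : ℝ) (hW : 0 < W)
    (hWe : W = (1 - t) * P + t * Q + t * (1 - t) * R) (hA : A * W = t * (1 - t) * D ^ 2)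
    (hB : B * W = t * (1 - t) * (D * E)) (hC : C * W = t * (1 - t) * E ^ 2)
    (hΔ : Δ = D * k + E * l) (hm : Δ = 2 * m * W) :
    (P * (N - 4 * m * (1 - t) * e + 4 * m ^ 2 * (1 - t) ^ 2 * t) +
      Q * (M - 4 * m * t * e + 4 * m ^ 2 * t ^ 2 * (1 - t)) +
      R * (e - 2 * m * (1 - t) * t) ^ 2 + A * k ^ 2 + 2 * B * k * l + C * l ^ 2) / 2 +
      (e - 2 * m * (1 - t) * t) * (D * k + E * l) = (P * N + Q * M + R * e ^ 2) / 2 := by
  have hq : A * k ^ 2 + 2 * B * k * l + C * l ^ 2 = 4 * m ^ 2 * t * (1 - t) * W := by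
    apply mul_right_cancel₀ hW.ne'
    have h1 : (A * k ^ 2 + 2 * B * k * l + C * l ^ 2) * W = t * (1 - t) * Δ ^ 2 := by
      rw [hΔ]
      linear_combination k ^ 2 * hA + 2 * k * l * hB + l ^ 2 * hC
    rw [h1, hm]
    ring
  have hd : D * k + E * l = 2 * m * W := by rw [← hΔ, hm]
  rw [hd]
  have e1 : P * (N - 4 * m * (1 - t) * e + 4 * m ^ 2 * (1 - t) ^ 2 * t) +
      Q * (M - 4 * m * t * e + 4 * m ^ 2 * t ^ 2 * (1 - t)) +
      R * (e - 2 * m * (1 - t) * t) ^ 2 = P * N + Q * M + R * e ^ 2 - 4 * m * e * W +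
        4 * m ^ 2 * t * (1 - t) * W := by
    rw [hWe]
    ring
  linear_combination (1 / 2) * e1 + (1 / 2) * hq

end GHA_

open GHA_ in
theorem p_GHA : T_GHA := by
  intro gex gtr tan cts a b J₁ J₂ h1 h1' h2 h2' c hW hABC β₁ β₂ s1 s2 d1 d2 z hz
  set t : ℝ := ip (yc z.1) (yc z.1) with ht
  obtain ⟨hz1, hz2⟩ := hz
  have hsum : ip (yc z.1) (yc z.1) + ip (zc z.1) (zc z.1) = 1 := by
    rw [← hz1]
    simp only [ip, Fintype.sum_sum_type, yc, zc]
  have hort : ip (yc z.1) (yc z.2) + ip (zc z.1) (zc z.2) = 0 := by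
    rw [← hz2]
    simp only [ip, Fintype.sum_sum_type, yc, zc]
  have ht0 : 0 ≤ t := Finset.sum_nonneg fun i _ => mul_self_nonneg _
  have ht1 : t ≤ 1 := by
    have : 0 ≤ ip (zc z.1) (zc z.1) := Finset.sum_nonneg fun i _ => mul_self_nonneg _
    linarith
  have htI : t ∈ Icc (0 : ℝ) 1 := ⟨ht0, ht1⟩
  set m : ℝ := deriv β₁ t * k1 J₁ z + deriv β₂ t * k2 J₂ z with hm
  rw [gex gtr tan cts a b J₁ J₂ h1 h1' h2 h2' β₁ β₂ s1 s2 z ⟨hz1, hz2⟩ t m ht hm]
  set z' : Ph a b := (ga J₁ J₂ β₁ β₂ z.1,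
    Sum.elim (rt J₁ (β₁ t) (yc z.2 - (2 * m * (1 - t)) • yc z.1))
      (rt J₂ (β₂ t) (zc z.2 + (2 * m * t) • zc z.1))) with hz'
  have y1 : yc z'.1 = rt J₁ (β₁ t) (yc z.1) := rfl
  have y2 : yc z'.2 = rt J₁ (β₁ t) (yc z.2 - (2 * m * (1 - t)) • yc z.1) := rfl
  have w1 : zc z'.1 = rt J₂ (β₂ t) (zc z.1) := rfl
  have w2 : zc z'.2 = rt J₂ (β₂ t) (zc z.2 + (2 * m * t) • zc z.1) := rfl
  have ez : ip (zc z.1) (zc z.1) = 1 - t := by linarith
  have eo : ip (zc z.1) (zc z.2) = -ip (yc z.1) (yc z.2) := by linarith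
  have r1 : ip (yc z'.1) (yc z'.1) = t := by rw [y1, rt_rt J₁ h1 h1']
  have r2 : ip (yc z'.2) (yc z'.2) = ip (yc z.2) (yc z.2) -
      4 * m * (1 - t) * ip (yc z.1) (yc z.2) + 4 * m ^ 2 * (1 - t) ^ 2 * t := by
    rw [y2, rt_rt J₁ h1 h1', ip_sub_right, ip_sub_left, ip_sub_left, ip_smul_left,
      ip_smul_right, ip_smul_left, ip_smul_right, ip_comm (yc z.2) (yc z.1), ← ht]
    ring
  have r3 : ip (zc z'.2) (zc z'.2) = ip (zc z.2) (zc z.2) -
      4 * m * t * ip (yc z.1) (yc z.2) + 4 * m ^ 2 * t ^ 2 * (1 - t) := by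
    rw [w2, rt_rt J₂ h2 h2', ip_add_right, ip_add_left, ip_add_left, ip_smul_left,
      ip_smul_right, ip_smul_left, ip_smul_right, ip_comm (zc z.2) (zc z.1), ez, eo]
    ring
  have r4 : ip (yc z'.1) (yc z'.2) = ip (yc z.1) (yc z.2) - 2 * m * (1 - t) * t := by
    rw [y1, y2, rt_rt J₁ h1 h1', ip_sub_right, ip_smul_right, ← ht]
  have r5 : k1 J₁ z' = k1 J₁ z := by
    unfold k1
    rw [y1, y2, J_rt J₁ h1 h1', ip_sub_right, ip_smul_right, J_self J₁ h1]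
    ring
  have r6 : k2 J₂ z' = k2 J₂ z := by
    unfold k2
    rw [w1, w2, J_rt J₂ h2 h2', ip_add_right, ip_smul_right, J_self J₂ h2]
    ring
  have hb : blockHam c.P c.Q c.R z = (c.P t * ip (yc z.2) (yc z.2) +
      c.Q t * ip (zc z.2) (zc z.2) + c.R t * ip (yc z.1) (yc z.2) ^ 2) / 2 := by
    have e0 : ∑ i, z.1 (Sum.inl i) ^ 2 = t := by
      rw [ht]
      exact Finset.sum_congr rfl fun i _ => pow_two _
    have e1 : ∑ i, z.2 (Sum.inl i) ^ 2 = ip (yc z.2) (yc z.2) :=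
      Finset.sum_congr rfl fun i _ => pow_two _
    have e2 : ∑ i, z.2 (Sum.inr i) ^ 2 = ip (zc z.2) (zc z.2) :=
      Finset.sum_congr rfl fun i _ => pow_two _
    unfold blockHam
    rw [e0, e1, e2]
    rfl
  have hWt := hW t htI
  obtain ⟨hA, hB, hC⟩ := hABC t htI
  have hm2 : c.D t * k1 J₁ z + c.E t * k2 J₂ z = 2 * m * c.W t := by
    rw [hm, (d1 t htI).deriv, (d2 t htI).deriv]
    field_simp
  rw [hb]
  unfold uuHam
  rw [r1, r2, r3, r4, r5, r6]
  exact alg (c.P t) (c.Q t) (c.R t) (c.A t) (c.B t) (c.C t) (c.D t) (c.E t) (c.W t) t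
    (ip (yc z.1) (yc z.2)) (k1 J₁ z) (k2 J₂ z) m _ (ip (yc z.2) (yc z.2))
    (ip (zc z.2) (zc z.2)) hWt rfl hA hB hC rfl hm2

end Pool.Agent.USQ
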