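import Pool.Agent.USQ.Targets

/-!
# USQ, target GTR: the gauge map is a diffeomorphism of the sphere
-/

set_option autoImplicit false

open Set Filter Topology MeasureTheory
open scoped ContDiff

namespace Pool.Agent.USQ
open Pool.Agent.MSup

namespace GTR_

variable {a b : ℕ}

theorem comm {ι : Type} [Fintype ι] (x y : ι → ℝ) : ip x y = ip y x := by
  unfold ip
  exact Finset.sum_congr rfl fun i _ => mul_comm _ _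

theorem split (x : (Fin a ⊕ Fin b) → ℝ) : ip x x = ip (yc x) (yc x) + ip (zc x) (zc x) := by
  unfold ip yc zc
  rw [Fintype.sum_sum_type]

theorem rt_ip {n : ℕ} (J : (Fin n → ℝ) →ₗ[ℝ] (Fin n → ℝ)) (hJ : ∀ x y, ip (J x) y = -ip x (J y))
    (hJJ : ∀ x, J (J x) = -x) (β : ℝ) (y : Fin n → ℝ) :
    ip (rt J β y) (rt J β y) = ip y y := by
  have h1 : ip (J y) y = 0 := by
    have := hJ y y
    rw [comm y (J y)] at this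
    linarith
  have h2 : ip y (J y) = 0 := by rw [comm]; exact h1
  have h3 : ip (J y) (J y) = ip y y := by
    rw [hJ y (J y), hJJ y]
    unfold ip
    simp
  unfold rt
  rw [ip_add_left, ip_add_right, ip_add_right, ip_smul_left, ip_smul_left, ip_smul_left,
    ip_smul_left, ip_smul_right, ip_smul_right, ip_smul_right, ip_smul_right, h1, h2, h3]
  have := Real.sin_sq_add_cos_sq β
  linear_combination (ip y y) * this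

theorem rt_neg {n : ℕ} (J : (Fin n → ℝ) →ₗ[ℝ] (Fin n → ℝ)) (hJJ : ∀ x, J (J x) = -x)
    (β : ℝ) (y : Fin n → ℝ) : rt J (-β) (rt J β y) = y := by
  unfold rt
  rw [map_add, map_smul, map_smul, hJJ, Real.cos_neg, Real.sin_neg]
  funext i
  simp only [Pi.add_apply, Pi.smul_apply, smul_eq_mul, Pi.neg_apply]
  have := Real.sin_sq_add_cos_sq β
  linear_combination (y i) * this

theorem yc_ga (J₁ : (Fin a → ℝ) →ₗ[ℝ] (Fin a → ℝ)) (J₂ : (Fin b → ℝ) →ₗ[ℝ] (Fin b → ℝ))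
    (β₁ β₂ : ℝ → ℝ) (x : (Fin a ⊕ Fin b) → ℝ) :
    yc (ga J₁ J₂ β₁ β₂ x) = rt J₁ (β₁ (ip (yc x) (yc x))) (yc x) := rfl

theorem zc_ga (J₁ : (Fin a → ℝ) →ₗ[ℝ] (Fin a → ℝ)) (J₂ : (Fin b → ℝ) →ₗ[ℝ] (Fin b → ℝ))
    (β₁ β₂ : ℝ → ℝ) (x : (Fin a ⊕ Fin b) → ℝ) :
    zc (ga J₁ J₂ β₁ β₂ x) = rt J₂ (β₂ (ip (yc x) (yc x))) (zc x) := rfl

theorem smooth_yc : ContDiff ℝ ∞ (fun x : (Fin a ⊕ Fin b) → ℝ => yc x) := by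
  unfold yc
  exact contDiff_pi.mpr fun i => contDiff_apply ℝ ℝ (Sum.inl i)

theorem smooth_zc : ContDiff ℝ ∞ (fun x : (Fin a ⊕ Fin b) → ℝ => zc x) := by
  unfold zc
  exact contDiff_pi.mpr fun i => contDiff_apply ℝ ℝ (Sum.inr i)

theorem smooth_t : ContDiff ℝ ∞ (fun x : (Fin a ⊕ Fin b) → ℝ => ip (yc x) (yc x)) := by
  unfold ip yc
  exact ContDiff.sum fun i _ =>
    (contDiff_apply ℝ ℝ (Sum.inl i)).mul (contDiff_apply ℝ ℝ (Sum.inl i))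

theorem smooth_rt {n : ℕ} (J : (Fin n → ℝ) →ₗ[ℝ] (Fin n → ℝ)) {β : ℝ → ℝ}
    (hβ : ContDiff ℝ ∞ β) {v : ((Fin a ⊕ Fin b) → ℝ) → Fin n → ℝ} (hv : ContDiff ℝ ∞ v) :
    ContDiff ℝ ∞ (fun x : (Fin a ⊕ Fin b) → ℝ => rt J (β (ip (yc x) (yc x))) (v x)) := by
  unfold rt
  have hb : ContDiff ℝ ∞ (fun x : (Fin a ⊕ Fin b) → ℝ => β (ip (yc x) (yc x))) :=
    hβ.comp smooth_t
  have hJ : ContDiff ℝ ∞ (fun x => J (v x)) :=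
    (LinearMap.toContinuousLinearMap J).contDiff.comp hv
  exact ((Real.contDiff_cos.comp hb).smul hv).add ((Real.contDiff_sin.comp hb).smul hJ)

theorem smooth_ga (J₁ : (Fin a → ℝ) →ₗ[ℝ] (Fin a → ℝ)) (J₂ : (Fin b → ℝ) →ₗ[ℝ] (Fin b → ℝ))
    {β₁ β₂ : ℝ → ℝ} (h1 : ContDiff ℝ ∞ β₁) (h2 : ContDiff ℝ ∞ β₂) :
    ContDiff ℝ ∞ (ga J₁ J₂ β₁ β₂) := by
  apply contDiff_pi.mpr
  rintro (i | i)
  · exact contDiff_pi.mp (smooth_rt (a := a) (b := b) J₁ h1 smooth_yc) i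
  · exact contDiff_pi.mp (smooth_rt (a := a) (b := b) J₂ h2 smooth_zc) i

theorem ip_yc_ga (J₁ : (Fin a → ℝ) →ₗ[ℝ] (Fin a → ℝ)) (J₂ : (Fin b → ℝ) →ₗ[ℝ] (Fin b → ℝ))
    (hJ : ∀ x y, ip (J₁ x) y = -ip x (J₁ y)) (hJJ : ∀ x, J₁ (J₁ x) = -x)
    (β₁ β₂ : ℝ → ℝ) (x : (Fin a ⊕ Fin b) → ℝ) :
    ip (yc (ga J₁ J₂ β₁ β₂ x)) (yc (ga J₁ J₂ β₁ β₂ x)) = ip (yc x) (yc x) := by
  rw [yc_ga, rt_ip J₁ hJ hJJ]

theorem ip_ga (J₁ : (Fin a → ℝ) →ₗ[ℝ] (Fin a → ℝ)) (J₂ : (Fin b → ℝ) →ₗ[ℝ] (Fin b → ℝ))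
    (hJ : ∀ x y, ip (J₁ x) y = -ip x (J₁ y)) (hJJ : ∀ x, J₁ (J₁ x) = -x)
    (hK : ∀ x y, ip (J₂ x) y = -ip x (J₂ y)) (hKK : ∀ x, J₂ (J₂ x) = -x)
    (β₁ β₂ : ℝ → ℝ) (x : (Fin a ⊕ Fin b) → ℝ) :
    ip (ga J₁ J₂ β₁ β₂ x) (ga J₁ J₂ β₁ β₂ x) = ip x x := by
  rw [split, split x, yc_ga, zc_ga, rt_ip J₁ hJ hJJ, rt_ip J₂ hK hKK]

theorem inv_ga (J₁ : (Fin a → ℝ) →ₗ[ℝ] (Fin a → ℝ)) (J₂ : (Fin b → ℝ) →ₗ[ℝ] (Fin b → ℝ))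
    (hJ : ∀ x y, ip (J₁ x) y = -ip x (J₁ y)) (hJJ : ∀ x, J₁ (J₁ x) = -x)
    (hKK : ∀ x, J₂ (J₂ x) = -x) (β₁ β₂ : ℝ → ℝ) (x : (Fin a ⊕ Fin b) → ℝ) :
    ga J₁ J₂ (fun t => -β₁ t) (fun t => -β₂ t) (ga J₁ J₂ β₁ β₂ x) = x := by
  have hy := ip_yc_ga J₁ J₂ hJ hJJ β₁ β₂ x
  have e1 : yc (ga J₁ J₂ (fun t => -β₁ t) (fun t => -β₂ t) (ga J₁ J₂ β₁ β₂ x)) = yc x := by
    rw [yc_ga, hy, yc_ga, rt_neg J₁ hJJ]
  have e2 : zc (ga J₁ J₂ (fun t => -β₁ t) (fun t => -β₂ t) (ga J₁ J₂ β₁ β₂ x)) = zc x := by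
    rw [zc_ga, hy, zc_ga, rt_neg J₂ hKK]
  funext j
  rcases j with i | i
  · exact congrFun e1 i
  · exact congrFun e2 i

end GTR_

open GTR_ in
theorem p_GTR : T_GTR := by
  intro a b J₁ J₂ hJ hJJ hK hKK β₁ β₂ hb1 hb2
  refine ⟨smooth_ga J₁ J₂ hb1 hb2, smooth_ga J₁ J₂ hb1.neg hb2.neg, fun x hx => ?_,
    fun x hx => ?_, fun x _ => inv_ga J₁ J₂ hJ hJJ hKK β₁ β₂ x, fun x _ => ?_⟩
  · rw [ip_ga J₁ J₂ hJ hJJ hK hKK, hx]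
  · rw [ip_ga J₁ J₂ hJ hJJ hK hKK, hx]
  · have h := inv_ga J₁ J₂ hJ hJJ hKK (fun t => -β₁ t) (fun t => -β₂ t) x
    have e1 : (fun t => - (fun t => -β₁ t) t) = β₁ := by funext t; simp
    have e2 : (fun t => - (fun t => -β₂ t) t) = β₂ := by funext t; simp
    rw [e1, e2] at h
    exact h

end Pool.Agent.USQ
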