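import Pool.Agent.USQ.Targets

/-!
# USQ, HOM: the homogeneous extension of a cotangent lift
-/

set_option autoImplicit false

open Set Filter Topology MeasureTheory
open scoped ContDiff

namespace Pool.Agent.USQ
open Pool.Agent.MSup

namespace HOM_

section
variable {ι : Type} [Fintype ι]

theorem ip_comm (x y : ι → ℝ) : ip x y = ip y x := by
  simp only [ip]
  exact Finset.sum_congr rfl fun i _ => mul_comm _ _

theorem ip_sub_left (x y z : ι → ℝ) : ip (x - y) z = ip x z - ip y z := by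
  rw [ip_comm, ip_sub_right, ip_comm z x, ip_comm z y]

theorem eq_zero_of_ip {x : ι → ℝ} (h : ip x x = 0) : x = 0 := by
  funext i
  have h1 : ∀ j ∈ Finset.univ, 0 ≤ x j * x j := fun j _ => mul_self_nonneg _
  have h2 := (Finset.sum_eq_zero_iff_of_nonneg h1).1 h i (Finset.mem_univ i)
  exact mul_self_eq_zero.1 h2

theorem ip_tproj {X u ξ : ι → ℝ} (h : ip X ξ = 0) : ip (tproj X u) ξ = ip u ξ := by
  rw [tproj, ip_sub_left, ip_smul_left, h]
  ring

/-- characterization of the tangential part -/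
theorem eq_tproj {X v u : ι → ℝ} (hX : ip X X = 1) (hv : ip X v = 0)
    (h : ∀ ξ, ip X ξ = 0 → ip v ξ = ip u ξ) : v = tproj X u := by
  have hd : ip X (v - tproj X u) = 0 := by
    rw [ip_sub_right, hv, tproj, ip_sub_right, ip_smul_right, hX]
    ring
  have h1 := h _ hd
  have h2 : ip (tproj X u) (v - tproj X u) = ip u (v - tproj X u) := ip_tproj hd
  have h3 : ip (v - tproj X u) (v - tproj X u) = 0 := by
    conv_lhs => rw [ip_sub_left]
    rw [h1, h2]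
    ring
  exact sub_eq_zero.1 (eq_zero_of_ip h3)

theorem ip_tproj_self {X u : ι → ℝ} (hX : ip X X = 1) : ip X (tproj X u) = 0 := by
  rw [tproj, ip_sub_right, ip_smul_right, hX]
  ring

/-- norm -/
noncomputable def nr (x : ι → ℝ) : ℝ := √(ip x x)

theorem nr_pos {x : ι → ℝ} (hx : 0 < ip x x) : 0 < nr x := Real.sqrt_pos.2 hx

theorem nr_sq {x : ι → ℝ} (hx : 0 < ip x x) : nr x ^ 2 = ip x x := Real.sq_sqrt hx.le

theorem nr_one {x : ι → ℝ} (hx : ip x x = 1) : nr x = 1 := by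
  rw [nr, hx, Real.sqrt_one]

theorem ip_unit {x : ι → ℝ} (hx : 0 < ip x x) : ip ((nr x)⁻¹ • x) ((nr x)⁻¹ • x) = 1 := by
  rw [ip_smul_left, ip_smul_right]
  have h := nr_sq hx
  have h0 := (nr_pos hx).ne'
  rw [← h]
  field_simp

theorem nr_smul {c : ℝ} (hc : 0 < c) (x : ι → ℝ) : nr (c • x) = c * nr x := by
  rw [nr, ip_smul_left, ip_smul_right, nr]
  have : c * (c * ip x x) = c ^ 2 * ip x x := by ring
  rw [this, Real.sqrt_mul (by positivity), Real.sqrt_sq hc.le]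

/-- homogeneous extension -/
noncomputable def he (G : (ι → ℝ) → (ι → ℝ)) (x : ι → ℝ) : ι → ℝ := nr x • G ((nr x)⁻¹ • x)

theorem he_unit (G : (ι → ℝ) → (ι → ℝ)) {x : ι → ℝ} (hx : ip x x = 1) : he G x = G x := by
  rw [he, nr_one hx, inv_one, one_smul, one_smul]

theorem ip_he {G : (ι → ℝ) → (ι → ℝ)} (hG : ∀ x, ip x x = 1 → ip (G x) (G x) = 1) {x : ι → ℝ}
    (hx : 0 < ip x x) : ip (he G x) (he G x) = ip x x := by
  rw [he, ip_smul_left, ip_smul_right, hG _ (ip_unit hx), ← nr_sq hx]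
  ring

theorem nr_he {G : (ι → ℝ) → (ι → ℝ)} (hG : ∀ x, ip x x = 1 → ip (G x) (G x) = 1) {x : ι → ℝ}
    (hx : 0 < ip x x) : nr (he G x) = nr x := by
  rw [nr, ip_he hG hx, nr]

theorem he_smul (G : (ι → ℝ) → (ι → ℝ)) {c : ℝ} (hc : 0 < c) {x : ι → ℝ} (hx : 0 < ip x x) :
    he G (c • x) = c • he G x := by
  have h0 := (nr_pos hx).ne'
  have h1 : (nr (c • x))⁻¹ • c • x = (nr x)⁻¹ • x := by
    rw [nr_smul hc, smul_smul]
    congr 1
    field_simp
  rw [he, h1, nr_smul hc, he, smul_smul]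

theorem he_he {G G' : (ι → ℝ) → (ι → ℝ)} (D : Dif G G') {x : ι → ℝ} (hx : 0 < ip x x) :
    he G' (he G x) = x := by
  have h0 := (nr_pos hx).ne'
  have h1 : (nr x)⁻¹ • he G x = G ((nr x)⁻¹ • x) := by
    rw [he, smul_smul, inv_mul_cancel₀ h0, one_smul]
  rw [he, nr_he D.mG hx, h1, D.l _ (ip_unit hx), smul_smul, mul_inv_cancel₀ h0, one_smul]

theorem cont_ip : Continuous fun x : ι → ℝ => ip x x := by
  unfold ip
  fun_prop

theorem contDiff_ipx : ContDiff ℝ ∞ fun x : ι → ℝ => ip x x := by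
  unfold ip
  fun_prop

theorem contDiffAt_nr {x : ι → ℝ} (hx : 0 < ip x x) : ContDiffAt ℝ ∞ (nr (ι := ι)) x :=
  contDiff_ipx.contDiffAt.sqrt hx.ne'

theorem contDiffAt_he {G : (ι → ℝ) → (ι → ℝ)} (hG : ContDiff ℝ ∞ G) {x : ι → ℝ}
    (hx : 0 < ip x x) : ContDiffAt ℝ ∞ (he G) x := by
  have h1 := contDiffAt_nr hx
  have h2 : ContDiffAt ℝ ∞ (fun x : ι → ℝ => (nr x)⁻¹) x := h1.inv (nr_pos hx).ne'
  have h3 : ContDiffAt ℝ ∞ (fun x : ι → ℝ => (nr x)⁻¹ • x) x := h2.smul contDiffAt_id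
  exact h1.smul (hG.contDiffAt.comp x h3)

theorem diff_he {G : (ι → ℝ) → (ι → ℝ)} (hG : ContDiff ℝ ∞ G) {x : ι → ℝ}
    (hx : 0 < ip x x) : DifferentiableAt ℝ (he G) x :=
  (contDiffAt_he hG hx).differentiableAt (by simp)

theorem der_line (x a : ι → ℝ) : HasDerivAt (fun t : ℝ => x + t • a) a 0 := by
  have h := ((hasDerivAt_id' (0 : ℝ)).smul_const a).const_add x
  rw [one_smul] at h
  exact h

/-- tangential derivative -/
theorem fderiv_he_tan {G : (ι → ℝ) → (ι → ℝ)} (hG : ContDiff ℝ ∞ G) {X ξ : ι → ℝ}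
    (hX : ip X X = 1) (hξ : ip X ξ = 0) : fderiv ℝ (he G) X ξ = fderiv ℝ G X ξ := by
  have hX0 : 0 < ip X X := by rw [hX]; exact one_pos
  have e0 : X + (0 : ℝ) • ξ = X := by rw [zero_smul, add_zero]
  have hl := der_line X ξ
  have h1 : HasDerivAt (fun t : ℝ => he G (X + t • ξ)) (fderiv ℝ (he G) X ξ) 0 := by
    have h := (diff_he hG hX0).hasFDerivAt
    rw [← e0] at h
    have h2 := h.comp_hasDerivAt (0 : ℝ) hl
    rw [e0] at h2
    exact h2
  have hN : HasDerivAt (fun t : ℝ => nr (X + t • ξ)) 0 0 := by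
    have h2 : (fun t : ℝ => ip (X + t • ξ) (X + t • ξ)) = fun t => 1 + t ^ 2 * ip ξ ξ := by
      funext t
      simp only [ip_add_left, ip_add_right, ip_smul_left, ip_smul_right]
      rw [ip_comm ξ X, hξ, hX]
      ring
    have h3 : HasDerivAt (fun t : ℝ => ip (X + t • ξ) (X + t • ξ)) 0 0 := by
      rw [h2]
      have h4 := ((hasDerivAt_pow 2 (0 : ℝ)).mul_const (ip ξ ξ)).const_add (1 : ℝ)
      refine h4.congr_deriv ?_
      norm_num
    have h5 := h3.sqrt (by rw [e0, hX]; exact one_ne_zero)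
    refine h5.congr_deriv ?_
    rw [zero_div]
  have hN0 : nr (X + (0 : ℝ) • ξ) = 1 := by rw [e0, nr_one hX]
  have hi := hN.inv (by rw [hN0]; exact one_ne_zero)
  have h3 := hi.smul hl
  have h4 : HasDerivAt (fun t : ℝ => (nr (X + t • ξ))⁻¹ • (X + t • ξ)) ξ 0 := by
    refine h3.congr_deriv ?_
    simp only [Pi.inv_apply]
    rw [hN0, e0]
    simp
  have e1 : (nr (X + (0 : ℝ) • ξ))⁻¹ • (X + (0 : ℝ) • ξ) = X := by
    rw [hN0, e0, inv_one, one_smul]
  have h5 : HasDerivAt (fun t : ℝ => G ((nr (X + t • ξ))⁻¹ • (X + t • ξ))) (fderiv ℝ G X ξ) 0 := by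
    have h := (hG.differentiable (by simp) X).hasFDerivAt
    rw [← e1] at h
    have h6 := h.comp_hasDerivAt (0 : ℝ) h4
    rw [e1] at h6
    exact h6
  have h6 := hN.smul h5
  have h7 : HasDerivAt (fun t : ℝ => he G (X + t • ξ)) (fderiv ℝ G X ξ) 0 := by
    refine h6.congr_deriv ?_
    rw [hN0, one_smul, zero_smul, add_zero]
  exact h1.unique h7

theorem fderiv_he_smul {G : (ι → ℝ) → (ι → ℝ)} (hG : ContDiff ℝ ∞ G) {c : ℝ} (hc : 0 < c)
    {X : ι → ℝ} (hX : 0 < ip X X) (ξ : ι → ℝ) :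
    fderiv ℝ (he G) (c • X) ξ = fderiv ℝ (he G) X ξ := by
  have hcX : 0 < ip (c • X) (c • X) := by
    rw [ip_smul_left, ip_smul_right]
    positivity
  have e0 : X + (0 : ℝ) • (c⁻¹ • ξ) = X := by rw [zero_smul, add_zero]
  have e1 : c • X + (0 : ℝ) • ξ = c • X := by rw [zero_smul, add_zero]
  have h1 : HasDerivAt (fun t : ℝ => he G (c • X + t • ξ)) (fderiv ℝ (he G) (c • X) ξ) 0 := by
    have h := (diff_he hG hcX).hasFDerivAt
    rw [← e1] at h
    have h2 := h.comp_hasDerivAt (0 : ℝ) (der_line (c • X) ξ)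
    rw [e1] at h2
    exact h2
  have h2 : HasDerivAt (fun t : ℝ => he G (X + t • (c⁻¹ • ξ)))
      (fderiv ℝ (he G) X (c⁻¹ • ξ)) 0 := by
    have h := (diff_he hG hX).hasFDerivAt
    rw [← e0] at h
    have h2 := h.comp_hasDerivAt (0 : ℝ) (der_line X (c⁻¹ • ξ))
    rw [e0] at h2
    exact h2
  have h3 := h2.const_smul c
  have h4 : (fun t : ℝ => he G (c • X + t • ξ)) =ᶠ[𝓝 0]
      fun t => c • he G (X + t • (c⁻¹ • ξ)) := by
    have h5 : ∀ᶠ t in 𝓝 (0 : ℝ), 0 < ip (X + t • (c⁻¹ • ξ)) (X + t • (c⁻¹ • ξ)) := by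
      have h6 : Continuous fun t : ℝ => ip (X + t • (c⁻¹ • ξ)) (X + t • (c⁻¹ • ξ)) :=
        cont_ip.comp (by fun_prop)
      refine h6.continuousAt.eventually (lt_mem_nhds ?_)
      show 0 < ip (X + (0 : ℝ) • (c⁻¹ • ξ)) (X + (0 : ℝ) • (c⁻¹ • ξ))
      rw [e0]
      exact hX
    filter_upwards [h5] with t ht
    rw [← he_smul G hc ht, smul_add, smul_smul, smul_smul]
    congr 2
    field_simp
  have h5 := h1.unique (h3.congr_of_eventuallyEq h4)
  rw [h5, map_smul, smul_smul, mul_inv_cancel₀ hc.ne', one_smul]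

theorem fderiv_he_self {G : (ι → ℝ) → (ι → ℝ)} (hG : ContDiff ℝ ∞ G) {X : ι → ℝ}
    (hX : 0 < ip X X) : fderiv ℝ (he G) X X = he G X := by
  have e0 : X + (0 : ℝ) • X = X := by rw [zero_smul, add_zero]
  have h1 : HasDerivAt (fun t : ℝ => he G (X + t • X)) (fderiv ℝ (he G) X X) 0 := by
    have h := (diff_he hG hX).hasFDerivAt
    rw [← e0] at h
    have h2 := h.comp_hasDerivAt (0 : ℝ) (der_line X X)
    rw [e0] at h2
    exact h2
  have h2 : HasDerivAt (fun t : ℝ => he G X + t • he G X) (he G X) 0 := der_line _ _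
  have h3 : (fun t : ℝ => he G (X + t • X)) =ᶠ[𝓝 0] fun t => he G X + t • he G X := by
    filter_upwards [Ioi_mem_nhds (show (-1 : ℝ) < 0 by norm_num)] with t ht
    have ht' : 0 < 1 + t := by linarith [mem_Ioi.1 ht]
    have h4 : X + t • X = (1 + t) • X := by rw [add_smul, one_smul]
    rw [h4, he_smul G ht' hX, add_smul, one_smul]
  exact h1.unique (h2.congr_of_eventuallyEq h3)

variable [DecidableEq ι]

theorem ip_transpose (T : (ι → ℝ) →L[ℝ] (ι → ℝ)) (p ξ : ι → ℝ) :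
    ip (fun i => ip (T (Pi.single i 1)) p) ξ = ip (T ξ) p := by
  have h1 : ξ = ∑ i, ξ i • (Pi.single i (1 : ℝ) : ι → ℝ) := by
    funext j
    simp [Finset.sum_apply, Pi.single_apply]
  have h2 : T ξ = ∑ i, ξ i • T (Pi.single i 1) := by
    conv_lhs => rw [h1]
    rw [map_sum]
    exact Finset.sum_congr rfl fun i _ => by rw [map_smul]
  rw [h2]
  simp only [ip, Finset.sum_apply, Pi.smul_apply, smul_eq_mul]
  simp only [Finset.sum_mul]
  rw [Finset.sum_comm]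
  refine Finset.sum_congr rfl fun i _ => ?_
  refine Finset.sum_congr rfl fun j _ => ?_
  ring

/-- the lifted map -/
noncomputable def Ps (G G' : (ι → ℝ) → (ι → ℝ)) (z : (ι → ℝ) × (ι → ℝ)) : (ι → ℝ) × (ι → ℝ) :=
  (he G z.1, fun i => ip (fderiv ℝ (he G') (he G z.1) (Pi.single i 1)) z.2)

theorem dif_symm {G G' : (ι → ℝ) → (ι → ℝ)} (D : Dif G G') : Dif G' G :=
  ⟨D.sG', D.sG, D.mG', D.mG, D.r, D.l⟩

theorem Ps_eq {G G' : (ι → ℝ) → (ι → ℝ)} (D : Dif G G') {z : (ι → ℝ) × (ι → ℝ)}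
    (hz : z ∈ TS ι) : Ps G G' z = cot G G' z := by
  obtain ⟨h1, h2⟩ := hz
  have hG1 := D.mG _ h1
  have hG0 : 0 < ip (G z.1) (G z.1) := by rw [hG1]; exact one_pos
  rw [Ps, cot, he_unit G h1]
  refine Prod.ext rfl ?_
  show (fun i => ip (fderiv ℝ (he G') (G z.1) (Pi.single i 1)) z.2) = _
  refine eq_tproj hG1 ?_ ?_
  · rw [ip_comm, ip_transpose, fderiv_he_self D.sG' hG0, he_unit G' hG1, D.l _ h1]
    exact h2
  · intro ξ hξ
    rw [ip_transpose, ip_transpose, fderiv_he_tan D.sG' hG1 hξ]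

theorem tproj_smul_left {c : ℝ} (hc : c ≠ 0) (x p : ι → ℝ) : tproj (c • x) p = tproj x p := by
  rw [tproj, tproj, ip_smul_left, ip_smul_left, ip_smul_right, smul_smul]
  congr 2
  rcases eq_or_ne (ip x x) 0 with h | h
  · rw [h]
    simp
  · field_simp

theorem toTS_Ps (tan : T_TAN) {G G' : (ι → ℝ) → (ι → ℝ)} (D : Dif G G')
    {z : (ι → ℝ) × (ι → ℝ)} (hz : 0 < ip z.1 z.1) :
    toTS (Ps G G' z) = cot G G' (toTS z) := by
  have hρ := nr_pos hz
  have hX := ip_unit hz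
  set ρ := nr z.1 with hρd
  set X := ρ⁻¹ • z.1 with hXd
  have hx : z.1 = ρ • X := by
    rw [hXd, smul_smul, mul_inv_cancel₀ hρ.ne', one_smul]
  have hG1 := D.mG _ hX
  have hG0 : 0 < ip (G X) (G X) := by rw [hG1]; exact one_pos
  have hhe : he G z.1 = ρ • G X := rfl
  have hnr : √(ip (he G z.1) (he G z.1)) = ρ := nr_he D.mG hz
  have hnz : √(ip z.1 z.1) = ρ := rfl
  rw [toTS, toTS, cot, Ps]
  show ((√(ip (he G z.1) (he G z.1)))⁻¹ • he G z.1, √(ip (he G z.1) (he G z.1)) •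
    tproj (he G z.1) (fun i => ip (fderiv ℝ (he G') (he G z.1) (Pi.single i 1)) z.2)) =
    (G ((√(ip z.1 z.1))⁻¹ • z.1), tproj (G ((√(ip z.1 z.1))⁻¹ • z.1)) (fun i =>
      ip (fderiv ℝ G' (G ((√(ip z.1 z.1))⁻¹ • z.1)) (Pi.single i 1))
        (√(ip z.1 z.1) • tproj z.1 z.2)))
  rw [hnr, hnz, ← hXd, hhe]
  refine Prod.ext ?_ ?_
  · show ρ⁻¹ • ρ • G X = G X
    rw [smul_smul, inv_mul_cancel₀ hρ.ne', one_smul]
  · show ρ • tproj (ρ • G X)
      (fun i => ip (fderiv ℝ (he G') (ρ • G X) (Pi.single i 1)) z.2) = _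
    rw [tproj_smul_left hρ.ne']
    refine eq_tproj hG1 ?_ ?_
    · rw [ip_smul_right, ip_tproj_self hG1, mul_zero]
    · intro ξ hξ
      obtain ⟨t1, -⟩ := tan ι G' G (dif_symm D) (G X) ξ hG1 hξ
      rw [D.l _ hX] at t1
      rw [ip_smul_left, ip_tproj hξ, ip_transpose, ip_transpose,
        fderiv_he_smul D.sG' hρ hG0, fderiv_he_tan D.sG' hG1 hξ, ip_smul_right]
      congr 1
      rw [tproj, ip_sub_right, ip_smul_right]
      have h5 : ip (fderiv ℝ G' (G X) ξ) z.1 = 0 := by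
        rw [hx, ip_smul_right, ip_comm, t1, mul_zero]
      rw [h5]
      ring

end

end HOM_

theorem p_HOM : T_HOM := by
  intro syp tan ι _ _ G G' D
  refine ⟨HOM_.Ps G G', fun z hz => ?_⟩
  have hz0 : 0 < ip z.1 z.1 := TS_pos hz
  have hev : ∀ᶠ x in 𝓝 z.1, 0 < ip x x := HOM_.cont_ip.continuousAt.eventually (lt_mem_nhds hz0)
  have hG0 : 0 < ip (HOM_.he G z.1) (HOM_.he G z.1) := by
    rw [HOM_.ip_he D.mG hz0]
    exact hz0
  have h := syp ι (HOM_.he G) (HOM_.he G') z.1 z.2 (HOM_.contDiffAt_he D.sG hz0)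
    (HOM_.contDiffAt_he D.sG' hG0) (hev.mono fun x hx => HOM_.he_he D hx) (HOM_.Ps G G')
    (fun _ => rfl)
  refine ⟨HOM_.Ps_eq D hz, h.1, h.2, fun F => ?_⟩
  have hev' : ∀ᶠ z' in 𝓝 z, 0 < ip z'.1 z'.1 := eventually_ip_pos hz0
  filter_upwards [hev'] with z' hz'
  show F (cot G G' (toTS z')) = F (toTS (HOM_.Ps G G' z'))
  rw [HOM_.toTS_Ps tan D hz']

end Pool.Agent.USQ
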