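import Pool.Agent.USQ.Targets

/-!
# USQ: the differentials of the integrals do not vanish on the torus directions
-/

set_option autoImplicit false

open Set Filter Topology MeasureTheory
open scoped ContDiff

namespace Pool.Agent.USQ
open Pool.Agent.MSup
open Pool.Agent.USP (Fr JJ GG Win Pot)

theorem IN2_.ip_comm {β : Type} [Fintype β] (x y : β → ℝ) : ip x y = ip y x := by
  simp only [ip]
  exact Finset.sum_congr rfl fun i _ => mul_comm _ _

theorem IN2_.ip_zero {β : Type} [Fintype β] (x : β → ℝ) : ip (0 : β → ℝ) x = 0 := by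
  simp [ip]

theorem IN2_.om0 {β : Type} [Fintype β] (R : Fr β) : R.om 0 0 = R.w := by
  simp [Fr.om, Fr.rot]

theorem IN2_.om0' {β : Type} [Fintype β] (R : Fr β) : R.om' 0 0 = R.v := by
  simp [Fr.om', Fr.rot]

/-- `w, v, J w` are independent -/
theorem IN2_.frame {β : Type} [Fintype β] (R : Fr β) (hk : |R.k| < 1) (x y z : ℝ)
    (h : x • R.w + y • R.v + z • R.J R.w = 0) : x = 0 ∧ y = 0 ∧ z = 0 := by
  have hww : ip (R.J R.w) R.w = 0 := by
    have h1 := R.skew R.w R.w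
    rw [IN2_.ip_comm R.w (R.J R.w)] at h1
    linarith
  have hJJ : ip (R.J R.w) (R.J R.w) = 1 := by
    have h1 := R.skew R.w (R.J R.w)
    rw [R.sq, show (-R.w : β → ℝ) = (-1 : ℝ) • R.w by simp, ip_smul_right, R.hw] at h1
    rw [h1]
    norm_num
  have hvw : ip R.v R.w = 0 := by rw [IN2_.ip_comm, R.hwv]
  have f1 : ∀ u : β → ℝ, x * ip R.w u + y * ip R.v u + z * ip (R.J R.w) u = 0 := by
    intro u
    have h2 := congrArg (fun x => ip x u) h
    simp only [ip_add_left, ip_smul_left, IN2_.ip_zero] at h2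
    exact h2
  have g1 := f1 R.w
  rw [R.hw, hvw, hww] at g1
  have g2 := f1 R.v
  rw [R.hwv, R.hv] at g2
  have g3 := f1 (R.J R.w)
  rw [hJJ, IN2_.ip_comm R.w (R.J R.w), hww, IN2_.ip_comm R.v (R.J R.w)] at g3
  change _ + _ * R.k + _ = 0 at g3
  change _ + _ + _ * R.k = 0 at g2
  have hk2 : 1 - R.k ^ 2 ≠ 0 := by
    have h1 : R.k ^ 2 < 1 := (sq_lt_one_iff_abs_lt_one _).2 hk
    linarith
  have hz : z = 0 := by
    have : (1 - R.k ^ 2) * z = 0 := by
      linear_combination g3 - R.k * g2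
    exact (mul_eq_zero.1 this).resolve_left hk2
  refine ⟨by linarith, ?_, hz⟩
  rw [hz] at g2
  linarith

theorem IN2_.rot0 {s x y : ℝ} (h0 : x * Real.cos s - Real.sin s * y = 0)
    (h1 : x * Real.sin s + Real.cos s * y = 0) : x = 0 ∧ y = 0 := by
  have hsc := Real.sin_sq_add_cos_sq s
  constructor
  · have : x * (Real.sin s ^ 2 + Real.cos s ^ 2) = 0 := by
      linear_combination Real.sin s * h1 + Real.cos s * h0
    rwa [hsc, mul_one] at this
  · have : y * (Real.sin s ^ 2 + Real.cos s ^ 2) = 0 := by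
      linear_combination Real.cos s * h1 - Real.sin s * h0
    rwa [hsc, mul_one] at this

theorem IN2_.indep {a b : ℕ} (R₁ : Fr (Fin a)) (R₂ : Fr (Fin b)) (hk1 : |R₁.k| < 1)
    (hk2 : |R₂.k| < 1) {s : ℝ} (hs : Real.sin s ≠ 0) (hc : Real.cos s ≠ 0)
    (L₁ L₂ p c1 c2 ds : ℝ) (dθ : Fin 4 → ℝ) (dp : ℝ)
    (h : c1 • (((T2 R₁ R₂ L₁ L₂).pt (s, 0, p)).1, -((T2 R₁ R₂ L₁ L₂).pt (s, 0, p)).2) +
      c2 • ((0 : Fin a ⊕ Fin b → ℝ), ((T2 R₁ R₂ L₁ L₂).pt (s, 0, p)).1) +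
      d2 R₁ R₂ L₁ L₂ s 0 p ds dθ dp = 0) :
    c1 = 0 ∧ c2 = 0 ∧ ds = 0 ∧ dθ = 0 := by
  have e1 : (c1 * Real.cos s - Real.sin s * ds) • R₁.w + (Real.cos s * dθ 0) • R₁.v +
      (Real.cos s * dθ 1) • R₁.J R₁.w = 0 := by
    funext j
    have h1 := congrFun (congrArg Prod.fst h) (Sum.inl j)
    simp only [Prod.fst_add, Prod.smul_fst, Pi.add_apply, Pi.smul_apply, smul_eq_mul, Tor.pt, T2,
      d2, Sum.elim_inl, Prod.fst_zero, Pi.zero_apply, mul_zero, add_zero, IN2_.om0,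
      IN2_.om0'] at h1
    simp only [Pi.add_apply, Pi.smul_apply, smul_eq_mul, Pi.zero_apply]
    linarith
  have e2 : (c1 * Real.sin s + Real.cos s * ds) • R₂.w + (Real.sin s * dθ 2) • R₂.v +
      (Real.sin s * dθ 3) • R₂.J R₂.w = 0 := by
    funext j
    have h1 := congrFun (congrArg Prod.fst h) (Sum.inr j)
    simp only [Prod.fst_add, Prod.smul_fst, Pi.add_apply, Pi.smul_apply, smul_eq_mul, Tor.pt, T2,
      d2, Sum.elim_inr, Prod.fst_zero, Pi.zero_apply, mul_zero, add_zero, IN2_.om0,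
      IN2_.om0'] at h1
    simp only [Pi.add_apply, Pi.smul_apply, smul_eq_mul, Pi.zero_apply]
    linarith
  obtain ⟨f0, f1, f2⟩ := IN2_.frame R₁ hk1 _ _ _ e1
  obtain ⟨g0, g1, g2⟩ := IN2_.frame R₂ hk2 _ _ _ e2
  obtain ⟨hc1, hds⟩ := IN2_.rot0 f0 g0
  have hθ : dθ = 0 := by
    funext i
    fin_cases i
    · exact (mul_eq_zero.1 f1).resolve_left hc
    · exact (mul_eq_zero.1 f2).resolve_left hc
    · exact (mul_eq_zero.1 g1).resolve_left hs
    · exact (mul_eq_zero.1 g2).resolve_left hs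
  subst hc1 hds hθ
  have e3 : (c2 * Real.cos s - Real.sin s * dp) • R₁.w + (0 : ℝ) • R₁.v +
      (0 : ℝ) • R₁.J R₁.w = 0 := by
    funext j
    have h1 := congrFun (congrArg Prod.snd h) (Sum.inl j)
    simp only [Prod.snd_add, Prod.smul_snd, Pi.add_apply, Pi.smul_apply, smul_eq_mul, Tor.pt, T2,
      d2, Sum.elim_inl, Prod.snd_zero, Pi.zero_apply, mul_zero, zero_mul, add_zero, zero_add,
      sub_zero, neg_zero, IN2_.om0, IN2_.om0'] at h1
    simp only [Pi.add_apply, Pi.smul_apply, smul_eq_mul, Pi.zero_apply]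
    linarith
  have e4 : (c2 * Real.sin s + Real.cos s * dp) • R₂.w + (0 : ℝ) • R₂.v +
      (0 : ℝ) • R₂.J R₂.w = 0 := by
    funext j
    have h1 := congrFun (congrArg Prod.snd h) (Sum.inr j)
    simp only [Prod.snd_add, Prod.smul_snd, Pi.add_apply, Pi.smul_apply, smul_eq_mul, Tor.pt, T2,
      d2, Sum.elim_inr, Prod.snd_zero, Pi.zero_apply, mul_zero, zero_mul, add_zero, zero_add,
      sub_zero, neg_zero, IN2_.om0, IN2_.om0'] at h1
    simp only [Pi.add_apply, Pi.smul_apply, smul_eq_mul, Pi.zero_apply]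
    linarith
  obtain ⟨k0, -, -⟩ := IN2_.frame R₁ hk1 _ _ _ e3
  obtain ⟨l0, -, -⟩ := IN2_.frame R₂ hk2 _ _ _ e4
  exact ⟨rfl, (IN2_.rot0 k0 l0).1, rfl, rfl⟩

theorem p_IN2 : T_IN2 := by
  intro _ hDT hOK a b R₁ R₂ L₁ L₂ H D hR hk1 hk2 s hs p hne F hF hI hLI v hv
  have hs' : s ∈ Ioo 0 Real.pi := ⟨hs.1, by linarith [hs.2, Real.pi_pos]⟩
  have hsin : Real.sin s ≠ 0 := (Real.sin_pos_of_pos_of_lt_pi hs'.1 hs'.2).ne'
  have hcos : Real.cos s ≠ 0 :=
    (Real.cos_pos_of_mem_Ioo ⟨by linarith [hs.1, Real.pi_pos], hs.2⟩).ne'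
  have hz := (hOK a b R₁ R₂ L₁ L₂).mem s hs 0 p
  by_contra hcon
  push Not at hcon
  set z := (T2 R₁ R₂ L₁ L₂).pt (s, 0, p) with hzdef
  refine rank_contra (M := 4) (fun i => fderiv ℝ (lift (F i)) z) hLI
    ![(z.1, -z.2), (0, z.1), XH H z, fderiv ℝ (T2 R₁ R₂ L₁ L₂).pt (s, 0, p) (0, v, 0)] ?_ ?_ ?_
  · rw [Fintype.linearIndependent_iff]
    intro g hg
    rw [Fin.sum_univ_four] at hg
    simp only [Matrix.cons_val_zero, Matrix.cons_val_one, Matrix.cons_val] at hg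
    have e : ∀ (x y : ℝ) (dθ : Fin 4 → ℝ) (r u : ℝ), x • ((r, dθ, u) : ℝ × (Fin 4 → ℝ) × ℝ) +
        y • ((0, v, 0) : ℝ × (Fin 4 → ℝ) × ℝ) = (x * r, x • dθ + y • v, x * u) := by
      intro x y dθ r u
      simp
    rw [add_assoc, hzdef, hR.eq s hs, ← map_smul, ← map_smul, ← map_add, e,
      (hDT a b R₁ R₂ L₁ L₂ s hs 0 p).2] at hg
    obtain ⟨h0, h1, h2, h3⟩ := IN2_.indep R₁ R₂ hk1 hk2 hsin hcos _ _ _ _ _ _ _ _ hg
    have g2 : g 2 = 0 := (mul_eq_zero.1 h2).resolve_right hne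
    rw [g2, zero_smul, zero_add] at h3
    have g3 : g 3 = 0 := (smul_eq_zero.1 h3).resolve_right hv
    intro i
    fin_cases i
    · exact h0
    · exact h1
    · exact g2
    · exact g3
  · have : Module.finrank ℝ (Ph a b) = 2 * (Fintype.card (Fin a ⊕ Fin b)) := by
      rw [Module.finrank_prod, Module.finrank_fintype_fun_eq_card]
      ring
    rw [this]
    omega
  · intro i j
    have hdi : DifferentiableAt ℝ (lift (F i)) z :=
      (contDiffAt_lift (hF i) (TS_pos hz)).differentiableAt (by simp)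
    fin_cases j
    · exact fderiv_lift_scale (TS_pos hz) hdi
    · exact fderiv_lift_shift (TS_pos hz) hdi
    · exact fderiv_XH (hI i) hz
    · exact hcon i

end Pool.Agent.USQ
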