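import Pool.Agent.USQ.Targets

/-!
# Block LI2: limits of good points
-/

set_option autoImplicit false

open Set Filter Topology MeasureTheory
open scoped ContDiff

namespace Pool.Agent.USQ
open Pool.Agent.MSup
open Pool.Agent.USP (Fr JJ GG Win Pot)

/-- The minimum of a function with walls. -/
theorem LI2_.exists_min {f : ℝ → ℝ} {β : ℝ} (hβ : 0 < β)
    (hc : ∀ s ∈ Ioo 0 β, ContinuousAt f s)
    (h1 : Tendsto f (𝓝[>] 0) atTop) (h2 : Tendsto f (𝓝[<] β) atTop) :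
    ∃ t ∈ Ioo 0 β, ∀ s ∈ Ioo 0 β, f t ≤ f s := by
  have hl := h1.eventually (eventually_gt_atTop (f (β / 2)))
  have hr := h2.eventually (eventually_gt_atTop (f (β / 2)))
  obtain ⟨a, ha, ha2⟩ := (mem_nhdsGT_iff_exists_Ioo_subset).1 hl
  obtain ⟨b, hb, hb2⟩ := (mem_nhdsLT_iff_exists_Ioo_subset).1 hr
  have ha0 : 0 < a := ha
  have hb0 : b < β := hb
  set a' : ℝ := min (a / 2) (β / 4) with ha'
  set b' : ℝ := max ((b + β) / 2) (3 * β / 4) with hb'
  have ha1 : 0 < a' := lt_min (by linarith) (by linarith)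
  have ha3 : a' ≤ β / 4 := min_le_right _ _
  have ha4 : a' ≤ a / 2 := min_le_left _ _
  have hb1 : b' < β := max_lt (by linarith) (by linarith)
  have hb3 : 3 * β / 4 ≤ b' := le_max_right _ _
  have hb4 : (b + β) / 2 ≤ b' := le_max_left _ _
  have hsub : Icc a' b' ⊆ Ioo 0 β := fun s hs =>
    ⟨lt_of_lt_of_le ha1 hs.1, lt_of_le_of_lt hs.2 hb1⟩
  have hmid : β / 2 ∈ Icc a' b' := ⟨by linarith, by linarith⟩
  obtain ⟨t, ht, ht2⟩ := isCompact_Icc.exists_isMinOn (s := Icc a' b') ⟨_, hmid⟩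
    (f := f) (fun s hs => (hc s (hsub hs)).continuousWithinAt)
  refine ⟨t, hsub ht, fun s hs => ?_⟩
  have htm : f t ≤ f (β / 2) := ht2 hmid
  rcases lt_or_ge s a' with h1 | h1
  · have h2 : f (β / 2) < f s := ha2 ⟨hs.1, by linarith⟩
    linarith
  · rcases lt_or_ge b' s with h2 | h2
    · have h3 : f (β / 2) < f s := hb2 ⟨by linarith, hs.2⟩
      linarith
    · exact ht2 ⟨h1, h2⟩

theorem LI2_.GG_zero {V w g : ℝ → ℝ} {β X : ℝ} (hβ : 0 < β) (h : ∀ s ∈ Ioo 0 β, X ≤ V s) :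
    GG 0 β V w g X = 0 := by
  unfold Pool.Agent.USP.GG
  rw [intervalIntegral.integral_of_le hβ.le, ← setIntegral_congr_set Ioo_ae_eq_Ioc]
  refine setIntegral_eq_zero_of_forall_eq_zero fun s hs => ?_
  have h1 : X - V s ≤ 0 := by
    have := h s hs
    linarith
  rw [max_eq_right h1, Real.sqrt_zero, mul_zero, zero_div]

/-- LI2. -/
theorem p_LI2 : T_LI2 := by
  intro hPH hPO D hD hgood m hm0 hm1 hm2 hm3 X
  have hb : (0 : ℝ) < Real.pi / 2 := by positivity
  have hpot := hPO D hD m hm0 hm1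
  obtain ⟨t, ht, hmin⟩ := LI2_.exists_min hb (fun s hs => (hpot.dV s hs).continuousAt)
    hpot.tl hpot.tr
  rcases le_or_gt X (D.V m t) with hX | hX
  · exact LI2_.GG_zero hb fun s hs => hX.trans (hmin s hs)
  · have hseq : ∀ n : ℕ, ∃ q : ℝ × (Fin 4 → ℝ), |q.1 - t| < 1 / ((n : ℝ) + 1) ∧
        (∀ j, |q.2 j - m j| < 1 / ((n : ℝ) + 1)) ∧
        ∀ X : ℝ, D.V q.2 q.1 ≤ X → GG 0 (Real.pi / 2) (D.V q.2) D.w (D.q q.2) X =
          GG 0 (Real.pi / 2) (D.V q.2) D.w (D.q q.2) (D.V q.2 q.1) := by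
      intro n
      obtain ⟨s0, m0, _, h1, h2, h3⟩ := hgood t ht m hm0 hm1 hm2 hm3 (1 / ((n : ℝ) + 1))
        (by positivity)
      exact ⟨(s0, m0), h1, h2, h3⟩
    choose q hq1 hq2 hq3 using hseq
    have hlim0 := tendsto_one_div_add_atTop_nhds_zero_nat (𝕜 := ℝ)
    have hs : Tendsto (fun n => (q n).1) atTop (𝓝 t) := by
      rw [tendsto_iff_norm_sub_tendsto_zero]
      exact squeeze_zero (fun n => norm_nonneg _) (fun n => (hq1 n).le) hlim0
    have hmj : ∀ j, Tendsto (fun n => (q n).2 j) atTop (𝓝 (m j)) := by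
      intro j
      rw [tendsto_iff_norm_sub_tendsto_zero]
      exact squeeze_zero (fun n => norm_nonneg _) (fun n => (hq2 n j).le) hlim0
    have hmm : Tendsto (fun n => (q n).2) atTop (𝓝 m) := tendsto_pi_nhds.2 hmj
    have hcont : ∀ f : ℝ → ℝ, ContDiffAt ℝ 2 f t →
        Tendsto (fun n => f (q n).1) atTop (𝓝 (f t)) := fun f hf =>
      hf.continuousAt.tendsto.comp hs
    have hXn : Tendsto (fun n => D.V (q n).2 (q n).1) atTop (𝓝 (D.V m t)) := by
      unfold Fn.V Fn.q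
      exact (((hcont _ (hD.su1 t ht)).mul ((hmj 0).pow 2)).add
        ((hcont _ (hD.su2 t ht)).mul ((hmj 1).pow 2))).add
        ((((hcont _ (hD.s11 t ht)).mul ((hmj 2).pow 2)).add
          (((tendsto_const_nhds.mul (hcont _ (hD.s12 t ht))).mul (hmj 2)).mul (hmj 3))).add
          ((hcont _ (hD.s22 t ht)).mul ((hmj 3).pow 2)))
    have hc := hPH D hD
    have h1 : Tendsto (fun n => GG 0 (Real.pi / 2) (D.V (q n).2) D.w (D.q (q n).2) X) atTop
        (𝓝 (GG 0 (Real.pi / 2) (D.V m) D.w (D.q m) X)) := by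
      have h : Tendsto (fun n => ((X, (q n).2) : ℝ × (Fin 4 → ℝ))) atTop (𝓝 (X, m)) :=
        tendsto_const_nhds.prodMk_nhds hmm
      have h5 := (hc.tendsto (X, m)).comp h
      simp only [Function.comp_def] at h5
      exact h5
    have h2 : Tendsto (fun n => GG 0 (Real.pi / 2) (D.V (q n).2) D.w (D.q (q n).2)
        (D.V (q n).2 (q n).1)) atTop
        (𝓝 (GG 0 (Real.pi / 2) (D.V m) D.w (D.q m) (D.V m t))) := by
      have h : Tendsto (fun n => ((D.V (q n).2 (q n).1, (q n).2) : ℝ × (Fin 4 → ℝ))) atTop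
          (𝓝 (D.V m t, m)) := hXn.prodMk_nhds hmm
      have h5 := (hc.tendsto (D.V m t, m)).comp h
      simp only [Function.comp_def] at h5
      exact h5
    have h3 : ∀ᶠ n in atTop, GG 0 (Real.pi / 2) (D.V (q n).2) D.w (D.q (q n).2)
        (D.V (q n).2 (q n).1) = GG 0 (Real.pi / 2) (D.V (q n).2) D.w (D.q (q n).2) X := by
      filter_upwards [(tendsto_order.1 hXn).2 X hX] with n hn
      exact (hq3 n X hn.le).symm
    have h4 := tendsto_nhds_unique (h2.congr' h3) h1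
    rw [← h4]
    exact LI2_.GG_zero hb hmin

end Pool.Agent.USQ
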