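import Pool.Agent.USQ.Targets
import Pool.Agent.USP.P_ORT
import Pool.Agent.USP.P_DER

/-!
# USQ: the torus family of a pair of frames is admissible
-/

set_option autoImplicit false

open Set Filter Topology MeasureTheory
open scoped ContDiff

namespace Pool.Agent.USQ
open Pool.Agent.MSup
open Pool.Agent.USP (Fr JJ GG Win Pot)

namespace OK2_

theorem ip_split {a b : ℕ} (x y : (Fin a ⊕ Fin b) → ℝ) :
    ip x y = ip (yc x) (yc y) + ip (zc x) (zc y) := by
  simp only [ip, Fintype.sum_sum_type, yc, zc]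

variable {β : Type} [Fintype β] (R : Fr β)

theorem per_a (x y : ℝ) : R.om (x + 2 * Real.pi) y = R.om x y ∧
    R.om' (x + 2 * Real.pi) y = R.om' x y := by
  constructor
  · funext i
    rw [USP.DER_.om_app, USP.DER_.om_app, Real.cos_add_two_pi, Real.sin_add_two_pi]
  · funext i
    rw [USP.DER_.om'_app, USP.DER_.om'_app, Real.cos_add_two_pi, Real.sin_add_two_pi]

theorem per_b (x y : ℝ) : R.om x (y + 2 * Real.pi) = R.om x y ∧
    R.om' x (y + 2 * Real.pi) = R.om' x y := by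
  constructor
  · funext i
    rw [USP.DER_.om_app, USP.DER_.om_app, Real.cos_add_two_pi, Real.sin_add_two_pi]
  · funext i
    rw [USP.DER_.om'_app, USP.DER_.om'_app, Real.cos_add_two_pi, Real.sin_add_two_pi]

end OK2_

open OK2_ in
theorem p_OK2 : T_OK2 := by
  intro a b R₁ R₂ L₁ L₂
  have hc : ∀ s ∈ Ioo 0 (Real.pi / 2), Real.cos s ≠ 0 := fun s hs =>
    (Real.cos_pos_of_mem_Ioo ⟨by linarith [hs.1, Real.pi_pos], hs.2⟩).ne'
  have hsn : ∀ s ∈ Ioo 0 (Real.pi / 2), Real.sin s ≠ 0 := fun s hs =>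
    (Real.sin_pos_of_pos_of_lt_pi hs.1 (by linarith [hs.2, Real.pi_pos])).ne'
  refine ⟨?_, ?_, ?_, ?_, ?_⟩
  · intro s hs θ
    rw [differentiableAt_pi]
    rintro (i | i)
    · change DifferentiableAt ℝ (fun v : ℝ × (Fin 4 → ℝ) =>
        Real.cos v.1 * R₁.om (v.2 0) (v.2 1) i) (s, θ)
      simp only [USP.DER_.om_app]
      fun_prop
    · change DifferentiableAt ℝ (fun v : ℝ × (Fin 4 → ℝ) =>
        Real.sin v.1 * R₂.om (v.2 2) (v.2 3) i) (s, θ)
      simp only [USP.DER_.om_app]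
      fun_prop
  · intro s hs θ
    rw [differentiableAt_pi]
    rintro (i | i)
    · change DifferentiableAt ℝ (fun v : ℝ × (Fin 4 → ℝ) =>
        L₁ / Real.cos v.1 * R₁.om' (v.2 0) (v.2 1) i) (s, θ)
      simp only [USP.DER_.om'_app]
      have h := hc s hs
      have h1 : DifferentiableAt ℝ (fun v : ℝ × (Fin 4 → ℝ) => Real.cos v.1) (s, θ) := by
        fun_prop
      have h2 : DifferentiableAt ℝ (fun v : ℝ × (Fin 4 → ℝ) => L₁ / Real.cos v.1) (s, θ) := by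
        simp only [div_eq_mul_inv]
        exact (h1.fun_inv h).const_mul L₁
      refine h2.mul ?_
      fun_prop
    · change DifferentiableAt ℝ (fun v : ℝ × (Fin 4 → ℝ) =>
        L₂ / Real.sin v.1 * R₂.om' (v.2 2) (v.2 3) i) (s, θ)
      simp only [USP.DER_.om'_app]
      have h := hsn s hs
      have h1 : DifferentiableAt ℝ (fun v : ℝ × (Fin 4 → ℝ) => Real.sin v.1) (s, θ) := by
        fun_prop
      have h2 : DifferentiableAt ℝ (fun v : ℝ × (Fin 4 → ℝ) => L₂ / Real.sin v.1) (s, θ) := by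
        simp only [div_eq_mul_inv]
        exact (h1.fun_inv h).const_mul L₂
      refine h2.mul ?_
      fun_prop
  · intro s hs θ
    rw [differentiableAt_pi]
    rintro (i | i)
    · change DifferentiableAt ℝ (fun v : ℝ × (Fin 4 → ℝ) =>
        -Real.sin v.1 * R₁.om (v.2 0) (v.2 1) i) (s, θ)
      simp only [USP.DER_.om_app]
      fun_prop
    · change DifferentiableAt ℝ (fun v : ℝ × (Fin 4 → ℝ) =>
        Real.cos v.1 * R₂.om (v.2 2) (v.2 3) i) (s, θ)
      simp only [USP.DER_.om_app]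
      fun_prop
  · intro s hs θ p
    obtain ⟨h1, -, h3, -⟩ := USP.p_ORT (Fin a) R₁ (θ 0) (θ 1)
    obtain ⟨k1, -, k3, -⟩ := USP.p_ORT (Fin b) R₂ (θ 2) (θ 3)
    have c0 := hc s hs
    have s0 := hsn s hs
    have y1 : yc ((T2 R₁ R₂ L₁ L₂).pt (s, θ, p)).1 = Real.cos s • R₁.om (θ 0) (θ 1) := rfl
    have z1 : zc ((T2 R₁ R₂ L₁ L₂).pt (s, θ, p)).1 = Real.sin s • R₂.om (θ 2) (θ 3) := rfl
    have y2 : yc ((T2 R₁ R₂ L₁ L₂).pt (s, θ, p)).2 =
        (L₁ / Real.cos s) • R₁.om' (θ 0) (θ 1) + p • (-Real.sin s • R₁.om (θ 0) (θ 1)) := rfl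
    have z2 : zc ((T2 R₁ R₂ L₁ L₂).pt (s, θ, p)).2 =
        (L₂ / Real.sin s) • R₂.om' (θ 2) (θ 3) + p • (Real.cos s • R₂.om (θ 2) (θ 3)) := rfl
    have sc := Real.sin_sq_add_cos_sq s
    constructor
    · rw [ip_split, y1, z1, USP.PSD_.smul_l, USP.PSD_.smul_l, USP.PSD_.smul_r, USP.PSD_.smul_r,
        h1, k1]
      linarith
    · rw [ip_split, y1, z1, y2, z2, USP.PSD_.smul_l, USP.PSD_.smul_l, USP.FEX_.add_r,
        USP.FEX_.add_r, USP.PSD_.smul_r, USP.PSD_.smul_r, USP.PSD_.smul_r, USP.PSD_.smul_r,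
        USP.PSD_.smul_r, USP.PSD_.smul_r, h1, k1, h3, k3]
      ring
  · intro s θ p j
    have key : (T2 R₁ R₂ L₁ L₂).pt (s, θ + Pi.single j (2 * Real.pi), p) =
        (T2 R₁ R₂ L₁ L₂).pt (s, θ, p) := by
      unfold Tor.pt T2
      simp only [Pi.add_apply]
      fin_cases j
      · simp [(per_a R₁ (θ 0) (θ 1)).1, (per_a R₁ (θ 0) (θ 1)).2]
      · simp [(per_b R₁ (θ 0) (θ 1)).1, (per_b R₁ (θ 0) (θ 1)).2]
      · simp [(per_a R₂ (θ 2) (θ 3)).1, (per_a R₂ (θ 2) (θ 3)).2]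
      · simp [(per_b R₂ (θ 2) (θ 3)).1, (per_b R₂ (θ 2) (θ 3)).2]
    exact key

end Pool.Agent.USQ
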