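import Pool.Agent.USQ.Targets
import Pool.Agent.USP.P_WIN
import Pool.Agent.USP.P_LOW
import Pool.Agent.USP.P_JCT
import Pool.Agent.USP.P_IRR
import Pool.Agent.USP.P_CST
import Pool.Agent.USP.P_BIG
import Pool.Agent.USP.P_INT
import Pool.Agent.USP.P_REG
import Pool.Agent.USP.P_SUB
import Pool.Agent.USP.P_FUB
import Pool.Agent.USP.P_GBD
import Pool.Agent.USP.P_COR

/-!
# USQ, T_ON2: the identity for one good point
-/

set_option autoImplicit false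

open Set Filter Topology MeasureTheory
open scoped ContDiff

namespace Pool.Agent.USQ
open Pool.Agent.MSup
open Pool.Agent.USP (Fr JJ GG Win Pot)

/-- the effective potentials agree -/
theorem ON2_.V_eq (c : Co) (L₁ L₂ K₁ K₂ : ℝ) :
    (rd2 c L₁ L₂ K₁ K₂).V = (fn2 c).V ![L₁, L₂, K₁, K₂] := by
  funext s
  unfold Rdt.V Fn.V Fn.q rd2 fn2
  simp only [Matrix.cons_val]
  ring

theorem ON2_.gt1 (c : Co) (L₁ L₂ K₁ K₂ : ℝ) :
    (rd2 c L₁ L₂ K₁ K₂).gt 1 = fun s => (fn2 c).c11 s * K₁ + (fn2 c).c12 s * K₂ := by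
  funext s
  unfold Rdt.gt rd2 fn2
  simp only [Matrix.cons_val]
  ring

theorem ON2_.gt3 (c : Co) (L₁ L₂ K₁ K₂ : ℝ) :
    (rd2 c L₁ L₂ K₁ K₂).gt 3 = fun s => (fn2 c).c12 s * K₁ + (fn2 c).c22 s * K₂ := by
  funext s
  unfold Rdt.gt rd2 fn2
  simp only [Matrix.cons_val]
  ring

theorem ON2_.gt0 (c : Co) (L₁ L₂ K₁ K₂ : ℝ) :
    (rd2 c L₁ L₂ K₁ K₂).gt 0 = fun s => (fn2 c).u1 s * L₁ := by
  funext s
  unfold Rdt.gt rd2 fn2
  simp only [Matrix.cons_val]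
  ring

/-- the integrand of the Abel transform is integrable -/
theorem ON2_.integrable {α β : ℝ} {V V1 w u g : ℝ → ℝ} (hP : Pot α β V V1 w u)
    (hg : ContinuousOn g (Ioo α β)) (hgb : ∃ C, ∀ s ∈ Ioo α β, |g s| ≤ C) (X : ℝ) :
    IntervalIntegrable (fun s => g s * √(max (X - V s) 0) / √(w s)) volume α β := by
  obtain ⟨C, hC⟩ := hgb
  have hVc : ContinuousOn V (Ioo α β) := fun s hs =>
    (hP.dV s hs).continuousAt.continuousWithinAt
  obtain ⟨m, hm⟩ := Pool.Agent.USP.GBD_.bddBelow hP.lt hVc hP.tl hP.tr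
  obtain ⟨s1, hs1, hmin⟩ := isCompact_Icc.exists_isMinOn (nonempty_Icc.2 hP.lt.le) hP.cw
  have hw1 : 0 < w s1 := hP.pw s1 hs1
  have hC0 : 0 ≤ C := by
    have h1 : (α + β) / 2 ∈ Ioo α β := by
      have := hP.lt
      constructor <;> linarith
    exact (abs_nonneg _).trans (hC _ h1)
  rw [intervalIntegrable_iff_integrableOn_Ioo_of_le hP.lt.le]
  have hcont : ContinuousOn (fun s => g s * √(max (X - V s) 0) / √(w s)) (Ioo α β) := by
    refine ContinuousOn.div (hg.mul ?_) ?_ ?_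
    · exact ((continuousOn_const.sub hVc).sup continuousOn_const).sqrt
    · exact (hP.cw.mono Ioo_subset_Icc_self).sqrt
    · intro s hs
      exact (Real.sqrt_pos.2 (hP.pw s (Ioo_subset_Icc_self hs))).ne'
  refine Integrable.of_bound (μ := volume.restrict (Ioo α β))
    (hcont.aestronglyMeasurable measurableSet_Ioo) (C * √(max (X - m) 0) / √(w s1)) ?_
  · refine (ae_restrict_iff' measurableSet_Ioo).2 (Eventually.of_forall fun s hs => ?_)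
    have h1 : w s1 ≤ w s := hmin (Ioo_subset_Icc_self hs)
    have h2 : √(w s1) ≤ √(w s) := Real.sqrt_le_sqrt h1
    have h3 : √(max (X - V s) 0) ≤ √(max (X - m) 0) :=
      Real.sqrt_le_sqrt (max_le_max (by linarith [hm s hs]) le_rfl)
    have h4 : 0 < √(w s1) := Real.sqrt_pos.2 hw1
    rw [Real.norm_eq_abs, abs_div, abs_mul, abs_of_nonneg (Real.sqrt_nonneg (max (X - V s) 0)),
      abs_of_nonneg (Real.sqrt_nonneg (w s))]
    refine div_le_div₀ (by positivity) ?_ h4 h2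
    exact mul_le_mul (hC s hs) h3 (Real.sqrt_nonneg _) hC0

theorem ON2_.GG_lin {α β : ℝ} {V V1 w u g1 g2 : ℝ → ℝ} (hP : Pot α β V V1 w u)
    (hg1 : ContinuousOn g1 (Ioo α β)) (hb1 : ∃ C, ∀ s ∈ Ioo α β, |g1 s| ≤ C)
    (hg2 : ContinuousOn g2 (Ioo α β)) (hb2 : ∃ C, ∀ s ∈ Ioo α β, |g2 s| ≤ C) (a b X : ℝ) :
    GG α β V w (fun s => a * g1 s + b * g2 s) X = a * GG α β V w g1 X + b * GG α β V w g2 X := by
  unfold GG
  rw [← intervalIntegral.integral_const_mul, ← intervalIntegral.integral_const_mul,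
    ← intervalIntegral.integral_add ((ON2_.integrable hP hg1 hb1 X).const_mul a)
      ((ON2_.integrable hP hg2 hb2 X).const_mul b)]
  refine intervalIntegral.integral_congr (fun s _ => ?_)
  show (a * g1 s + b * g2 s) * √(max (X - V s) 0) / √(w s) =
    a * (g1 s * √(max (X - V s) 0) / √(w s)) + b * (g2 s * √(max (X - V s) 0) / √(w s))
  ring

theorem ON2_.comb {D : Fn} (hS : Sus2 D) (K₁ K₂ : ℝ) :
    (ContinuousOn (fun s => D.c11 s * K₁ + D.c12 s * K₂) (Ioo 0 (Real.pi / 2)) ∧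
      ∃ C, ∀ s ∈ Ioo 0 (Real.pi / 2), |(fun s => D.c11 s * K₁ + D.c12 s * K₂) s| ≤ C) ∧
    (ContinuousOn (fun s => D.c12 s * K₁ + D.c22 s * K₂) (Ioo 0 (Real.pi / 2)) ∧
      ∃ C, ∀ s ∈ Ioo 0 (Real.pi / 2), |(fun s => D.c12 s * K₁ + D.c22 s * K₂) s| ≤ C) := by
  obtain ⟨C, hC⟩ := hS.bc
  have c11 : ContinuousOn D.c11 (Ioo 0 (Real.pi / 2)) := fun s hs =>
    (hS.s11 s hs).continuousAt.continuousWithinAt
  have c12 : ContinuousOn D.c12 (Ioo 0 (Real.pi / 2)) := fun s hs =>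
    (hS.s12 s hs).continuousAt.continuousWithinAt
  have c22 : ContinuousOn D.c22 (Ioo 0 (Real.pi / 2)) := fun s hs =>
    (hS.s22 s hs).continuousAt.continuousWithinAt
  refine ⟨⟨(c11.mul continuousOn_const).add (c12.mul continuousOn_const),
    C * |K₁| + C * |K₂|, fun s hs => ?_⟩,
    ⟨(c12.mul continuousOn_const).add (c22.mul continuousOn_const),
    C * |K₁| + C * |K₂|, fun s hs => ?_⟩⟩
  · obtain ⟨h1, _, h2, _, _, _⟩ := hC s hs
    show |D.c11 s * K₁ + D.c12 s * K₂| ≤ _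
    refine (abs_add_le _ _).trans ?_
    rw [abs_mul, abs_mul]
    exact add_le_add (mul_le_mul_of_nonneg_right h1 (abs_nonneg _))
      (mul_le_mul_of_nonneg_right h2 (abs_nonneg _))
  · obtain ⟨_, _, h2, _, h3, _⟩ := hC s hs
    show |D.c12 s * K₁ + D.c22 s * K₂| ≤ _
    refine (abs_add_le _ _).trans ?_
    rw [abs_mul, abs_mul]
    exact add_le_add (mul_le_mul_of_nonneg_right h2 (abs_nonneg _))
      (mul_le_mul_of_nonneg_right h3 (abs_nonneg _))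

theorem p_ON2 : T_ON2 := by
  intro hRTT hPET hBRT hPLT hIN2 hVA2 hDT2 hOK2 hPO2 a b R₁ R₂ H c L₁ L₂ hL₁ hL₂ hRed hS hk1 hk2
    s0 hs0 p0 hne F hF hFI hLI m hm X hX
  have hinj := hIN2 hVA2 hDT2 hOK2 a b R₁ R₂ L₁ L₂ H _ hRed hk1 hk2 s0 hs0 p0 hne F hF hFI hLI
  obtain ⟨E, hE, hEX⟩ := hRTT hPET hBRT hPLT (Fin a ⊕ Fin b) 4 (T2 R₁ R₂ L₁ L₂) (Real.pi / 2) H _
    (hOK2 a b R₁ R₂ L₁ L₂) hRed s0 hs0 _ F hF hFI p0 hinj
  have hPot := hPO2 (fn2 c) hS m (by rw [hm]; exact hL₁) (by rw [hm]; exact hL₂)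
  set K₁ : ℝ := R₁.k * L₁ with hK₁
  set K₂ : ℝ := R₂.k * L₂ with hK₂
  have hV : (rd2 c L₁ L₂ K₁ K₂).V = (fn2 c).V m := by
    rw [hm]
    exact ON2_.V_eq c L₁ L₂ K₁ K₂
  have hw : (rd2 c L₁ L₂ K₁ K₂).w = (fn2 c).w := rfl
  have hm0 : m 0 = L₁ := by rw [hm]; rfl
  have hu : (fun s => (fn2 c).u1 s * m 0) = (rd2 c L₁ L₂ K₁ K₂).gt 0 := by
    rw [ON2_.gt0, hm0]
  obtain ⟨⟨hc1, hb1⟩, ⟨hc3, hb3⟩⟩ := ON2_.comb hS K₁ K₂
  have key : ∀ (j : Fin 4) (g : ℝ → ℝ), (rd2 c L₁ L₂ K₁ K₂).gt j = g →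
      ContinuousOn g (Ioo 0 (Real.pi / 2)) → (∃ C, ∀ s ∈ Ioo 0 (Real.pi / 2), |g s| ≤ C) →
      GG 0 (Real.pi / 2) ((fn2 c).V m) (fn2 c).w g X =
        GG 0 (Real.pi / 2) ((fn2 c).V m) (fn2 c).w g ((fn2 c).V m s0) := by
    intro j g hgj hgc hgb
    refine Pool.Agent.USP.p_COR Pool.Agent.USP.p_WIN Pool.Agent.USP.p_LOW Pool.Agent.USP.p_JCT
      Pool.Agent.USP.p_IRR Pool.Agent.USP.p_CST Pool.Agent.USP.p_BIG Pool.Agent.USP.p_INT
      Pool.Agent.USP.p_REG Pool.Agent.USP.p_SUB Pool.Agent.USP.p_FUB Pool.Agent.USP.p_GBD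
      0 (Real.pi / 2) _ _ _ _ g hPot hgc hgb s0 hs0 E hE ?_ X hX
    intro Y hY x y hwin h1 h2
    have h3 := hEX Y hY x y (by rw [hV]; exact hwin) (by rw [hV]; exact h1)
      (by rw [hV]; exact h2)
    refine ⟨?_, ?_⟩
    · have h4 := h3 0
      rw [hV, hw, ← hu] at h4
      exact h4
    · have h4 := h3 j
      rw [hV, hw, hgj] at h4
      exact h4
  have hq : (fn2 c).q m = fun s => K₁ * ((fn2 c).c11 s * K₁ + (fn2 c).c12 s * K₂) +
      K₂ * ((fn2 c).c12 s * K₁ + (fn2 c).c22 s * K₂) := by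
    funext s
    rw [hm]
    unfold Fn.q
    simp only [Matrix.cons_val]
    ring
  have k1 := key 1 _ (ON2_.gt1 c L₁ L₂ K₁ K₂) hc1 hb1
  have k3 := key 3 _ (ON2_.gt3 c L₁ L₂ K₁ K₂) hc3 hb3
  rw [hq, ON2_.GG_lin hPot hc1 hb1 hc3 hb3, ON2_.GG_lin hPot hc1 hb1 hc3 hb3, k1, k3]

end Pool.Agent.USQ
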