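import Pool.Agent.USQ.Targets

/-!
# The cotangent lift of a diffeomorphism preserves polynomiality in the momenta
-/

set_option autoImplicit false

open Set Filter Topology MeasureTheory
open scoped ContDiff

namespace Pool.Agent.USQ
open Pool.Agent.MSup

namespace PCO_

variable {ι : Type} [Fintype ι] [DecidableEq ι]

/-- the matrix of the cotangent lift -/
noncomputable def M (G G' : (ι → ℝ) → (ι → ℝ)) (i l : ι) (x : ι → ℝ) : ℝ :=
  fderiv ℝ G' (G x) (Pi.single i 1) l -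
    (∑ k, G x k * fderiv ℝ G' (G x) (Pi.single k 1) l) * G x i

theorem cd_M (G G' : (ι → ℝ) → (ι → ℝ)) (h : Dif G G') (i l : ι) : ContDiff ℝ ∞ (M G G' i l) := by
  have h1 : ContDiff ℝ ∞ (fun x => fderiv ℝ G' (G x)) :=
    (h.sG'.fderiv_right (m := ∞) (by simp)).comp h.sG
  have h2 : ∀ k : ι, ContDiff ℝ ∞ (fun x => fderiv ℝ G' (G x) (Pi.single k 1) l) := fun k =>
    (contDiff_apply ℝ ℝ l).comp (h1.clm_apply contDiff_const)
  have h3 : ∀ k : ι, ContDiff ℝ ∞ (fun x => G x k) := fun k => (contDiff_apply ℝ ℝ k).comp h.sG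
  exact (h2 i).sub ((ContDiff.sum fun k _ => (h3 k).mul (h2 k)).mul (h3 i))

theorem cot_snd (G G' : (ι → ℝ) → (ι → ℝ)) (h : Dif G G') (z : (ι → ℝ) × (ι → ℝ))
    (hz : z ∈ TS ι) (i : ι) : (cot G G' z).2 i = ∑ l, M G G' i l z.1 * z.2 l := by
  have h1 : ip (G z.1) (G z.1) = 1 := h.mG _ hz.1
  have h2 : (cot G G' z).2 i = ip (fderiv ℝ G' (G z.1) (Pi.single i 1)) z.2 -
      (∑ k, G z.1 k * ip (fderiv ℝ G' (G z.1) (Pi.single k 1)) z.2) * G z.1 i := by
    change (tproj (G z.1) (fun i => ip (fderiv ℝ G' (G z.1) (Pi.single i 1)) z.2)) i = _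
    unfold tproj
    rw [h1, div_one]
    rfl
  rw [h2]
  unfold M ip
  simp only [sub_mul, Finset.sum_sub_distrib, Finset.sum_mul, Finset.mul_sum]
  congr 1
  rw [Finset.sum_comm]
  refine Finset.sum_congr rfl fun k _ => Finset.sum_congr rfl fun l _ => ?_
  ring

theorem cot_mem (G G' : (ι → ℝ) → (ι → ℝ)) (h : Dif G G') (z : (ι → ℝ) × (ι → ℝ))
    (hz : z ∈ TS ι) : cot G G' z ∈ TS ι := by
  have h1 : ip (G z.1) (G z.1) = 1 := h.mG _ hz.1
  refine ⟨h1, ?_⟩
  change ip (G z.1) (tproj (G z.1) _) = 0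
  unfold tproj
  rw [ip_sub_right, ip_smul_right, h1]
  ring

end PCO_

open PCO_ in
theorem p_PCO : T_PCO := by
  intro ι _ _ G G' h F hF
  obtain ⟨d, K, hK, hFK⟩ := hF
  refine ⟨d, fun k l x => ∑ i : Fin k → ι, K k i (G x) * ∏ j, M G G' (i j) (l j) x, ?_, ?_⟩
  · intro k l
    exact ContDiff.sum fun i _ => ((hK k i).comp h.sG).mul
      (contDiff_prod fun j _ => cd_M G G' h (i j) (l j))
  · intro z hz
    show F (cot G G' z) = _
    rw [hFK _ (cot_mem G G' h z hz)]
    refine Finset.sum_congr rfl fun k _ => ?_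
    have e1 : ∀ i : Fin k → ι, K k i (cot G G' z).1 * ∏ j, (cot G G' z).2 (i j) =
        ∑ l : Fin k → ι, K k i (G z.1) * ((∏ j, M G G' (i j) (l j) z.1) * ∏ j, z.2 (l j)) := by
      intro i
      have e2 : ∏ j, (cot G G' z).2 (i j) =
          ∑ l : Fin k → ι, (∏ j, M G G' (i j) (l j) z.1) * ∏ j, z.2 (l j) := by
        have e3 : ∏ j, (cot G G' z).2 (i j) =
            ∏ j, ∑ l : ι, M G G' (i j) l z.1 * z.2 l :=
          Finset.prod_congr rfl fun j _ => cot_snd G G' h z hz (i j)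
        rw [e3, Finset.prod_univ_sum, Fintype.piFinset_univ]
        exact Finset.sum_congr rfl fun l _ => Finset.prod_mul_distrib
      rw [e2, Finset.mul_sum]
      rfl
    rw [Finset.sum_congr rfl fun i _ => e1 i, Finset.sum_comm]
    refine Finset.sum_congr rfl fun l _ => ?_
    rw [Finset.sum_mul]
    refine Finset.sum_congr rfl fun i _ => ?_
    ring

end Pool.Agent.USQ
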