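import Pool.Agent.USQ.Targets
import Pool.Agent.USP.P_INT
import Pool.Agent.USP.P_PER

/-!
# USQ, PET: the orbit after one period
-/

set_option autoImplicit false

open Set Filter Topology MeasureTheory
open scoped ContDiff

namespace Pool.Agent.USQ
open Pool.Agent.MSup
open Pool.Agent.USP (Fr JJ GG Win Pot)

namespace PET_

section
variable {ι : Type} [Fintype ι] [DecidableEq ι] {r : ℕ}

theorem cont_pt {T : Tor ι r} {S : ℝ} (hT : T.Ok S) {K : Set ℝ} (hK : K ⊆ Ioo 0 S)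
    {Θ : ℝ → Fin r → ℝ} {p : ℝ → ℝ} (hΘ : ContinuousOn Θ K) (hp : ContinuousOn p K) :
    ContinuousOn (fun s => T.pt (s, Θ s, p s)) K := by
  have hin : ContinuousOn (fun s => (s, Θ s)) K := continuousOn_id.prodMk hΘ
  have hX : ContinuousOn (fun s => T.X (s, Θ s)) K := fun s hs =>
    (hT.dX s (hK hs) (Θ s)).continuousAt.comp_continuousWithinAt (f := fun s => (s, Θ s)) (hin s hs)
  have hA : ContinuousOn (fun s => T.A (s, Θ s)) K := fun s hs =>
    (hT.dA s (hK hs) (Θ s)).continuousAt.comp_continuousWithinAt (f := fun s => (s, Θ s)) (hin s hs)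
  have hB : ContinuousOn (fun s => T.B (s, Θ s)) K := fun s hs =>
    (hT.dB s (hK hs) (Θ s)).continuousAt.comp_continuousWithinAt (f := fun s => (s, Θ s)) (hin s hs)
  exact hX.prodMk (hA.add (hp.smul hB))

theorem cont_F {T : Tor ι r} {S : ℝ} (hT : T.Ok S) {F : (ι → ℝ) × (ι → ℝ) → ℝ}
    (hF : PolyInMomenta F) {K : Set ℝ} (hK : K ⊆ Ioo 0 S)
    {Θ : ℝ → Fin r → ℝ} {p : ℝ → ℝ} (hΘ : ContinuousOn Θ K) (hp : ContinuousOn p K) :
    ContinuousOn (fun s => F (T.pt (s, Θ s, p s))) K := by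
  have h1 : ContinuousOn (fun s => lift F (T.pt (s, Θ s, p s))) K := by
    intro s hs
    have hm := hT.mem s (hK hs) (Θ s) (p s)
    have h2 : ContinuousAt (lift F) (T.pt (s, Θ s, p s)) :=
      (contDiffAt_lift hF (TS_pos hm)).continuousAt
    exact ContinuousAt.comp_continuousWithinAt (g := lift F) h2 (cont_pt hT hK hΘ hp s hs)
  refine h1.congr fun s hs => ?_
  exact (lift_eq (hT.mem s (hK hs) (Θ s) (p s))).symm

end

end PET_

open PET_ in
theorem p_PET : T_PET := by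
  intro hBRT ι _ _ r T S H D hT hR F hF hI X s0 s1 s2 hW hd1 hd2 θ
  have h12 : s1 < s2 := hW.as.trans hW.sb
  have hsub : Icc s1 s2 ⊆ Ioo 0 S := fun s hs =>
    ⟨hW.ha.trans_le hs.1, hs.2.trans_lt hW.hb⟩
  have hs0 : s0 ∈ Ioo 0 S := hsub ⟨hW.as.le, hW.sb.le⟩
  -- continuity
  have cw : ContinuousOn D.w (Ioo 0 S) := fun s hs =>
    (hR.sw s hs).continuousAt.continuousWithinAt
  have cU : ContinuousOn D.U (Ioo 0 S) := fun s hs =>
    (hR.sU s hs).continuousAt.continuousWithinAt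
  have ch : ContinuousOn D.h (Ioo 0 S) := fun s hs =>
    (hR.sh s hs).continuousAt.continuousWithinAt
  have hw0 : ∀ s ∈ Ioo 0 S, D.w s ≠ 0 := fun s hs => (hR.pw s hs).ne'
  have cV : ContinuousOn D.V (Ioo 0 S) := cU.sub ((ch.pow 2).div cw hw0)
  have csg : ContinuousOn (D.sg X) (Ioo 0 S) := (cw.mul (continuousOn_const.sub cV)).sqrt
  have cpp : ∀ ε : ℝ, ContinuousOn (D.pp X ε) (Ioo 0 S) := fun ε =>
    (ch.neg.add (continuousOn_const.mul csg)).div cw hw0
  have cgt : ∀ j, ContinuousOn (D.gt j) (Ioo 0 S) := fun j =>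
    (hR.cg j).sub ((ch.div cw hw0).mul (hR.cγ j))
  have hlt : ∀ s ∈ Ioo s1 s2, D.V s < X := hW.lt
  have hsg : ∀ s ∈ Ioo s1 s2, D.sg X s ≠ 0 := by
    intro s hs
    refine (Real.sqrt_pos.2 ?_).ne'
    exact mul_pos (hR.pw s (hsub (Ioo_subset_Icc_self hs))) (sub_pos.2 (hlt s hs))
  have hV1 : ∃ V1 : ℝ, HasDerivAt D.V V1 s1 ∧ V1 ≠ 0 :=
    ⟨_, (differentiableAt_of_deriv_ne_zero hd1).hasDerivAt, hd1⟩
  have hV2 : ∃ V2 : ℝ, HasDerivAt D.V V2 s2 ∧ V2 ≠ 0 :=
    ⟨_, (differentiableAt_of_deriv_ne_zero hd2).hasDerivAt, hd2⟩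
  -- primitives of `g / σ`
  have hprim : ∀ g : ℝ → ℝ, ContinuousOn g (Ioo 0 S) →
      ContinuousOn (fun s => ∫ t in s1..s, g t / √(D.w t * (X - D.V t))) (Icc s1 s2) ∧
      ∀ s ∈ Ioo s1 s2, HasDerivAt (fun s => ∫ t in s1..s, g t / √(D.w t * (X - D.V t)))
        (g s / D.sg X s) s := by
    intro g hg
    have hint := (USP.p_INT s1 s2 X D.V D.w g h12 (cV.mono hsub) (cw.mono hsub) (hg.mono hsub)
      (fun s hs => hR.pw s (hsub hs)) hW.Va hW.Vb hlt hV1 hV2).2
    constructor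
    · have h1 := intervalIntegral.continuousOn_primitive_interval' hint
        (left_mem_uIcc (a := s1) (b := s2))
      rw [uIcc_of_le h12.le] at h1
      exact h1
    · intro s hs
      have hc : ContinuousOn (fun t => g t / √(D.w t * (X - D.V t))) (Ioo s1 s2) := by
        have hss : Ioo s1 s2 ⊆ Ioo 0 S := Ioo_subset_Icc_self.trans hsub
        exact (hg.mono hss).div (csg.mono hss) hsg
      have hii : IntervalIntegrable (fun t => g t / √(D.w t * (X - D.V t))) volume s1 s := by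
        refine hint.mono_set ?_
        rw [uIcc_of_le h12.le, uIcc_of_le hs.1.le]
        exact Icc_subset_Icc_right hs.2.le
      exact intervalIntegral.integral_hasDerivAt_right hii
        (hc.stronglyMeasurableAtFilter isOpen_Ioo s hs) (hc.continuousAt (isOpen_Ioo.mem_nhds hs))
  set A : Fin r → ℝ → ℝ := fun j s => ∫ t in s1..s, D.gt j t / √(D.w t * (X - D.V t)) with hA
  have cA : ∀ j, ContinuousOn (A j) (Icc s1 s2) := fun j => (hprim (D.gt j) (cgt j)).1
  have dA : ∀ j, ∀ s ∈ Ioo s1 s2, HasDerivAt (A j) (D.gt j s / D.sg X s) s := fun j =>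
    (hprim (D.gt j) (cgt j)).2
  have hA1 : ∀ j, A j s1 = 0 := fun j => by simp only [hA, intervalIntegral.integral_same]
  -- the primitive of `γ / w`
  have cγw : ∀ j, ContinuousOn (fun t => D.γ t j / D.w t) (Ioo 0 S) := fun j =>
    (hR.cγ j).div cw hw0
  obtain ⟨G, hG⟩ : ∃ G : Fin r → ℝ → ℝ, G = fun j s => ∫ t in s0..s, D.γ t j / D.w t := ⟨_, rfl⟩
  have hG0 : ∀ j, G j s0 = 0 := fun j => by rw [hG]; exact intervalIntegral.integral_same
  have dG : ∀ j, ∀ s ∈ Ioo 0 S, HasDerivAt (G j) (D.γ s j / D.w s) s := by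
    intro j s hs
    rw [hG]
    have hii : IntervalIntegrable (fun t => D.γ t j / D.w t) volume s0 s := by
      refine ((cγw j).mono ?_).intervalIntegrable
      exact (ordConnected_Ioo.uIcc_subset hs0 hs)
    exact intervalIntegral.integral_hasDerivAt_right hii
      ((cγw j).stronglyMeasurableAtFilter isOpen_Ioo s hs)
      ((cγw j).continuousAt (isOpen_Ioo.mem_nhds hs))
  have cG : ∀ j, ContinuousOn (G j) (Icc s1 s2) := fun j s hs =>
    (dG j s (hsub hs)).continuousAt.continuousWithinAt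
  -- branches
  have hbr : ∀ ε : ℝ, (ε = 1 ∨ ε = -1) → ∀ x' : Fin r → ℝ, ∀ s ∈ Icc s1 s2, ∀ t ∈ Icc s1 s2,
      F (T.pt (s, (fun j => x' j + ε * A j s + G j s), D.pp X ε s)) =
      F (T.pt (t, (fun j => x' j + ε * A j t + G j t), D.pp X ε t)) := by
    intro ε hε x'
    refine USP.PER_.const_of_Ioo (f := fun s => F (T.pt (s, (fun j => x' j + ε * A j s + G j s),
      D.pp X ε s))) h12 ?_ ?_
    · refine cont_F hT hF hsub (Θ := fun s j => x' j + ε * A j s + G j s) ?_ ((cpp ε).mono hsub)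
      exact continuousOn_pi.2 fun j =>
        (continuousOn_const.add (continuousOn_const.mul (cA j))).add (cG j)
    · refine hBRT ι r T S H D hT hR F hF hI X ε hε s1 s2 hW.ha.le hW.hb.le hlt
        (fun s j => x' j + ε * A j s + G j s) ?_
      intro s hs j
      exact (((dA j s hs).const_mul ε).const_add (x' j)).add
        (dG j s (hsub (Ioo_subset_Icc_self hs)))
  -- the ends
  have hpe : ∀ s, D.V s = X → D.pp X 1 s = D.pp X (-1) s := by
    intro s hs
    have : D.sg X s = 0 := by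
      rw [Rdt.sg, hs, sub_self, mul_zero, Real.sqrt_zero]
    simp only [Rdt.pp, this, mul_zero]
  have m0 : s0 ∈ Icc s1 s2 := ⟨hW.as.le, hW.sb.le⟩
  have m1 : s1 ∈ Icc s1 s2 := left_mem_Icc.2 h12.le
  have m2 : s2 ∈ Icc s1 s2 := right_mem_Icc.2 h12.le
  have hJA : ∀ j, JJ D.V D.w (D.gt j) X s1 s2 = A j s2 := fun j => rfl
  simp only [hJA]
  have e1 := hbr 1 (Or.inl rfl) (fun j => θ j - A j s0) s0 m0 s2 m2
  have e2 := hbr (-1) (Or.inr rfl) (fun j => θ j - A j s0 + 2 * A j s2) s2 m2 s1 m1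
  have e3 := hbr 1 (Or.inl rfl) (fun j => θ j - A j s0 + 2 * A j s2) s1 m1 s0 m0
  rw [← hpe s1 hW.Va, ← hpe s2 hW.Vb] at e2
  have a1 : (fun j => θ j - A j s0 + 1 * A j s0 + G j s0) = θ := by
    funext j
    rw [hG0]
    ring
  have a3 : (fun j => θ j - A j s0 + 2 * A j s2 + 1 * A j s0 + G j s0) =
      θ + (fun j => 2 * A j s2) := by
    funext j
    rw [hG0, Pi.add_apply]
    ring
  have a5 : (fun j => θ j - A j s0 + 2 * A j s2 + -1 * A j s2 + G j s2) =
      fun j => θ j - A j s0 + 1 * A j s2 + G j s2 := by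
    funext j
    ring
  have a7 : (fun j => θ j - A j s0 + 2 * A j s2 + -1 * A j s1 + G j s1) =
      fun j => θ j - A j s0 + 2 * A j s2 + 1 * A j s1 + G j s1 := by
    funext j
    rw [hA1]
    ring
  rw [a1] at e1
  rw [a3] at e3
  rw [a5, a7] at e2
  rw [e1, e2, e3]

end Pool.Agent.USQ
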