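import Pool.Agent.USQ.Targets

/-!
# Block PH2: continuity of the Abel transform
-/

set_option autoImplicit false

open Set Filter Topology MeasureTheory

namespace Pool.Agent.USQ
open Pool.Agent.MSup
open Pool.Agent.USP (Fr JJ GG Win Pot)

/-- a positive lower bound of a positive continuous function on `[0, π / 2]` -/
theorem PH2_.lower {w : ℝ → ℝ} (cw : ContinuousOn w (Icc 0 (Real.pi / 2)))
    (pw : ∀ s ∈ Icc 0 (Real.pi / 2), 0 < w s) :
    ∃ w0 : ℝ, 0 < w0 ∧ ∀ s ∈ Icc 0 (Real.pi / 2), w0 ≤ w s := by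
  obtain ⟨x, hx, hmin⟩ := isCompact_Icc.exists_isMinOn
    (nonempty_Icc.2 (by positivity : (0 : ℝ) ≤ Real.pi / 2)) cw
  exact ⟨w x, pw x hx, fun s hs => hmin hs⟩

/-- the integrand -/
theorem PH2_.cont {D : Fn} (h : Sus2 D) (X : ℝ) (m : Fin 4 → ℝ) : ContinuousOn
    (fun s => D.q m s * √(max (X - D.V m s) 0) / √(D.w s)) (Ioo 0 (Real.pi / 2)) := by
  have h1 : ContinuousOn D.c11 (Ioo 0 (Real.pi / 2)) := fun s hs =>
    (h.s11 s hs).continuousAt.continuousWithinAt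
  have h2 : ContinuousOn D.c12 (Ioo 0 (Real.pi / 2)) := fun s hs =>
    (h.s12 s hs).continuousAt.continuousWithinAt
  have h3 : ContinuousOn D.c22 (Ioo 0 (Real.pi / 2)) := fun s hs =>
    (h.s22 s hs).continuousAt.continuousWithinAt
  have h4 : ContinuousOn D.u1 (Ioo 0 (Real.pi / 2)) := fun s hs =>
    (h.su1 s hs).continuousAt.continuousWithinAt
  have h5 : ContinuousOn D.u2 (Ioo 0 (Real.pi / 2)) := fun s hs =>
    (h.su2 s hs).continuousAt.continuousWithinAt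
  have h6 : ContinuousOn D.w (Ioo 0 (Real.pi / 2)) := h.cw.mono Ioo_subset_Icc_self
  have hq : ContinuousOn (D.q m) (Ioo 0 (Real.pi / 2)) :=
    ((h1.mul continuousOn_const).add
      (((continuousOn_const.mul h2).mul continuousOn_const).mul continuousOn_const)).add
      (h3.mul continuousOn_const)
  have hV : ContinuousOn (D.V m) (Ioo 0 (Real.pi / 2)) :=
    ((h4.mul continuousOn_const).add (h5.mul continuousOn_const)).add hq
  have h7 : ContinuousOn (fun s => max (X - D.V m s) 0) (Ioo 0 (Real.pi / 2)) :=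
    ContinuousOn.sup (continuousOn_const.sub hV) continuousOn_const
  refine (hq.mul (Real.continuous_sqrt.comp_continuousOn h7)).div
    (Real.continuous_sqrt.comp_continuousOn h6) ?_
  intro s hs
  exact (Real.sqrt_pos.2 (h.pw s (Ioo_subset_Icc_self hs))).ne'

theorem PH2_.meas {D : Fn} (h : Sus2 D) (X : ℝ) (m : Fin 4 → ℝ) : AEStronglyMeasurable
    (fun s => D.q m s * √(max (X - D.V m s) 0) / √(D.w s))
    (volume.restrict (uIoc 0 (Real.pi / 2))) := by
  rw [uIoc_of_le (by positivity : (0 : ℝ) ≤ Real.pi / 2),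
    ← Measure.restrict_congr_set Ioo_ae_eq_Ioc]
  exact (PH2_.cont h X m).aestronglyMeasurable measurableSet_Ioo

/-- bound for the quadratic form -/
theorem PH2_.qbd {D : Fn} {C M s : ℝ} {m : Fin 4 → ℝ} (h11 : |D.c11 s| ≤ C) (h12 : |D.c12 s| ≤ C)
    (h22 : |D.c22 s| ≤ C) (hM : ∀ j, |m j| ≤ M) : |D.q m s| ≤ 4 * C * M ^ 2 := by
  have hC0 : 0 ≤ C := (abs_nonneg _).trans h11
  have hM0 : 0 ≤ M := (abs_nonneg _).trans (hM 0)
  have e1 : |D.c11 s * m 2 ^ 2| ≤ C * M ^ 2 := by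
    rw [abs_mul, abs_pow]
    exact mul_le_mul h11 (pow_le_pow_left₀ (abs_nonneg _) (hM 2) 2) (by positivity) hC0
  have e2 : |2 * D.c12 s * m 2 * m 3| ≤ 2 * C * M ^ 2 := by
    rw [abs_mul, abs_mul, abs_mul, abs_two]
    calc 2 * |D.c12 s| * |m 2| * |m 3| ≤ 2 * C * M * M := by
          have := hM 2
          have := hM 3
          gcongr
      _ = 2 * C * M ^ 2 := by ring
  have e3 : |D.c22 s * m 3 ^ 2| ≤ C * M ^ 2 := by
    rw [abs_mul, abs_pow]
    exact mul_le_mul h22 (pow_le_pow_left₀ (abs_nonneg _) (hM 3) 2) (by positivity) hC0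
  unfold Fn.q
  calc |D.c11 s * m 2 ^ 2 + 2 * D.c12 s * m 2 * m 3 + D.c22 s * m 3 ^ 2|
      ≤ |D.c11 s * m 2 ^ 2 + 2 * D.c12 s * m 2 * m 3| + |D.c22 s * m 3 ^ 2| := abs_add_le _ _
    _ ≤ |D.c11 s * m 2 ^ 2| + |2 * D.c12 s * m 2 * m 3| + |D.c22 s * m 3 ^ 2| := by
        gcongr
        exact abs_add_le _ _
    _ ≤ 4 * C * M ^ 2 := by linarith

/-- continuity of the Abel transform in the energy and the momenta -/
theorem p_PH2 : T_PH2 := by
  intro D h
  obtain ⟨w0, hw0, hw⟩ := PH2_.lower h.cw h.pw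
  obtain ⟨u0, hu0, hu⟩ := h.pu
  obtain ⟨C, hC⟩ := h.bc
  have hpi : (0 : ℝ) ≤ Real.pi / 2 := by positivity
  have hmid : Real.pi / 4 ∈ Ioo 0 (Real.pi / 2) :=
    ⟨by linarith [Real.pi_pos], by linarith [Real.pi_pos]⟩
  have hC0 : 0 ≤ C := (abs_nonneg _).trans (hC _ hmid).1
  rw [continuous_iff_continuousAt]
  intro q0
  unfold GG
  set M : ℝ := ‖q0.2‖ + 1 with hM
  have hM0 : 0 ≤ M := by positivity
  set B : ℝ := 4 * C * M ^ 2 * √(|q0.1| + 1 + 4 * C * M ^ 2) / √w0 with hB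
  have hne : ∀ᵐ t : ℝ ∂volume, t ≠ Real.pi / 2 := by
    rw [ae_iff]
    simp
  have hnear : ∀ᶠ q : ℝ × (Fin 4 → ℝ) in 𝓝 q0, |q.1| ≤ |q0.1| + 1 ∧ ∀ j, |q.2 j| ≤ M := by
    have e1 : ∀ᶠ q : ℝ × (Fin 4 → ℝ) in 𝓝 q0, |q.1| < |q0.1| + 1 :=
      (continuous_fst.abs.continuousAt).eventually_lt continuousAt_const (by linarith)
    have e2 : ∀ᶠ q : ℝ × (Fin 4 → ℝ) in 𝓝 q0, ‖q.2‖ < M :=
      (continuous_snd.norm.continuousAt).eventually_lt continuousAt_const (by
        rw [hM]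
        linarith)
    filter_upwards [e1, e2] with q a b
    refine ⟨a.le, fun j => ?_⟩
    exact (norm_le_pi_norm q.2 j).trans b.le
  refine intervalIntegral.continuousAt_of_dominated_interval (bound := fun _ => B)
    (F := fun (q : ℝ × (Fin 4 → ℝ)) (s : ℝ) =>
      D.q q.2 s * √(max (q.1 - D.V q.2 s) 0) / √(D.w s)) ?_ ?_ ?_ ?_
  · exact Eventually.of_forall fun q => PH2_.meas h q.1 q.2
  · filter_upwards [hnear] with q hq
    filter_upwards [hne] with t ht htI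
    rw [uIoc_of_le hpi] at htI
    have hs : t ∈ Ioo 0 (Real.pi / 2) := ⟨htI.1, lt_of_le_of_ne htI.2 ht⟩
    obtain ⟨c1, -, c2, -, c3, -⟩ := hC t hs
    have hqb := PH2_.qbd c1 c2 c3 hq.2
    have hws := hw t (Ioo_subset_Icc_self hs)
    obtain ⟨hu1, hu2⟩ := hu t hs
    have h1 : max (q.1 - D.V q.2 t) 0 ≤ |q0.1| + 1 + 4 * C * M ^ 2 := by
      apply max_le
      · have e1 : q.1 ≤ |q0.1| + 1 := (le_abs_self _).trans hq.1
        have e2 : -(4 * C * M ^ 2) ≤ D.q q.2 t := neg_le_of_abs_le hqb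
        have e3 : 0 ≤ D.u1 t * q.2 0 ^ 2 := mul_nonneg (hu0.le.trans hu1) (sq_nonneg _)
        have e4 : 0 ≤ D.u2 t * q.2 1 ^ 2 := mul_nonneg (hu0.le.trans hu2) (sq_nonneg _)
        unfold Fn.V
        linarith
      · positivity
    rw [norm_div, norm_mul, Real.norm_eq_abs, Real.norm_of_nonneg (Real.sqrt_nonneg _),
      Real.norm_of_nonneg (Real.sqrt_nonneg _), hB]
    apply div_le_div₀ (by positivity) _ (Real.sqrt_pos.2 hw0) (Real.sqrt_le_sqrt hws)
    exact mul_le_mul hqb (Real.sqrt_le_sqrt h1) (Real.sqrt_nonneg _) (by positivity)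
  · exact intervalIntegrable_const
  · refine Eventually.of_forall fun t _ => ?_
    have : Continuous fun q : ℝ × (Fin 4 → ℝ) =>
        D.q q.2 t * √(max (q.1 - D.V q.2 t) 0) / √(D.w t) := by
      unfold Fn.V Fn.q
      fun_prop
    exact this.continuousAt

end Pool.Agent.USQ
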