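import Pool.Agent.USQ.Targets
import Pool.Agent.USP.P_POL

/-!
# Block PLT: polynomial dependence on `p` of the derivative along the torus
-/

set_option autoImplicit false

open Set Filter Topology MeasureTheory
open scoped ContDiff

namespace Pool.Agent.USQ
open Pool.Agent.MSup
open Pool.Agent.USP.POL_

variable {ι : Type} {r : ℕ}

/-- The curve in the torus family. -/
theorem PLT_.curve [Fintype ι] (T : Tor ι r) {S : ℝ} (hT : T.Ok S) {s : ℝ} (hs : s ∈ Ioo 0 S)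
    (v : Fin r → ℝ) (p : ℝ) : HasDerivAt (fun t : ℝ => T.pt (s, t • v, p))
      (fderiv ℝ T.X (s, 0) (0, v), fderiv ℝ T.A (s, 0) (0, v) + p • fderiv ℝ T.B (s, 0) (0, v))
      0 := by
  have hc : HasDerivAt (fun t : ℝ => ((s, t • v) : ℝ × (Fin r → ℝ))) (0, v) 0 := by
    have h1 : HasDerivAt (fun t : ℝ => t • v) ((1 : ℝ) • v) 0 := (hasDerivAt_id 0).smul_const v
    rw [one_smul] at h1
    exact (hasDerivAt_const 0 s).prodMk h1
  have e0 : ((s, (0 : ℝ) • v) : ℝ × (Fin r → ℝ)) = (s, 0) := by rw [zero_smul]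
  have hX : HasDerivAt (fun t : ℝ => T.X (s, t • v)) (fderiv ℝ T.X (s, 0) (0, v)) 0 := by
    have h4 : HasFDerivAt T.X (fderiv ℝ T.X (s, 0)) (s, (0 : ℝ) • v) := by
      rw [e0]
      exact (hT.dX s hs 0).hasFDerivAt
    exact HasFDerivAt.comp_hasDerivAt (l := T.X) (0 : ℝ) h4 hc
  have hA : HasDerivAt (fun t : ℝ => T.A (s, t • v)) (fderiv ℝ T.A (s, 0) (0, v)) 0 := by
    have h4 : HasFDerivAt T.A (fderiv ℝ T.A (s, 0)) (s, (0 : ℝ) • v) := by
      rw [e0]
      exact (hT.dA s hs 0).hasFDerivAt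
    exact HasFDerivAt.comp_hasDerivAt (l := T.A) (0 : ℝ) h4 hc
  have hB : HasDerivAt (fun t : ℝ => T.B (s, t • v)) (fderiv ℝ T.B (s, 0) (0, v)) 0 := by
    have h4 : HasFDerivAt T.B (fderiv ℝ T.B (s, 0)) (s, (0 : ℝ) • v) := by
      rw [e0]
      exact (hT.dB s hs 0).hasFDerivAt
    exact HasFDerivAt.comp_hasDerivAt (l := T.B) (0 : ℝ) h4 hc
  exact hX.prodMk (hA.add (hB.const_smul p))

/-- The family is differentiable. -/
theorem PLT_.diff [Fintype ι] (T : Tor ι r) {S : ℝ} (hT : T.Ok S) {s : ℝ} (hs : s ∈ Ioo 0 S)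
    (p : ℝ) : DifferentiableAt ℝ T.pt (s, 0, p) := by
  have hc : DifferentiableAt ℝ (fun v : ℝ × (Fin r → ℝ) × ℝ => (v.1, v.2.1)) (s, 0, p) := by
    fun_prop
  have hX : DifferentiableAt ℝ (fun v : ℝ × (Fin r → ℝ) × ℝ => T.X (v.1, v.2.1)) (s, 0, p) :=
    DifferentiableAt.comp (g := T.X) (s, 0, p) (hT.dX s hs 0) hc
  have hA : DifferentiableAt ℝ (fun v : ℝ × (Fin r → ℝ) × ℝ => T.A (v.1, v.2.1)) (s, 0, p) :=
    DifferentiableAt.comp (g := T.A) (s, 0, p) (hT.dA s hs 0) hc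
  have hB : DifferentiableAt ℝ (fun v : ℝ × (Fin r → ℝ) × ℝ => T.B (v.1, v.2.1)) (s, 0, p) :=
    DifferentiableAt.comp (g := T.B) (s, 0, p) (hT.dB s hs 0) hc
  have hp : DifferentiableAt ℝ (fun v : ℝ × (Fin r → ℝ) × ℝ => v.2.2) (s, 0, p) := by
    fun_prop
  exact hX.prodMk (hA.add (hp.smul hB))

/-- The derivative along the torus. -/
theorem PLT_.der [Fintype ι] (T : Tor ι r) {S : ℝ} (hT : T.Ok S) {s : ℝ} (hs : s ∈ Ioo 0 S)
    (v : Fin r → ℝ) (p : ℝ) : fderiv ℝ T.pt (s, 0, p) (0, v, 0) =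
      (fderiv ℝ T.X (s, 0) (0, v),
        fderiv ℝ T.A (s, 0) (0, v) + p • fderiv ℝ T.B (s, 0) (0, v)) := by
  have hc : HasDerivAt (fun t : ℝ => ((s, t • v, p) : ℝ × (Fin r → ℝ) × ℝ)) (0, v, 0) 0 := by
    have h1 : HasDerivAt (fun t : ℝ => t • v) ((1 : ℝ) • v) 0 := (hasDerivAt_id 0).smul_const v
    rw [one_smul] at h1
    exact (hasDerivAt_const 0 s).prodMk (h1.prodMk (hasDerivAt_const 0 p))
  have h4 : HasFDerivAt T.pt (fderiv ℝ T.pt (s, 0, p)) (s, (0 : ℝ) • v, p) := by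
    rw [zero_smul]
    exact (PLT_.diff T hT hs p).hasFDerivAt
  have h5 : HasDerivAt (fun t : ℝ => T.pt (s, t • v, p)) (fderiv ℝ T.pt (s, 0, p) (0, v, 0)) 0 :=
    HasFDerivAt.comp_hasDerivAt (l := T.pt) (0 : ℝ) h4 hc
  exact h5.unique (PLT_.curve T hT hs v p)

theorem p_PLT : T_PLT := by
  intro ι _ _ r T S hT s hs F hF v
  have hF' := hF
  obtain ⟨d, K, hK, hFK⟩ := hF
  set X' := fderiv ℝ T.X (s, 0) (0, v) with hX'
  set A' := fderiv ℝ T.A (s, 0) (0, v) with hA'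
  set B' := fderiv ℝ T.B (s, 0) (0, v) with hB'
  have hmem : ∀ (θ : Fin r → ℝ) (p : ℝ), T.pt (s, θ, p) ∈ TS ι := fun θ p => hT.mem s hs θ p
  have hcurve : ∀ p, HasDerivAt (fun t : ℝ => T.pt (s, t • v, p)) (X', A' + p • B') 0 :=
    fun p => PLT_.curve T hT hs v p
  have h1 : ∀ p, HasDerivAt (fun t : ℝ => lift F (T.pt (s, t • v, p)))
      (fderiv ℝ (lift F) (T.pt (s, 0, p)) (X', A' + p • B')) 0 := by
    intro p
    have h4 : HasFDerivAt (lift F) (fderiv ℝ (lift F) (T.pt (s, 0, p)))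
        (T.pt (s, (0 : ℝ) • v, p)) := by
      rw [zero_smul]
      exact ((contDiffAt_lift hF' (TS_pos (hmem 0 p))).differentiableAt (by simp)).hasFDerivAt
    exact HasFDerivAt.comp_hasDerivAt (l := lift F) (0 : ℝ) h4 (hcurve p)
  have h2 : ∀ p, (fun t : ℝ => lift F (T.pt (s, t • v, p))) = fun t : ℝ =>
      ∑ k ∈ Finset.range (d + 1), ∑ i : Fin k → ι,
        K k i (T.pt (s, t • v, p)).1 *
          ∏ j, (T.pt (s, t • v, p)).2 (i j) := fun p => funext fun t => by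
    rw [lift_eq (hmem _ _), hFK _ (hmem _ _)]
  have h3 : ∀ p, HasDerivAt (fun t : ℝ =>
      ∑ k ∈ Finset.range (d + 1), ∑ i : Fin k → ι,
        K k i (T.pt (s, t • v, p)).1 * ∏ j, (T.pt (s, t • v, p)).2 (i j))
      (∑ k ∈ Finset.range (d + 1), ∑ i : Fin k → ι,
        (fderiv ℝ (K k i) (T.X (s, 0)) X' *
            ∏ j, (T.A (s, 0) (i j) + p * T.B (s, 0) (i j)) +
          K k i (T.X (s, 0)) * ∑ j, (∏ l ∈ Finset.univ.erase j,
            (T.A (s, 0) (i l) + p * T.B (s, 0) (i l))) *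
            (A' (i j) + p * B' (i j)))) 0 := by
    intro p
    refine HasDerivAt.fun_sum fun k _ => HasDerivAt.fun_sum fun i _ => ?_
    have hc1 : HasDerivAt (fun t : ℝ => (T.pt (s, t • v, p)).1) X' 0 := (hcurve p).fst
    have hc2 : HasDerivAt (fun t : ℝ => (T.pt (s, t • v, p)).2) (A' + p • B') 0 := (hcurve p).snd
    have hk : HasDerivAt (fun t : ℝ => K k i (T.pt (s, t • v, p)).1)
        (fderiv ℝ (K k i) (T.X (s, 0)) X') 0 := by
      have h4 : HasFDerivAt (K k i) (fderiv ℝ (K k i) (T.X (s, 0)))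
          (T.pt (s, (0 : ℝ) • v, p)).1 := by
        rw [zero_smul]
        exact ((hK k i).differentiable (by simp) (T.X (s, 0))).hasFDerivAt
      exact HasFDerivAt.comp_hasDerivAt (l := K k i) (0 : ℝ) h4 hc1
    have hprod : HasDerivAt (fun t : ℝ => ∏ j, (T.pt (s, t • v, p)).2 (i j))
        (∑ j, (∏ l ∈ Finset.univ.erase j, (T.pt (s, (0 : ℝ) • v, p)).2 (i l)) *
            (A' + p • B') (i j)) 0 := by
      have h5 := HasDerivAt.fun_finsetProd (u := (Finset.univ : Finset (Fin k)))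
        (f := fun j t => (T.pt (s, t • v, p)).2 (i j))
        (f' := fun j => (A' + p • B') (i j)) (x := (0 : ℝ))
        (fun j _ => (hasDerivAt_pi.1 hc2) (i j))
      simpa using h5
    have h6 := hk.fun_mul hprod
    have e : T.pt (s, (0 : ℝ) • v, p) = (T.X (s, 0), T.A (s, 0) + p • T.B (s, 0)) := by
      rw [zero_smul]
      rfl
    rw [e] at h6
    exact h6
  have h5 : ∀ p, fderiv ℝ (lift F) (T.pt (s, 0, p)) (X', A' + p • B') =
      ∑ k ∈ Finset.range (d + 1), ∑ i : Fin k → ι,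
        (fderiv ℝ (K k i) (T.X (s, 0)) X' *
            ∏ j, (T.A (s, 0) (i j) + p * T.B (s, 0) (i j)) +
          K k i (T.X (s, 0)) * ∑ j, (∏ l ∈ Finset.univ.erase j,
            (T.A (s, 0) (i l) + p * T.B (s, 0) (i l))) *
            (A' (i j) + p * B' (i j))) := by
    intro p
    have h6 := h1 p
    rw [h2 p] at h6
    exact h6.unique (h3 p)
  have haff : ∀ a b : ℝ, IsP fun p => a + p * b := fun a b =>
    isP_add (isP_const a) (isP_mul isP_id (isP_const b))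
  have h7 : IsP fun p => ∑ k ∈ Finset.range (d + 1), ∑ i : Fin k → ι,
        (fderiv ℝ (K k i) (T.X (s, 0)) X' *
            ∏ j, (T.A (s, 0) (i j) + p * T.B (s, 0) (i j)) +
          K k i (T.X (s, 0)) * ∑ j, (∏ l ∈ Finset.univ.erase j,
            (T.A (s, 0) (i l) + p * T.B (s, 0) (i l))) *
            (A' (i j) + p * B' (i j))) := by
    refine isP_sum _ fun k _ => isP_sum _ fun i _ => ?_
    refine isP_add (isP_mul (isP_const _) (isP_prod _ fun j _ => haff _ _)) ?_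
    refine isP_mul (isP_const _) (isP_sum _ fun j _ => ?_)
    exact isP_mul (isP_prod _ fun l _ => haff _ _) (haff _ _)
  obtain ⟨q, hq⟩ := h7
  exact ⟨q, fun p => by rw [PLT_.der T hT hs v p, h5 p]; exact hq p⟩

end Pool.Agent.USQ
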