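import Pool.Agent.USQ.Targets
import Pool.Agent.USP.P_PSD

/-!
# USQ: positivity of the coefficients
-/

set_option autoImplicit false

open Set Filter Topology MeasureTheory
open scoped ContDiff

namespace Pool.Agent.USQ
open Pool.Agent.MSup
open Pool.Agent.USP (Fr JJ GG Win Pot)

namespace PS2_

open Pool.Agent.USP (PSD_.comm PSD_.smul_l PSD_.smul_r PSD_.pos PSD_.exists_orth)

variable {a b : ℕ}

theorem sumip (x y : (Fin a ⊕ Fin b) → ℝ) : ip x y = ip (yc x) (yc y) + ip (zc x) (zc y) := by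
  simp only [ip, yc, zc, Fintype.sum_sum_type]

theorem yc_elim (u : Fin a → ℝ) (v : Fin b → ℝ) : yc (Sum.elim u v) = u := rfl

theorem zc_elim (u : Fin a → ℝ) (v : Fin b → ℝ) : zc (Sum.elim u v) = v := rfl

theorem zero_l {n : ℕ} (x : Fin n → ℝ) : ip (0 : Fin n → ℝ) x = 0 := by simp [ip]

theorem zero_r {n : ℕ} (x : Fin n → ℝ) : ip x (0 : Fin n → ℝ) = 0 := by simp [ip]

theorem unit {n : ℕ} (h : 3 ≤ n) : ∃ w : Fin n → ℝ, ip w w = 1 := by
  refine ⟨Pi.single ⟨0, by omega⟩ 1, ?_⟩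
  simp [ip, Pi.single_apply]

theorem J_self {n : ℕ} {J : (Fin n → ℝ) →ₗ[ℝ] (Fin n → ℝ)}
    (hJ : ∀ x y, ip (J x) y = -ip x (J y)) (w : Fin n → ℝ) : ip (J w) w = 0 := by
  have h1 := hJ w w
  rw [Pool.Agent.USP.PSD_.comm w (J w)] at h1
  linarith

end PS2_

open PS2_ in
/-- positivity of the coefficients -/
theorem p_PS2 : T_PS2 := by
  intro a b J₁ J₂ hJ₁ _ hJ₂ _ ha hb c hpos t ht
  obtain ⟨w₁, hw₁⟩ := unit ha
  obtain ⟨w₂, hw₂⟩ := unit hb
  have r1 : √t ^ 2 = t := Real.sq_sqrt ht.1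
  have r2 : √(1 - t) ^ 2 = 1 - t := Real.sq_sqrt (by linarith [ht.2])
  set x : (Fin a ⊕ Fin b) → ℝ := Sum.elim (√t • w₁) (√(1 - t) • w₂) with hx
  have hxy : ip (yc x) (yc x) = t := by
    rw [hx, yc_elim, Pool.Agent.USP.PSD_.smul_l, Pool.Agent.USP.PSD_.smul_r, hw₁]
    linear_combination r1
  have hxz : ip (zc x) (zc x) = 1 - t := by
    rw [hx, zc_elim, Pool.Agent.USP.PSD_.smul_l, Pool.Agent.USP.PSD_.smul_r, hw₂]
    linear_combination r2
  have hxx : ip x x = 1 := by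
    rw [sumip, hxy, hxz]
    ring
  refine ⟨?_, ?_, ?_⟩
  · obtain ⟨e, he, h1, h2⟩ := Pool.Agent.USP.PSD_.exists_orth w₁ (J₁ w₁) (by simpa using ha)
    have hz : ((x, Sum.elim e 0) : Ph a b) ∈ TS (Fin a ⊕ Fin b) := by
      refine ⟨hxx, ?_⟩
      show ip x (Sum.elim e 0) = 0
      rw [sumip, yc_elim e (0 : Fin b → ℝ), zc_elim e (0 : Fin b → ℝ), zero_r, hx, yc_elim,
        Pool.Agent.USP.PSD_.smul_l, h1]
      ring
    have hne : ((x, Sum.elim e 0) : Ph a b).2 ≠ 0 := by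
      intro h
      apply he
      funext i
      exact congrFun h (Sum.inl i)
    have h3 := hpos _ hz hne
    have hk1 : k1 J₁ ((x, Sum.elim e 0) : Ph a b) = 0 := by
      show ip (J₁ (yc x)) e = 0
      rw [hx, yc_elim, map_smul, Pool.Agent.USP.PSD_.smul_l, h2, mul_zero]
    have hk2 : k2 J₂ ((x, Sum.elim e 0) : Ph a b) = 0 := by
      show ip (J₂ (zc x)) (0 : Fin b → ℝ) = 0
      rw [zero_r]
    have hye : ip (yc x) e = 0 := by
      rw [hx, yc_elim, Pool.Agent.USP.PSD_.smul_l, h1, mul_zero]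
    unfold uuHam at h3
    rw [hk1, hk2] at h3
    simp only [yc_elim, zc_elim, zero_r, hye, hxy] at h3
    have h4 := Pool.Agent.USP.PSD_.pos he
    have h5 : 0 < c.P t * ip e e := by nlinarith
    exact (pos_iff_pos_of_mul_pos h5).2 h4
  · obtain ⟨e, he, h1, h2⟩ := Pool.Agent.USP.PSD_.exists_orth w₂ (J₂ w₂) (by simpa using hb)
    have hz : ((x, Sum.elim 0 e) : Ph a b) ∈ TS (Fin a ⊕ Fin b) := by
      refine ⟨hxx, ?_⟩
      show ip x (Sum.elim 0 e) = 0
      rw [sumip, yc_elim (0 : Fin a → ℝ) e, zc_elim (0 : Fin a → ℝ) e, zero_r, hx, zc_elim,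
        Pool.Agent.USP.PSD_.smul_l, h1]
      ring
    have hne : ((x, Sum.elim 0 e) : Ph a b).2 ≠ 0 := by
      intro h
      apply he
      funext i
      exact congrFun h (Sum.inr i)
    have h3 := hpos _ hz hne
    have hk1 : k1 J₁ ((x, Sum.elim 0 e) : Ph a b) = 0 := by
      show ip (J₁ (yc x)) (0 : Fin a → ℝ) = 0
      rw [zero_r]
    have hk2 : k2 J₂ ((x, Sum.elim 0 e) : Ph a b) = 0 := by
      show ip (J₂ (zc x)) e = 0
      rw [hx, zc_elim, map_smul, Pool.Agent.USP.PSD_.smul_l, h2, mul_zero]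
    unfold uuHam at h3
    rw [hk1, hk2] at h3
    simp only [yc_elim, zc_elim, zero_r, hxy] at h3
    have h4 := Pool.Agent.USP.PSD_.pos he
    have h5 : 0 < c.Q t * ip e e := by nlinarith
    exact (pos_iff_pos_of_mul_pos h5).2 h4
  · set p : (Fin a ⊕ Fin b) → ℝ := Sum.elim ((-√(1 - t)) • w₁) (√t • w₂) with hp
    have hpy : ip (yc p) (yc p) = 1 - t := by
      rw [hp, yc_elim, Pool.Agent.USP.PSD_.smul_l, Pool.Agent.USP.PSD_.smul_r, hw₁]
      linear_combination r2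
    have hpz : ip (zc p) (zc p) = t := by
      rw [hp, zc_elim, Pool.Agent.USP.PSD_.smul_l, Pool.Agent.USP.PSD_.smul_r, hw₂]
      linear_combination r1
    have hxpy : ip (yc x) (yc p) = -(√t * √(1 - t)) := by
      rw [hp, hx, yc_elim, yc_elim, Pool.Agent.USP.PSD_.smul_l, Pool.Agent.USP.PSD_.smul_r, hw₁]
      ring
    have hxpz : ip (zc x) (zc p) = √t * √(1 - t) := by
      rw [hp, hx, zc_elim, zc_elim, Pool.Agent.USP.PSD_.smul_l, Pool.Agent.USP.PSD_.smul_r, hw₂]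
      ring
    have hz : ((x, p) : Ph a b) ∈ TS (Fin a ⊕ Fin b) := by
      refine ⟨hxx, ?_⟩
      rw [sumip, hxpy, hxpz]
      ring
    have hne : ((x, p) : Ph a b).2 ≠ 0 := by
      intro h
      have h1 : p = 0 := h
      have h2 : ip p p = 1 := by
        rw [sumip, hpy, hpz]
        ring
      rw [h1] at h2
      simp [ip] at h2
    have h3 := hpos _ hz hne
    have hk1 : k1 J₁ ((x, p) : Ph a b) = 0 := by
      unfold k1
      show ip (J₁ (yc x)) (yc p) = 0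
      rw [hp, hx, yc_elim, yc_elim, map_smul, Pool.Agent.USP.PSD_.smul_l,
        Pool.Agent.USP.PSD_.smul_r, J_self hJ₁]
      ring
    have hk2 : k2 J₂ ((x, p) : Ph a b) = 0 := by
      unfold k2
      show ip (J₂ (zc x)) (zc p) = 0
      rw [hp, hx, zc_elim, zc_elim, map_smul, Pool.Agent.USP.PSD_.smul_l,
        Pool.Agent.USP.PSD_.smul_r, J_self hJ₂]
      ring
    unfold uuHam at h3
    rw [hk1, hk2] at h3
    simp only [hpy, hpz, hxpy, hxy] at h3
    have h4 : (√t * √(1 - t)) ^ 2 = t * (1 - t) := by rw [mul_pow, r1, r2]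
    unfold Co.W
    have h5 : c.R t * (-(√t * √(1 - t))) ^ 2 = t * (1 - t) * c.R t := by
      rw [neg_sq, h4]
      ring
    rw [h5] at h3
    linarith

end Pool.Agent.USQ
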