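import Pool.Agent.USQ.Targets2
import Pool.Agent.USQ.P_HOM

/-!
# USQ, RND: transport of roundness
-/

set_option autoImplicit false

open Set Filter Topology MeasureTheory
open scoped ContDiff

namespace Pool.Agent.USQ
open Pool.Agent.MSup

theorem p_RND : T_RND := by
  intro tan cts ι _ _ G G' D H hH
  have D' := HOM_.dif_symm D
  obtain ⟨C, hC, Φ, hbij, hΦ⟩ := hH
  refine ⟨C, hC, fun x => Φ (G' x), ?_, ?_⟩
  · have hG' : BijOn G' {x | ip x x = 1} {x | ip x x = 1} := by
      refine ⟨fun x hx => D.mG' x hx, ?_, ?_⟩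
      · intro x hx y hy hxy
        rw [← D.r x hx, ← D.r y hy, hxy]
      · intro y hy
        exact ⟨G y, D.mG y hy, D.l y hy⟩
    exact hbij.comp hG'
  · intro x hx
    have hx' := D.mG' x hx
    obtain ⟨s1, h1⟩ := hΦ (G' x) hx'
    refine ⟨s1.comp x D.sG'.contDiffAt, ?_⟩
    intro π hπ
    have h2 := h1 π hπ
    set c : ι → ℝ := fun l => ip (fderiv ℝ Φ (G' x) (Pi.single l 1)) π with hc
    have h3 : (fun i => ip (fderiv ℝ (fun x => Φ (G' x)) x (Pi.single i 1)) π) =
        fun i => ip (fderiv ℝ G' x (Pi.single i 1)) c := by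
      funext i
      have h4 : fderiv ℝ (fun x => Φ (G' x)) x =
          (fderiv ℝ Φ (G' x)).comp (fderiv ℝ G' x) :=
        fderiv_comp x (s1.differentiableAt (by simp)) (D.sG'.differentiable (by simp) x)
      rw [h4]
      show ip (fderiv ℝ Φ (G' x) (fderiv ℝ G' x (Pi.single i 1))) π = _
      rw [hc, HOM_.ip_comm _ (fun l => ip (fderiv ℝ Φ (G' x) (Pi.single l 1)) π),
        HOM_.ip_transpose]
    rw [h3]
    have h5 : cot G G' (G' x, tproj (G' x) c) =
        (x, tproj x (fun i => ip (fderiv ℝ G' x (Pi.single i 1)) c)) := by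
      rw [cot]
      show (G (G' x), tproj (G (G' x))
        (fun i => ip (fderiv ℝ G' (G (G' x)) (Pi.single i 1)) (tproj (G' x) c))) = _
      rw [D.r x hx]
      refine Prod.ext rfl ?_
      refine HOM_.eq_tproj hx (HOM_.ip_tproj_self hx) ?_
      intro ξ hξ
      obtain ⟨t1, -⟩ := tan ι G' G D' x ξ hx hξ
      rw [HOM_.ip_tproj hξ, HOM_.ip_transpose, HOM_.ip_transpose, HOM_.ip_comm _ (tproj (G' x) c),
        HOM_.ip_tproj t1, HOM_.ip_comm]
    have h6 : (fun z => H (cot G G' z)) (G' x, tproj (G' x) c) = ip π π / C / 2 := h2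
    show H (x, tproj x (fun i => ip (fderiv ℝ G' x (Pi.single i 1)) c)) = _
    rw [← h5]
    exact h6

end Pool.Agent.USQ
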