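import Pool.Agent.USQ.Targets
import Pool.Agent.USP.P_COF
import Pool.Agent.USP.P_RAT

/-!
# USQ: the drifts are rational multiples of `π` off a finite set of levels (RTT)
-/

set_option autoImplicit false

open Set Filter Topology MeasureTheory
open scoped ContDiff

namespace Pool.Agent.USQ
open Pool.Agent.MSup
open Pool.Agent.USP (Fr JJ GG Win Pot)

theorem RTT_.pt_diff {ι : Type} [Fintype ι] {r : ℕ} (T : Tor ι r) (S : ℝ) (hOk : T.Ok S) (s : ℝ)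
    (hs : s ∈ Ioo 0 S) (θ : Fin r → ℝ) (p : ℝ) : DifferentiableAt ℝ T.pt (s, θ, p) := by
  have hπ : DifferentiableAt ℝ (fun v : ℝ × (Fin r → ℝ) × ℝ => (v.1, v.2.1)) (s, θ, p) := by
    fun_prop
  have hX : DifferentiableAt ℝ (fun v : ℝ × (Fin r → ℝ) × ℝ => T.X (v.1, v.2.1)) (s, θ, p) :=
    DifferentiableAt.comp (g := T.X) (f := fun v : ℝ × (Fin r → ℝ) × ℝ => (v.1, v.2.1))
      (s, θ, p) (hOk.dX s hs θ) hπ
  have hA : DifferentiableAt ℝ (fun v : ℝ × (Fin r → ℝ) × ℝ => T.A (v.1, v.2.1)) (s, θ, p) :=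
    DifferentiableAt.comp (g := T.A) (f := fun v : ℝ × (Fin r → ℝ) × ℝ => (v.1, v.2.1))
      (s, θ, p) (hOk.dA s hs θ) hπ
  have hB : DifferentiableAt ℝ (fun v : ℝ × (Fin r → ℝ) × ℝ => T.B (v.1, v.2.1)) (s, θ, p) :=
    DifferentiableAt.comp (g := T.B) (f := fun v : ℝ × (Fin r → ℝ) × ℝ => (v.1, v.2.1))
      (s, θ, p) (hOk.dB s hs θ) hπ
  have hq : DifferentiableAt ℝ (fun v : ℝ × (Fin r → ℝ) × ℝ => v.2.2) (s, θ, p) := by
    fun_prop
  exact hX.prodMk (hA.add (hq.smul hB))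

theorem RTT_.lin {r : ℕ} (L : (ℝ × (Fin r → ℝ) × ℝ) →L[ℝ] ℝ) (v : Fin r → ℝ) :
    L (0, v, 0) = ∑ j, v j * L (0, Pi.single j 1, 0) := by
  have h1 : ((0 : ℝ), v, (0 : ℝ)) = ∑ j, v j • ((0 : ℝ), (Pi.single j 1 : Fin r → ℝ), (0 : ℝ)) := by
    refine Prod.ext ?_ (Prod.ext ?_ ?_)
    · simp [Prod.fst_sum]
    · simp only [Prod.snd_sum, Prod.fst_sum, Prod.smul_snd, Prod.smul_fst]
      funext k
      simp [Finset.sum_apply, Pi.single_apply]
    · simp [Prod.snd_sum]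
  rw [h1, map_sum]
  exact Finset.sum_congr rfl fun j _ => by rw [map_smul, smul_eq_mul]

theorem p_RTT : T_RTT := by
  intro hPET hBRT hPLT ι _ _ r T S H D hOk hRed s0 hs0 N F hF hFI p0 hinj
  have hw : 0 < D.w s0 := hRed.pw s0 hs0
  choose q hq using fun (j : Fin r) (i : Fin N) =>
    hPLT ι r T S hOk s0 hs0 (F i) (hF i) (Pi.single j 1)
  have key : ∀ (v : Fin r → ℝ) i (p : ℝ), ∑ j, v j * ((q j i).eval p) =
      fderiv ℝ (lift (F i)) (T.pt (s0, 0, p)) (fderiv ℝ T.pt (s0, 0, p) (0, v, 0)) := by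
    intro v i p
    have h := RTT_.lin ((fderiv ℝ (lift (F i)) (T.pt (s0, 0, p))).comp
      (fderiv ℝ T.pt (s0, 0, p))) v
    simp only [ContinuousLinearMap.comp_apply] at h
    rw [h]
    exact Finset.sum_congr rfl fun j _ => by rw [hq j i p]
  obtain ⟨E', hE', hE⟩ := USP.p_COF r N q p0 (by
    intro v hv
    obtain ⟨i, hi⟩ := hinj v hv
    exact ⟨i, by rw [key]; exact hi⟩)
  refine ⟨(fun p => D.w s0 * p ^ 2 + 2 * D.h s0 * p + D.U s0) '' E', hE'.image _, ?_⟩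
  intro X hX a b hWin hda hdb
  have hV : D.V s0 < X := hWin.lt s0 ⟨hWin.as, hWin.sb⟩
  set p := D.pp X 1 s0 with hp
  have hpE : p ∉ E' := by
    intro hpE
    apply hX
    refine ⟨p, hpE, ?_⟩
    have hsg : D.sg X s0 ^ 2 = D.w s0 * (X - D.V s0) :=
      Real.sq_sqrt (mul_nonneg hw.le (by linarith))
    have hwp : D.w s0 * p + D.h s0 = D.sg X s0 := by
      rw [hp, Rdt.pp, mul_div_cancel₀ _ hw.ne']
      ring
    have hVe : D.V s0 = D.U s0 - D.h s0 ^ 2 / D.w s0 := rfl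
    have h1 : (D.w s0 * p + D.h s0) ^ 2 = D.w s0 * (X - D.V s0) := by
      rw [hwp, hsg]
    rw [hVe] at h1
    have h2 : D.w s0 * (D.w s0 * p ^ 2 + 2 * D.h s0 * p + D.U s0) = D.w s0 * X := by
      have h3 : D.w s0 * (D.h s0 ^ 2 / D.w s0) = D.h s0 ^ 2 := by
        field_simp
      obtain ⟨g, hg⟩ : ∃ g, g = D.h s0 ^ 2 / D.w s0 := ⟨_, rfl⟩
      rw [← hg] at h1 h3
      linear_combination h1 + h3
    exact mul_left_cancel₀ hw.ne' h2
  have hmem : ∀ θ : Fin r → ℝ, T.pt (s0, θ, p) ∈ TS ι := fun θ => hOk.mem s0 hs0 θ p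
  have hfun : ∀ i, (fun θ : Fin r → ℝ => F i (T.pt (s0, θ, p))) =
      fun θ : Fin r → ℝ => lift (F i) (T.pt (s0, θ, p)) := by
    intro i
    funext θ
    exact (lift_eq (hmem _)).symm
  have hdl : ∀ i, DifferentiableAt ℝ (lift (F i)) (T.pt (s0, 0, p)) := by
    intro i
    refine (contDiffAt_lift (hF i) ?_).differentiableAt (by simp)
    rw [(hmem _).1]
    exact one_pos
  have hemb : HasFDerivAt (fun θ : Fin r → ℝ => (s0, θ, p))
      ((0 : (Fin r → ℝ) →L[ℝ] ℝ).prod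
        ((ContinuousLinearMap.id ℝ (Fin r → ℝ)).prod (0 : (Fin r → ℝ) →L[ℝ] ℝ))) 0 :=
    (hasFDerivAt_const s0 (0 : Fin r → ℝ)).prodMk
      ((hasFDerivAt_id (0 : Fin r → ℝ)).prodMk (hasFDerivAt_const p (0 : Fin r → ℝ)))
  have hcomp : ∀ i, HasFDerivAt (fun θ : Fin r → ℝ => F i (T.pt (s0, θ, p)))
      ((fderiv ℝ (lift (F i)) (T.pt (s0, 0, p))).comp ((fderiv ℝ T.pt (s0, 0, p)).comp
        ((0 : (Fin r → ℝ) →L[ℝ] ℝ).prod
          ((ContinuousLinearMap.id ℝ (Fin r → ℝ)).prod (0 : (Fin r → ℝ) →L[ℝ] ℝ))))) 0 := by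
    intro i
    rw [hfun i]
    have h1 : HasFDerivAt (fun θ : Fin r → ℝ => T.pt (s0, θ, p)) _ 0 :=
      HasFDerivAt.comp (g := T.pt) (f := fun θ : Fin r → ℝ => (s0, θ, p)) (0 : Fin r → ℝ)
        (RTT_.pt_diff T S hOk s0 hs0 0 p).hasFDerivAt hemb
    exact HasFDerivAt.comp (g := lift (F i)) (f := fun θ : Fin r → ℝ => T.pt (s0, θ, p))
      (0 : Fin r → ℝ) (hdl i).hasFDerivAt h1
  have hR := USP.p_RAT r N (fun i (θ : Fin r → ℝ) => F i (T.pt (s0, θ, p)))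
    (fun j => 2 * JJ D.V D.w (D.gt j) X a b) (fun i => (hcomp i).differentiableAt)
    (by
      intro i θ j
      exact congrArg (F i) (hOk.per s0 θ p j))
    (by
      intro i θ
      exact hPET hBRT ι r T S H D hOk hRed (F i) (hF i) (hFI i) X s0 a b hWin hda hdb θ)
    (by
      intro v hv
      obtain ⟨i, hi⟩ := hE p hpE v hv
      refine ⟨i, ?_⟩
      rw [key] at hi
      rw [(hcomp i).fderiv]
      exact hi)
  intro j
  obtain ⟨c, hc⟩ := hR j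
  refine ⟨c / 2, ?_⟩
  have hc' : 2 * JJ D.V D.w (D.gt j) X a b = c * Real.pi := hc
  push_cast
  linarith

end Pool.Agent.USQ
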