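import Pool.Agent.USQ.Targets

/-!
# USQ: block SU2 (reduced functions of `uuHam`)
-/

set_option autoImplicit false

open Set Filter Topology MeasureTheory
open scoped ContDiff

namespace Pool.Agent.USQ
open Pool.Agent.MSup
open Pool.Agent.USP (Fr JJ GG Win Pot)

namespace SU2_

theorem inf2 : (2 : WithTop ℕ∞) ≤ ∞ :=
  WithTop.coe_le_coe.2 (le_top : (2 : ℕ∞) ≤ ⊤)

theorem cd_c {P : ℝ → ℝ} (hP : ContDiff ℝ ∞ P) :
    ContDiff ℝ ∞ (fun s : ℝ => P (Real.cos s ^ 2)) :=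
  hP.comp (Real.contDiff_cos.pow 2)

theorem cd_W {c : Co} (hc : c.Smooth) : ContDiff ℝ ∞ c.W := by
  have h1 : ContDiff ℝ ∞ (fun t : ℝ => 1 - t) := contDiff_const.sub contDiff_id
  have h2 : ContDiff ℝ ∞ (fun t : ℝ => t) := contDiff_id
  exact ((h1.mul hc.P).add (h2.mul hc.Q)).add ((h2.mul h1).mul hc.R)

theorem mem01 (s : ℝ) : Real.cos s ^ 2 ∈ Icc (0 : ℝ) 1 :=
  ⟨sq_nonneg _, Real.cos_sq_le_one s⟩

theorem cd_cc {F X Y W : ℝ → ℝ} (hF : ContDiff ℝ ∞ F) (hX : ContDiff ℝ ∞ X)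
    (hY : ContDiff ℝ ∞ Y) (hW : ContDiff ℝ ∞ W) (hw : ∀ t ∈ Icc (0 : ℝ) 1, 0 < W t) :
    ContDiff ℝ ∞ (fun s : ℝ => F (Real.cos s ^ 2) -
      Real.sin s ^ 2 * Real.cos s ^ 2 * (X (Real.cos s ^ 2) * Y (Real.cos s ^ 2)) /
        W (Real.cos s ^ 2)) := by
  have h1 : ContDiff ℝ ∞ (fun s : ℝ => Real.sin s ^ 2 * Real.cos s ^ 2) :=
    (Real.contDiff_sin.pow 2).mul (Real.contDiff_cos.pow 2)
  exact (cd_c hF).sub ((h1.mul ((cd_c hX).mul (cd_c hY))).div (cd_c hW)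
    (fun s => (hw _ (mem01 s)).ne'))

/-- the factor in the derivative of `u1` -/
noncomputable def G1 (P : ℝ → ℝ) (s : ℝ) : ℝ :=
  2 * Real.sin s * (P (Real.cos s ^ 2) - deriv P (Real.cos s ^ 2) * Real.cos s ^ 2)

/-- the factor in the derivative of `u2` -/
noncomputable def G2 (Q : ℝ → ℝ) (s : ℝ) : ℝ :=
  -(2 * Real.cos s * (Q (Real.cos s ^ 2) + deriv Q (Real.cos s ^ 2) * Real.sin s ^ 2))

theorem der_c {P : ℝ → ℝ} (hP : ContDiff ℝ ∞ P) (s : ℝ) :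
    HasDerivAt (fun s : ℝ => P (Real.cos s ^ 2))
      (deriv P (Real.cos s ^ 2) * (2 * Real.cos s ^ (2 - 1) * -Real.sin s)) s := by
  have hd : HasDerivAt P (deriv P (Real.cos s ^ 2)) (Real.cos s ^ 2) :=
    ((hP.differentiable (by simp)) _).hasDerivAt
  have h2 : HasDerivAt (fun s : ℝ => Real.cos s ^ 2)
      (2 * Real.cos s ^ (2 - 1) * -Real.sin s) s := (Real.hasDerivAt_cos s).pow 2
  exact HasDerivAt.comp s hd h2

theorem der_u1 {P : ℝ → ℝ} (hP : ContDiff ℝ ∞ P) {s : ℝ} (hs : Real.cos s ≠ 0) :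
    deriv (fun s : ℝ => P (Real.cos s ^ 2) / Real.cos s ^ 2) s =
      (Real.cos s ^ 3)⁻¹ * G1 P s := by
  have h2 : HasDerivAt (fun s : ℝ => Real.cos s ^ 2)
      (2 * Real.cos s ^ (2 - 1) * -Real.sin s) s := (Real.hasDerivAt_cos s).pow 2
  have h4 := ((der_c hP s).div h2 (pow_ne_zero 2 hs)).deriv
  have e : ((fun s : ℝ => P (Real.cos s ^ 2)) / fun s : ℝ => Real.cos s ^ 2) =
      fun s : ℝ => P (Real.cos s ^ 2) / Real.cos s ^ 2 := rfl
  rw [e] at h4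
  rw [h4]
  unfold G1
  field_simp
  ring

theorem der_u2 {Q : ℝ → ℝ} (hQ : ContDiff ℝ ∞ Q) {s : ℝ} (hs : Real.sin s ≠ 0) :
    deriv (fun s : ℝ => Q (Real.cos s ^ 2) / Real.sin s ^ 2) s =
      (Real.sin s ^ 3)⁻¹ * G2 Q s := by
  have h2 : HasDerivAt (fun s : ℝ => Real.sin s ^ 2)
      (2 * Real.sin s ^ (2 - 1) * Real.cos s) s := (Real.hasDerivAt_sin s).pow 2
  have h4 := ((der_c hQ s).div h2 (pow_ne_zero 2 hs)).deriv
  have e : ((fun s : ℝ => Q (Real.cos s ^ 2)) / fun s : ℝ => Real.sin s ^ 2) =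
      fun s : ℝ => Q (Real.cos s ^ 2) / Real.sin s ^ 2 := rfl
  rw [e] at h4
  rw [h4]
  unfold G2
  field_simp
  ring

theorem cont_G1 {P : ℝ → ℝ} (hP : ContDiff ℝ ∞ P) : Continuous (G1 P) := by
  have h1 : Continuous (deriv P) := hP.continuous_deriv (by simp)
  have h2 := hP.continuous
  unfold G1
  fun_prop

theorem cont_G2 {P : ℝ → ℝ} (hP : ContDiff ℝ ∞ P) : Continuous (G2 P) := by
  have h1 : Continuous (deriv P) := hP.continuous_deriv (by simp)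
  have h2 := hP.continuous
  unfold G2
  fun_prop

theorem sin_pos_l : ∀ᶠ s in 𝓝[>] (0 : ℝ), 0 < Real.sin s := by
  have h : Ioo (0 : ℝ) Real.pi ∈ 𝓝[>] (0 : ℝ) := Ioo_mem_nhdsGT Real.pi_pos
  filter_upwards [h] with s hs
  exact Real.sin_pos_of_mem_Ioo hs

theorem cos_pos_r : ∀ᶠ s in 𝓝[<] (Real.pi / 2), 0 < Real.cos s := by
  have h : Ioo (0 : ℝ) (Real.pi / 2) ∈ 𝓝[<] (Real.pi / 2) := Ioo_mem_nhdsLT Real.pi_div_two_pos
  filter_upwards [h] with s hs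
  exact Real.cos_pos_of_mem_Ioo ⟨by linarith [hs.1, Real.pi_pos], hs.2⟩

theorem inv_l (n : ℕ) (hn : n ≠ 0) : Tendsto (fun s : ℝ => (Real.sin s ^ n)⁻¹) (𝓝[>] 0) atTop := by
  refine Tendsto.inv_tendsto_nhdsGT_zero ?_
  rw [tendsto_nhdsWithin_iff]
  constructor
  · have h : Tendsto (fun s : ℝ => Real.sin s ^ n) (𝓝 0) (𝓝 (Real.sin 0 ^ n)) :=
      (Real.continuous_sin.pow n).tendsto 0
    rw [Real.sin_zero, zero_pow hn] at h
    exact h.mono_left nhdsWithin_le_nhds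
  · filter_upwards [sin_pos_l] with s hs
    exact pow_pos hs n

theorem inv_r (n : ℕ) (hn : n ≠ 0) :
    Tendsto (fun s : ℝ => (Real.cos s ^ n)⁻¹) (𝓝[<] (Real.pi / 2)) atTop := by
  refine Tendsto.inv_tendsto_nhdsGT_zero ?_
  rw [tendsto_nhdsWithin_iff]
  constructor
  · have h : Tendsto (fun s : ℝ => Real.cos s ^ n) (𝓝 (Real.pi / 2))
        (𝓝 (Real.cos (Real.pi / 2) ^ n)) := (Real.continuous_cos.pow n).tendsto _
    rw [Real.cos_pi_div_two, zero_pow hn] at h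
    exact h.mono_left nhdsWithin_le_nhds
  · filter_upwards [cos_pos_r] with s hs
    exact pow_pos hs n

theorem bdd {f : ℝ → ℝ} (a b : ℝ) (hf : ContinuousOn f (Icc a b)) :
    ∃ C, ∀ s ∈ Icc a b, |f s| ≤ C :=
  (isCompact_Icc (a := a) (b := b)).exists_bound_of_continuousOn hf

theorem bdd2 {f : ℝ → ℝ} (hf : ContDiff ℝ ∞ f) :
    ∃ C, ∀ s ∈ Ioo 0 (Real.pi / 2), |f s| ≤ C ∧ |deriv f s| ≤ C := by
  obtain ⟨C1, hC1⟩ := bdd 0 (Real.pi / 2) hf.continuous.continuousOn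
  obtain ⟨C2, hC2⟩ := bdd 0 (Real.pi / 2) (hf.continuous_deriv (by simp)).continuousOn
  exact ⟨max C1 C2, fun s hs => ⟨(hC1 s (Ioo_subset_Icc_self hs)).trans (le_max_left _ _),
      (hC2 s (Ioo_subset_Icc_self hs)).trans (le_max_right _ _)⟩⟩

theorem minP {P : ℝ → ℝ} (hP : ContDiff ℝ ∞ P) (h : ∀ t ∈ Icc (0 : ℝ) 1, 0 < P t) :
    ∃ u0 : ℝ, 0 < u0 ∧ ∀ s : ℝ, u0 ≤ P (Real.cos s ^ 2) := by
  obtain ⟨t0, ht0, hmin⟩ := (isCompact_Icc (a := (0 : ℝ)) (b := 1)).exists_isMinOn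
    ⟨0, by norm_num⟩ hP.continuous.continuousOn
  exact ⟨P t0, h t0 ht0, fun s => hmin (mem01 s)⟩

theorem le_div_sq {u p x : ℝ} (hu : 0 < u) (hp : u ≤ p) (hx : 0 < x) (hx1 : x ≤ 1) :
    u ≤ p / x := by
  rw [le_div_iff₀ hx]
  nlinarith

end SU2_

open SU2_ in
theorem p_SU2 : T_SU2 := by
  intro c hc hpos
  have hP := hc.P
  have hQ := hc.Q
  have hW := cd_W hc
  have hWp : ∀ t ∈ Icc (0 : ℝ) 1, 0 < c.W t := fun t ht => (hpos t ht).2.2
  have hcw := cd_c hW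
  have h11' : ContDiff ℝ ∞ (fn2 c).c11 := by
    have h := cd_cc hc.A hc.D hc.D hW hWp
    have e : (fn2 c).c11 = fun s : ℝ => c.A (Real.cos s ^ 2) -
        Real.sin s ^ 2 * Real.cos s ^ 2 * (c.D (Real.cos s ^ 2) * c.D (Real.cos s ^ 2)) /
          c.W (Real.cos s ^ 2) := by
      funext s
      show c.A (Real.cos s ^ 2) - Real.sin s ^ 2 * Real.cos s ^ 2 * c.D (Real.cos s ^ 2) ^ 2 /
        c.W (Real.cos s ^ 2) = _
      rw [pow_two (c.D (Real.cos s ^ 2))]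
    rw [e]
    exact h
  have h12' : ContDiff ℝ ∞ (fn2 c).c12 := cd_cc hc.B hc.D hc.E hW hWp
  have h22' : ContDiff ℝ ∞ (fn2 c).c22 := by
    have h := cd_cc hc.C hc.E hc.E hW hWp
    have e : (fn2 c).c22 = fun s : ℝ => c.C (Real.cos s ^ 2) -
        Real.sin s ^ 2 * Real.cos s ^ 2 * (c.E (Real.cos s ^ 2) * c.E (Real.cos s ^ 2)) /
          c.W (Real.cos s ^ 2) := by
      funext s
      show c.C (Real.cos s ^ 2) - Real.sin s ^ 2 * Real.cos s ^ 2 * c.E (Real.cos s ^ 2) ^ 2 /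
        c.W (Real.cos s ^ 2) = _
      rw [pow_two (c.E (Real.cos s ^ 2))]
    rw [e]
    exact h
  have hcos : ∀ s ∈ Ioo (0 : ℝ) (Real.pi / 2), 0 < Real.cos s := fun s hs =>
    Real.cos_pos_of_mem_Ioo ⟨by linarith [hs.1, Real.pi_pos], hs.2⟩
  have hsin : ∀ s ∈ Ioo (0 : ℝ) (Real.pi / 2), 0 < Real.sin s := fun s hs =>
    Real.sin_pos_of_mem_Ioo ⟨hs.1, by linarith [hs.2, Real.pi_pos]⟩
  refine ⟨fun s _ => hcw.contDiffAt.of_le inf2, fun s hs => ?_, fun s hs => ?_,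
    fun s _ => h11'.contDiffAt.of_le inf2, fun s _ => h12'.contDiffAt.of_le inf2,
    fun s _ => h22'.contDiffAt.of_le inf2, hcw.continuous.continuousOn,
    fun s _ => hWp _ (mem01 s), ?_, ?_, ?_, ?_, ?_, ?_, ?_, ?_⟩
  · have h3 : ContDiffAt ℝ ∞ (fun s : ℝ => c.P (Real.cos s ^ 2) / Real.cos s ^ 2) s :=
      (cd_c hP).contDiffAt.div (Real.contDiff_cos.pow 2).contDiffAt
        (pow_ne_zero 2 (hcos s hs).ne')
    exact h3.of_le inf2
  · have h3 : ContDiffAt ℝ ∞ (fun s : ℝ => c.Q (Real.cos s ^ 2) / Real.sin s ^ 2) s :=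
      (cd_c hQ).contDiffAt.div (Real.contDiff_sin.pow 2).contDiffAt
        (pow_ne_zero 2 (hsin s hs).ne')
    exact h3.of_le inf2
  · obtain ⟨u, hu, hu'⟩ := minP hP fun t ht => (hpos t ht).1
    obtain ⟨v, hv, hv'⟩ := minP hQ fun t ht => (hpos t ht).2.1
    refine ⟨min u v, lt_min hu hv, fun s hs => ⟨?_, ?_⟩⟩
    · have := hcos s hs
      exact (min_le_left u v).trans (le_div_sq hu (hu' s) (by positivity)
        (Real.cos_sq_le_one s))
    · have := hsin s hs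
      exact (min_le_right u v).trans (le_div_sq hv (hv' s) (by positivity)
        (Real.sin_sq_le_one s))
  · obtain ⟨C1, hC1⟩ := bdd2 h11'
    obtain ⟨C2, hC2⟩ := bdd2 h12'
    obtain ⟨C3, hC3⟩ := bdd2 h22'
    have l1 : C1 ≤ max C1 (max C2 C3) := le_max_left _ _
    have l2 : C2 ≤ max C1 (max C2 C3) := (le_max_left _ _).trans (le_max_right _ _)
    have l3 : C3 ≤ max C1 (max C2 C3) := (le_max_right _ _).trans (le_max_right _ _)
    exact ⟨max C1 (max C2 C3), fun s hs => ⟨(hC1 s hs).1.trans l1, (hC1 s hs).2.trans l1,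
      (hC2 s hs).1.trans l2, (hC2 s hs).2.trans l2, (hC3 s hs).1.trans l3,
      (hC3 s hs).2.trans l3⟩⟩
  · have hne : ∀ s ∈ Icc (0 : ℝ) (Real.pi / 4), Real.cos s ≠ 0 := fun s hs =>
      (Real.cos_pos_of_mem_Ioo ⟨by linarith [hs.1, Real.pi_pos],
        by linarith [hs.2, Real.pi_pos]⟩).ne'
    obtain ⟨C1, hC1⟩ := bdd (f := fun s : ℝ => c.P (Real.cos s ^ 2) / Real.cos s ^ 2) 0
      (Real.pi / 4) ((cd_c hP).continuous.continuousOn.div
        (Real.continuous_cos.pow 2).continuousOn fun s hs => pow_ne_zero 2 (hne s hs))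
    obtain ⟨C2, hC2⟩ := bdd (f := fun s : ℝ => (Real.cos s ^ 3)⁻¹ * G1 c.P s) 0
      (Real.pi / 4) (((Real.continuous_cos.pow 3).continuousOn.inv₀
        fun s hs => pow_ne_zero 3 (hne s hs)).mul (cont_G1 hP).continuousOn)
    refine ⟨max C1 C2, fun s hs => ⟨?_, ?_⟩⟩
    · exact (hC1 s (Ioc_subset_Icc_self hs)).trans (le_max_left _ _)
    · have h := hC2 s (Ioc_subset_Icc_self hs)
      show |deriv (fun s : ℝ => c.P (Real.cos s ^ 2) / Real.cos s ^ 2) s| ≤ _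
      rw [der_u1 hP (hne s (Ioc_subset_Icc_self hs))]
      exact h.trans (le_max_right _ _)
  · have hne : ∀ s ∈ Icc (Real.pi / 4) (Real.pi / 2), Real.sin s ≠ 0 := fun s hs =>
      (Real.sin_pos_of_mem_Ioo ⟨by linarith [hs.1, Real.pi_pos],
        by linarith [hs.2, Real.pi_pos]⟩).ne'
    obtain ⟨C1, hC1⟩ := bdd (f := fun s : ℝ => c.Q (Real.cos s ^ 2) / Real.sin s ^ 2)
      (Real.pi / 4) (Real.pi / 2) ((cd_c hQ).continuous.continuousOn.div
        (Real.continuous_sin.pow 2).continuousOn fun s hs => pow_ne_zero 2 (hne s hs))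
    obtain ⟨C2, hC2⟩ := bdd (f := fun s : ℝ => (Real.sin s ^ 3)⁻¹ * G2 c.Q s)
      (Real.pi / 4) (Real.pi / 2) (((Real.continuous_sin.pow 3).continuousOn.inv₀
        fun s hs => pow_ne_zero 3 (hne s hs)).mul (cont_G2 hQ).continuousOn)
    refine ⟨max C1 C2, fun s hs => ⟨?_, ?_⟩⟩
    · exact (hC1 s (Ico_subset_Icc_self hs)).trans (le_max_left _ _)
    · have h := hC2 s (Ico_subset_Icc_self hs)
      show |deriv (fun s : ℝ => c.Q (Real.cos s ^ 2) / Real.sin s ^ 2) s| ≤ _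
      rw [der_u2 hQ (hne s (Ico_subset_Icc_self hs))]
      exact h.trans (le_max_right _ _)
  · have h1 : 0 < c.Q 1 := (hpos 1 (by norm_num)).2.1
    have h3 : Tendsto (fun s : ℝ => c.Q (Real.cos s ^ 2)) (𝓝[>] 0) (𝓝 (c.Q 1)) := by
      have h := (cd_c hQ).continuous.tendsto 0
      rw [Real.cos_zero, one_pow] at h
      exact h.mono_left nhdsWithin_le_nhds
    have h4 := h3.pos_mul_atTop h1 (inv_l 2 two_ne_zero)
    exact h4
  · have h1 : 0 < c.Q 1 := (hpos 1 (by norm_num)).2.1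
    have h3 : Tendsto (G2 c.Q) (𝓝[>] 0) (𝓝 (G2 c.Q 0)) :=
      ((cont_G2 hQ).tendsto 0).mono_left nhdsWithin_le_nhds
    have h4 : G2 c.Q 0 < 0 := by
      unfold G2
      rw [Real.cos_zero, Real.sin_zero]
      norm_num
      exact h1
    have h5 := (inv_l 3 three_ne_zero).atTop_mul_neg h4 h3
    refine h5.congr' ?_
    filter_upwards [sin_pos_l] with s hs
    exact (der_u2 hQ hs.ne').symm
  · have h1 : 0 < c.P 0 := (hpos 0 (by norm_num)).1
    have h3 : Tendsto (fun s : ℝ => c.P (Real.cos s ^ 2)) (𝓝[<] (Real.pi / 2)) (𝓝 (c.P 0)) := by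
      have h := (cd_c hP).continuous.tendsto (Real.pi / 2)
      rw [Real.cos_pi_div_two, zero_pow two_ne_zero] at h
      exact h.mono_left nhdsWithin_le_nhds
    have h4 := h3.pos_mul_atTop h1 (inv_r 2 two_ne_zero)
    exact h4
  · have h1 : 0 < c.P 0 := (hpos 0 (by norm_num)).1
    have h3 : Tendsto (G1 c.P) (𝓝[<] (Real.pi / 2)) (𝓝 (G1 c.P (Real.pi / 2))) :=
      ((cont_G1 hP).tendsto _).mono_left nhdsWithin_le_nhds
    have h4 : 0 < G1 c.P (Real.pi / 2) := by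
      unfold G1
      rw [Real.cos_pi_div_two, Real.sin_pi_div_two]
      norm_num
      exact h1
    have h5 := (inv_r 3 three_ne_zero).atTop_mul_pos h4 h3
    refine h5.congr' ?_
    filter_upwards [cos_pos_r] with s hs
    exact (der_u1 hP hs.ne').symm

end Pool.Agent.USQ
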