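import Pool.Agent.USQ.Targets

/-!
# USQ, target SYP: cotangent lifts are symplectic
-/

set_option autoImplicit false

open Set Filter Topology MeasureTheory
open scoped ContDiff

namespace Pool.Agent.USQ
open Pool.Agent.MSup

namespace SYP_

variable {ι : Type} [Fintype ι]

theorem ipc (x y : ι → ℝ) : ip x y = ip y x := by
  unfold ip
  exact Finset.sum_congr rfl fun i _ => mul_comm _ _

theorem deriv_ip {E : Type} [NormedAddCommGroup E] [NormedSpace ℝ E] {A B : E → ι → ℝ} {z : E}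
    (hA : DifferentiableAt ℝ A z) (hB : DifferentiableAt ℝ B z) :
    DifferentiableAt ℝ (fun w => ip (A w) (B w)) z ∧
    ∀ u : E, fderiv ℝ (fun w => ip (A w) (B w)) z u =
      ip (fderiv ℝ A z u) (B z) + ip (A z) (fderiv ℝ B z u) := by
  have hAi : ∀ i, HasFDerivAt (fun w => A w i)
      ((ContinuousLinearMap.proj i).comp (fderiv ℝ A z)) z := fun i =>
    hasFDerivAt_pi'.mp hA.hasFDerivAt i
  have hBi : ∀ i, HasFDerivAt (fun w => B w i)
      ((ContinuousLinearMap.proj i).comp (fderiv ℝ B z)) z := fun i =>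
    hasFDerivAt_pi'.mp hB.hasFDerivAt i
  have h : HasFDerivAt (fun w => ∑ i, A w i * B w i) (∑ i : ι,
      (A z i • (ContinuousLinearMap.proj i).comp (fderiv ℝ B z) +
        B z i • (ContinuousLinearMap.proj i).comp (fderiv ℝ A z))) z :=
    HasFDerivAt.fun_sum (u := Finset.univ) fun (i : ι) _ => (hAi i).mul (hBi i)
  refine ⟨h.differentiableAt, fun u => ?_⟩
  unfold ip
  rw [h.fderiv, ← Finset.sum_add_distrib]
  simp only [sum_apply, add_apply, smul_apply, ContinuousLinearMap.comp_apply,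
    ContinuousLinearMap.proj_apply, smul_eq_mul]
  exact Finset.sum_congr rfl fun i _ => by ring

theorem ip_expand [DecidableEq ι] (L : (ι → ℝ) →L[ℝ] (ι → ℝ)) (p η : ι → ℝ) :
    ip (fun i => ip (L (Pi.single i 1)) p) η = ip (L η) p := by
  have h : L η = ∑ i, η i • L (Pi.single i 1) := by
    have e : η = ∑ i, η i • (Pi.single i (1 : ℝ) : ι → ℝ) := by
      rw [← Finset.univ_sum_single η]
      refine Finset.sum_congr rfl fun i _ => ?_
      rw [Finset.univ_sum_single]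
      funext j
      rcases eq_or_ne j i with h | h
      · subst h; simp
      · simp [h]
    conv_lhs => rw [e]
    rw [map_sum]
    exact Finset.sum_congr rfl fun i _ => by rw [map_smul]
  rw [h]
  unfold ip
  simp only [Finset.sum_apply, Pi.smul_apply, smul_eq_mul, Finset.sum_mul]
  rw [Finset.sum_comm]
  exact Finset.sum_congr rfl fun i _ => Finset.sum_congr rfl fun j _ => by ring

end SYP_

open SYP_ in
theorem p_SYP : T_SYP := by
  intro ι _ _ g g' x0 p0 hg hg' hinv Ψ hΨ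
  set q : (ι → ℝ) × (ι → ℝ) → (ι → ℝ) :=
    fun z i => ip (fderiv ℝ g' (g z.1) (Pi.single i 1)) z.2 with hq
  have hΨ' : Ψ = fun z => (g z.1, q z) := funext hΨ
  have hgd : DifferentiableAt ℝ g x0 := hg.differentiableAt (by simp)
  have hg2 : DifferentiableAt ℝ (fderiv ℝ g) x0 :=
    (hg.fderiv_right (m := 1) (by norm_cast)).differentiableAt (by simp)
  have hg2' : DifferentiableAt ℝ (fderiv ℝ g') (g x0) :=
    (hg'.fderiv_right (m := 1) (by norm_cast)).differentiableAt (by simp)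
  have hgf : DifferentiableAt ℝ (fun z : (ι → ℝ) × (ι → ℝ) => g z.1) (x0, p0) :=
    DifferentiableAt.comp (x0, p0) (f := Prod.fst) (g := g) hgd differentiableAt_fst
  have hqd : DifferentiableAt ℝ q (x0, p0) := by
    rw [hq, differentiableAt_pi]
    intro i
    have h1 : DifferentiableAt ℝ (fun z : (ι → ℝ) × (ι → ℝ) => fderiv ℝ g' (g z.1)) (x0, p0) :=
      DifferentiableAt.comp (x0, p0) (f := fun z : (ι → ℝ) × (ι → ℝ) => g z.1)
        (g := fderiv ℝ g') hg2' hgf
    have h2 : DifferentiableAt ℝ (fun z : (ι → ℝ) × (ι → ℝ) =>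
        fderiv ℝ g' (g z.1) (Pi.single i 1)) (x0, p0) :=
      h1.clm_apply (differentiableAt_const _)
    exact (deriv_ip h2 differentiableAt_snd).1
  have hΨd : HasFDerivAt Ψ ((fderiv ℝ (fun z : (ι → ℝ) × (ι → ℝ) => g z.1) (x0, p0)).prod
      (fderiv ℝ q (x0, p0))) (x0, p0) := by
    rw [hΨ']
    exact hgf.hasFDerivAt.prodMk hqd.hasFDerivAt
  have hfst : ∀ u : (ι → ℝ) × (ι → ℝ),
      fderiv ℝ (fun z : (ι → ℝ) × (ι → ℝ) => g z.1) (x0, p0) u = fderiv ℝ g x0 u.1 := by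
    intro u
    have h : HasFDerivAt (fun z : (ι → ℝ) × (ι → ℝ) => g z.1)
        ((fderiv ℝ g x0).comp (ContinuousLinearMap.fst ℝ _ _)) (x0, p0) :=
      HasFDerivAt.comp (x0, p0) (f := Prod.fst) (g := g) hgd.hasFDerivAt hasFDerivAt_fst
    rw [h.fderiv]
    rfl
  -- the duality between `q` and the derivative of `g`
  have hdual : ∀ ξ : ι → ℝ,
      (fun z : (ι → ℝ) × (ι → ℝ) => ip (q z) (fderiv ℝ g z.1 ξ)) =ᶠ[𝓝 (x0, p0)]
        fun z => ip z.2 ξ := by
    intro ξ
    have hx : ∀ᶠ x in 𝓝 x0, fderiv ℝ g' (g x) (fderiv ℝ g x ξ) = ξ := by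
      have e1 : ∀ᶠ x in 𝓝 x0, ∀ᶠ y in 𝓝 x, g' (g y) = y := eventually_eventually_nhds.mpr hinv
      have e2 : ∀ᶠ x in 𝓝 x0, ContDiffAt ℝ 1 g x :=
        (hg.of_le (by norm_cast)).eventually (by simp)
      have e3 : ∀ᶠ y in 𝓝 (g x0), ContDiffAt ℝ 1 g' y :=
        (hg'.of_le (by norm_cast)).eventually (by simp)
      have e4 : ∀ᶠ x in 𝓝 x0, ContDiffAt ℝ 1 g' (g x) := hgd.continuousAt.eventually e3
      filter_upwards [e1, e2, e4] with x h1 h2 h4
      have d1 := (h2.differentiableAt (by simp)).hasFDerivAt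
      have d2 := (h4.differentiableAt (by simp)).hasFDerivAt
      have d3 : HasFDerivAt (g' ∘ g) ((fderiv ℝ g' (g x)).comp (fderiv ℝ g x)) x := d2.comp x d1
      have d4 : HasFDerivAt (g' ∘ g) (ContinuousLinearMap.id ℝ (ι → ℝ)) x :=
        (hasFDerivAt_id x).congr_of_eventuallyEq h1
      have d5 := d3.unique d4
      have d6 := congrArg (fun L => L ξ) d5
      simpa using d6
    have hx' : ∀ᶠ z : (ι → ℝ) × (ι → ℝ) in 𝓝 (x0, p0),
        fderiv ℝ g' (g z.1) (fderiv ℝ g z.1 ξ) = ξ :=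
      (continuous_fst.tendsto (x0, p0)).eventually hx
    filter_upwards [hx'] with z hz
    rw [hq]
    simp only
    rw [ip_expand, hz, ipc]
  -- its derivative
  have hE : ∀ (u : (ι → ℝ) × (ι → ℝ)) (ξ : ι → ℝ),
      ip (fderiv ℝ q (x0, p0) u) (fderiv ℝ g x0 ξ) +
        ip (q (x0, p0)) (fderiv ℝ (fderiv ℝ g) x0 u.1 ξ) = ip u.2 ξ := by
    intro u ξ
    have hBd : HasFDerivAt (fun z : (ι → ℝ) × (ι → ℝ) => fderiv ℝ g z.1)
        ((fderiv ℝ (fderiv ℝ g) x0).comp (ContinuousLinearMap.fst ℝ _ _)) (x0, p0) :=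
      HasFDerivAt.comp (x0, p0) (f := Prod.fst) (g := fderiv ℝ g) hg2.hasFDerivAt hasFDerivAt_fst
    have hBd' := hBd.clm_apply (hasFDerivAt_const ξ (x0, p0))
    have k1 := (deriv_ip hqd hBd'.differentiableAt).2 u
    have k2 := (deriv_ip (A := fun z : (ι → ℝ) × (ι → ℝ) => z.2) (B := fun _ => ξ)
      (z := (x0, p0)) differentiableAt_snd (differentiableAt_const _)).2 u
    rw [(hdual ξ).fderiv_eq, k2, hBd'.fderiv] at k1
    have e1 : fderiv ℝ (fun z : (ι → ℝ) × (ι → ℝ) => z.2) (x0, p0) u = u.2 := by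
      rw [fderiv_snd]
      rfl
    have e2 : fderiv ℝ (fun _ : (ι → ℝ) × (ι → ℝ) => ξ) (x0, p0) u = 0 := by
      rw [fderiv_const_apply]
      rfl
    rw [e1, e2] at k1
    have e3 : ip p0 (0 : ι → ℝ) = 0 := by simp [ip]
    simp only [e3, add_zero] at k1
    rw [k1]
    simp
  refine ⟨hΨd.differentiableAt, fun u v => ?_⟩
  rw [hΨd.fderiv]
  have hs : IsSymmSndFDerivAt ℝ g x0 :=
    hg.isSymmSndFDerivAt (by simp only [minSmoothness_of_isRCLikeNormedField]; norm_cast)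
  have hsy := hs u.1 v.1
  have hEu := hE u v.1
  have hEv := hE v u.1
  simp only [sy, ContinuousLinearMap.prod_apply]
  rw [hfst, hfst]
  rw [ipc (fderiv ℝ g x0 u.1), ipc u.1 v.2]
  rw [← hsy] at hEv
  linarith

end Pool.Agent.USQ
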