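import Pool.Agent.USQ.P_HOM

/-!
# USQ, TAN: the derivative of a diffeomorphism of the sphere on tangent vectors
-/

set_option autoImplicit false

open Set Filter Topology MeasureTheory
open scoped ContDiff

namespace Pool.Agent.USQ
open Pool.Agent.MSup

namespace TAN_

section
variable {ι : Type} [Fintype ι]

theorem exists_curve {x ξ : ι → ℝ} (hx : ip x x = 1) (hξ : ip x ξ = 0) :
    ∃ c : ℝ → ι → ℝ, HasDerivAt c ξ 0 ∧ c 0 = x ∧ ∀ t, ip (c t) (c t) = 1 := by
  have e0 : x + (0 : ℝ) • ξ = x := by rw [zero_smul, add_zero]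
  have hl := HOM_.der_line x ξ
  have h2 : ∀ t : ℝ, ip (x + t • ξ) (x + t • ξ) = 1 + t ^ 2 * ip ξ ξ := by
    intro t
    simp only [ip_add_left, ip_add_right, ip_smul_left, ip_smul_right]
    rw [HOM_.ip_comm ξ x, hξ, hx]
    ring
  have hpos : ∀ t : ℝ, 0 < ip (x + t • ξ) (x + t • ξ) := by
    intro t
    rw [h2]
    have h3 : 0 ≤ ip ξ ξ := Finset.sum_nonneg fun i _ => mul_self_nonneg _
    positivity
  have hN : HasDerivAt (fun t : ℝ => HOM_.nr (x + t • ξ)) 0 0 := by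
    have h3 : HasDerivAt (fun t : ℝ => ip (x + t • ξ) (x + t • ξ)) 0 0 := by
      have h5 : (fun t : ℝ => ip (x + t • ξ) (x + t • ξ)) = fun t => 1 + t ^ 2 * ip ξ ξ :=
        funext h2
      rw [h5]
      have h4 := ((hasDerivAt_pow 2 (0 : ℝ)).mul_const (ip ξ ξ)).const_add (1 : ℝ)
      refine h4.congr_deriv ?_
      norm_num
    have h5 := h3.sqrt (by rw [e0, hx]; exact one_ne_zero)
    refine h5.congr_deriv ?_
    rw [zero_div]
  have hN0 : HOM_.nr (x + (0 : ℝ) • ξ) = 1 := by rw [e0, HOM_.nr_one hx]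
  have hi := hN.inv (by rw [hN0]; exact one_ne_zero)
  have h3 := hi.smul hl
  refine ⟨fun t : ℝ => (HOM_.nr (x + t • ξ))⁻¹ • (x + t • ξ), ?_, ?_, ?_⟩
  · refine h3.congr_deriv ?_
    simp only [Pi.inv_apply]
    rw [hN0, e0]
    simp
  · show (HOM_.nr (x + (0 : ℝ) • ξ))⁻¹ • (x + (0 : ℝ) • ξ) = x
    rw [hN0, e0, inv_one, one_smul]
  · intro t
    exact HOM_.ip_unit (hpos t)

theorem der_ip {f g : ℝ → ι → ℝ} {f' g' : ι → ℝ} (hf : HasDerivAt f f' 0)
    (hg : HasDerivAt g g' 0) : HasDerivAt (fun t => ip (f t) (g t)) (ip f' (g 0) + ip (f 0) g') 0 := by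
  have h : HasDerivAt (fun t => ∑ i, f t i * g t i) (∑ i, (f' i * g 0 i + f 0 i * g' i)) 0 :=
    HasDerivAt.fun_sum fun i _ => (hasDerivAt_pi.1 hf i).mul (hasDerivAt_pi.1 hg i)
  refine h.congr_deriv ?_
  rw [Finset.sum_add_distrib]
  rfl

end

end TAN_

theorem p_TAN : T_TAN := by
  intro ι _ _ G G' D x ξ hx hξ
  obtain ⟨c, hc, hc0, hc1⟩ := TAN_.exists_curve hx hξ
  have h1 : HasDerivAt (fun t => G (c t)) (fderiv ℝ G x ξ) 0 := by
    have h := (D.sG.differentiable (by simp) x).hasFDerivAt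
    rw [← hc0] at h
    have h2 := h.comp_hasDerivAt (0 : ℝ) hc
    rw [hc0] at h2
    exact h2
  constructor
  · have h2 := TAN_.der_ip h1 h1
    have h3 : (fun t => ip (G (c t)) (G (c t))) = fun _ => (1 : ℝ) :=
      funext fun t => D.mG _ (hc1 t)
    rw [h3] at h2
    have h4 := h2.unique (hasDerivAt_const (0 : ℝ) (1 : ℝ))
    rw [hc0, HOM_.ip_comm (fderiv ℝ G x ξ)] at h4
    linarith
  · have h2 : HasDerivAt (fun t => G' (G (c t))) (fderiv ℝ G' (G x) (fderiv ℝ G x ξ)) 0 := by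
      have h := (D.sG'.differentiable (by simp) (G x)).hasFDerivAt
      rw [← hc0] at h
      have h3 := h.comp_hasDerivAt (0 : ℝ) h1
      rw [hc0] at h3
      exact h3
    have h3 : (fun t => G' (G (c t))) = c := funext fun t => D.l _ (hc1 t)
    rw [h3] at h2
    exact h2.unique hc

end Pool.Agent.USQ
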