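import Pool.Agent.USQ.Targets

/-!
# USQ, target TRN: transport of maximal superintegrability by a diffeomorphism of the sphere
-/

set_option autoImplicit false

open Set Filter Topology MeasureTheory
open scoped ContDiff

namespace Pool.Agent.USQ
open Pool.Agent.MSup

namespace TRN_

section
variable {ι : Type} [Fintype ι] [DecidableEq ι]

omit [DecidableEq ι] in
theorem cont_ip {f g : (ι → ℝ) × (ι → ℝ) → (ι → ℝ)} (hf : Continuous f) (hg : Continuous g) :
    Continuous fun z => ip (f z) (g z) := by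
  unfold ip
  exact continuous_finsetSum _ fun i _ =>
    ((continuous_apply i).comp hf).mul ((continuous_apply i).comp hg)

theorem cont_cot {G G' : (ι → ℝ) → (ι → ℝ)} (hD : Dif G G') {z : (ι → ℝ) × (ι → ℝ)}
    (hz : 0 < ip (G z.1) (G z.1)) : ContinuousAt (cot G G') z := by
  have hG : Continuous fun z : (ι → ℝ) × (ι → ℝ) => G z.1 := hD.sG.continuous.comp continuous_fst
  have hF : Continuous fun z : (ι → ℝ) × (ι → ℝ) => fderiv ℝ G' (G z.1) :=
    (hD.sG'.continuous_fderiv (by simp)).comp hG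
  have hq : Continuous fun z : (ι → ℝ) × (ι → ℝ) =>
      (fun i => ip (fderiv ℝ G' (G z.1) (Pi.single i 1)) z.2 : ι → ℝ) := by
    refine continuous_pi fun i => ?_
    exact cont_ip (hF.clm_apply continuous_const) continuous_snd
  have h1 : ContinuousAt (fun z : (ι → ℝ) × (ι → ℝ) =>
      ip (G z.1) (fun i => ip (fderiv ℝ G' (G z.1) (Pi.single i 1)) z.2) /
        ip (G z.1) (G z.1)) z :=
    (cont_ip hG hq).continuousAt.div (cont_ip hG hG).continuousAt hz.ne'
  unfold cot tproj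
  exact hG.continuousAt.prodMk (hq.continuousAt.sub (h1.smul hG.continuousAt))

end

end TRN_

open TRN_ in
theorem p_TRN : T_TRN := by
  intro hHOM hSYP hTAN hBRK hPCO hCTS ι _ _ G G' hD H hH hM
  obtain ⟨F, hP, hI, U, hU, hcl, hLI⟩ := hM
  obtain ⟨Ψ, hΨ⟩ := hHOM hSYP hTAN ι G G' hD
  obtain ⟨hD', hmem, hinv⟩ := hCTS hTAN ι G G' hD
  obtain ⟨-, hmem', hinv'⟩ := hCTS hTAN ι G' G hD'
  have key : ∀ z ∈ TS ι, ∀ K : (ι → ℝ) × (ι → ℝ) → ℝ,
      DifferentiableAt ℝ (lift K) (cot G G' z) →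
      fderiv ℝ (lift fun y => K (cot G G' y)) z =
        (fderiv ℝ (lift K) (cot G G' z)).comp (fderiv ℝ Ψ z) := by
    intro z hz K hK
    obtain ⟨h1, h2, -, h4⟩ := hΨ z hz
    rw [(h4 K).fderiv_eq]
    rw [← h1] at hK ⊢
    exact fderiv_comp z hK h2
  have hFd : ∀ z ∈ TS ι, ∀ i, DifferentiableAt ℝ (lift (F i)) (cot G G' z) := fun z hz i =>
    (contDiffAt_lift (hP i) (TS_pos (hmem z hz))).differentiableAt (by simp)
  refine ⟨fun i z => F i (cot G G' z), fun i => hPCO ι G G' hD (F i) (hP i), ?_,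
    {z | 0 < ip (G z.1) (G z.1)} ∩ cot G G' ⁻¹' U, ?_, ?_, ?_⟩
  · intro i z hz
    obtain ⟨-, -, h3, -⟩ := hΨ z hz
    have h5 := (hBRK ι (fderiv ℝ Ψ z) h3).2 (fderiv ℝ (lift H) (cot G G' z))
      (fderiv ℝ (lift (F i)) (cot G G' z))
    have h6 := hI i (cot G G' z) (hmem z hz)
    unfold bracket at h6 ⊢
    rw [key z hz H (hH _ (hmem z hz)), key z hz (F i) (hFd z hz i)]
    exact h5.trans h6
  · have hV : IsOpen {z : (ι → ℝ) × (ι → ℝ) | 0 < ip (G z.1) (G z.1)} :=
      isOpen_lt continuous_const (cont_ip (hD.sG.continuous.comp continuous_fst)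
        (hD.sG.continuous.comp continuous_fst))
    refine ContinuousOn.isOpen_inter_preimage ?_ hV hU
    intro z hz
    exact (cont_cot hD hz).continuousWithinAt
  · intro z hz
    have h1 : cot G G' z ∈ closure (U ∩ TS ι) := hcl (hmem z hz)
    have h2 : ContinuousAt (cot G' G) (cot G G' z) := by
      refine cont_cot hD' ?_
      rw [hD'.mG _ (hmem z hz).1]
      exact one_pos
    have h3 := mem_closure_image h2 h1
    rw [hinv z hz] at h3
    refine closure_mono ?_ h3
    rintro _ ⟨y, ⟨hy1, hy2⟩, rfl⟩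
    have h4 := hmem' y hy2
    refine ⟨⟨?_, ?_⟩, h4⟩
    · show 0 < ip (G (cot G' G y).1) (G (cot G' G y).1)
      rw [hD.mG _ h4.1]
      exact one_pos
    · show cot G G' (cot G' G y) ∈ U
      rw [hinv' y hy2]
      exact hy1
  · rintro z ⟨⟨-, hzU⟩, hz⟩
    obtain ⟨-, -, h3, -⟩ := hΨ z hz
    have hsurj := (hBRK ι (fderiv ℝ Ψ z) h3).1.2
    let Lm : ((ι → ℝ) × (ι → ℝ) →L[ℝ] ℝ) →ₗ[ℝ] ((ι → ℝ) × (ι → ℝ) →L[ℝ] ℝ) :=
      { toFun := fun T => T.comp (fderiv ℝ Ψ z)
        map_add' := fun S T => ContinuousLinearMap.ext fun v => rfl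
        map_smul' := fun c T => ContinuousLinearMap.ext fun v => rfl }
    have hinj : Function.Injective Lm := by
      intro S T hST
      refine ContinuousLinearMap.ext fun v => ?_
      obtain ⟨u, rfl⟩ := hsurj v
      exact congrArg (fun R : (ι → ℝ) × (ι → ℝ) →L[ℝ] ℝ => R u) hST
    have h7 := (hLI (cot G G' z) ⟨hzU, hmem z hz⟩).map' Lm (LinearMap.ker_eq_bot.2 hinj)
    have h8 : (fun i => fderiv ℝ (lift fun y => F i (cot G G' y)) z) =
        Lm ∘ fun i => fderiv ℝ (lift (F i)) (cot G G' z) := by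
      funext i
      exact key z hz (F i) (hFd z hz i)
    show LinearIndependent ℝ (fun i => fderiv ℝ (lift fun y => F i (cot G G' y)) z)
    rw [h8]
    exact h7

end Pool.Agent.USQ
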