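import Pool.Agent.USQ.Targets
import Pool.Agent.USP.P_ORT

/-!
# USQ: values at the points of the torus family
-/

set_option autoImplicit false

open Set Filter Topology MeasureTheory
open scoped ContDiff

namespace Pool.Agent.USQ
open Pool.Agent.MSup
open Pool.Agent.USP (Fr JJ GG Win Pot)

namespace VA2_

theorem ip_comm {ι : Type} [Fintype ι] (x y : ι → ℝ) : ip x y = ip y x := by
  simp only [ip]
  exact Finset.sum_congr rfl fun i _ => mul_comm _ _

end VA2_

open VA2_ in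
theorem p_VA2 : T_VA2 := by
  intro a b R₁ R₂ L₁ L₂ s θ p hs hc z hz
  obtain ⟨g1, g2, g3, g4, g5, g6, g7, -⟩ := Pool.Agent.USP.p_ORT (Fin a) R₁ (θ 0) (θ 1)
  obtain ⟨h1, h2, h3, h4, h5, h6, h7, -⟩ := Pool.Agent.USP.p_ORT (Fin b) R₂ (θ 2) (θ 3)
  have y1 : yc z.1 = Real.cos s • R₁.om (θ 0) (θ 1) := by
    rw [hz]
    rfl
  have z1 : zc z.1 = Real.sin s • R₂.om (θ 2) (θ 3) := by
    rw [hz]
    rfl
  have y2 : yc z.2 = (-(p * Real.sin s)) • R₁.om (θ 0) (θ 1) +
      (L₁ / Real.cos s) • R₁.om' (θ 0) (θ 1) := by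
    rw [hz]
    funext j
    change L₁ / Real.cos s * R₁.om' (θ 0) (θ 1) j + p * (-Real.sin s * R₁.om (θ 0) (θ 1) j) =
      -(p * Real.sin s) * R₁.om (θ 0) (θ 1) j + L₁ / Real.cos s * R₁.om' (θ 0) (θ 1) j
    ring
  have z2 : zc z.2 = (p * Real.cos s) • R₂.om (θ 2) (θ 3) +
      (L₂ / Real.sin s) • R₂.om' (θ 2) (θ 3) := by
    rw [hz]
    funext j
    change L₂ / Real.sin s * R₂.om' (θ 2) (θ 3) j + p * (Real.cos s * R₂.om (θ 2) (θ 3) j) =
      p * Real.cos s * R₂.om (θ 2) (θ 3) j + L₂ / Real.sin s * R₂.om' (θ 2) (θ 3) j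
    ring
  refine ⟨?_, ?_, ?_, ?_, ?_, ?_, ?_, ?_⟩
  · rw [y1, ip_smul_left, ip_smul_right, g1]
    ring
  · rw [z1, ip_smul_left, ip_smul_right, h1]
    ring
  · rw [y1, y2, ip_smul_left, ip_add_right, ip_smul_right, ip_smul_right, g1, g3]
    ring
  · rw [z1, z2, ip_smul_left, ip_add_right, ip_smul_right, ip_smul_right, h1, h3]
    ring
  · rw [y2, ip_add_left, ip_smul_left, ip_smul_left, ip_add_right, ip_add_right, ip_smul_right,
      ip_smul_right, ip_smul_right, ip_smul_right, g1, g2, g3,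
      ip_comm (R₁.om' (θ 0) (θ 1)) (R₁.om (θ 0) (θ 1)), g3]
    ring
  · rw [z2, ip_add_left, ip_smul_left, ip_smul_left, ip_add_right, ip_add_right, ip_smul_right,
      ip_smul_right, ip_smul_right, ip_smul_right, h1, h2, h3,
      ip_comm (R₂.om' (θ 2) (θ 3)) (R₂.om (θ 2) (θ 3)), h3]
    ring
  · rw [k1, y1, y2, map_smul, ip_smul_left, ip_add_right, ip_smul_right, ip_smul_right, g4, g5]
    field_simp
    ring
  · rw [k2, z1, z2, map_smul, ip_smul_left, ip_add_right, ip_smul_right, ip_smul_right, h4, h5]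
    field_simp
    ring

end Pool.Agent.USQ
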