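import Pool.Agent.USQ.Targets
import Pool.Agent.USP.P_LFT

/-!
# USQ: the Hamiltonian vector field of `uuHam` along the torus family
-/

set_option autoImplicit false

open Set Filter Topology MeasureTheory
open scoped ContDiff

namespace Pool.Agent.USQ
open Pool.Agent.MSup
open Pool.Agent.USP (Fr JJ GG Win Pot)

namespace XUU_

section
variable {ι : Type} [Fintype ι]

theorem ip_comm (x y : ι → ℝ) : ip x y = ip y x := by
  simp only [ip]
  exact Finset.sum_congr rfl fun i _ => mul_comm _ _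

theorem ip_zero_left (x : ι → ℝ) : ip (0 : ι → ℝ) x = 0 := by
  simp [ip]

theorem ip_zero_right (x : ι → ℝ) : ip x (0 : ι → ℝ) = 0 := by
  simp [ip]

theorem ip_sub_left (x y z : ι → ℝ) : ip (x - y) z = ip x z - ip y z := by
  rw [ip_comm, ip_sub_right, ip_comm z x, ip_comm z y]

variable [DecidableEq ι]

theorem ip_single_right (x : ι → ℝ) (i : ι) : ip x (Pi.single i 1) = x i := by
  simp [ip, Pi.single_apply]

theorem ip_single_left (x : ι → ℝ) (i : ι) : ip (Pi.single i 1) x = x i := by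
  rw [ip_comm, ip_single_right]

end

section
variable {a b : ℕ}

theorem yc_sub (x y : Fin a ⊕ Fin b → ℝ) : yc (x - y) = yc x - yc y := rfl

theorem yc_add (x y : Fin a ⊕ Fin b → ℝ) : yc (x + y) = yc x + yc y := rfl

theorem yc_smul (c : ℝ) (x : Fin a ⊕ Fin b → ℝ) : yc (c • x) = c • yc x := rfl

theorem yc_zero : yc (0 : Fin a ⊕ Fin b → ℝ) = 0 := rfl

theorem zc_sub (x y : Fin a ⊕ Fin b → ℝ) : zc (x - y) = zc x - zc y := rfl

theorem zc_add (x y : Fin a ⊕ Fin b → ℝ) : zc (x + y) = zc x + zc y := rfl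

theorem zc_smul (c : ℝ) (x : Fin a ⊕ Fin b → ℝ) : zc (c • x) = c • zc x := rfl

theorem zc_zero : zc (0 : Fin a ⊕ Fin b → ℝ) = 0 := rfl

theorem ip_split (x y : Fin a ⊕ Fin b → ℝ) : ip x y = ip (yc x) (yc y) + ip (zc x) (zc y) := by
  simp only [ip, Fintype.sum_sum_type, yc, zc]

theorem yc_inl (i : Fin a) : yc (Pi.single (Sum.inl i) 1 : Fin a ⊕ Fin b → ℝ) = Pi.single i 1 := by
  funext j
  simp [yc, Pi.single_apply]

theorem yc_inr (i : Fin b) : yc (Pi.single (Sum.inr i) 1 : Fin a ⊕ Fin b → ℝ) = 0 := by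
  funext j
  simp [yc]

theorem zc_inl (i : Fin a) : zc (Pi.single (Sum.inl i) 1 : Fin a ⊕ Fin b → ℝ) = 0 := by
  funext j
  simp [zc]

theorem zc_inr (i : Fin b) : zc (Pi.single (Sum.inr i) 1 : Fin a ⊕ Fin b → ℝ) = Pi.single i 1 := by
  funext j
  simp [zc, Pi.single_apply]

theorem J0 {n : ℕ} (J : (Fin n → ℝ) →ₗ[ℝ] (Fin n → ℝ)) (hJ : ∀ x y, ip (J x) y = -ip x (J y))
    (x : Fin n → ℝ) : ip (J x) x = 0 := by
  have := hJ x x
  rw [ip_comm x (J x)] at this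
  linarith

end

section
variable {a b : ℕ} (hL : USP.T_LFT) (hD : T_DUU) (J₁ : (Fin a → ℝ) →ₗ[ℝ] (Fin a → ℝ))
  (J₂ : (Fin b → ℝ) →ₗ[ℝ] (Fin b → ℝ)) (h₁ : ∀ x y, ip (J₁ x) y = -ip x (J₁ y))
  (h₂ : ∀ x y, ip (J₂ x) y = -ip x (J₂ y)) (c : Co) (hc : c.Smooth)

/-- the coefficient of the differential in `t` -/
noncomputable def MC (z : Ph a b) : ℝ :=
  (deriv c.P (ip (yc z.1) (yc z.1)) * ip (yc z.2) (yc z.2) +
    deriv c.Q (ip (yc z.1) (yc z.1)) * ip (zc z.2) (zc z.2) +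
    deriv c.R (ip (yc z.1) (yc z.1)) * ip (yc z.1) (yc z.2) ^ 2 +
    deriv c.A (ip (yc z.1) (yc z.1)) * k1 J₁ z ^ 2 +
    2 * deriv c.B (ip (yc z.1) (yc z.1)) * k1 J₁ z * k2 J₂ z +
    deriv c.C (ip (yc z.1) (yc z.1)) * k2 J₂ z ^ 2) / 2 +
  ip (yc z.1) (yc z.2) * (deriv c.D (ip (yc z.1) (yc z.1)) * k1 J₁ z +
    deriv c.E (ip (yc z.1) (yc z.1)) * k2 J₂ z)

include hD hc in
theorem fd0 (z v : Ph a b) : fderiv ℝ (uuHam J₁ J₂ c) z v =
    2 * ip (yc z.1) (yc v.1) * MC J₁ J₂ c z +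
    c.P (ip (yc z.1) (yc z.1)) * ip (yc z.2) (yc v.2) +
    c.Q (ip (yc z.1) (yc z.1)) * ip (zc z.2) (zc v.2) +
    (c.R (ip (yc z.1) (yc z.1)) * ip (yc z.1) (yc z.2) +
      c.D (ip (yc z.1) (yc z.1)) * k1 J₁ z + c.E (ip (yc z.1) (yc z.1)) * k2 J₂ z) *
      (ip (yc v.1) (yc z.2) + ip (yc z.1) (yc v.2)) +
    (c.A (ip (yc z.1) (yc z.1)) * k1 J₁ z + c.B (ip (yc z.1) (yc z.1)) * k2 J₂ z +
      c.D (ip (yc z.1) (yc z.1)) * ip (yc z.1) (yc z.2)) *
      (ip (J₁ (yc v.1)) (yc z.2) + ip (J₁ (yc z.1)) (yc v.2)) +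
    (c.B (ip (yc z.1) (yc z.1)) * k1 J₁ z + c.C (ip (yc z.1) (yc z.1)) * k2 J₂ z +
      c.E (ip (yc z.1) (yc z.1)) * ip (yc z.1) (yc z.2)) *
      (ip (J₂ (zc v.1)) (zc z.2) + ip (J₂ (zc z.1)) (zc v.2)) := by
  rw [(hD a b J₁ J₂ c hc).2 z v _ _ _ _ _ _ _ _ rfl rfl rfl rfl rfl rfl rfl rfl]
  simp only [MC]
  ring

include hL hD hc in
theorem fd (z : Ph a b) (hz : z ∈ TS (Fin a ⊕ Fin b)) (v : Ph a b) :
    fderiv ℝ (lift (uuHam J₁ J₂ c)) z v =
      fderiv ℝ (uuHam J₁ J₂ c) z (v.1 - ip z.1 v.1 • z.1,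
        v.2 + ip z.1 v.1 • z.2 - (ip v.1 z.2 + ip z.1 v.2) • z.1) :=
  hL (Fin a ⊕ Fin b) (uuHam J₁ J₂ c) z v hz
    (((hD a b J₁ J₂ c hc).1.differentiable (by simp)) z)

include hL hD h₁ h₂ hc in
theorem x1l (z : Ph a b) (hz : z ∈ TS (Fin a ⊕ Fin b)) (i : Fin a) :
    (XH (uuHam J₁ J₂ c) z).1 (Sum.inl i) =
      c.P (ip (yc z.1) (yc z.1)) * (z.2 (Sum.inl i) - z.1 (Sum.inl i) * ip (yc z.1) (yc z.2)) +
      c.Q (ip (yc z.1) (yc z.1)) * (z.1 (Sum.inl i) * ip (yc z.1) (yc z.2)) +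
      (c.R (ip (yc z.1) (yc z.1)) * ip (yc z.1) (yc z.2) +
        c.D (ip (yc z.1) (yc z.1)) * k1 J₁ z + c.E (ip (yc z.1) (yc z.1)) * k2 J₂ z) *
        (z.1 (Sum.inl i) * (1 - ip (yc z.1) (yc z.1))) +
      (c.A (ip (yc z.1) (yc z.1)) * k1 J₁ z + c.B (ip (yc z.1) (yc z.1)) * k2 J₂ z +
        c.D (ip (yc z.1) (yc z.1)) * ip (yc z.1) (yc z.2)) * J₁ (yc z.1) i := by
  have e1 := hz.2
  rw [ip_split] at e1
  have e2 := J0 J₁ h₁ (yc z.1)
  have e3 := J0 J₂ h₂ (zc z.1)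
  simp only [XH]
  rw [fd hL hD J₁ J₂ c hc z hz, fd0 hD J₁ J₂ c hc]
  simp only [ip_zero_right, ip_zero_left, zero_smul, sub_zero, yc_zero, zc_zero, map_zero, yc_sub,
    zc_sub, yc_smul, zc_smul, yc_inl, zc_inl, ip_single_right, zero_sub, add_zero, zero_add,
    mul_zero, zero_mul]
  rw [ip_sub_right, ip_sub_right, ip_sub_right, ← neg_smul, ip_smul_right, ip_smul_right,
    ip_smul_right, ip_smul_right, ip_smul_right, e2, e3, ip_comm (zc z.2) (zc z.1),
    ip_comm (yc z.2) (yc z.1), ip_single_right, ip_single_right, ip_single_right]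
  have e4 : ip (zc z.1) (zc z.2) = -ip (yc z.1) (yc z.2) := by linarith
  rw [e4]
  simp only [yc]
  ring

include hL hD h₁ h₂ hc in
theorem x1r (z : Ph a b) (hz : z ∈ TS (Fin a ⊕ Fin b)) (j : Fin b) :
    (XH (uuHam J₁ J₂ c) z).1 (Sum.inr j) =
      -(c.P (ip (yc z.1) (yc z.1)) * (z.1 (Sum.inr j) * ip (yc z.1) (yc z.2))) +
      c.Q (ip (yc z.1) (yc z.1)) * (z.2 (Sum.inr j) + z.1 (Sum.inr j) * ip (yc z.1) (yc z.2)) -
      (c.R (ip (yc z.1) (yc z.1)) * ip (yc z.1) (yc z.2) +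
        c.D (ip (yc z.1) (yc z.1)) * k1 J₁ z + c.E (ip (yc z.1) (yc z.1)) * k2 J₂ z) *
        (z.1 (Sum.inr j) * ip (yc z.1) (yc z.1)) +
      (c.B (ip (yc z.1) (yc z.1)) * k1 J₁ z + c.C (ip (yc z.1) (yc z.1)) * k2 J₂ z +
        c.E (ip (yc z.1) (yc z.1)) * ip (yc z.1) (yc z.2)) * J₂ (zc z.1) j := by
  have e1 := hz.2
  rw [ip_split] at e1
  have e2 := J0 J₁ h₁ (yc z.1)
  have e3 := J0 J₂ h₂ (zc z.1)
  simp only [XH]
  rw [fd hL hD J₁ J₂ c hc z hz, fd0 hD J₁ J₂ c hc]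
  simp only [ip_zero_right, ip_zero_left, zero_smul, sub_zero, yc_zero, zc_zero, map_zero, yc_sub,
    zc_sub, yc_smul, zc_smul, yc_inr, zc_inr, ip_single_right, zero_sub, add_zero, zero_add,
    mul_zero, zero_mul]
  rw [ip_sub_right, ip_sub_right, ← neg_smul, ip_smul_right, ip_smul_right,
    ip_smul_right, ip_smul_right, ip_smul_right, e2, e3, ip_comm (zc z.2) (zc z.1),
    ip_comm (yc z.2) (yc z.1), ip_single_right, ip_single_right]
  have e4 : ip (zc z.1) (zc z.2) = -ip (yc z.1) (yc z.2) := by linarith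
  rw [e4]
  simp only [zc]
  ring

include hL hD h₁ h₂ hc in
theorem x2l (z : Ph a b) (hz : z ∈ TS (Fin a ⊕ Fin b)) (i : Fin a) :
    (XH (uuHam J₁ J₂ c) z).2 (Sum.inl i) =
      -(2 * (z.1 (Sum.inl i) * (1 - ip (yc z.1) (yc z.1))) * MC J₁ J₂ c z +
      c.P (ip (yc z.1) (yc z.1)) * (z.1 (Sum.inl i) * ip (yc z.2) (yc z.2) -
        z.2 (Sum.inl i) * ip (yc z.1) (yc z.2)) +
      c.Q (ip (yc z.1) (yc z.1)) * (z.1 (Sum.inl i) * ip (zc z.2) (zc z.2) +
        z.2 (Sum.inl i) * ip (yc z.1) (yc z.2)) +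
      (c.R (ip (yc z.1) (yc z.1)) * ip (yc z.1) (yc z.2) +
        c.D (ip (yc z.1) (yc z.1)) * k1 J₁ z + c.E (ip (yc z.1) (yc z.1)) * k2 J₂ z) *
        (z.2 (Sum.inl i) * (1 - ip (yc z.1) (yc z.1))) -
      (c.A (ip (yc z.1) (yc z.1)) * k1 J₁ z + c.B (ip (yc z.1) (yc z.1)) * k2 J₂ z +
        c.D (ip (yc z.1) (yc z.1)) * ip (yc z.1) (yc z.2)) * J₁ (yc z.2) i) := by
  have e1 := hz.2
  rw [ip_split] at e1
  have e2 := J0 J₁ h₁ (yc z.1)
  have e3 := J0 J₂ h₂ (zc z.1)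
  have e5 : ip (J₁ (Pi.single i 1)) (yc z.2) = -J₁ (yc z.2) i := by
    rw [h₁, ip_single_left]
  simp only [XH]
  rw [fd hL hD J₁ J₂ c hc z hz, fd0 hD J₁ J₂ c hc]
  simp only [ip_zero_right, yc_sub, zc_sub, yc_smul, zc_smul, yc_inl, zc_inl, ip_single_right,
    ip_single_left, zero_sub, add_zero, zero_add, map_sub, map_smul]
  rw [← neg_smul]
  simp only [ip_sub_right, ip_sub_left, ip_smul_left, ip_smul_right, ip_single_right, e5, e2, e3,
    ip_single_left, map_smul, ip_comm (zc z.2) (zc z.1), ip_comm (yc z.2) (yc z.1)]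
  have e4 : ip (zc z.1) (zc z.2) = -ip (yc z.1) (yc z.2) := by linarith
  rw [e4]
  simp only [yc, k1, k2]
  ring

include hL hD h₁ h₂ hc in
theorem x2r (z : Ph a b) (hz : z ∈ TS (Fin a ⊕ Fin b)) (j : Fin b) :
    (XH (uuHam J₁ J₂ c) z).2 (Sum.inr j) =
      -(-(2 * (z.1 (Sum.inr j) * ip (yc z.1) (yc z.1)) * MC J₁ J₂ c z) +
      c.P (ip (yc z.1) (yc z.1)) * (z.1 (Sum.inr j) * ip (yc z.2) (yc z.2) -
        z.2 (Sum.inr j) * ip (yc z.1) (yc z.2)) +
      c.Q (ip (yc z.1) (yc z.1)) * (z.1 (Sum.inr j) * ip (zc z.2) (zc z.2) +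
        z.2 (Sum.inr j) * ip (yc z.1) (yc z.2)) -
      (c.R (ip (yc z.1) (yc z.1)) * ip (yc z.1) (yc z.2) +
        c.D (ip (yc z.1) (yc z.1)) * k1 J₁ z + c.E (ip (yc z.1) (yc z.1)) * k2 J₂ z) *
        (z.2 (Sum.inr j) * ip (yc z.1) (yc z.1)) -
      (c.B (ip (yc z.1) (yc z.1)) * k1 J₁ z + c.C (ip (yc z.1) (yc z.1)) * k2 J₂ z +
        c.E (ip (yc z.1) (yc z.1)) * ip (yc z.1) (yc z.2)) * J₂ (zc z.2) j) := by
  have e1 := hz.2
  rw [ip_split] at e1
  have e2 := J0 J₁ h₁ (yc z.1)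
  have e3 := J0 J₂ h₂ (zc z.1)
  have e5 : ip (J₂ (Pi.single j 1)) (zc z.2) = -J₂ (zc z.2) j := by
    rw [h₂, ip_single_left]
  simp only [XH]
  rw [fd hL hD J₁ J₂ c hc z hz, fd0 hD J₁ J₂ c hc]
  simp only [ip_zero_right, yc_sub, zc_sub, yc_smul, zc_smul, yc_inr, zc_inr, ip_single_right,
    ip_single_left, zero_sub, add_zero, zero_add, map_sub, map_smul]
  rw [← neg_smul]
  simp only [ip_sub_right, ip_sub_left, ip_smul_left, ip_smul_right, ip_single_right, e5, e2, e3,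
    ip_single_left, map_smul, ip_comm (zc z.2) (zc z.1), ip_comm (yc z.2) (yc z.1)]
  have e4 : ip (zc z.1) (zc z.2) = -ip (yc z.1) (yc z.2) := by linarith
  rw [e4]
  simp only [zc, k1, k2]
  ring

end

section
variable (c : Co) (hc : c.Smooth)

theorem dsq {F : ℝ → ℝ} (hF : ContDiff ℝ ∞ F) (s : ℝ) :
    HasDerivAt (fun t => F (Real.cos t ^ 2))
      (deriv F (Real.cos s ^ 2) * (-(2 * Real.sin s * Real.cos s))) s := by
  have h1 : HasDerivAt (fun t => Real.cos t ^ 2) (-(2 * Real.sin s * Real.cos s)) s := by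
    have h := (Real.hasDerivAt_cos s).fun_pow 2
    refine h.congr_deriv ?_
    push_cast
    ring
  exact HasDerivAt.comp s (hF.differentiable (by simp) _).hasDerivAt h1

include hc in
theorem dw (L₁ L₂ K₁ K₂ s : ℝ) : deriv (rd2 c L₁ L₂ K₁ K₂).w s =
    (-(c.P (Real.cos s ^ 2)) + (1 - Real.cos s ^ 2) * deriv c.P (Real.cos s ^ 2) +
      c.Q (Real.cos s ^ 2) + Real.cos s ^ 2 * deriv c.Q (Real.cos s ^ 2) +
      (1 - 2 * Real.cos s ^ 2) * c.R (Real.cos s ^ 2) +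
      Real.cos s ^ 2 * (1 - Real.cos s ^ 2) * deriv c.R (Real.cos s ^ 2)) *
      (-(2 * Real.sin s * Real.cos s)) := by
  have hid : ContDiff ℝ ∞ (fun t : ℝ => t) := contDiff_id
  have hi := dsq hid s
  rw [deriv_id''] at hi
  have h := ((((hi.const_sub 1).fun_mul (dsq hc.P s)).fun_add (hi.fun_mul (dsq hc.Q s))).fun_add
    ((hi.fun_mul (hi.const_sub 1)).fun_mul (dsq hc.R s)))
  have h2 : deriv (rd2 c L₁ L₂ K₁ K₂).w s = _ := h.deriv
  rw [h2]
  ring

include hc in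
theorem dh (L₁ L₂ K₁ K₂ s : ℝ) : deriv (rd2 c L₁ L₂ K₁ K₂).h s =
    -((Real.cos s ^ 2 - Real.sin s ^ 2) *
      (c.D (Real.cos s ^ 2) * K₁ + c.E (Real.cos s ^ 2) * K₂) +
      Real.sin s * Real.cos s * ((deriv c.D (Real.cos s ^ 2) * K₁ +
        deriv c.E (Real.cos s ^ 2) * K₂) * (-(2 * Real.sin s * Real.cos s)))) := by
  have h := (((Real.hasDerivAt_sin s).fun_mul (Real.hasDerivAt_cos s)).fun_mul
    (((dsq hc.D s).mul_const K₁).fun_add ((dsq hc.E s).mul_const K₂))).fun_neg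
  have h2 : deriv (rd2 c L₁ L₂ K₁ K₂).h s = _ := h.deriv
  rw [h2]
  ring

include hc in
theorem dU (L₁ L₂ K₁ K₂ : ℝ) {s : ℝ} (hs : Real.sin s ≠ 0) (hs' : Real.cos s ≠ 0) :
    deriv (rd2 c L₁ L₂ K₁ K₂).U s =
    (-(2 * Real.sin s * deriv c.P (Real.cos s ^ 2) / Real.cos s) +
      2 * Real.sin s * c.P (Real.cos s ^ 2) / Real.cos s ^ 3) * L₁ ^ 2 +
    (-(2 * Real.cos s * deriv c.Q (Real.cos s ^ 2) / Real.sin s) -
      2 * Real.cos s * c.Q (Real.cos s ^ 2) / Real.sin s ^ 3) * L₂ ^ 2 +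
    (deriv c.A (Real.cos s ^ 2) * K₁ ^ 2 + 2 * deriv c.B (Real.cos s ^ 2) * K₁ * K₂ +
      deriv c.C (Real.cos s ^ 2) * K₂ ^ 2) * (-(2 * Real.sin s * Real.cos s)) := by
  have h := ((((dsq hc.P s).fun_div ((Real.hasDerivAt_cos s).fun_pow 2)
      (pow_ne_zero 2 hs')).mul_const (L₁ ^ 2)).fun_add
    (((dsq hc.Q s).fun_div ((Real.hasDerivAt_sin s).fun_pow 2)
      (pow_ne_zero 2 hs)).mul_const (L₂ ^ 2))).fun_add
    ((((dsq hc.A s).mul_const (K₁ ^ 2)).fun_add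
      ((((dsq hc.B s).const_mul 2).mul_const K₁).mul_const K₂)).fun_add
      ((dsq hc.C s).mul_const (K₂ ^ 2)))
  have h2 : deriv (rd2 c L₁ L₂ K₁ K₂).U s = _ := h.deriv
  rw [h2]
  push_cast
  field_simp
  ring

end

end XUU_

open XUU_ in
theorem p_XUU : T_XUU := by
  intro hV hT hD a b R₁ R₂ c L₁ L₂ hc hpos
  have hL := USP.p_LFT
  have cF : ∀ F : ℝ → ℝ, ContDiff ℝ ∞ F → ContDiff ℝ 2 fun s => F (Real.cos s ^ 2) :=
    fun F hF => (hF.of_le (by norm_cast)).comp (Real.contDiff_cos.pow 2)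
  have hW : ContDiff ℝ ∞ c.W := by
    have h1 : ContDiff ℝ ∞ (fun t : ℝ => t) := contDiff_id
    exact (((contDiff_const.sub h1).mul hc.P).add (h1.mul hc.Q)).add
      ((h1.mul (contDiff_const.sub h1)).mul hc.R)
  have hs0 : ∀ s ∈ Ioo 0 (Real.pi / 2), Real.sin s ≠ 0 := fun s hs =>
    (Real.sin_pos_of_mem_Ioo ⟨hs.1, by linarith [hs.2, Real.pi_pos]⟩).ne'
  have hs1 : ∀ s ∈ Ioo 0 (Real.pi / 2), Real.cos s ≠ 0 := fun s hs =>
    (Real.cos_pos_of_mem_Ioo ⟨by linarith [hs.1, Real.pi_pos], hs.2⟩).ne'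
  refine ⟨fun s hs => ?_, fun s hs => ?_, fun s hs => ?_, ?_, ?_, fun s hs => ?_, ?_⟩
  · exact (cF c.W hW).contDiffAt
  · exact ((Real.contDiff_sin.mul Real.contDiff_cos).mul
      (((cF c.D hc.D).mul contDiff_const).add ((cF c.E hc.E).mul contDiff_const))).neg.contDiffAt
  · refine ContDiffAt.add (ContDiffAt.add ?_ ?_) ?_
    · exact ((cF c.P hc.P).contDiffAt.div (Real.contDiff_cos.pow 2).contDiffAt
        (pow_ne_zero 2 (hs1 s hs))).mul contDiffAt_const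
    · exact ((cF c.Q hc.Q).contDiffAt.div (Real.contDiff_sin.pow 2).contDiffAt
        (pow_ne_zero 2 (hs0 s hs))).mul contDiffAt_const
    · exact ((((cF c.A hc.A).mul contDiff_const).add
        (((contDiff_const.mul (cF c.B hc.B)).mul contDiff_const).mul contDiff_const)).add
        ((cF c.C hc.C).mul contDiff_const)).contDiffAt
  · intro j
    have q1 : ContinuousOn (fun s => c.P (Real.cos s ^ 2) / Real.cos s ^ 2 * L₁)
        (Ioo 0 (Real.pi / 2)) :=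
      ((cF c.P hc.P).continuous.continuousOn.div
        (Real.continuous_cos.pow 2).continuousOn
        fun s hs => pow_ne_zero 2 (hs1 s hs)).mul continuousOn_const
    have q2 : ContinuousOn (fun s => c.Q (Real.cos s ^ 2) / Real.sin s ^ 2 * L₂)
        (Ioo 0 (Real.pi / 2)) :=
      ((cF c.Q hc.Q).continuous.continuousOn.div
        (Real.continuous_sin.pow 2).continuousOn
        fun s hs => pow_ne_zero 2 (hs0 s hs)).mul continuousOn_const
    have q3 : ∀ (F G : ℝ → ℝ) (x y : ℝ), ContDiff ℝ ∞ F → ContDiff ℝ ∞ G →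
        ContinuousOn (fun s => F (Real.cos s ^ 2) * x + G (Real.cos s ^ 2) * y)
        (Ioo 0 (Real.pi / 2)) := fun F G x y hF hG =>
      (((cF F hF).continuous.mul continuous_const).add
        ((cF G hG).continuous.mul continuous_const)).continuousOn
    fin_cases j
    · exact q1
    · exact q3 c.A c.B _ _ hc.A hc.B
    · exact q2
    · exact q3 c.B c.C _ _ hc.B hc.C
  · intro j
    have q3 : ∀ F : ℝ → ℝ, ContDiff ℝ ∞ F →
        ContinuousOn (fun s => -(Real.sin s * Real.cos s * F (Real.cos s ^ 2)))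
        (Ioo 0 (Real.pi / 2)) := fun F hF =>
      ((Real.continuous_sin.mul Real.continuous_cos).mul
        (cF F hF).continuous).neg.continuousOn
    fin_cases j
    · exact continuousOn_const
    · exact q3 c.D hc.D
    · exact continuousOn_const
    · exact q3 c.E hc.E
  · exact hpos _ ⟨sq_nonneg _, Real.cos_sq_le_one s⟩
  · intro s hs θ p
    have S0 := hs0 s hs
    have C0 := hs1 s hs
    have hz : (T2 R₁ R₂ L₁ L₂).pt (s, θ, p) ∈ TS (Fin a ⊕ Fin b) := by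
      obtain ⟨v1, v2, v3, v4, -⟩ := hV a b R₁ R₂ L₁ L₂ s θ p S0 C0 _ rfl
      constructor
      · rw [ip_split, v1, v2]
        exact Real.cos_sq_add_sin_sq s
      · rw [ip_split, v3, v4]
        ring
    rw [(hT a b R₁ R₂ L₁ L₂ s hs θ p).2, dw c hc, dh c hc, dU c hc _ _ _ _ S0 C0]
    obtain ⟨v1, v2, v3, v4, v5, v6, v7, v8⟩ := hV a b R₁ R₂ L₁ L₂ s θ p S0 C0 _ rfl
    have y1l := x1l hL hD R₁.J R₂.J R₁.skew R₂.skew c hc _ hz
    have y1r := x1r hL hD R₁.J R₂.J R₁.skew R₂.skew c hc _ hz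
    have y2l := x2l hL hD R₁.J R₂.J R₁.skew R₂.skew c hc _ hz
    have y2r := x2r hL hD R₁.J R₂.J R₁.skew R₂.skew c hc _ hz
    simp only [MC] at y2l y2r
    set z := (T2 R₁ R₂ L₁ L₂).pt (s, θ, p) with hzd
    have a1 : ∀ i, z.1 (Sum.inl i) = Real.cos s * R₁.om (θ 0) (θ 1) i := fun i => rfl
    have a2 : ∀ j, z.1 (Sum.inr j) = Real.sin s * R₂.om (θ 2) (θ 3) j := fun i => rfl
    have a3 : ∀ i, z.2 (Sum.inl i) = L₁ / Real.cos s * R₁.om' (θ 0) (θ 1) i +
      p * (-Real.sin s * R₁.om (θ 0) (θ 1) i) := fun i => rfl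
    have a4 : ∀ j, z.2 (Sum.inr j) = L₂ / Real.sin s * R₂.om' (θ 2) (θ 3) j +
      p * (Real.cos s * R₂.om (θ 2) (θ 3) j) := fun i => rfl
    have b1 : ∀ i, R₁.J (yc z.1) i = Real.cos s * R₁.J (R₁.om (θ 0) (θ 1)) i := by
      intro i
      have : yc z.1 = Real.cos s • R₁.om (θ 0) (θ 1) := rfl
      rw [this, map_smul]
      rfl
    have b2 : ∀ j, R₂.J (zc z.1) j = Real.sin s * R₂.J (R₂.om (θ 2) (θ 3)) j := by
      intro i
      have : zc z.1 = Real.sin s • R₂.om (θ 2) (θ 3) := rfl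
      rw [this, map_smul]
      rfl
    have b3 : ∀ i, R₁.J (yc z.2) i = L₁ / Real.cos s * R₁.J (R₁.om' (θ 0) (θ 1)) i +
        p * (-Real.sin s * R₁.J (R₁.om (θ 0) (θ 1)) i) := by
      intro i
      have : yc z.2 = (L₁ / Real.cos s) • R₁.om' (θ 0) (θ 1) +
        p • (-Real.sin s) • R₁.om (θ 0) (θ 1) := rfl
      rw [this, map_add, map_smul, map_smul, map_smul]
      rfl
    have b4 : ∀ j, R₂.J (zc z.2) j = L₂ / Real.sin s * R₂.J (R₂.om' (θ 2) (θ 3)) j +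
        p * (Real.cos s * R₂.J (R₂.om (θ 2) (θ 3)) j) := by
      intro i
      have : zc z.2 = (L₂ / Real.sin s) • R₂.om' (θ 2) (θ 3) +
        p • Real.cos s • R₂.om (θ 2) (θ 3) := rfl
      rw [this, map_add, map_smul, map_smul, map_smul]
      rfl
    have c2 : Real.cos s ^ 2 = 1 - Real.sin s ^ 2 := Real.cos_sq' s
    rw [v1, v3, v7, v8] at y1l y1r
    rw [v1, v3, v5, v6, v7, v8] at y2l y2r
    simp only [a1, a2, a3, a4, b1, b2, b3, b4] at y1l y1r y2l y2r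
    have c3 : Real.cos s ^ 3 = Real.cos s * (1 - Real.sin s ^ 2) := by rw [← c2]; ring
    have c4 : Real.cos s ^ 4 = (1 - Real.sin s ^ 2) ^ 2 := by rw [← c2]; ring
    have c5 : Real.cos s ^ 5 = Real.cos s * (1 - Real.sin s ^ 2) ^ 2 := by rw [← c2]; ring
    have c6 : Real.cos s ^ 6 = (1 - Real.sin s ^ 2) ^ 3 := by rw [← c2]; ring
    have c7 : Real.cos s ^ 7 = Real.cos s * (1 - Real.sin s ^ 2) ^ 3 := by rw [← c2]; ring
    have c8 : Real.cos s ^ 8 = (1 - Real.sin s ^ 2) ^ 4 := by rw [← c2]; ring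
    refine Prod.ext (funext ?_) (funext ?_)
    · rintro (i | j)
      · rw [y1l]
        simp only [d2, rd2, Co.W, Sum.elim_inl, Pi.add_apply, Pi.smul_apply, smul_eq_mul,
          Matrix.cons_val_zero, Matrix.cons_val_one]
        generalize c.P (Real.cos s ^ 2) = vP
        generalize c.Q (Real.cos s ^ 2) = vQ
        generalize c.R (Real.cos s ^ 2) = vR
        generalize c.A (Real.cos s ^ 2) = vA
        generalize c.B (Real.cos s ^ 2) = vB
        generalize c.D (Real.cos s ^ 2) = vD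
        generalize c.E (Real.cos s ^ 2) = vE
        field_simp
        ring_nf
        simp only [c2, c3, c4, c5, c6, c7, c8]
        ring
      · rw [y1r]
        simp only [d2, rd2, Co.W, Sum.elim_inr, Pi.add_apply, Pi.smul_apply, smul_eq_mul,
          Matrix.cons_val]
        generalize c.P (Real.cos s ^ 2) = vP
        generalize c.Q (Real.cos s ^ 2) = vQ
        generalize c.R (Real.cos s ^ 2) = vR
        generalize c.B (Real.cos s ^ 2) = vB
        generalize c.C (Real.cos s ^ 2) = vC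
        generalize c.D (Real.cos s ^ 2) = vD
        generalize c.E (Real.cos s ^ 2) = vE
        field_simp
        ring_nf
        simp only [c2, c3, c4, c5, c6, c7, c8]
        ring
    · rintro (i | j)
      · rw [y2l]
        simp only [d2, rd2, Co.W, Sum.elim_inl, Pi.add_apply, Pi.smul_apply, smul_eq_mul,
          Matrix.cons_val_zero, Matrix.cons_val_one]
        generalize c.P (Real.cos s ^ 2) = vP
        generalize c.Q (Real.cos s ^ 2) = vQ
        generalize c.R (Real.cos s ^ 2) = vR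
        generalize c.A (Real.cos s ^ 2) = vA
        generalize c.B (Real.cos s ^ 2) = vB
        generalize c.D (Real.cos s ^ 2) = vD
        generalize c.E (Real.cos s ^ 2) = vE
        generalize deriv c.P (Real.cos s ^ 2) = wP
        generalize deriv c.Q (Real.cos s ^ 2) = wQ
        generalize deriv c.R (Real.cos s ^ 2) = wR
        generalize deriv c.A (Real.cos s ^ 2) = wA
        generalize deriv c.B (Real.cos s ^ 2) = wB
        generalize deriv c.C (Real.cos s ^ 2) = wC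
        generalize deriv c.D (Real.cos s ^ 2) = wD
        generalize deriv c.E (Real.cos s ^ 2) = wE
        field_simp
        ring_nf
        simp only [c2, c3, c4, c5, c6, c7, c8]
        ring
      · rw [y2r]
        simp only [d2, rd2, Co.W, Sum.elim_inr, Pi.add_apply, Pi.smul_apply, smul_eq_mul,
          Matrix.cons_val]
        generalize c.P (Real.cos s ^ 2) = vP
        generalize c.Q (Real.cos s ^ 2) = vQ
        generalize c.R (Real.cos s ^ 2) = vR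
        generalize c.B (Real.cos s ^ 2) = vB
        generalize c.C (Real.cos s ^ 2) = vC
        generalize c.D (Real.cos s ^ 2) = vD
        generalize c.E (Real.cos s ^ 2) = vE
        generalize deriv c.P (Real.cos s ^ 2) = wP
        generalize deriv c.Q (Real.cos s ^ 2) = wQ
        generalize deriv c.R (Real.cos s ^ 2) = wR
        generalize deriv c.A (Real.cos s ^ 2) = wA
        generalize deriv c.B (Real.cos s ^ 2) = wB
        generalize deriv c.C (Real.cos s ^ 2) = wC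
        generalize deriv c.D (Real.cos s ^ 2) = wD
        generalize deriv c.E (Real.cos s ^ 2) = wE
        field_simp
        ring_nf
        simp only [c2, c3, c4, c5, c6, c7, c8]
        ring

end Pool.Agent.USQ
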