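import Pool.Agent.USQ.Core
import Pool.Agent.USQ.P_BRT
import Pool.Agent.USQ.P_PET
import Pool.Agent.USQ.P_PLT
import Pool.Agent.USQ.P_RTT
import Pool.Agent.USQ.P_DT2
import Pool.Agent.USQ.P_OK2
import Pool.Agent.USQ.P_VA2
import Pool.Agent.USQ.P_DUU
import Pool.Agent.USQ.P_XUU
import Pool.Agent.USQ.P_IN2
import Pool.Agent.USQ.P_FR2
import Pool.Agent.USQ.P_DE2
import Pool.Agent.USQ.P_PS2
import Pool.Agent.USQ.P_PO2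
import Pool.Agent.USQ.P_SU2
import Pool.Agent.USQ.P_ON2
import Pool.Agent.USQ.P_PH2
import Pool.Agent.USQ.P_LI2
import Pool.Agent.USQ.P_CO2
import Pool.Agent.USQ.P_TAN
import Pool.Agent.USQ.P_CTS
import Pool.Agent.USQ.P_PCO
import Pool.Agent.USQ.P_SYP
import Pool.Agent.USQ.P_HOM
import Pool.Agent.USQ.P_BRK
import Pool.Agent.USQ.P_TRN
import Pool.Agent.USQ.P_RND
import Pool.Agent.USQ.P_EQT
import Pool.Agent.USQ.P_BET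
import Pool.Agent.USQ.P_GTR
import Pool.Agent.USQ.P_GEX
import Pool.Agent.USQ.P_GHA

/-!
# USQ: the main theorem
-/

set_option autoImplicit false

open Set
open scoped ContDiff

namespace Pool.Agent.USQ
open Pool.Agent.MSup

theorem main {a b : ℕ} (ha : 3 ≤ a) (hb : 3 ≤ b) (J₁ : (Fin a → ℝ) →ₗ[ℝ] (Fin a → ℝ))
    (J₂ : (Fin b → ℝ) →ₗ[ℝ] (Fin b → ℝ))
    (skew₁ : ∀ x y, ip (J₁ x) y = -ip x (J₁ y)) (sq₁ : ∀ x, J₁ (J₁ x) = -x)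
    (skew₂ : ∀ x y, ip (J₂ x) y = -ip x (J₂ y)) (sq₂ : ∀ x, J₂ (J₂ x) = -x)
    (c : Co) (hc : c.Smooth)
    (pos : ∀ z ∈ TS (Fin a ⊕ Fin b), z.2 ≠ 0 → 0 < uuHam J₁ J₂ c z)
    (h : MaxSuperintegrable (uuHam J₁ J₂ c)) : IsRoundSphere (uuHam J₁ J₂ c) :=
  main_of p_BRT p_PET p_PLT p_RTT p_DT2 p_OK2 p_VA2 p_DUU p_XUU p_IN2 p_FR2 p_DE2 p_PS2 p_PO2
    p_SU2 p_ON2 p_PH2 p_LI2 p_CO2 p_TAN p_CTS p_PCO p_SYP p_HOM p_BRK p_TRN p_RND p_EQT p_BET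
    p_GTR p_GEX p_GHA ha hb J₁ J₂ skew₁ sq₁ skew₂ sq₂ c hc pos h

end Pool.Agent.USQ
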