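import Pool.Agent.USQ.Targets2
import Pool.Agent.MSup.Round

/-!
# USQ: the assembly, all blocks being hypotheses
-/

set_option autoImplicit false

open Set Filter Topology MeasureTheory
open scoped ContDiff

namespace Pool.Agent.USQ
open Pool.Agent.MSup
open Pool.Agent.USP (Fr JJ GG Win Pot)

/-- the vanishing of the reduced coefficients, in terms of the coefficients -/
theorem coef_of_c {c : Co} (hc : c.Smooth) (hW : ∀ t ∈ Icc (0 : ℝ) 1, 0 < c.W t)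
    (h : ∀ s ∈ Ioo 0 (Real.pi / 2), (fn2 c).c11 s = 0 ∧ (fn2 c).c12 s = 0 ∧ (fn2 c).c22 s = 0) :
    ∀ t ∈ Icc (0 : ℝ) 1, c.A t * c.W t = t * (1 - t) * c.D t ^ 2 ∧
      c.B t * c.W t = t * (1 - t) * (c.D t * c.E t) ∧ c.C t * c.W t = t * (1 - t) * c.E t ^ 2 := by
  have cP := hc.P.continuous
  have cQ := hc.Q.continuous
  have cR := hc.R.continuous
  have cA := hc.A.continuous
  have cB := hc.B.continuous
  have cC := hc.C.continuous
  have cD := hc.D.continuous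
  have cE := hc.E.continuous
  have cW : Continuous c.W := by
    unfold Co.W
    fun_prop
  have key : ∀ t ∈ Ioo (0 : ℝ) 1, c.A t * c.W t = t * (1 - t) * c.D t ^ 2 ∧
      c.B t * c.W t = t * (1 - t) * (c.D t * c.E t) ∧
      c.C t * c.W t = t * (1 - t) * c.E t ^ 2 := by
    intro t ht
    have hst : 0 < √t := Real.sqrt_pos.2 ht.1
    have hst1 : √t < 1 := by
      rw [Real.sqrt_lt' one_pos]
      linarith [ht.2]
    have hs0 : 0 < Real.arccos (√t) := Real.arccos_pos.2 hst1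
    have hs1 : Real.arccos (√t) < Real.pi / 2 := Real.arccos_lt_pi_div_two.2 hst
    have hcos : Real.cos (Real.arccos (√t)) ^ 2 = t := by
      rw [Real.cos_arccos (by linarith) hst1.le, Real.sq_sqrt ht.1.le]
    have hsin : Real.sin (Real.arccos (√t)) ^ 2 = 1 - t := by
      have := Real.sin_sq_add_cos_sq (Real.arccos (√t))
      rw [hcos] at this
      linarith
    obtain ⟨h1, h2, h3⟩ := h _ ⟨hs0, hs1⟩
    have hw := (hW t ⟨ht.1.le, ht.2.le⟩).ne'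
    simp only [fn2] at h1 h2 h3
    rw [hcos, hsin] at h1 h2 h3
    refine ⟨?_, ?_, ?_⟩
    · have e : c.A t = (1 - t) * t * c.D t ^ 2 / c.W t := by linarith
      rw [e, div_mul_cancel₀ _ hw]
      ring
    · have e : c.B t = (1 - t) * t * (c.D t * c.E t) / c.W t := by linarith
      rw [e, div_mul_cancel₀ _ hw]
      ring
    · have e : c.C t = (1 - t) * t * c.E t ^ 2 / c.W t := by linarith
      rw [e, div_mul_cancel₀ _ hw]
      ring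
  have hcl : ∀ f g : ℝ → ℝ, Continuous f → Continuous g → (∀ t ∈ Ioo (0 : ℝ) 1, f t = g t) →
      ∀ t ∈ Icc (0 : ℝ) 1, f t = g t := by
    intro f g hf hg hfg t ht
    have h := (show EqOn f g (Ioo (0 : ℝ) 1) from hfg).closure hf hg
    rw [closure_Ioo (by norm_num)] at h
    exact h ht
  intro t ht
  refine ⟨hcl (fun t => c.A t * c.W t) (fun t => t * (1 - t) * c.D t ^ 2) (by fun_prop)
    (by fun_prop) (fun t ht => (key t ht).1) t ht,
    hcl (fun t => c.B t * c.W t) (fun t => t * (1 - t) * (c.D t * c.E t)) (by fun_prop)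
    (by fun_prop) (fun t ht => (key t ht).2.1) t ht,
    hcl (fun t => c.C t * c.W t) (fun t => t * (1 - t) * c.E t ^ 2) (by fun_prop)
    (by fun_prop) (fun t ht => (key t ht).2.2) t ht⟩

theorem main_of (brt : T_BRT) (pet : T_PET) (plt : T_PLT) (rtt : T_RTT) (dt2 : T_DT2)
    (ok2 : T_OK2) (va2 : T_VA2) (duu : T_DUU) (xuu : T_XUU) (in2 : T_IN2) (fr2 : T_FR2)
    (de2 : T_DE2) (ps2 : T_PS2) (po2 : T_PO2) (su2 : T_SU2) (on2 : T_ON2) (ph2 : T_PH2)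
    (li2 : T_LI2) (co2 : T_CO2) (tan : T_TAN) (cts : T_CTS) (pco : T_PCO) (syp : T_SYP)
    (hom : T_HOM) (brk : T_BRK) (trn : T_TRN) (rnd : T_RND) (eqt : T_EQT) (bet : T_BET)
    (gtr : T_GTR) (gex : T_GEX) (gha : T_GHA)
    {a b : ℕ} (ha : 3 ≤ a) (hb : 3 ≤ b) (J₁ : (Fin a → ℝ) →ₗ[ℝ] (Fin a → ℝ))
    (J₂ : (Fin b → ℝ) →ₗ[ℝ] (Fin b → ℝ))
    (skew₁ : ∀ x y, ip (J₁ x) y = -ip x (J₁ y)) (sq₁ : ∀ x, J₁ (J₁ x) = -x)
    (skew₂ : ∀ x y, ip (J₂ x) y = -ip x (J₂ y)) (sq₂ : ∀ x, J₂ (J₂ x) = -x)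
    (c : Co) (hc : c.Smooth)
    (pos : ∀ z ∈ TS (Fin a ⊕ Fin b), z.2 ≠ 0 → 0 < uuHam J₁ J₂ c z)
    (h : MaxSuperintegrable (uuHam J₁ J₂ c)) : IsRoundSphere (uuHam J₁ J₂ c) := by
  have hpos := ps2 a b J₁ J₂ skew₁ sq₁ skew₂ sq₂ ha hb c pos
  have hW : ∀ t ∈ Icc (0 : ℝ) 1, 0 < c.W t := fun t ht => (hpos t ht).2.2
  have sus := su2 c hc hpos
  obtain ⟨F, hF, hI, hden⟩ :=
    de2 fr2 va2 ok2 a b J₁ J₂ skew₁ sq₁ skew₂ sq₂ ha hb c hc hW (uuHam J₁ J₂ c) h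
  have lim := li2 ph2 po2 (fn2 c) sus (by
    intro s1 hs1 m1 h0 h1 h2 h3 ε hε
    obtain ⟨R₁, R₂, hR₁, hR₂, s0, hs0, p0, L₁, L₂, hL₁, hL₂, e1, e2, e3, e4, e5, e6, e7, e8, e9⟩ :=
      hden s1 hs1 m1 h0 h1 h2 h3 ε hε
    have red := xuu va2 dt2 duu a b R₁ R₂ c L₁ L₂ hc hW
    rw [hR₁, hR₂] at red
    refine ⟨s0, ![L₁, L₂, R₁.k * L₁, R₂.k * L₂], hs0, e1, ?_, ?_⟩
    · intro j
      fin_cases j
      · exact e2
      · exact e3
      · exact e4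
      · exact e5
    · exact on2 rtt pet brt plt in2 va2 dt2 ok2 po2 a b R₁ R₂ (uuHam J₁ J₂ c) c L₁ L₂ hL₁ hL₂ red
        sus e6 e7 s0 hs0 p0 e8 F hF hI e9 _ rfl)
  have hid := coef_of_c hc hW (co2 (fn2 c) sus lim)
  have sW : ContDiff ℝ ∞ c.W := by
    have h1 := hc.P
    have h2 := hc.Q
    have h3 := hc.R
    unfold Co.W
    fun_prop
  obtain ⟨β₁, sβ₁, hβ₁⟩ := bet c.D c.W hc.D sW hW
  obtain ⟨β₂, sβ₂, hβ₂⟩ := bet c.E c.W hc.E sW hW
  have dif := gtr a b J₁ J₂ skew₁ sq₁ skew₂ sq₂ β₁ β₂ sβ₁ sβ₂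
  have heq := gha gex gtr tan cts a b J₁ J₂ skew₁ sq₁ skew₂ sq₂ c hW hid β₁ β₂ sβ₁ sβ₂ hβ₁ hβ₂
  have hdiff : ∀ z ∈ TS (Fin a ⊕ Fin b), DifferentiableAt ℝ (lift (uuHam J₁ J₂ c)) z := by
    intro z hz
    have h1 : DifferentiableAt ℝ (uuHam J₁ J₂ c : Ph a b → ℝ) (toTS z) :=
      ((duu a b J₁ J₂ c hc).1.differentiable (by simp)) _
    exact h1.comp z ((contDiffAt_toTS (TS_pos hz)).differentiableAt (by simp))
  have hM := trn hom syp tan brk pco cts (Fin a ⊕ Fin b) _ _ dif (uuHam J₁ J₂ c) hdiff h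
  have hM' := (eqt (Fin a ⊕ Fin b) _ (blockHam c.P c.Q c.R) heq).1 hM
  have hround := round_of_superintegrable
    ⟨hc.P, hc.Q, hc.R, fun t ht => (hpos t ht).1, fun t ht => (hpos t ht).2.1, hW⟩
    (by omega) (by omega) hM'
  have hround' := (eqt (Fin a ⊕ Fin b) (blockHam c.P c.Q c.R) _
    (fun z hz => (heq z hz).symm)).2 hround
  exact rnd tan cts (Fin a ⊕ Fin b) _ _ dif (uuHam J₁ J₂ c) hround'

end Pool.Agent.USQ
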