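import Pool.Agent.USP.Targets
/-!
# USQ: metrics on odd spheres `S^(2p+2q-1)` invariant under `U(p) × U(q)` (MP_337148_gt)

Definitions. The sphere is the unit sphere of `ℝ^a × ℝ^b`, both factors carry a complex structure.
-/

set_option autoImplicit false

open Set Filter Topology MeasureTheory
open scoped ContDiff

namespace Pool.Agent.USQ
open Pool.Agent.MSup
open Pool.Agent.USP (Fr JJ GG Win Pot)

/-! ### torus reduction -/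

/-- points of the cotangent bundle depending on `s`, on `r` angles and (affinely) on `p` -/
structure Tor (ι : Type) (r : ℕ) where
  X : ℝ × (Fin r → ℝ) → ι → ℝ
  A : ℝ × (Fin r → ℝ) → ι → ℝ
  B : ℝ × (Fin r → ℝ) → ι → ℝ

/-- the point with parameters `(s, θ, p)` -/
def Tor.pt {ι : Type} {r : ℕ} (T : Tor ι r) (v : ℝ × (Fin r → ℝ) × ℝ) : (ι → ℝ) × (ι → ℝ) :=
  (T.X (v.1, v.2.1), T.A (v.1, v.2.1) + v.2.2 • T.B (v.1, v.2.1))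

structure Tor.Ok {ι : Type} [Fintype ι] {r : ℕ} (T : Tor ι r) (S : ℝ) : Prop where
  dX : ∀ s ∈ Ioo 0 S, ∀ θ, DifferentiableAt ℝ T.X (s, θ)
  dA : ∀ s ∈ Ioo 0 S, ∀ θ, DifferentiableAt ℝ T.A (s, θ)
  dB : ∀ s ∈ Ioo 0 S, ∀ θ, DifferentiableAt ℝ T.B (s, θ)
  mem : ∀ s ∈ Ioo 0 S, ∀ θ p, T.pt (s, θ, p) ∈ TS ι
  per : ∀ s θ p j, T.pt (s, θ + Pi.single j (2 * Real.pi), p) = T.pt (s, θ, p)

/-- reduced data: `2H = w p² + 2 h p + U`, the velocity of the angles is `g + p γ` -/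
structure Rdt (r : ℕ) where
  w : ℝ → ℝ
  h : ℝ → ℝ
  U : ℝ → ℝ
  g : ℝ → Fin r → ℝ
  γ : ℝ → Fin r → ℝ

namespace Rdt
variable {r : ℕ} (D : Rdt r)

/-- effective potential -/
noncomputable def V (s : ℝ) : ℝ := D.U s - D.h s ^ 2 / D.w s

/-- the drift of the angle `j` after completing the square -/
noncomputable def gt (j : Fin r) (s : ℝ) : ℝ := D.g s j - D.h s / D.w s * D.γ s j

/-- the absolute value of the velocity of `s` on the level `2H = X` -/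
noncomputable def sg (X s : ℝ) : ℝ := √(D.w s * (X - D.V s))

/-- the momentum `p` on the level `2H = X` -/
noncomputable def pp (X ε s : ℝ) : ℝ := (-D.h s + ε * D.sg X s) / D.w s

end Rdt

/-- `H` reduces to `D` along the torus family `T` -/
structure Redt {ι : Type} [Fintype ι] [DecidableEq ι] {r : ℕ} (T : Tor ι r) (S : ℝ)
    (H : (ι → ℝ) × (ι → ℝ) → ℝ) (D : Rdt r) : Prop where
  sw : ∀ s ∈ Ioo 0 S, ContDiffAt ℝ 2 D.w s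
  sh : ∀ s ∈ Ioo 0 S, ContDiffAt ℝ 2 D.h s
  sU : ∀ s ∈ Ioo 0 S, ContDiffAt ℝ 2 D.U s
  cg : ∀ j, ContinuousOn (fun s => D.g s j) (Ioo 0 S)
  cγ : ∀ j, ContinuousOn (fun s => D.γ s j) (Ioo 0 S)
  pw : ∀ s ∈ Ioo 0 S, 0 < D.w s
  eq : ∀ s ∈ Ioo 0 S, ∀ θ p, XH H (T.pt (s, θ, p)) = fderiv ℝ T.pt (s, θ, p)
    (D.w s * p + D.h s, D.g s + p • D.γ s,
      -(deriv D.w s * p ^ 2 + 2 * deriv D.h s * p + deriv D.U s) / 2)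

/-! ### the metrics -/

/-- the coefficients of the metric -/
structure Co where
  P : ℝ → ℝ
  Q : ℝ → ℝ
  R : ℝ → ℝ
  A : ℝ → ℝ
  B : ℝ → ℝ
  C : ℝ → ℝ
  D : ℝ → ℝ
  E : ℝ → ℝ

/-- the coefficients are smooth -/
structure Co.Smooth (c : Co) : Prop where
  P : ContDiff ℝ ∞ c.P
  Q : ContDiff ℝ ∞ c.Q
  R : ContDiff ℝ ∞ c.R
  A : ContDiff ℝ ∞ c.A
  B : ContDiff ℝ ∞ c.B
  C : ContDiff ℝ ∞ c.C
  D : ContDiff ℝ ∞ c.D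
  E : ContDiff ℝ ∞ c.E

/-- the radial coefficient -/
def Co.W (c : Co) (t : ℝ) : ℝ := (1 - t) * c.P t + t * c.Q t + t * (1 - t) * c.R t

section
variable {a b : ℕ}

/-- the component in `ℝ^a` -/
def yc (x : (Fin a ⊕ Fin b) → ℝ) : Fin a → ℝ := fun i => x (Sum.inl i)

/-- the component in `ℝ^b` -/
def zc (x : (Fin a ⊕ Fin b) → ℝ) : Fin b → ℝ := fun i => x (Sum.inr i)

/-- the momentum of the rotation `e^{it}` of the first factor -/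
def k1 (J₁ : (Fin a → ℝ) →ₗ[ℝ] (Fin a → ℝ)) (z : Ph a b) : ℝ := ip (J₁ (yc z.1)) (yc z.2)

/-- the momentum of the rotation `e^{it}` of the second factor -/
def k2 (J₂ : (Fin b → ℝ) →ₗ[ℝ] (Fin b → ℝ)) (z : Ph a b) : ℝ := ip (J₂ (zc z.1)) (zc z.2)

/-- The Hamiltonian: at `x = (y, z)`, for the covector `(η, ζ)`, with `t = |y|²`, `κ₁ = J₁y·η`,
`κ₂ = J₂z·ζ` and coefficients depending on `t`,
`2H = P|η|² + Q|ζ|² + R(y·η)² + Aκ₁² + 2Bκ₁κ₂ + Cκ₂² + 2(y·η)(Dκ₁ + Eκ₂)`. -/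
noncomputable def uuHam (J₁ : (Fin a → ℝ) →ₗ[ℝ] (Fin a → ℝ))
    (J₂ : (Fin b → ℝ) →ₗ[ℝ] (Fin b → ℝ)) (c : Co) (z : Ph a b) : ℝ :=
  (c.P (ip (yc z.1) (yc z.1)) * ip (yc z.2) (yc z.2) +
    c.Q (ip (yc z.1) (yc z.1)) * ip (zc z.2) (zc z.2) +
    c.R (ip (yc z.1) (yc z.1)) * ip (yc z.1) (yc z.2) ^ 2 +
    c.A (ip (yc z.1) (yc z.1)) * k1 J₁ z ^ 2 +
    2 * c.B (ip (yc z.1) (yc z.1)) * k1 J₁ z * k2 J₂ z +
    c.C (ip (yc z.1) (yc z.1)) * k2 J₂ z ^ 2) / 2 +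
  ip (yc z.1) (yc z.2) * (c.D (ip (yc z.1) (yc z.1)) * k1 J₁ z +
    c.E (ip (yc z.1) (yc z.1)) * k2 J₂ z)

/-- the torus family of a pair of frames: `θ = (a₁, b₁, a₂, b₂)`, `S = π/2` -/
noncomputable def T2 (R₁ : Fr (Fin a)) (R₂ : Fr (Fin b)) (L₁ L₂ : ℝ) : Tor (Fin a ⊕ Fin b) 4 where
  X v := Sum.elim (Real.cos v.1 • R₁.om (v.2 0) (v.2 1)) (Real.sin v.1 • R₂.om (v.2 2) (v.2 3))
  A v := Sum.elim ((L₁ / Real.cos v.1) • R₁.om' (v.2 0) (v.2 1))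
    ((L₂ / Real.sin v.1) • R₂.om' (v.2 2) (v.2 3))
  B v := Sum.elim ((-Real.sin v.1) • R₁.om (v.2 0) (v.2 1))
    (Real.cos v.1 • R₂.om (v.2 2) (v.2 3))

/-- the derivative of `(T2 R₁ R₂ L₁ L₂).pt` at `(s, θ, p)` in the direction `(ds, dθ, dp)` -/
noncomputable def d2 (R₁ : Fr (Fin a)) (R₂ : Fr (Fin b)) (L₁ L₂ s : ℝ) (θ : Fin 4 → ℝ) (p ds : ℝ)
    (dθ : Fin 4 → ℝ) (dp : ℝ) : Ph a b :=
  (Sum.elim
    ((-(Real.sin s * ds)) • R₁.om (θ 0) (θ 1) + (Real.cos s * dθ 0) • R₁.om' (θ 0) (θ 1) +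
      (Real.cos s * dθ 1) • R₁.J (R₁.om (θ 0) (θ 1)))
    ((Real.cos s * ds) • R₂.om (θ 2) (θ 3) + (Real.sin s * dθ 2) • R₂.om' (θ 2) (θ 3) +
      (Real.sin s * dθ 3) • R₂.J (R₂.om (θ 2) (θ 3))),
   Sum.elim
    ((-(dp * Real.sin s) - p * Real.cos s * ds - L₁ / Real.cos s * dθ 0) • R₁.om (θ 0) (θ 1) +
      (L₁ * Real.sin s / Real.cos s ^ 2 * ds - p * Real.sin s * dθ 0) • R₁.om' (θ 0) (θ 1) +
      (-(p * Real.sin s * dθ 1)) • R₁.J (R₁.om (θ 0) (θ 1)) +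
      (L₁ / Real.cos s * dθ 1) • R₁.J (R₁.om' (θ 0) (θ 1)))
    ((dp * Real.cos s - p * Real.sin s * ds - L₂ / Real.sin s * dθ 2) • R₂.om (θ 2) (θ 3) +
      (p * Real.cos s * dθ 2 - L₂ * Real.cos s / Real.sin s ^ 2 * ds) • R₂.om' (θ 2) (θ 3) +
      (p * Real.cos s * dθ 3) • R₂.J (R₂.om (θ 2) (θ 3)) +
      (L₂ / Real.sin s * dθ 3) • R₂.J (R₂.om' (θ 2) (θ 3))))

end

/-- the reduced data of `uuHam`, `K₁ = k₁ L₁`, `K₂ = k₂ L₂` -/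
noncomputable def rd2 (c : Co) (L₁ L₂ K₁ K₂ : ℝ) : Rdt 4 where
  w s := c.W (Real.cos s ^ 2)
  h s := -(Real.sin s * Real.cos s * (c.D (Real.cos s ^ 2) * K₁ + c.E (Real.cos s ^ 2) * K₂))
  U s := c.P (Real.cos s ^ 2) / Real.cos s ^ 2 * L₁ ^ 2 + c.Q (Real.cos s ^ 2) / Real.sin s ^ 2 * L₂ ^ 2 +
    (c.A (Real.cos s ^ 2) * K₁ ^ 2 + 2 * c.B (Real.cos s ^ 2) * K₁ * K₂ +
      c.C (Real.cos s ^ 2) * K₂ ^ 2)
  g s := ![c.P (Real.cos s ^ 2) / Real.cos s ^ 2 * L₁,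
    c.A (Real.cos s ^ 2) * K₁ + c.B (Real.cos s ^ 2) * K₂,
    c.Q (Real.cos s ^ 2) / Real.sin s ^ 2 * L₂,
    c.B (Real.cos s ^ 2) * K₁ + c.C (Real.cos s ^ 2) * K₂]
  γ s := ![0, -(Real.sin s * Real.cos s * c.D (Real.cos s ^ 2)), 0,
    -(Real.sin s * Real.cos s * c.E (Real.cos s ^ 2))]

/-! ### one degree of freedom -/

/-- reduced functions; `m = (L₁, L₂, K₁, K₂)` below -/
structure Fn where
  w : ℝ → ℝ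
  u1 : ℝ → ℝ
  u2 : ℝ → ℝ
  c11 : ℝ → ℝ
  c12 : ℝ → ℝ
  c22 : ℝ → ℝ

namespace Fn
variable (D : Fn)

/-- the quadratic form of `(K₁, K₂)` -/
def q (m : Fin 4 → ℝ) (s : ℝ) : ℝ := D.c11 s * m 2 ^ 2 + 2 * D.c12 s * m 2 * m 3 + D.c22 s * m 3 ^ 2

/-- effective potential -/
def V (m : Fin 4 → ℝ) (s : ℝ) : ℝ := D.u1 s * m 0 ^ 2 + D.u2 s * m 1 ^ 2 + D.q m s

end Fn

/-- the functions of `uuHam` -/
noncomputable def fn2 (c : Co) : Fn where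
  w s := c.W (Real.cos s ^ 2)
  u1 s := c.P (Real.cos s ^ 2) / Real.cos s ^ 2
  u2 s := c.Q (Real.cos s ^ 2) / Real.sin s ^ 2
  c11 s := c.A (Real.cos s ^ 2) -
    Real.sin s ^ 2 * Real.cos s ^ 2 * c.D (Real.cos s ^ 2) ^ 2 / c.W (Real.cos s ^ 2)
  c12 s := c.B (Real.cos s ^ 2) -
    Real.sin s ^ 2 * Real.cos s ^ 2 * (c.D (Real.cos s ^ 2) * c.E (Real.cos s ^ 2)) /
      c.W (Real.cos s ^ 2)
  c22 s := c.C (Real.cos s ^ 2) -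
    Real.sin s ^ 2 * Real.cos s ^ 2 * c.E (Real.cos s ^ 2) ^ 2 / c.W (Real.cos s ^ 2)

/-- conditions on the reduced functions -/
structure Sus2 (D : Fn) : Prop where
  sw : ∀ s ∈ Ioo 0 (Real.pi / 2), ContDiffAt ℝ 2 D.w s
  su1 : ∀ s ∈ Ioo 0 (Real.pi / 2), ContDiffAt ℝ 2 D.u1 s
  su2 : ∀ s ∈ Ioo 0 (Real.pi / 2), ContDiffAt ℝ 2 D.u2 s
  s11 : ∀ s ∈ Ioo 0 (Real.pi / 2), ContDiffAt ℝ 2 D.c11 s
  s12 : ∀ s ∈ Ioo 0 (Real.pi / 2), ContDiffAt ℝ 2 D.c12 s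
  s22 : ∀ s ∈ Ioo 0 (Real.pi / 2), ContDiffAt ℝ 2 D.c22 s
  cw : ContinuousOn D.w (Icc 0 (Real.pi / 2))
  pw : ∀ s ∈ Icc 0 (Real.pi / 2), 0 < D.w s
  pu : ∃ u0 : ℝ, 0 < u0 ∧ ∀ s ∈ Ioo 0 (Real.pi / 2), u0 ≤ D.u1 s ∧ u0 ≤ D.u2 s
  bc : ∃ C : ℝ, ∀ s ∈ Ioo 0 (Real.pi / 2), |D.c11 s| ≤ C ∧ |deriv D.c11 s| ≤ C ∧ |D.c12 s| ≤ C ∧
    |deriv D.c12 s| ≤ C ∧ |D.c22 s| ≤ C ∧ |deriv D.c22 s| ≤ C
  b1 : ∃ C : ℝ, ∀ s ∈ Ioc 0 (Real.pi / 4), |D.u1 s| ≤ C ∧ |deriv D.u1 s| ≤ C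
  b2 : ∃ C : ℝ, ∀ s ∈ Ico (Real.pi / 4) (Real.pi / 2), |D.u2 s| ≤ C ∧ |deriv D.u2 s| ≤ C
  t2 : Tendsto D.u2 (𝓝[>] 0) atTop
  d2 : Tendsto (deriv D.u2) (𝓝[>] 0) atBot
  t1 : Tendsto D.u1 (𝓝[<] (Real.pi / 2)) atTop
  d1 : Tendsto (deriv D.u1) (𝓝[<] (Real.pi / 2)) atTop

/-! ### transport by a diffeomorphism of the sphere -/

section
variable {ι : Type} [Fintype ι]

/-- `G` is a diffeomorphism of the unit sphere with inverse `G'` -/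
structure Dif (G G' : (ι → ℝ) → (ι → ℝ)) : Prop where
  sG : ContDiff ℝ ∞ G
  sG' : ContDiff ℝ ∞ G'
  mG : ∀ x, ip x x = 1 → ip (G x) (G x) = 1
  mG' : ∀ x, ip x x = 1 → ip (G' x) (G' x) = 1
  l : ∀ x, ip x x = 1 → G' (G x) = x
  r : ∀ x, ip x x = 1 → G (G' x) = x

variable [DecidableEq ι]

/-- the cotangent lift of `G` -/
noncomputable def cot (G G' : (ι → ℝ) → (ι → ℝ)) (z : (ι → ℝ) × (ι → ℝ)) : (ι → ℝ) × (ι → ℝ) :=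
  (G z.1, tproj (G z.1) (fun i => ip (fderiv ℝ G' (G z.1) (Pi.single i 1)) z.2))

/-- the canonical symplectic form -/
def sy (u v : (ι → ℝ) × (ι → ℝ)) : ℝ := ip u.1 v.2 - ip u.2 v.1

end

/-! ### gauge transformations -/

section
variable {a b : ℕ}

/-- rotation `e^{iβ}` -/
noncomputable def rt {n : ℕ} (J : (Fin n → ℝ) →ₗ[ℝ] (Fin n → ℝ)) (β : ℝ) (y : Fin n → ℝ) :
    Fin n → ℝ := Real.cos β • y + Real.sin β • J y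

/-- the gauge transformation `(y, z) ↦ (e^{iβ₁(|y|²)} y, e^{iβ₂(|y|²)} z)` -/
noncomputable def ga (J₁ : (Fin a → ℝ) →ₗ[ℝ] (Fin a → ℝ)) (J₂ : (Fin b → ℝ) →ₗ[ℝ] (Fin b → ℝ))
    (β₁ β₂ : ℝ → ℝ) (x : (Fin a ⊕ Fin b) → ℝ) : (Fin a ⊕ Fin b) → ℝ :=
  Sum.elim (rt J₁ (β₁ (ip (yc x) (yc x))) (yc x)) (rt J₂ (β₂ (ip (yc x) (yc x))) (zc x))

end

end Pool.Agent.USQ
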