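import Pool.Agent.USQ.Targets

set_option autoImplicit false

open Set Filter Topology MeasureTheory
open scoped ContDiff

namespace Pool.Agent.USQ

namespace BET_

/-- a smooth positive function equal to `w` for `w ≥ c` -/
noncomputable def ph (c w : ℝ) : ℝ :=
  Real.smoothTransition (2 * w / c - 1) * w + (1 - Real.smoothTransition (2 * w / c - 1))

theorem ph_smooth (c : ℝ) : ContDiff ℝ ∞ (ph c) := by
  unfold ph
  have h : ContDiff ℝ ∞ (fun w : ℝ => Real.smoothTransition (2 * w / c - 1)) :=
    Real.smoothTransition.contDiff.comp (by fun_prop)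
  exact (h.mul contDiff_id).add (contDiff_const.sub h)

theorem ph_eq {c w : ℝ} (hc : 0 < c) (h : c ≤ w) : ph c w = w := by
  unfold ph
  have : 1 ≤ 2 * w / c - 1 := by
    have h2 : 2 ≤ 2 * w / c := by
      rw [le_div_iff₀ hc]
      linarith
    linarith
  rw [Real.smoothTransition.one_of_one_le this]
  ring

theorem ph_pos {c : ℝ} (hc : 0 < c) (w : ℝ) : 0 < ph c w := by
  unfold ph
  rcases le_or_gt w 0 with h | h
  · have : 2 * w / c - 1 ≤ 0 := by
      have h2 : 2 * w / c ≤ 0 := div_nonpos_of_nonpos_of_nonneg (by linarith) hc.le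
      linarith
    rw [Real.smoothTransition.zero_of_nonpos this]
    norm_num
  · have h1 := Real.smoothTransition.nonneg (2 * w / c - 1)
    have h2 := Real.smoothTransition.le_one (2 * w / c - 1)
    set th := Real.smoothTransition (2 * w / c - 1)
    rcases eq_or_lt_of_le h1 with h3 | h3
    · rw [← h3]
      norm_num
    · have := mul_pos h3 h
      linarith

end BET_

open BET_ in
theorem p_BET : T_BET := by
  intro f W hf hW hpos
  obtain ⟨x0, hx0, hmin⟩ := isCompact_Icc.exists_isMinOn (⟨0, by simp⟩ : (Icc (0 : ℝ) 1).Nonempty)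
    hW.continuous.continuousOn
  have hc := hpos x0 hx0
  set c := W x0 with hcdef
  set g : ℝ → ℝ := fun t => f t / (2 * ph c (W t)) with hg
  have hgs : ContDiff ℝ ∞ g := by
    apply hf.div (contDiff_const.mul ((ph_smooth c).comp hW))
    intro t
    have := ph_pos hc (W t)
    positivity
  have hd : ∀ t, HasDerivAt (fun t => ∫ s in (0 : ℝ)..t, g s) (g t) t := fun t =>
    (hgs.continuous.integral_hasStrictDerivAt 0 t).hasDerivAt
  refine ⟨fun t => ∫ s in (0 : ℝ)..t, g s, ?_, ?_⟩
  · rw [contDiff_infty_iff_deriv]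
    refine ⟨fun t => (hd t).differentiableAt, ?_⟩
    have : deriv (fun t => ∫ s in (0 : ℝ)..t, g s) = g := by
      funext t
      exact (hd t).deriv
    rw [this]
    exact hgs
  · intro t ht
    have h1 : c ≤ W t := hmin ht
    have h2 := hd t
    have h3 : g t = f t / (2 * W t) := by
      rw [hg]
      simp only
      rw [ph_eq hc h1]
    rw [← h3]
    exact h2

end Pool.Agent.USQ
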