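import Pool.Agent.USQ.Targets

set_option autoImplicit false

/-!
# USQ, PO2: the potential has walls
-/

open Set Filter Topology MeasureTheory
open scoped ContDiff

namespace Pool.Agent.USQ
open Pool.Agent.MSup
open Pool.Agent.USP (Fr JJ GG Win Pot)

namespace PO2_

/-- the derivative of the potential -/
theorem dV {D : Fn} (hD : Sus2 D) (m : Fin 4 → ℝ) {s : ℝ} (hs : s ∈ Ioo 0 (Real.pi / 2)) :
    HasDerivAt (D.V m) (deriv D.u1 s * m 0 ^ 2 + deriv D.u2 s * m 1 ^ 2 +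
      (deriv D.c11 s * m 2 ^ 2 + 2 * deriv D.c12 s * m 2 * m 3 + deriv D.c22 s * m 3 ^ 2)) s := by
  have h1 := ((hD.su1 s hs).differentiableAt (by norm_num)).hasDerivAt
  have h2 := ((hD.su2 s hs).differentiableAt (by norm_num)).hasDerivAt
  have h3 := ((hD.s11 s hs).differentiableAt (by norm_num)).hasDerivAt
  have h4 := ((hD.s12 s hs).differentiableAt (by norm_num)).hasDerivAt
  have h5 := ((hD.s22 s hs).differentiableAt (by norm_num)).hasDerivAt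
  unfold Fn.V Fn.q
  exact ((h1.mul_const _).add (h2.mul_const _)).add (((h3.mul_const _).add
    (((h4.const_mul 2).mul_const _).mul_const _)).add (h5.mul_const _))

theorem cdV {D : Fn} (hD : Sus2 D) (m : Fin 4 → ℝ) {s : ℝ} (hs : s ∈ Ioo 0 (Real.pi / 2)) :
    ContDiffAt ℝ 2 (D.V m) s := by
  have h1 := hD.su1 s hs
  have h2 := hD.su2 s hs
  have h3 := hD.s11 s hs
  have h4 := hD.s12 s hs
  have h5 := hD.s22 s hs
  unfold Fn.V Fn.q
  exact ((h1.mul contDiffAt_const).add (h2.mul contDiffAt_const)).add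
    (((h3.mul contDiffAt_const).add (((contDiffAt_const.mul h4).mul contDiffAt_const).mul
      contDiffAt_const)).add (h5.mul contDiffAt_const))

theorem qb {C x y z a b : ℝ} (h1 : |x| ≤ C) (h2 : |y| ≤ C) (h3 : |z| ≤ C) :
    |x * a ^ 2 + 2 * y * a * b + z * b ^ 2| ≤ C * (|a| + |b|) ^ 2 := by
  have e1 : |x * a ^ 2| ≤ C * |a| ^ 2 := by
    rw [abs_mul, abs_pow]
    exact mul_le_mul_of_nonneg_right h1 (by positivity)
  have e2 : |2 * y * a * b| ≤ 2 * C * (|a| * |b|) := by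
    rw [abs_mul, abs_mul, abs_mul, abs_two]
    have := mul_le_mul_of_nonneg_right h2 (by positivity : 0 ≤ |a| * |b|)
    linarith
  have e3 : |z * b ^ 2| ≤ C * |b| ^ 2 := by
    rw [abs_mul, abs_pow]
    exact mul_le_mul_of_nonneg_right h3 (by positivity)
  have e4 := abs_add_le (x * a ^ 2 + 2 * y * a * b) (z * b ^ 2)
  have e5 := abs_add_le (x * a ^ 2) (2 * y * a * b)
  have e6 : C * (|a| + |b|) ^ 2 = C * |a| ^ 2 + 2 * C * (|a| * |b|) + C * |b| ^ 2 := by ring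
  rw [e6]
  linarith

end PO2_

open PO2_ in
theorem p_PO2 : T_PO2 := by
  intro D hD m hm0 hm1
  have hpi : 0 < Real.pi / 2 := by
    have := Real.pi_pos
    linarith
  have hpi4 : 0 < Real.pi / 4 := by
    have := Real.pi_pos
    linarith
  have hpi42 : Real.pi / 4 < Real.pi / 2 := by
    have := Real.pi_pos
    linarith
  obtain ⟨C, hC⟩ := hD.bc
  obtain ⟨C1, hC1⟩ := hD.b1
  obtain ⟨C2, hC2⟩ := hD.b2
  obtain ⟨u0, hu0, hu⟩ := hD.pu
  have hl : ∀ᶠ s in 𝓝[>] (0 : ℝ), s ∈ Ioo 0 (Real.pi / 2) := Ioo_mem_nhdsGT hpi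
  have hr : ∀ᶠ s in 𝓝[<] (Real.pi / 2), s ∈ Ioo 0 (Real.pi / 2) := Ioo_mem_nhdsLT hpi
  have hl4 : ∀ᶠ s in 𝓝[>] (0 : ℝ), s ∈ Ioo 0 (Real.pi / 4) := Ioo_mem_nhdsGT hpi4
  have hr4 : ∀ᶠ s in 𝓝[<] (Real.pi / 2), s ∈ Ioo (Real.pi / 4) (Real.pi / 2) :=
    Ioo_mem_nhdsLT hpi42
  obtain ⟨M, hM⟩ : ∃ M : ℝ, M = C * (|m 2| + |m 3|) ^ 2 := ⟨_, rfl⟩
  have hq : ∀ s ∈ Ioo 0 (Real.pi / 2), |D.q m s| ≤ M := by
    intro s hs
    obtain ⟨a1, -, a3, -, a5, -⟩ := hC s hs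
    rw [hM]
    exact qb a1 a3 a5
  have hq' : ∀ s ∈ Ioo 0 (Real.pi / 2), |deriv D.c11 s * m 2 ^ 2 +
      2 * deriv D.c12 s * m 2 * m 3 + deriv D.c22 s * m 3 ^ 2| ≤ M := by
    intro s hs
    obtain ⟨-, a2, -, a4, -, a6⟩ := hC s hs
    rw [hM]
    exact qb a2 a4 a6
  have p0 : 0 < m 0 ^ 2 := by positivity
  have p1 : 0 < m 1 ^ 2 := by positivity
  have hcdo : ContDiffOn ℝ 2 (D.V m) (Ioo 0 (Real.pi / 2)) := fun s hs =>
    (cdV hD m hs).contDiffWithinAt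
  have hd1 : ContDiffOn ℝ 1 (deriv (D.V m)) (Ioo 0 (Real.pi / 2)) :=
    hcdo.deriv_of_isOpen isOpen_Ioo (by norm_num)
  refine ⟨hpi, ?_, ?_, hD.cw, hD.pw, ?_, ⟨u0 * m 0, mul_pos hu0 hm0, ?_⟩, ?_, ?_, ?_, ?_⟩
  · intro s hs
    exact ((cdV hD m hs).differentiableAt (by norm_num)).hasDerivAt
  · intro s hs
    exact (hd1.contDiffAt (isOpen_Ioo.mem_nhds hs)).differentiableAt (by norm_num)
  · intro s hs
    exact ((hD.su1 s hs).continuousAt.mul continuousAt_const).continuousWithinAt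
  · intro s hs
    exact mul_le_mul_of_nonneg_right (hu s hs).1 hm0.le
  · have h1 : Tendsto (fun s => D.u2 s * m 1 ^ 2 + -M) (𝓝[>] (0 : ℝ)) atTop :=
      tendsto_atTop_add_const_right _ _ (hD.t2.atTop_mul_const p1)
    refine tendsto_atTop_mono' _ ?_ h1
    filter_upwards [hl] with s hs
    have a1 := (abs_le.mp (hq s hs)).1
    have a2 : 0 ≤ D.u1 s * m 0 ^ 2 := mul_nonneg (hu0.le.trans (hu s hs).1) p0.le
    unfold Fn.V
    linarith
  · have h1 : Tendsto (fun s => D.u1 s * m 0 ^ 2 + -M) (𝓝[<] (Real.pi / 2)) atTop :=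
      tendsto_atTop_add_const_right _ _ (hD.t1.atTop_mul_const p0)
    refine tendsto_atTop_mono' _ ?_ h1
    filter_upwards [hr] with s hs
    have a1 := (abs_le.mp (hq s hs)).1
    have a2 : 0 ≤ D.u2 s * m 1 ^ 2 := mul_nonneg (hu0.le.trans (hu s hs).2) p1.le
    unfold Fn.V
    linarith
  · filter_upwards [hl, hl4, hD.d2.eventually_lt_atBot (-((C1 * m 0 ^ 2 + M) / m 1 ^ 2))] with
      s hs hs4 h1
    rw [(dV hD m hs).deriv]
    have a1 := (abs_le.mp (hq' s hs)).2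
    have a2 := (abs_le.mp (hC1 s ⟨hs4.1, hs4.2.le⟩).2).2
    have a3 := mul_le_mul_of_nonneg_right a2 p0.le
    have a4 := mul_lt_mul_of_pos_right h1 p1
    have a5 : -((C1 * m 0 ^ 2 + M) / m 1 ^ 2) * m 1 ^ 2 = -(C1 * m 0 ^ 2 + M) := by
      field_simp
    rw [a5] at a4
    linarith
  · filter_upwards [hr, hr4, hD.d1.eventually_gt_atTop ((C2 * m 1 ^ 2 + M) / m 0 ^ 2)] with
      s hs hs4 h1
    rw [(dV hD m hs).deriv]
    have a1 := (abs_le.mp (hq' s hs)).1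
    have a2 := (abs_le.mp (hC2 s ⟨hs4.1.le, hs4.2⟩).2).1
    have a3 := mul_le_mul_of_nonneg_right a2 p1.le
    have a4 := mul_lt_mul_of_pos_right h1 p0
    have a5 : (C2 * m 1 ^ 2 + M) / m 0 ^ 2 * m 0 ^ 2 = C2 * m 1 ^ 2 + M := by
      field_simp
    rw [a5] at a4
    linarith

end Pool.Agent.USQ
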