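import Pool.Agent.USQ.Defs

/-!
# USQ: targets

`T_XXX : Prop` is proved in the file `P_XXX.lean` (`theorem p_XXX : T_XXX`); the hypotheses `T_YYY`
inside a statement are other blocks of this file. Blocks of the landed project USP are PROVED:
import `Pool.Agent.USP.P_ORT` etc. and use `Pool.Agent.USP.p_ORT`. The docstrings contain the complete proofs;
most blocks have a model in `Pool/Agent/USP`.
-/

set_option autoImplicit false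

open Set Filter Topology MeasureTheory
open scoped ContDiff

namespace Pool.Agent.USQ
open Pool.Agent.MSup
open Pool.Agent.USP (Fr JJ GG Win Pot)

/-! ## Group A: torus reduction -/

/-- One branch of the orbit. MODEL: `USP/P_BRA.lean`. Let `σ = D.sg X > 0`, `p = pp ε`, so `w p + h = ε σ`. The function `t ↦ lift F (pt (t, Θ t, p t))` has derivative `fderiv (lift F) z (fderiv pt (..) (1, Θ', p'))` (chain rule,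
`Ok.dX, dA, dB`, `contDiffAt_lift`), and `(1, Θ', p') = (εσ)⁻¹ (w p + h, g + p γ, q)`, `q = -(w' p² + 2 h' p + U')/2`: `g j + p γ j = gt j + εσ γ j / w`, so `Θ' j = ε gt j/σ + γ j/w`; and `p' = q/(εσ)` by differentiating the identity
`w p² + 2 h p + U = X` on the interval. The second vector is `XH H z` by `Redt.eq`, so the derivative is `0` (`fderiv_XH`, `Ok.mem`). Constant on the interval; `lift_eq`. -/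
def T_BRT : Prop := ∀ (ι : Type) [Fintype ι] [DecidableEq ι] (r : ℕ) (T : Tor ι r) (S : ℝ) (H : (ι → ℝ) × (ι → ℝ) → ℝ) (D : Rdt r),
  T.Ok S → Redt T S H D → ∀ F : (ι → ℝ) × (ι → ℝ) → ℝ, PolyInMomenta F → IsIntegral H F → ∀ X ε : ℝ, (ε = 1 ∨ ε = -1) →
  ∀ s1 s2 : ℝ, 0 ≤ s1 → s2 ≤ S → (∀ s ∈ Ioo s1 s2, D.V s < X) → ∀ Θ : ℝ → Fin r → ℝ,
  (∀ s ∈ Ioo s1 s2, ∀ j, HasDerivAt (fun t => Θ t j) (ε * (D.gt j s / D.sg X s) + D.γ s j / D.w s) s) →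
  ∀ s ∈ Ioo s1 s2, ∀ t ∈ Ioo s1 s2, F (T.pt (s, Θ s, D.pp X ε s)) = F (T.pt (t, Θ t, D.pp X ε t))

/-- The orbit after one period. MODEL: `USP/P_PER.lean`. `A j s = ∫_{s1}^s gt j/σ` (continuous on `[s1, s2]` by `USP.T_INT`), `Γ j s = ∫_{s0}^s γ j/w`. `f(s) = F (pt (s, θ + A + Γ, pp 1 s))` and with `θ' = θ + 2 A(s2)`,
`g(s) = F (pt (s, θ' - A + Γ, pp (-1) s))`, `f̃(s) = F (pt (s, θ' + A + Γ, pp 1 s))` are constant on `(s1, s2)` (`T_BRT`) and continuous on `[s1, s2]` (`lift F`). At `s2` the momenta agree and `f(s2) = g(s2)`; at `s1` `g(s1) = f̃(s1)`.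
So `f̃(s0) = f(s0)`, and `θ` is arbitrary. -/
def T_PET : Prop := T_BRT → ∀ (ι : Type) [Fintype ι] [DecidableEq ι] (r : ℕ) (T : Tor ι r) (S : ℝ) (H : (ι → ℝ) × (ι → ℝ) → ℝ) (D : Rdt r),
  T.Ok S → Redt T S H D → ∀ F : (ι → ℝ) × (ι → ℝ) → ℝ, PolyInMomenta F → IsIntegral H F → ∀ X s0 s1 s2 : ℝ, Win 0 S D.V s0 X s1 s2 →
  deriv D.V s1 ≠ 0 → deriv D.V s2 ≠ 0 → ∀ θ : Fin r → ℝ,
  F (T.pt (s0, θ + (fun j => 2 * JJ D.V D.w (D.gt j) X s1 s2), D.pp X 1 s0)) = F (T.pt (s0, θ, D.pp X 1 s0))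

/-- MODEL: `USP/P_POL.lean`. For `τ` near `0` the function `p ↦ F (pt (s, τ v, p))` is a polynomial in `p` of degree at most `d` (`PolyInMomenta`, the covector is `A + p B`). Lagrange interpolation at `d + 1` points, differentiate at `τ = 0`. -/
def T_PLT : Prop := ∀ (ι : Type) [Fintype ι] [DecidableEq ι] (r : ℕ) (T : Tor ι r) (S : ℝ), T.Ok S → ∀ s ∈ Ioo 0 S, ∀ F : (ι → ℝ) × (ι → ℝ) → ℝ, PolyInMomenta F →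
  ∀ v : Fin r → ℝ, ∃ q : Polynomial ℝ, ∀ p : ℝ, fderiv ℝ (lift F) (T.pt (s, 0, p)) (fderiv ℝ T.pt (s, 0, p) (0, v, 0)) = q.eval p

/-- Assembly. MODEL: `USP/P_RTL.lean`. `T_PLT` for `v = Pi.single j 1`, `USP.p_COF` (the derivative on the torus is injective for all `p` outside a finite set `E'`, linear in `v`). `E` = set of the values `w p² + 2 h p + U` (at `s0`) for `p ∈ E'`.
If `X ∉ E` then `p = pp 1 s0 ∉ E'`. `USP.p_RAT` for `f i θ = F i (pt (s0, θ, p))`, `A j = 2 JJ ..` by `T_PET`; the derivative of `f i` at `0` in the direction `v` is `fderiv (lift (F i)) (pt ..) (fderiv pt (..) (0, v, 0))`; periodic by `Ok.per`. -/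
def T_RTT : Prop := T_PET → T_BRT → T_PLT → ∀ (ι : Type) [Fintype ι] [DecidableEq ι] (r : ℕ) (T : Tor ι r) (S : ℝ) (H : (ι → ℝ) × (ι → ℝ) → ℝ) (D : Rdt r),
  T.Ok S → Redt T S H D → ∀ s0 ∈ Ioo 0 S, ∀ (N : ℕ) (F : Fin N → (ι → ℝ) × (ι → ℝ) → ℝ), (∀ i, PolyInMomenta (F i)) → (∀ i, IsIntegral H (F i)) →
  ∀ p0 : ℝ, (∀ v : Fin r → ℝ, v ≠ 0 → ∃ i, fderiv ℝ (lift (F i)) (T.pt (s0, 0, p0)) (fderiv ℝ T.pt (s0, 0, p0) (0, v, 0)) ≠ 0) →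
  ∃ E : Set ℝ, E.Finite ∧ ∀ X ∉ E, ∀ a b : ℝ, Win 0 S D.V s0 X a b → deriv D.V a ≠ 0 → deriv D.V b ≠ 0 →
    ∀ j, ∃ q : ℚ, JJ D.V D.w (D.gt j) X a b = q * Real.pi

/-! ## Group G: geometry -/

/-- Componentwise derivative (MODEL: `USP/P_DER.lean`, lemmas `DER_.d_om` etc.: `∂_a om = om'`, `∂_a om' = -om`, `∂_b om = J om`, `∂_b om' = J om'`). -/
def T_DT2 : Prop := ∀ (a b : ℕ) (R₁ : Fr (Fin a)) (R₂ : Fr (Fin b)) (L₁ L₂ : ℝ), ∀ s ∈ Ioo 0 (Real.pi / 2), ∀ (θ : Fin 4 → ℝ) (p : ℝ),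
  DifferentiableAt ℝ (T2 R₁ R₂ L₁ L₂).pt (s, θ, p) ∧ ∀ (ds : ℝ) (dθ : Fin 4 → ℝ) (dp : ℝ),
    fderiv ℝ (T2 R₁ R₂ L₁ L₂).pt (s, θ, p) (ds, dθ, dp) = d2 R₁ R₂ L₁ L₂ s θ p ds dθ dp

/-- `USP.p_ORT` (`|om| = |om'| = 1`, `om ⊥ om'`), `Fintype.sum_sum_type`; `2π`-periodicity of `om`, `om'` in both angles (`Pi.single j (2π)`, `fin_cases j`). -/
def T_OK2 : Prop := ∀ (a b : ℕ) (R₁ : Fr (Fin a)) (R₂ : Fr (Fin b)) (L₁ L₂ : ℝ), (T2 R₁ R₂ L₁ L₂).Ok (Real.pi / 2)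

/-- Values at `z = pt`. `USP.p_ORT` (`ip (J om) om' = k`, `ip (J om) om = 0`). MODEL: `USP/P_MEM.lean`. -/
def T_VA2 : Prop := ∀ (a b : ℕ) (R₁ : Fr (Fin a)) (R₂ : Fr (Fin b)) (L₁ L₂ s : ℝ) (θ : Fin 4 → ℝ) (p : ℝ), Real.sin s ≠ 0 → Real.cos s ≠ 0 →
  ∀ z : Ph a b, z = (T2 R₁ R₂ L₁ L₂).pt (s, θ, p) → ip (yc z.1) (yc z.1) = Real.cos s ^ 2 ∧ ip (zc z.1) (zc z.1) = Real.sin s ^ 2 ∧
  ip (yc z.1) (yc z.2) = -(p * Real.sin s * Real.cos s) ∧ ip (zc z.1) (zc z.2) = p * Real.sin s * Real.cos s ∧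
  ip (yc z.2) (yc z.2) = p ^ 2 * Real.sin s ^ 2 + L₁ ^ 2 / Real.cos s ^ 2 ∧
  ip (zc z.2) (zc z.2) = p ^ 2 * Real.cos s ^ 2 + L₂ ^ 2 / Real.sin s ^ 2 ∧
  k1 R₁.J z = R₁.k * L₁ ∧ k2 R₂.J z = R₂.k * L₂

/-- MODEL: `USP/P_DUS.lean`. `t = ip y y`, `dt = 2 ip y dy`. The derivative along the line `z + τ v`; smoothness by `fun_prop` (finite sums). -/
def T_DUU : Prop := ∀ (a b : ℕ) (J₁ : (Fin a → ℝ) →ₗ[ℝ] (Fin a → ℝ)) (J₂ : (Fin b → ℝ) →ₗ[ℝ] (Fin b → ℝ)) (c : Co), c.Smooth →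
  ContDiff ℝ ∞ (uuHam J₁ J₂ c : Ph a b → ℝ) ∧ ∀ (z v : Ph a b) (t dt e de κ₁ κ₂ dκ₁ dκ₂ : ℝ), t = ip (yc z.1) (yc z.1) → dt = 2 * ip (yc z.1) (yc v.1) →
  e = ip (yc z.1) (yc z.2) → de = ip (yc v.1) (yc z.2) + ip (yc z.1) (yc v.2) → κ₁ = k1 J₁ z → κ₂ = k2 J₂ z →
  dκ₁ = ip (J₁ (yc v.1)) (yc z.2) + ip (J₁ (yc z.1)) (yc v.2) → dκ₂ = ip (J₂ (zc v.1)) (zc z.2) + ip (J₂ (zc z.1)) (zc v.2) →
  fderiv ℝ (uuHam J₁ J₂ c) z v =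
    dt * (deriv c.P t * ip (yc z.2) (yc z.2) + deriv c.Q t * ip (zc z.2) (zc z.2) + deriv c.R t * e ^ 2 + deriv c.A t * κ₁ ^ 2 +
      2 * deriv c.B t * κ₁ * κ₂ + deriv c.C t * κ₂ ^ 2) / 2 + dt * e * (deriv c.D t * κ₁ + deriv c.E t * κ₂) +
    c.P t * ip (yc z.2) (yc v.2) + c.Q t * ip (zc z.2) (zc v.2) + c.R t * e * de + (c.A t * κ₁ + c.B t * κ₂) * dκ₁ +
    (c.B t * κ₁ + c.C t * κ₂) * dκ₂ + de * (c.D t * κ₁ + c.E t * κ₂) + e * (c.D t * dκ₁ + c.E t * dκ₂)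

/-- MODEL: `USP/P_XUS.lean` (`XH H z = (∂_p lift H, -∂_x lift H)`, `USP.p_LFT` with `v = (0, e_i)` and `(e_i, 0)`, `T_DUU`, then `T_DT2`). The claimed identities were checked numerically to 8 digits; they are identities between combinations of the
vectors `om, om', J om, J om'` of the two factors (components `inl i`, `inr i`) with coefficients rational in `cos s, sin s, p, L₁, L₂, k₁, k₂` and the values and derivatives of the coefficients at `t = cos² s`; `J` is moved to the other side by `skew`.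
`deriv (rd2 ..).w s` etc. by the chain rule, `c.W t = (1 - t) P + t Q + t (1 - t) R`. -/
def T_XUU : Prop := T_VA2 → T_DT2 → T_DUU → ∀ (a b : ℕ) (R₁ : Fr (Fin a)) (R₂ : Fr (Fin b)) (c : Co) (L₁ L₂ : ℝ), c.Smooth →
  (∀ t ∈ Icc (0 : ℝ) 1, 0 < c.W t) → Redt (T2 R₁ R₂ L₁ L₂) (Real.pi / 2) (uuHam R₁.J R₂.J c) (rd2 c L₁ L₂ (R₁.k * L₁) (R₂.k * L₂))

/-- MODEL: `USP/P_INJ.lean`. `rank_contra` (`MSup/Rank.lean`) with the four vectors `(z.1, -z.2)`, `(0, z.1)`, `XH H z`, `fderiv pt (..) (0, v, 0)`, `z = pt (s, 0, p)`, killed by all differentials; `2 (a + b) < 2 (a + b - 1) - 1 + 4`.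
Independence: `om 0 0 = w`, `om' 0 0 = v`. In a relation `c1 (x, -p) + c2 (0, x) + d2 (ds, dθ, dp) = 0` the first components are `(c1 cos s - sin s ds) w₁ + cos s (dθ0 v₁ + dθ1 J₁ w₁) = 0`, `(c1 sin s + cos s ds) w₂ + sin s (dθ2 v₂ + dθ3 J₂ w₂) = 0`;
`w, v, J w` are independent for `|k| < 1`; so `dθ = 0`, `c1 = ds = 0` (so the coefficient of `XH` is `0` because its `ds = w p + h ≠ 0`, and then the coefficient of the fourth vector is `0` because `v ≠ 0`), then `c2 = 0`. -/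
def T_IN2 : Prop := T_VA2 → T_DT2 → T_OK2 → ∀ (a b : ℕ) (R₁ : Fr (Fin a)) (R₂ : Fr (Fin b)) (L₁ L₂ : ℝ) (H : Ph a b → ℝ) (D : Rdt 4),
  Redt (T2 R₁ R₂ L₁ L₂) (Real.pi / 2) H D → |R₁.k| < 1 → |R₂.k| < 1 → ∀ s ∈ Ioo 0 (Real.pi / 2), ∀ p : ℝ, D.w s * p + D.h s ≠ 0 →
  ∀ F : Fin (2 * (Fintype.card (Fin a ⊕ Fin b) - 1) - 1) → Ph a b → ℝ, (∀ i, PolyInMomenta (F i)) → (∀ i, IsIntegral H (F i)) →
  LinearIndependent ℝ (fun i => fderiv ℝ (lift (F i)) ((T2 R₁ R₂ L₁ L₂).pt (s, 0, p))) →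
  ∀ v : Fin 4 → ℝ, v ≠ 0 → ∃ i, fderiv ℝ (lift (F i)) ((T2 R₁ R₂ L₁ L₂).pt (s, 0, p)) (fderiv ℝ (T2 R₁ R₂ L₁ L₂).pt (s, 0, p) (0, v, 0)) ≠ 0

/-- MODEL: `USP/P_FRM.lean`. `x = (y, z)`, `|y| = cos s`, `|z| = sin s`, `w₁ = y/|y|`, `η = λ w₁ + η'`, `η' ⊥ y`, `L₁ = |y| |η'| > 0`, `v₁ = η'/|η'|`, the same for the second factor; `p := -(y·η)/(sin s cos s)`, `y·η + z·ζ = 0`. -/
def T_FR2 : Prop := ∀ (a b : ℕ) (J₁ : (Fin a → ℝ) →ₗ[ℝ] (Fin a → ℝ)) (J₂ : (Fin b → ℝ) →ₗ[ℝ] (Fin b → ℝ)), (∀ x y, ip (J₁ x) y = -ip x (J₁ y)) → (∀ x, J₁ (J₁ x) = -x) →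
  (∀ x y, ip (J₂ x) y = -ip x (J₂ y)) → (∀ x, J₂ (J₂ x) = -x) → ∀ z ∈ TS (Fin a ⊕ Fin b),
  0 < ip (yc z.1) (yc z.1) * ip (yc z.2) (yc z.2) - ip (yc z.1) (yc z.2) ^ 2 → 0 < ip (zc z.1) (zc z.1) * ip (zc z.2) (zc z.2) - ip (zc z.1) (zc z.2) ^ 2 →
  ∃ (R₁ : Fr (Fin a)) (R₂ : Fr (Fin b)), R₁.J = J₁ ∧ R₂.J = J₂ ∧ ∃ s ∈ Ioo 0 (Real.pi / 2), ∃ p L₁ L₂ : ℝ, 0 < L₁ ∧ 0 < L₂ ∧
    z = (T2 R₁ R₂ L₁ L₂).pt (s, 0, p) ∧ Real.cos s ^ 2 = ip (yc z.1) (yc z.1) ∧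
    L₁ ^ 2 = ip (yc z.1) (yc z.1) * ip (yc z.2) (yc z.2) - ip (yc z.1) (yc z.2) ^ 2 ∧
    L₂ ^ 2 = ip (zc z.1) (zc z.1) * ip (zc z.2) (zc z.2) - ip (zc z.1) (zc z.2) ^ 2 ∧
    R₁.k * L₁ = k1 J₁ z ∧ R₂.k * L₂ = k2 J₂ z ∧ p * (Real.sin s * Real.cos s) = -ip (yc z.1) (yc z.2)

/-- Density. MODEL: `USP/P_DEN.lean`. `U, F` from `MaxSuperintegrable`. Take frames `R₁*, R₂*` with `k_i = m1_(i+1)/m1_(i-1)` (`USP.p_FEX`, `3 ≤ a, b`) and `z* = (T2 R₁* R₂* (m1 0) (m1 1)).pt (s1, 0, p*)` with `p*` such that `w p* + h ≠ 0`. The functions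
`ip y y`, `ip y η`, `κ₁`, `κ₂`, the two Gram determinants are continuous, so for `z ∈ U ∩ TS` near `z*` (`TS ⊆ closure (U ∩ TS)`) the data of `T_FR2` are near (`s = arccos √(ip y y)`, `L_i = √(Gram)`, `K_i = κ_i`, `p = -(y·η)/(sin s cos s)`); so
`|k_i| < 1` and `w p + h ≠ 0` (`(rd2 c L₁ L₂ K₁ K₂).w s, .h s` are continuous in `s, K₁, K₂`). -/
def T_DE2 : Prop := T_FR2 → T_VA2 → T_OK2 → ∀ (a b : ℕ) (J₁ : (Fin a → ℝ) →ₗ[ℝ] (Fin a → ℝ)) (J₂ : (Fin b → ℝ) →ₗ[ℝ] (Fin b → ℝ)), (∀ x y, ip (J₁ x) y = -ip x (J₁ y)) →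
  (∀ x, J₁ (J₁ x) = -x) → (∀ x y, ip (J₂ x) y = -ip x (J₂ y)) → (∀ x, J₂ (J₂ x) = -x) → 3 ≤ a → 3 ≤ b → ∀ c : Co, c.Smooth → (∀ t ∈ Icc (0 : ℝ) 1, 0 < c.W t) →
  ∀ H : Ph a b → ℝ, MaxSuperintegrable H → ∃ F : Fin (2 * (Fintype.card (Fin a ⊕ Fin b) - 1) - 1) → Ph a b → ℝ, (∀ i, PolyInMomenta (F i)) ∧ (∀ i, IsIntegral H (F i)) ∧
  ∀ s1 ∈ Ioo 0 (Real.pi / 2), ∀ m1 : Fin 4 → ℝ, 0 < m1 0 → 0 < m1 1 → |m1 2| < m1 0 → |m1 3| < m1 1 → ∀ ε : ℝ, 0 < ε →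
  ∃ (R₁ : Fr (Fin a)) (R₂ : Fr (Fin b)), R₁.J = J₁ ∧ R₂.J = J₂ ∧ ∃ s0 ∈ Ioo 0 (Real.pi / 2), ∃ p0 L₁ L₂ : ℝ, 0 < L₁ ∧ 0 < L₂ ∧ |s0 - s1| < ε ∧
    |L₁ - m1 0| < ε ∧ |L₂ - m1 1| < ε ∧ |R₁.k * L₁ - m1 2| < ε ∧ |R₂.k * L₂ - m1 3| < ε ∧ |R₁.k| < 1 ∧ |R₂.k| < 1 ∧
    (rd2 c L₁ L₂ (R₁.k * L₁) (R₂.k * L₂)).w s0 * p0 + (rd2 c L₁ L₂ (R₁.k * L₁) (R₂.k * L₂)).h s0 ≠ 0 ∧
    LinearIndependent ℝ (fun i => fderiv ℝ (lift (F i)) ((T2 R₁ R₂ L₁ L₂).pt (s0, 0, p0)))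

/-- Positivity. MODEL: `USP/P_PSD.lean`. `x = (√t w, √(1-t) w')`. `P t > 0`: the covector `(e, 0)`, `e` a unit vector orthogonal to `w, J₁ w`: `y·η = 0`, `κ = 0`, `2H = P t`. Same for `Q`. `W t > 0`: the covector `(-√(1-t) w, √t w')` has `κ₁ = κ₂ = 0`, `2H = W t`. -/
def T_PS2 : Prop := ∀ (a b : ℕ) (J₁ : (Fin a → ℝ) →ₗ[ℝ] (Fin a → ℝ)) (J₂ : (Fin b → ℝ) →ₗ[ℝ] (Fin b → ℝ)), (∀ x y, ip (J₁ x) y = -ip x (J₁ y)) → (∀ x, J₁ (J₁ x) = -x) →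
  (∀ x y, ip (J₂ x) y = -ip x (J₂ y)) → (∀ x, J₂ (J₂ x) = -x) → 3 ≤ a → 3 ≤ b → ∀ c : Co, (∀ z ∈ TS (Fin a ⊕ Fin b), z.2 ≠ 0 → 0 < uuHam J₁ J₂ c z) →
  ∀ t ∈ Icc (0 : ℝ) 1, 0 < c.P t ∧ 0 < c.Q t ∧ 0 < c.W t

/-! ## Group F: one degree of freedom -/

/-- MODEL: `USP/P_POT.lean`. Near `0` the term `u2 m1²` dominates, near `π/2` the term `u1 m0²`, the other terms and their derivatives are bounded there (`b1, b2, bc`). -/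
def T_PO2 : Prop := ∀ D : Fn, Sus2 D → ∀ m : Fin 4 → ℝ, 0 < m 0 → 0 < m 1 →
  Pot 0 (Real.pi / 2) (D.V m) (deriv (D.V m)) D.w (fun s => D.u1 s * m 0)

/-- MODEL: `USP/P_SUS.lean`. `c.W (cos² s)`, the `c_ij` are smooth near `[0, π/2]` (`W > 0` on `[0,1]` and `cos² s ∈ [0,1]` for all `s`, so they are smooth on the line), so bounded with bounded derivative; `u1 = P(cos²)/cos²`, `u2 = Q(cos²)/sin²`. -/
def T_SU2 : Prop := ∀ c : Co, c.Smooth → (∀ t ∈ Icc (0 : ℝ) 1, 0 < c.P t ∧ 0 < c.Q t ∧ 0 < c.W t) → Sus2 (fn2 c)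

/-- MODEL: `USP/P_ONE.lean`. With `m = (L₁, L₂, k₁L₁, k₂L₂)`: `(rd2 ..).V = (fn2 c).V m`, `(rd2 ..).gt = (u1 L₁, c11 K₁ + c12 K₂, u2 L₂, c12 K₁ + c22 K₂)` (as functions of `s`). `T_RTT` (with `T_IN2`) gives rational drifts, `USP.p_COR` with `u = u1 L₁`,
`g = gt 1` and `g = gt 3` (bounded by `Sus2.bc`) gives that `GG .. (gt j) X` is constant for `X ≥ V s0`; `q m = K₁ gt 1 + K₂ gt 3` and `GG` is linear in `g` (integrability: bounded continuous on the interval). -/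
def T_ON2 : Prop := T_RTT → T_PET → T_BRT → T_PLT → T_IN2 → T_VA2 → T_DT2 → T_OK2 → T_PO2 → ∀ (a b : ℕ) (R₁ : Fr (Fin a)) (R₂ : Fr (Fin b)) (H : Ph a b → ℝ) (c : Co) (L₁ L₂ : ℝ), 0 < L₁ → 0 < L₂ →
  Redt (T2 R₁ R₂ L₁ L₂) (Real.pi / 2) H (rd2 c L₁ L₂ (R₁.k * L₁) (R₂.k * L₂)) → Sus2 (fn2 c) → |R₁.k| < 1 → |R₂.k| < 1 → ∀ s0 ∈ Ioo 0 (Real.pi / 2), ∀ p0 : ℝ,
  (rd2 c L₁ L₂ (R₁.k * L₁) (R₂.k * L₂)).w s0 * p0 + (rd2 c L₁ L₂ (R₁.k * L₁) (R₂.k * L₂)).h s0 ≠ 0 →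
  ∀ F : Fin (2 * (Fintype.card (Fin a ⊕ Fin b) - 1) - 1) → Ph a b → ℝ, (∀ i, PolyInMomenta (F i)) → (∀ i, IsIntegral H (F i)) →
  LinearIndependent ℝ (fun i => fderiv ℝ (lift (F i)) ((T2 R₁ R₂ L₁ L₂).pt (s0, 0, p0))) → ∀ m : Fin 4 → ℝ, m = ![L₁, L₂, R₁.k * L₁, R₂.k * L₂] →
  ∀ X : ℝ, (fn2 c).V m s0 ≤ X → GG 0 (Real.pi / 2) ((fn2 c).V m) (fn2 c).w ((fn2 c).q m) X =
    GG 0 (Real.pi / 2) ((fn2 c).V m) (fn2 c).w ((fn2 c).q m) ((fn2 c).V m s0)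

/-- MODEL: `USP/P_PHC.lean`. Dominated convergence: `V m ≥ -C |K|²`, so locally the integrand is bounded by a constant over `√w0`; for fixed `s ∈ (0, π/2)` it is continuous in `(X, m)`. -/
def T_PH2 : Prop := ∀ D : Fn, Sus2 D → Continuous fun v : ℝ × (Fin 4 → ℝ) => GG 0 (Real.pi / 2) (D.V v.2) D.w (D.q v.2) v.1

/-- MODEL: `USP/P_LIM.lean`. `V m` has a minimum `M` on `(0, π/2)`, at `s*` (`T_PO2`: walls). If `X ≤ M` the integrand vanishes. Let `X > M`, take good points `(s j, m j) → (s*, m)`, `X j = V (m j) (s j) → M`, so `X ≥ X j` for large `j`, and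
`GG (m) X = lim GG (m j) X = lim GG (m j) (X j) = GG (m) M = 0` by `T_PH2`. -/
def T_LI2 : Prop := T_PH2 → T_PO2 → ∀ D : Fn, Sus2 D →
  (∀ s1 ∈ Ioo 0 (Real.pi / 2), ∀ m1 : Fin 4 → ℝ, 0 < m1 0 → 0 < m1 1 → |m1 2| < m1 0 → |m1 3| < m1 1 → ∀ ε : ℝ, 0 < ε →
    ∃ (s0 : ℝ) (m0 : Fin 4 → ℝ), s0 ∈ Ioo 0 (Real.pi / 2) ∧ |s0 - s1| < ε ∧ (∀ j, |m0 j - m1 j| < ε) ∧
    ∀ X : ℝ, D.V m0 s0 ≤ X → GG 0 (Real.pi / 2) (D.V m0) D.w (D.q m0) X = GG 0 (Real.pi / 2) (D.V m0) D.w (D.q m0) (D.V m0 s0)) →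
  ∀ m : Fin 4 → ℝ, 0 < m 0 → 0 < m 1 → |m 2| < m 0 → |m 3| < m 1 → ∀ X : ℝ, GG 0 (Real.pi / 2) (D.V m) D.w (D.q m) X = 0

/-- MODEL: `USP/P_CON.lean`. Fix `K₁, K₂` with `|K_i| < 1` and `m_λ = (1, 1, √λ K₁, √λ K₂)`: `q m_λ = λ q`, `V m_λ = U + λ q`, `U = u1 + u2`, so `∫ q √((X - U - λ q)⁺)/√w = 0` for `λ = 1` and `λ = 1/4`. The difference
`q (√((X - U - q/4)⁺) - √((X - U - q)⁺))/√w ≥ 0`; if `q s1 ≠ 0` take `X = U s1 + 1 + |q s1|`: it is positive at `s1`, continuous, so the integral is positive. So `q = 0`; use `(K₁, K₂) = (1/2, 0), (0, 1/2), (1/2, 1/2)`. -/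
def T_CO2 : Prop := ∀ D : Fn, Sus2 D → (∀ m : Fin 4 → ℝ, 0 < m 0 → 0 < m 1 → |m 2| < m 0 → |m 3| < m 1 → ∀ X : ℝ, GG 0 (Real.pi / 2) (D.V m) D.w (D.q m) X = 0) →
  ∀ s ∈ Ioo 0 (Real.pi / 2), D.c11 s = 0 ∧ D.c12 s = 0 ∧ D.c22 s = 0

/-! ## Group T: transport by a diffeomorphism -/

/-- Differentiate `ip (G c) (G c) = 1` and `G' (G c) = c` along the curve `c t = (x + t ξ)/|x + t ξ|` of the sphere (`c' 0 = ξ`), at `t = 0`. -/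
def T_TAN : Prop := ∀ (ι : Type) [Fintype ι] [DecidableEq ι] (G G' : (ι → ℝ) → (ι → ℝ)), Dif G G' → ∀ x ξ : ι → ℝ, ip x x = 1 → ip x ξ = 0 →
  ip (G x) (fderiv ℝ G x ξ) = 0 ∧ fderiv ℝ G' (G x) (fderiv ℝ G x ξ) = ξ

/-- `T_TAN`. `q = (cot G G' z).2`: `ip q (fderiv G x ξ) = ip p ξ` for `ξ ⊥ x` (`ip v ξ' = ip p (fderiv G' (G x) ξ')` for `v i = ip (fderiv G' (G x) (e_i)) p`, linearity). So `tproj x (i ↦ ip (fderiv G x (e_i)) q)` and `p` are orthogonal to `x` and have the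
same products with all `ξ ⊥ x` (`Dif G' G` is clear by symmetry). -/
def T_CTS : Prop := T_TAN → ∀ (ι : Type) [Fintype ι] [DecidableEq ι] (G G' : (ι → ℝ) → (ι → ℝ)), Dif G G' → Dif G' G ∧
  (∀ z ∈ TS ι, cot G G' z ∈ TS ι) ∧ ∀ z ∈ TS ι, cot G' G (cot G G' z) = z

/-- On `TS` `(cot G G' (x, p)).2 = M(x) p` with `M i l = (fderiv G' (G x) e_i) l - (∑ k, (G x) k (fderiv G' (G x) e_k) l) (G x) i`, smooth on the whole space (`ip (G x) (G x) = 1` on the sphere). Expand the products (`Finset.prod_univ_sum`,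
`Fintype.piFinset_univ`): the new coefficients are `K' k l x = ∑ i, K k i (G x) ∏ j, M (i j) (l j) x`. -/
def T_PCO : Prop := ∀ (ι : Type) [Fintype ι] [DecidableEq ι] (G G' : (ι → ℝ) → (ι → ℝ)), Dif G G' → ∀ F : (ι → ℝ) × (ι → ℝ) → ℝ, PolyInMomenta F →
  PolyInMomenta (fun z => F (cot G G' z))

/-- Cotangent lifts are symplectic. Let `q z = (Ψ z).2`. For `z` near `(x0, p0)` and all `ξ`: `ip (q z) (fderiv g z.1 ξ) = ip z.2 ξ` (`fderiv g' (g x) (fderiv g x ξ) = ξ` near `x0`, chain rule). Differentiate at `z0` in the direction `u`: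
`ip (Dq u) (Dg ξ) + ip q (D²g(u.1, ξ)) = ip u.2 ξ`. So `sy (DΨ u) (DΨ v) = ip (Dg u.1) (Dq v) - ip (Dq u) (Dg v.1) = (ip v.2 u.1 - ip q D²g(v.1, u.1)) - (ip u.2 v.1 - ip q D²g(u.1, v.1)) = sy u v` (the second derivative is symmetric). -/
def T_SYP : Prop := ∀ (ι : Type) [Fintype ι] [DecidableEq ι] (g g' : (ι → ℝ) → (ι → ℝ)) (x0 p0 : ι → ℝ), ContDiffAt ℝ ∞ g x0 → ContDiffAt ℝ ∞ g' (g x0) →
  (∀ᶠ x in 𝓝 x0, g' (g x) = x) → ∀ Ψ : (ι → ℝ) × (ι → ℝ) → (ι → ℝ) × (ι → ℝ), (∀ z, Ψ z = (g z.1, fun i => ip (fderiv ℝ g' (g z.1) (Pi.single i 1)) z.2)) →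
  DifferentiableAt ℝ Ψ (x0, p0) ∧ ∀ u v, sy (fderiv ℝ Ψ (x0, p0) u) (fderiv ℝ Ψ (x0, p0) v) = sy u v

/-- `g x = |x| G (x/|x|)`, `g' x = |x| G' (x/|x|)` (`|x| = √(ip x x)`), smooth off `0`, homogeneous of degree one, `g' (g x) = x`. `Ψ` as in `T_SYP`. `toTS (Ψ z) = cot G G' (toTS z)` if `ip z.1 z.1 > 0`: put `X = x/|x|`; both second components are orthogonal to
`G X`; for `ξ ⊥ G X`: `fderiv g' (g x) ξ = fderiv g' (G X) ξ` (homogeneity) `= fderiv G' (G X) ξ` (derivative along a curve of the sphere), which is orthogonal to `X` (`T_TAN` for `Dif G' G`), so both products with `ξ` are `|x| ip p (fderiv G' (G X) ξ)`.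
At `z ∈ TS`, `Ψ z = cot G G' z`: `ip (Ψ z).2 (G x) = ip p (fderiv g' (G x) (G x)) = ip p (g' (G x)) = ip p x = 0` (Euler). -/
def T_HOM : Prop := T_SYP → T_TAN → ∀ (ι : Type) [Fintype ι] [DecidableEq ι] (G G' : (ι → ℝ) → (ι → ℝ)), Dif G G' →
  ∃ Ψ : (ι → ℝ) × (ι → ℝ) → (ι → ℝ) × (ι → ℝ), ∀ z ∈ TS ι, Ψ z = cot G G' z ∧ DifferentiableAt ℝ Ψ z ∧
    (∀ u v, sy (fderiv ℝ Ψ z u) (fderiv ℝ Ψ z v) = sy u v) ∧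
    ∀ F : (ι → ℝ) × (ι → ℝ) → ℝ, lift (fun z => F (cot G G' z)) =ᶠ[𝓝 z] fun z => lift F (Ψ z)

/-- Linear algebra. `M` is injective (nondegeneracy of `sy`) so bijective. For a functional `f` let `X f = (-f (0, e_i), f (e_i, 0))`: `f u = sy u (X f)` and the sum for `f, g` is `g (X f)`. From `sy (M u) (M (X (f ∘ M))) = sy u (X (f ∘ M)) = f (M u) = sy (M u) (X f)`:
`M (X (f ∘ M)) = X f`, so `(g ∘ M) (X (f ∘ M)) = g (X f)`. -/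
def T_BRK : Prop := ∀ (ι : Type) [Fintype ι] [DecidableEq ι] (M : (ι → ℝ) × (ι → ℝ) →L[ℝ] (ι → ℝ) × (ι → ℝ)), (∀ u v, sy (M u) (M v) = sy u v) →
  Function.Bijective M ∧ ∀ f g : (ι → ℝ) × (ι → ℝ) →L[ℝ] ℝ,
    ∑ i, (f (M (Pi.single i 1, 0)) * g (M (0, Pi.single i 1)) - f (M (0, Pi.single i 1)) * g (M (Pi.single i 1, 0))) =
    ∑ i, (f (Pi.single i 1, 0) * g (0, Pi.single i 1) - f (0, Pi.single i 1) * g (Pi.single i 1, 0))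

/-- `F' i = F i ∘ cot G G'`: polynomial by `T_PCO`; integrals by `T_HOM` (chain rule: `fderiv (lift (F ∘ cot)) z = fderiv (lift F) (cot z) ∘ DΨ`), `T_BRK`, `contDiffAt_lift`; independent at `z` if the `F i` are at `cot z` (`DΨ` is surjective).
The open set is `{z | 0 < ip (G z.1) (G z.1) ∧ cot G G' z ∈ U}` (`cot` is continuous on the open set where `ip (G z.1) (G z.1) > 0`); density by `T_CTS` (`cot G' G` is the inverse on `TS` and continuous there). -/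
def T_TRN : Prop := T_HOM → T_SYP → T_TAN → T_BRK → T_PCO → T_CTS → ∀ (ι : Type) [Fintype ι] [DecidableEq ι] (G G' : (ι → ℝ) → (ι → ℝ)), Dif G G' → ∀ H : (ι → ℝ) × (ι → ℝ) → ℝ,
  (∀ z ∈ TS ι, DifferentiableAt ℝ (lift H) z) → MaxSuperintegrable H → MaxSuperintegrable (fun z => H (cot G G' z))

/-! ## Gauge transformations -/

/-- MODEL: `USP/P_ODE.lean`. With a `ContDiffBump` `χ` replace `t` by a smooth function `θ` of `t`, equal to `t` on `[0,1]` and with values in a neighbourhood of `[0,1]` where `W > 0`; `β = ∫_0^t f(θ)/(2 W(θ))`. -/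
def T_BET : Prop := ∀ f W : ℝ → ℝ, ContDiff ℝ ∞ f → ContDiff ℝ ∞ W → (∀ t ∈ Icc (0 : ℝ) 1, 0 < W t) →
  ∃ β : ℝ → ℝ, ContDiff ℝ ∞ β ∧ ∀ t ∈ Icc (0 : ℝ) 1, HasDerivAt β (f t / (2 * W t)) t

/-- `rt J β` is linear, preserves `ip`, commutes with `J`, `rt J (-β) (rt J β y) = y`; `ip (yc (ga x)) (yc (ga x)) = ip (yc x) (yc x)`. -/
def T_GTR : Prop := ∀ (a b : ℕ) (J₁ : (Fin a → ℝ) →ₗ[ℝ] (Fin a → ℝ)) (J₂ : (Fin b → ℝ) →ₗ[ℝ] (Fin b → ℝ)), (∀ x y, ip (J₁ x) y = -ip x (J₁ y)) → (∀ x, J₁ (J₁ x) = -x) →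
  (∀ x y, ip (J₂ x) y = -ip x (J₂ y)) → (∀ x, J₂ (J₂ x) = -x) → ∀ β₁ β₂ : ℝ → ℝ, ContDiff ℝ ∞ β₁ → ContDiff ℝ ∞ β₂ →
  Dif (ga J₁ J₂ β₁ β₂) (ga J₁ J₂ (fun t => -β₁ t) (fun t => -β₂ t))

/-- The explicit cotangent lift (checked numerically). Let `q` be the second component on the right. `ip (ga x) q = 0` and `ip q (fderiv (ga ..) x ξ) = ip p ξ` for `ξ ⊥ x`: with `D(ga)ξ = (rt₁ ξ_y + 2 (y·ξ_y) β₁' J₁ rt₁ y, rt₂ ξ_z + 2 (y·ξ_y) β₂' J₂ rt₂ z)`,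
`κ(q) = κ`. By `T_TAN` (`Dif` from `T_GTR`) the vectors `fderiv (ga ..) x ξ`, `ξ ⊥ x`, are all vectors orthogonal to `ga x` (`T_TAN` for the inverse), and `(cot ..).2` has the same products with them. -/
def T_GEX : Prop := T_GTR → T_TAN → T_CTS → ∀ (a b : ℕ) (J₁ : (Fin a → ℝ) →ₗ[ℝ] (Fin a → ℝ)) (J₂ : (Fin b → ℝ) →ₗ[ℝ] (Fin b → ℝ)), (∀ x y, ip (J₁ x) y = -ip x (J₁ y)) → (∀ x, J₁ (J₁ x) = -x) →
  (∀ x y, ip (J₂ x) y = -ip x (J₂ y)) → (∀ x, J₂ (J₂ x) = -x) → ∀ β₁ β₂ : ℝ → ℝ, ContDiff ℝ ∞ β₁ → ContDiff ℝ ∞ β₂ → ∀ z ∈ TS (Fin a ⊕ Fin b), ∀ t m : ℝ, t = ip (yc z.1) (yc z.1) →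
  m = deriv β₁ t * k1 J₁ z + deriv β₂ t * k2 J₂ z →
  cot (ga J₁ J₂ β₁ β₂) (ga J₁ J₂ (fun t => -β₁ t) (fun t => -β₂ t)) z =
    (ga J₁ J₂ β₁ β₂ z.1, Sum.elim (rt J₁ (β₁ t) (yc z.2 - (2 * m * (1 - t)) • yc z.1)) (rt J₂ (β₂ t) (zc z.2 + (2 * m * t) • zc z.1)))

/-- `T_GEX`: with `e = y·η`, `Δ = D κ₁ + E κ₂`, `m = Δ/(2W)`: `κ` is unchanged, `|η'|² = |η|² - 4m(1-t)e + 4m²(1-t)²t`, `y·η' = e - 2mt(1-t)`, `|ζ'|² = |ζ|² - 4mte + 4m²t²(1-t)` (`z·ζ = -e`, `|z|² = 1 - t`), so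
`2H = P|η|² + Q|ζ|² + Re² - 4meW + 4m²t(1-t)W + 2eΔ - 4mt(1-t)Δ + (Aκ₁² + 2Bκ₁κ₂ + Cκ₂²)`, and the last bracket times `W` is `t(1-t)Δ²`. `t = |y|² ∈ [0,1]`. -/
def T_GHA : Prop := T_GEX → T_GTR → T_TAN → T_CTS → ∀ (a b : ℕ) (J₁ : (Fin a → ℝ) →ₗ[ℝ] (Fin a → ℝ)) (J₂ : (Fin b → ℝ) →ₗ[ℝ] (Fin b → ℝ)), (∀ x y, ip (J₁ x) y = -ip x (J₁ y)) → (∀ x, J₁ (J₁ x) = -x) →
  (∀ x y, ip (J₂ x) y = -ip x (J₂ y)) → (∀ x, J₂ (J₂ x) = -x) → ∀ c : Co, (∀ t ∈ Icc (0 : ℝ) 1, 0 < c.W t) →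
  (∀ t ∈ Icc (0 : ℝ) 1, c.A t * c.W t = t * (1 - t) * c.D t ^ 2 ∧ c.B t * c.W t = t * (1 - t) * (c.D t * c.E t) ∧ c.C t * c.W t = t * (1 - t) * c.E t ^ 2) →
  ∀ β₁ β₂ : ℝ → ℝ, ContDiff ℝ ∞ β₁ → ContDiff ℝ ∞ β₂ → (∀ t ∈ Icc (0 : ℝ) 1, HasDerivAt β₁ (c.D t / (2 * c.W t)) t) → (∀ t ∈ Icc (0 : ℝ) 1, HasDerivAt β₂ (c.E t / (2 * c.W t)) t) →
  ∀ z ∈ TS (Fin a ⊕ Fin b), uuHam J₁ J₂ c (cot (ga J₁ J₂ β₁ β₂) (ga J₁ J₂ (fun t => -β₁ t) (fun t => -β₂ t)) z) = blockHam c.P c.Q c.R z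

end Pool.Agent.USQ
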