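import Pool.Agent.USQ.Targets
import Pool.Agent.MSup.Iso

/-!
# USQ: targets, part 2 (round spheres)
-/

set_option autoImplicit false

open Set Filter Topology MeasureTheory
open scoped ContDiff

namespace Pool.Agent.USQ
open Pool.Agent.MSup

/-- `C, Φ` for `H ∘ cot`; take `Φ ∘ G'`. Let `|x| = 1`, `c l = ip (fderiv Φ (G' x) (e_l)) π`. `ip (fderiv (Φ ∘ G') x (e_i)) π = ip (fderiv G' x (e_i)) c` (chain rule, linearity). `cot G G' (G' x, tproj (G' x) c) = (x, tproj x (i ↦ ip (fderiv G' x e_i) (tproj (G' x) c)))`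
(`G (G' x) = x`), and `tproj x` of `i ↦ ip (fderiv G' x e_i) (G' x)` is `0`, because for `ξ ⊥ x` `ip (fderiv G' x ξ) (G' x) = 0` (`T_TAN` for `Dif G' G`), so that vector is a multiple of `x`. `BijOn` by composition. -/
def T_RND : Prop := T_TAN → T_CTS → ∀ (ι : Type) [Fintype ι] [DecidableEq ι] (G G' : (ι → ℝ) → (ι → ℝ)), Dif G G' → ∀ H : (ι → ℝ) × (ι → ℝ) → ℝ,
  IsRoundSphere (fun z => H (cot G G' z)) → IsRoundSphere H

/-- All notions depend only on the restriction to `TS`: `lift H₁ = lift H₂` on the open set `0 < ip z.1 z.1` (`toTS_mem`), so the derivatives at points of `TS` agree; `(x, tproj x q) ∈ TS` for `|x| = 1`. -/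
def T_EQT : Prop := ∀ (ι : Type) [Fintype ι] [DecidableEq ι] (H₁ H₂ : (ι → ℝ) × (ι → ℝ) → ℝ), (∀ z ∈ TS ι, H₁ z = H₂ z) →
  (MaxSuperintegrable H₁ → MaxSuperintegrable H₂) ∧ (IsRoundSphere H₁ → IsRoundSphere H₂)

end Pool.Agent.USQ
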